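import Pool.Agent.H49R2.PY.Stubs

/-!
# Task Y1: polynomial time of `groups`, `vts`, `adjM`
-/

set_option autoImplicit false

namespace Pool.Agent.H49R2.PY

open Pool.Agent.NPC Pool.Agent.NPC.Cnt Finset

namespace Y1aux

variable {α β : Type} [TEnc α] [TEnc β]

/-- removal of duplicates by a right fold -/
def dd [DecidableEq β] (l : List β) : List β :=
  l.foldr (fun b s => bif decide (b ∈ s) then s else b :: s) []

omit [TEnc β] in
theorem dd_eq [DecidableEq β] (l : List β) : dd l = l.dedup := by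
  induction l with
  | nil => rfl
  | cons b l ih =>
    have h : dd (b :: l) = bif decide (b ∈ dd l) then dd l else b :: dd l := rfl
    rw [h, ih]
    by_cases hb : b ∈ l.dedup
    · rw [List.dedup_cons_of_mem' hb]
      simp [hb]
    · rw [List.dedup_cons_of_notMem' hb]
      simp [hb]

theorem sz_dd_le [DecidableEq β] (l : List β) : sz (dd l) ≤ sz l := by
  induction l with
  | nil => exact le_rfl
  | cons b l ih =>
    have h : dd (b :: l) = bif decide (b ∈ dd l) then dd l else b :: dd l := rfl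
    rw [h]
    by_cases hb : b ∈ dd l
    · simp [hb]
      omega
    · simp [hb]
      omega

theorem dedup [DecidableEq β] {l : α → List β} (hl : Poly l) : Poly (fun a => (l a).dedup) := by
  obtain ⟨r, hr⟩ := hl.sz_le
  refine (NPC.Poly.foldr (s := fun _ => ([] : List β))
    (F := fun _ b s => bif decide (b ∈ s) then s else b :: s) hl (NPC.Poly.const _)
    (NPC.Poly.cond (NPC.Poly.decide_mem (NPC.Poly.fst (NPC.Poly.snd NPC.Poly.id)) (NPC.Poly.snd (NPC.Poly.snd NPC.Poly.id)))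
      (NPC.Poly.snd (NPC.Poly.snd NPC.Poly.id))
      (NPC.Poly.cons (NPC.Poly.fst (NPC.Poly.snd NPC.Poly.id)) (NPC.Poly.snd (NPC.Poly.snd NPC.Poly.id)))) r ?_).congr
      fun a => ?_
  · intro a k _
    exact (sz_dd_le _).trans ((NPC.Poly.sz_drop_le _ _).trans (hr a))
  · exact dd_eq (l a)

theorem take {l : α → List β} {n : α → ℕ} (hl : Poly l) (hn : Poly n) :
    Poly (fun a => (l a).take (n a)) := by
  have h1 : Poly (fun a => ((l a).zipIdx.filter (fun p => decide (p.2 < n a))).map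
      (fun p => p.1)) :=
    NPC.Poly.map (F := fun _ (p : β × ℕ) => p.1)
      (NPC.Poly.filter (p := fun a (p : β × ℕ) => decide (p.2 < n a)) (NPC.Poly.zipIdx hl)
        (NPC.Poly.decide_lt (NPC.Poly.snd (NPC.Poly.snd NPC.Poly.id)) (hn.comp (NPC.Poly.fst NPC.Poly.id))))
      (NPC.Poly.fst (NPC.Poly.snd NPC.Poly.id))
  refine h1.congr fun a => ?_
  have key : ∀ (l : List β) (n k : ℕ), ((l.zipIdx k).filter
      (fun p => decide (p.2 < n + k))).map (fun p => p.1) = l.take n := by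
    intro l
    induction l with
    | nil => intro n k; simp
    | cons b l ih =>
      intro n k
      cases n with
      | zero =>
        have : ∀ p ∈ (b :: l).zipIdx k, ¬ (p.2 < 0 + k) := by
          intro p hp
          have := List.le_snd_of_mem_zipIdx hp
          omega
        rw [List.filter_eq_nil_iff.2 (fun p hp => by simpa using this p hp)]
        simp
      | succ n =>
        have := ih n (k + 1)
        rw [List.zipIdx_cons, List.filter_cons]
        have hlt : k < n + 1 + k := by omega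
        simp only [hlt, decide_true, if_true, List.map_cons, List.take_succ_cons]
        rw [← this]
        congr 3
        funext p
        simp only [decide_eq_decide]
        omega
  have := key (l a) (n a) 0
  simp only [add_zero] at this
  exact this

theorem poly_groups : Poly groups := by
  have h1 : Poly (fun φ : CNF ℕ => (φ.flatten.map Prod.snd).dedup.map
      (fun v => [[(true, v)], [(false, v)]])) := by
    refine NPC.Poly.map (F := fun _ (v : ℕ) => [[(true, v)], [(false, v)]]) (dedup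
      (NPC.Poly.map (F := fun _ (p : Bool × ℕ) => p.2) (NPC.Poly.flatten NPC.Poly.id)
        (NPC.Poly.snd (NPC.Poly.snd NPC.Poly.id)))) ?_
    exact NPC.Poly.cons (NPC.Poly.cons (NPC.Poly.pair (NPC.Poly.const true) (NPC.Poly.snd NPC.Poly.id)) (NPC.Poly.const []))
      (NPC.Poly.cons (NPC.Poly.cons (NPC.Poly.pair (NPC.Poly.const false) (NPC.Poly.snd NPC.Poly.id)) (NPC.Poly.const []))
        (NPC.Poly.const []))
  have h2 : Poly (fun φ : CNF ℕ => φ.map
      (fun c => c.zipIdx.map (fun t => t.1 :: (c.take t.2).map negl))) := by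
    refine NPC.Poly.map (F := fun _ (c : List (Bool × ℕ)) =>
      c.zipIdx.map (fun t => t.1 :: (c.take t.2).map negl)) NPC.Poly.id ?_
    refine NPC.Poly.map (F := fun (p : CNF ℕ × List (Bool × ℕ)) (t : (Bool × ℕ) × ℕ) =>
      t.1 :: (p.2.take t.2).map negl) (NPC.Poly.zipIdx (NPC.Poly.snd NPC.Poly.id)) ?_
    refine NPC.Poly.cons (NPC.Poly.fst (NPC.Poly.snd NPC.Poly.id)) ?_
    refine NPC.Poly.map (F := fun _ (l : Bool × ℕ) => negl l)
      (take (NPC.Poly.snd (NPC.Poly.fst NPC.Poly.id)) (NPC.Poly.snd (NPC.Poly.snd NPC.Poly.id))) ?_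
    exact NPC.Poly.pair (NPC.Poly.not (NPC.Poly.fst (NPC.Poly.snd NPC.Poly.id))) (NPC.Poly.snd (NPC.Poly.snd NPC.Poly.id))
  exact NPC.Poly.append h1 h2

theorem poly_vts : Poly vts := by
  refine NPC.Poly.flatMap (F := fun _ (t : List (List (Bool × ℕ)) × ℕ) =>
    t.1.map (fun F => (t.2, F))) (NPC.Poly.zipIdx poly_groups) ?_
  refine NPC.Poly.map (F := fun (p : CNF ℕ × (List (List (Bool × ℕ)) × ℕ))
    (F : List (Bool × ℕ)) => (p.2.2, F)) (NPC.Poly.fst (NPC.Poly.snd NPC.Poly.id)) ?_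
  exact NPC.Poly.pair (NPC.Poly.snd (NPC.Poly.snd (NPC.Poly.fst NPC.Poly.id))) (NPC.Poly.snd NPC.Poly.id)

theorem poly_conf {F F' : α → List (Bool × ℕ)} (hF : Poly F) (hF' : Poly F') :
    Poly (fun a => conf (F a) (F' a)) := by
  refine NPC.Poly.any (p := fun a (l : Bool × ℕ) => (F' a).any
    (fun l' => decide (l.2 = l'.2) && !decide (l.1 = l'.1))) hF ?_
  refine NPC.Poly.any (p := fun (x : α × (Bool × ℕ)) (l' : Bool × ℕ) =>
    decide (x.2.2 = l'.2) && !decide (x.2.1 = l'.1)) (hF'.comp (NPC.Poly.fst NPC.Poly.id)) ?_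
  exact NPC.Poly.and (NPC.Poly.decide_eq (NPC.Poly.snd (NPC.Poly.snd (NPC.Poly.fst NPC.Poly.id)))
    (NPC.Poly.snd (NPC.Poly.snd NPC.Poly.id)))
    (NPC.Poly.not (NPC.Poly.decide_eq (NPC.Poly.fst (NPC.Poly.snd (NPC.Poly.fst NPC.Poly.id)))
      (NPC.Poly.fst (NPC.Poly.snd NPC.Poly.id))))

theorem poly_adjM : Poly adjM := by
  refine NPC.Poly.map (F := fun (φ : CNF ℕ) (s : (ℕ × List (Bool × ℕ)) × ℕ) =>
    (vts φ).zipIdx.map (fun t =>
      !decide (s.2 = t.2) && (decide (s.1.1 = t.1.1) || conf s.1.2 t.1.2)))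
    (NPC.Poly.zipIdx poly_vts) ?_
  refine NPC.Poly.map (F := fun (p : CNF ℕ × ((ℕ × List (Bool × ℕ)) × ℕ))
    (t : (ℕ × List (Bool × ℕ)) × ℕ) =>
      !decide (p.2.2 = t.2) && (decide (p.2.1.1 = t.1.1) || conf p.2.1.2 t.1.2))
    (NPC.Poly.zipIdx (poly_vts.comp (NPC.Poly.fst NPC.Poly.id))) ?_
  refine NPC.Poly.and (NPC.Poly.not (NPC.Poly.decide_eq (NPC.Poly.snd (NPC.Poly.snd (NPC.Poly.fst NPC.Poly.id)))
    (NPC.Poly.snd (NPC.Poly.snd NPC.Poly.id)))) (NPC.Poly.or (NPC.Poly.decide_eq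
      (NPC.Poly.fst (NPC.Poly.fst (NPC.Poly.snd (NPC.Poly.fst NPC.Poly.id))))
      (NPC.Poly.fst (NPC.Poly.fst (NPC.Poly.snd NPC.Poly.id))))
      (poly_conf (NPC.Poly.snd (NPC.Poly.fst (NPC.Poly.snd (NPC.Poly.fst NPC.Poly.id))))
        (NPC.Poly.snd (NPC.Poly.fst (NPC.Poly.snd NPC.Poly.id)))))

end Y1aux

theorem Y1_ok : S_Y1 := ⟨Y1aux.poly_groups, Y1aux.poly_vts, Y1aux.poly_adjM⟩

end Pool.Agent.H49R2.PY
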