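import Pool.Agent.H49R2.PY.Stubs

/-! Task Y6: powers with unary exponent in polynomial time. -/

namespace Pool.Agent.H49R2.PY

open Pool.Agent.NPC Pool.Agent.NPC.Cnt Finset

namespace Y6aux

theorem size_pow_le (b k : ℕ) : (b ^ k).size ≤ k * b.size + 1 := by
  rw [Nat.size_le]
  calc b ^ k ≤ (2 ^ b.size) ^ k := Nat.pow_le_pow_left (Nat.lt_size_self b).le k
    _ = 2 ^ (k * b.size) := by rw [← pow_mul, mul_comm]
    _ < 2 ^ (k * b.size + 1) := Nat.pow_lt_pow_right (by norm_num) (by omega)

theorem iter_mul (b k : ℕ) : (fun s : ℕ => s * b)^[k] 1 = b ^ k := by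
  induction k with
  | zero => rfl
  | succ k ih => rw [Function.iterate_succ_apply', ih, pow_succ]

end Y6aux

open Y6aux

theorem Y6_ok : S_Y6 := by
  intro α _ b e hb he
  obtain ⟨r, hr⟩ := hb.sz_le
  obtain ⟨r', hr'⟩ := NPC.Poly.sz_le he
  refine (NPC.Poly.iterLen (l := fun a => List.replicate (e a) ()) (s := fun _ => (1 : ℕ))
    (F := fun a s => s * b a) he (NPC.Poly.const 1)
    (NPC.Poly.mul (NPC.Poly.snd NPC.Poly.id) (hb.comp (NPC.Poly.fst NPC.Poly.id)))
    (Polynomial.C 4 * (r' * r) + Polynomial.C 10) ?_).congr fun a => ?_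
  · intro a k hk
    rw [iter_mul]
    have h1 := sz_nat_le (b a ^ k)
    have h2 := size_pow_le (b a) k
    have h3 := size_le_sz (b a)
    have h4 := hr a
    have h5 := hr' a
    have h6 := length_lt_sz (List.replicate (e a) ())
    have h7 : k ≤ r'.eval (sz a) := by omega
    have h8 : (b a).size ≤ r.eval (sz a) := by omega
    have h9 : k * (b a).size ≤ r'.eval (sz a) * r.eval (sz a) := Nat.mul_le_mul h7 h8
    simp only [Polynomial.eval_add, Polynomial.eval_mul, Polynomial.eval_C]
    omega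
  · rw [iter_mul, List.length_replicate]

end Pool.Agent.H49R2.PY
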