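import Pool.Agent.H49R2.PY.Stubs
import Pool.Agent.H579R2.Spt.VV3

/-!
# An FPRAS gives a randomised test for satisfiability (task R1)
-/

namespace Pool.Agent.H49R2.PY

open Pool.Agent.NPC Pool.Agent.NPC.Cnt Finset

namespace R1aux

/-! ### Counting bit strings -/

/-- the bit strings of length `n` -/
noncomputable def BL (n : ℕ) : Finset (List Bool) := (List.finite_length_eq Bool n).toFinset

@[simp] theorem mem_BL {n : ℕ} {r : List Bool} : r ∈ BL n ↔ r.length = n := by
  simp [BL]

theorem sum_BL_add (a b : ℕ) (f : List Bool → ℕ) :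
    ∑ r ∈ BL (a + b), f r = ∑ r1 ∈ BL a, ∑ r2 ∈ BL b, f (r1 ++ r2) := by
  rw [← Finset.sum_product']
  refine Finset.sum_nbij' (fun r => (r.take a, r.drop a)) (fun q => q.1 ++ q.2) ?_ ?_ ?_ ?_ ?_
  · intro r hr
    rw [mem_BL] at hr
    rw [Finset.mem_product, mem_BL, mem_BL, List.length_take, List.length_drop]
    omega
  · intro q hq
    rw [Finset.mem_product, mem_BL, mem_BL] at hq
    rw [mem_BL, List.length_append]
    omega
  · intro r _
    exact List.take_append_drop a r
  · intro q hq
    rw [Finset.mem_product, mem_BL, mem_BL] at hq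
    rw [List.take_left' hq.1, List.drop_left' hq.1]
  · intro r _
    rw [List.take_append_drop]

theorem card_BL (n : ℕ) : (BL n).card = 2 ^ n := by
  induction n with
  | zero =>
    have : BL 0 = {[]} := by
      ext r
      simp
    rw [this]
    simp
  | succ n ih =>
    have h := sum_BL_add n 1 (fun _ => 1)
    have h1 : (BL 1).card = 2 := by
      have : BL 1 = {[true], [false]} := by
        ext r
        rw [mem_BL, List.length_eq_one_iff]
        simp only [Finset.mem_insert, Finset.mem_singleton]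
        constructor
        · rintro ⟨b, rfl⟩
          cases b <;> simp
        · rintro (h | h)
          · exact ⟨true, h⟩
          · exact ⟨false, h⟩
      rw [this]
      rfl
    simp only [Finset.sum_const, smul_eq_mul, mul_one, h1, ih] at h
    rw [h, pow_succ]

theorem ncard_eq (n : ℕ) (P : List Bool → Prop) [DecidablePred P] :
    {r : List Bool | r.length = n ∧ P r}.ncard = ((BL n).filter P).card := by
  have h1 : {r : List Bool | r.length = n ∧ P r} = ↑((BL n).filter P) := by
    ext r; simp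
  rw [h1, Set.ncard_coe_finset]

open Classical in
/-- a random string is cut into the coins of the reduction and the coins of the scheme -/
theorem count {a R : ℕ} (G1 : List Bool → Prop) (L : List Bool → ℕ)
    (G2 : List Bool → List Bool → Prop) (Bad : List Bool → Prop)
    (haR : a ≤ R)
    (h1 : 15 * 2 ^ a ≤ 16 * {r : List Bool | r.length = a ∧ G1 r}.ncard)
    (hL : ∀ r1 : List Bool, r1.length = a → a + L r1 ≤ R)
    (h2 : ∀ r1 : List Bool, r1.length = a →
      3 * 2 ^ L r1 ≤ 4 * {r : List Bool | r.length = L r1 ∧ G2 r1 r}.ncard)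
    (hbad : ∀ r : List Bool, r.length = R → G1 (r.take a) →
      G2 (r.take a) ((r.drop a).take (L (r.take a))) → ¬ Bad r) :
    16 * {r : List Bool | r.length = R ∧ Bad r}.ncard ≤ 5 * 2 ^ R := by
  rw [ncard_eq] at h1 ⊢
  have hsplit : ((BL R).filter Bad).card + ((BL R).filter (fun r => ¬ Bad r)).card = 2 ^ R := by
    rw [Finset.card_filter_add_card_filter_not, card_BL]
  -- the inner count
  have hin : ∀ r1 : List Bool, r1.length = a → G1 r1 →
      3 * 2 ^ (R - a) ≤ 4 * ∑ r2 ∈ BL (R - a), (if ¬ Bad (r1 ++ r2) then 1 else 0) := by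
    intro r1 hr1 hG1
    obtain ⟨m, hm⟩ : ∃ m, R - a = L r1 + m := ⟨R - a - L r1, by have := hL r1 hr1; omega⟩
    have h3 := h2 r1 hr1
    rw [ncard_eq, Finset.card_filter] at h3
    have h4 : (∑ s ∈ BL (L r1), if G2 r1 s then 1 else 0) * 2 ^ m ≤
        ∑ r2 ∈ BL (R - a), (if ¬ Bad (r1 ++ r2) then 1 else 0) := by
      rw [hm, sum_BL_add, Finset.sum_mul]
      refine Finset.sum_le_sum fun s hs => ?_
      rw [mem_BL] at hs
      by_cases hg : G2 r1 s
      · rw [if_pos hg, one_mul]
        have h5 : ∀ t ∈ BL m, (if ¬ Bad (r1 ++ (s ++ t)) then 1 else 0) = 1 := by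
          intro t ht
          rw [mem_BL] at ht
          rw [if_pos]
          have e1 : (r1 ++ (s ++ t)).take a = r1 := List.take_left' hr1
          have e2 : (r1 ++ (s ++ t)).drop a = s ++ t := List.drop_left' hr1
          refine hbad _ ?_ ?_ ?_
          · rw [List.length_append, List.length_append]
            omega
          · rw [e1]; exact hG1
          · rw [e1, e2, List.take_left' hs]; exact hg
        rw [Finset.sum_congr rfl h5]
        simp [card_BL]
      · rw [if_neg hg, zero_mul]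
        exact Nat.zero_le _
    calc 3 * 2 ^ (R - a) = 3 * 2 ^ L r1 * 2 ^ m := by rw [hm, pow_add]; ring
      _ ≤ 4 * (∑ s ∈ BL (L r1), if G2 r1 s then 1 else 0) * 2 ^ m := Nat.mul_le_mul_right _ h3
      _ = 4 * ((∑ s ∈ BL (L r1), if G2 r1 s then 1 else 0) * 2 ^ m) := by ring
      _ ≤ _ := Nat.mul_le_mul_left _ h4
  have hgood : 3 * 2 ^ (R - a) * ((BL a).filter G1).card ≤
      4 * ((BL R).filter (fun r => ¬ Bad r)).card := by
    have e : R = a + (R - a) := by omega
    rw [Finset.card_filter, Finset.card_filter]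
    conv_rhs => rw [e, sum_BL_add]
    rw [Finset.mul_sum, Finset.mul_sum]
    refine Finset.sum_le_sum fun r1 hr1 => ?_
    rw [mem_BL] at hr1
    by_cases hg : G1 r1
    · rw [if_pos hg, mul_one]
      exact hin r1 hr1 hg
    · rw [if_neg hg, mul_zero]
      exact Nat.zero_le _
  have hpow : 2 ^ a * 2 ^ (R - a) = 2 ^ R := by
    rw [← pow_add]
    congr 1
    omega
  have h6 : 45 * 2 ^ R ≤ 64 * ((BL R).filter (fun r => ¬ Bad r)).card := by
    calc 45 * 2 ^ R = 3 * 2 ^ (R - a) * (15 * 2 ^ a) := by rw [← hpow]; ring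
      _ ≤ 3 * 2 ^ (R - a) * (16 * ((BL a).filter G1).card) := Nat.mul_le_mul_left _ h1
      _ = 16 * (3 * 2 ^ (R - a) * ((BL a).filter G1).card) := by ring
      _ ≤ 16 * (4 * ((BL R).filter (fun r => ¬ Bad r)).card) := Nat.mul_le_mul_left _ hgood
      _ = _ := by ring
  omega

/-! ### Approximations within the factor `e` -/

theorem good_one {y : ℕ} {v : ℕ} (h : Good 1 (y : ℝ) (v : ℝ)) : 0 < y ↔ 0 < v := by
  obtain ⟨h1, h2⟩ := h
  constructor
  · intro hy
    by_contra hv
    have hv0 : v = 0 := by omega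
    rw [hv0, Nat.cast_zero, mul_zero] at h2
    have : (0:ℝ) < y := by exact_mod_cast hy
    linarith
  · intro hv
    by_contra hy
    have hy0 : y = 0 := by omega
    rw [hy0, Nat.cast_zero] at h1
    have : (0:ℝ) < v := by exact_mod_cast hv
    have h3 : 0 < Real.exp (-(1 / ((1 : ℕ) : ℝ))) * (v : ℝ) := mul_pos (Real.exp_pos _) this
    linarith

/-! ### Polynomial time -/

/-- a function computed on codes by a machine is polynomial-time computable -/
theorem poly_of_machine {α β : Type} [TEnc α] [TEnc β] [NPC.TDec β] {F : α → β}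
    {A : List Bool → List Bool} (hA : PolyTime A) (h : ∀ s, A (bits s) = bits (F s)) (b0 : β) :
    Poly F := by
  have h1 : Poly A := PIso.poly_iff.2 hA
  have h2 : Poly (fun s : α => A (bits s)) := h1.comp Pool.Agent.H579R2.Spt.bits_poly
  have h3 : Poly (fun s : α => NPC.unbits β (A (bits s))) := NPC.poly_unbits.comp h2
  exact (NPC.Poly.optGetD h3 (NPC.Poly.const b0)).congr fun s => by
    simp only [h, NPC.unbits_bits, Option.getD_some]

end R1aux

open R1aux

theorem R1_ok : S_R1 := by
  rintro α _ g ⟨inst, cl, post, hinst, hcl, hpost, hmain⟩ ⟨F, A, p, hA, hAF, hF⟩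
  have hFp : Poly F := poly_of_machine hA hAF (0, 0)
  obtain ⟨q, hq⟩ := hinst.sz_le
  -- the number of coins of the reduction
  let c0 : CNF ℕ → ℕ := fun φ => cl (φ, [()])
  have hc0 : UPoly c0 := hcl.comp (NPC.Poly.pair NPC.Poly.id (NPC.Poly.const [()]))
  -- the code of the instance
  let xx : CNF ℕ × List Bool → List Bool := fun s => bits (inst (s.1, [()], s.2.take (c0 s.1)))
  have htake : Poly (fun s : CNF ℕ × List Bool => s.2.take (c0 s.1)) :=
    Pool.Agent.H579R2.Spt.take_poly' (NPC.Poly.snd NPC.Poly.id) (hc0.comp (NPC.Poly.fst NPC.Poly.id)).toPoly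
  have hxx : Poly xx := Pool.Agent.H579R2.Spt.bits_poly.comp (hinst.comp
    (NPC.Poly.pair (NPC.Poly.fst NPC.Poly.id) (NPC.Poly.pair (NPC.Poly.const [()]) htake)))
  have hxlen : ∀ s, (xx s).length ≤ q.eval (sz s.1 + 4 * c0 s.1 + 6) := by
    intro s
    show (bits (inst (s.1, [()], s.2.take (c0 s.1)))).length ≤ _
    rw [bits_length]
    refine (hq _).trans (eval_mono q ?_)
    have h1 := sz_listBool_le (s.2.take (c0 s.1))
    have h2 : (s.2.take (c0 s.1)).length ≤ c0 s.1 := by
      rw [List.length_take]; exact min_le_left _ _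
    simp only [sz_pair, sz_list_cons, sz_unit, sz_list_nil]
    omega
  -- the coins of the scheme
  let LL1 : CNF ℕ × List Bool → ℕ := fun s => p.eval ((xx s).length + 64)
  let coins : CNF ℕ × List Bool → List Bool := fun s => (s.2.drop (c0 s.1)).take (LL1 s)
  have hLL1 : UPoly LL1 := ((UPoly.length hxx).add (UPoly.const 64)).eval p
  have hcoins : Poly coins := Pool.Agent.H579R2.Spt.take_poly'
    (Pool.Agent.H579R2.Spt.drop_poly' (NPC.Poly.snd NPC.Poly.id) (hc0.comp (NPC.Poly.fst NPC.Poly.id)).toPoly)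
    hLL1.toPoly
  let ab : CNF ℕ × List Bool → ℕ × ℕ := fun s => F (xx s, 64, coins s)
  have hab : Poly ab := hFp.comp (NPC.Poly.pair hxx (NPC.Poly.pair (NPC.Poly.const 64) hcoins))
  let D : CNF ℕ × List Bool → Bool := fun s =>
    decide (0 < post (s.1, [()], (ab s).1, (ab s).2))
  have hD : Poly D := NPC.Poly.decide_lt (NPC.Poly.const 0) (hpost.comp (NPC.Poly.pair (NPC.Poly.fst NPC.Poly.id)
    (NPC.Poly.pair (NPC.Poly.const [()]) (NPC.Poly.pair (NPC.Poly.fst hab) (NPC.Poly.snd hab)))))
  have hsz : UPoly (fun φ : CNF ℕ => sz φ) := by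
    have h1 : UPoly (fun φ : CNF ℕ => (bits φ).length) :=
      UPoly.length Pool.Agent.H579R2.Spt.bits_poly
    have h2 : (fun φ : CNF ℕ => (bits φ).length) = fun φ : CNF ℕ => sz φ := by
      funext φ
      exact bits_length φ
    rwa [h2] at h1
  refine ⟨D, fun φ => c0 φ + p.eval (q.eval (sz φ + 4 * c0 φ + 6) + 64), hD,
    hc0.add ((((hsz.add ((UPoly.const 4).mul hc0)).add (UPoly.const 6)).eval q).add
      (UPoly.const 64) |>.eval p), ?_⟩
  intro φ R hR
  have hR' : c0 φ + p.eval (q.eval (sz φ + 4 * c0 φ + 6) + 64) ≤ R := hR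
  have hm := hmain φ [()] (by simp) (c0 φ) le_rfl
  refine count (a := c0 φ) (R := R)
    (fun r => ∀ a b : ℕ, Good (64 * [()].length) ((a : ℝ) / b) (g (inst (φ, [()], r))) →
      Good [()].length (post (φ, [()], a, b)) (satCount φ))
    (fun r1 => p.eval ((bits (inst (φ, [()], r1))).length + 64))
    (fun r1 s => Good 64 (((F (bits (inst (φ, [()], r1)), 64, s)).1 : ℝ) /
      (F (bits (inst (φ, [()], r1)), 64, s)).2) (strFn g (bits (inst (φ, [()], r1)))))
    (fun r => ¬ (D (φ, r) = true ↔ 0 < satCount φ)) (by omega) hm ?_ ?_ ?_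
  · intro r1 hr1
    have h1 := hxlen (φ, r1)
    have h2 : xx (φ, r1) = bits (inst (φ, [()], r1)) := by
      show bits (inst (φ, [()], r1.take (c0 φ))) = _
      rw [List.take_of_length_le hr1.le]
    rw [h2] at h1
    have h3 := eval_mono p (Nat.add_le_add_right h1 64)
    exact (Nat.add_le_add_left h3 _).trans hR'
  · intro r1 _
    exact hF _ 64 (by norm_num)
  · intro r hr hg1 hg2
    rw [not_not]
    rw [strFn_bits] at hg2
    have h1 := hg1 _ _ (by simpa using hg2)
    have h2 : Good 1 ((post (φ, [()], (ab (φ, r)).1, (ab (φ, r)).2) : ℕ) : ℝ) (satCount φ) := by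
      simpa using h1
    rw [← good_one h2]
    show decide (0 < post (φ, [()], (ab (φ, r)).1, (ab (φ, r)).2)) = true ↔ _
    rw [decide_eq_true_iff]

end Pool.Agent.H49R2.PY
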