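import Pool.Agent.H49R2.PY.Stubs
import Pool.Agent.H579R2.Spt.VV3

/-!
# #PolyaOrbits, task R3: from a randomised satisfiability test to RP (by helper279)
-/

namespace Pool.Agent.H49R2.PY

open Pool.Agent.NPC Pool.Agent.NPC.Cnt Finset
open Pool.Agent.H579R2.Spt (isPre isPre_iff isPre_poly ver ver_iff ver_poly bits_poly InRP)

namespace R3aux

/-- One step of the search: extend the prefix by the answer of the test. -/
def stp (vr : List Bool → Bool) (ts : List Bool → Bool) (s : Bool × List Bool) :
    Bool × List Bool :=
  (s.1 || vr s.2, s.2 ++ [ts (s.2 ++ [true])])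

theorem stp_length (vr ts : List Bool → Bool) (k : ℕ) :
    ((stp vr ts)^[k] (false, [])).2.length = k := by
  induction k with
  | zero => rfl
  | succ k ih =>
    rw [Function.iterate_succ_apply']
    simp only [stp, List.length_append, List.length_cons, List.length_nil, ih]

theorem stp_sound (vr ts : List Bool → Bool) (k : ℕ) :
    ((stp vr ts)^[k] (false, [])).1 = true → ∃ w, vr w = true := by
  induction k with
  | zero => intro h; simp at h
  | succ k ih =>
    rw [Function.iterate_succ_apply']
    intro h
    simp only [stp, Bool.or_eq_true] at h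
    rcases h with h | h
    · exact ih h
    · exact ⟨_, h⟩

open Classical in
/-- The correct path. -/
noncomputable def pth (vr : List Bool → Bool) : ℕ → List Bool
  | 0 => []
  | j + 1 => pth vr j ++ [decide (∃ w, (pth vr j ++ [true]) <+: w ∧ vr w = true)]

theorem pth_length (vr : List Bool → Bool) (j : ℕ) : (pth vr j).length = j := by
  induction j with
  | zero => rfl
  | succ j ih => simp [pth, ih]

theorem stp_pth (vr ts : List Bool → Bool) (n : ℕ)
    (h : ∀ j < n, ts (pth vr j ++ [true]) = true ↔
      ∃ w, (pth vr j ++ [true]) <+: w ∧ vr w = true) :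
    ∀ j ≤ n, ((stp vr ts)^[j] (false, [])).2 = pth vr j := by
  classical
  intro j
  induction j with
  | zero => intro _; rfl
  | succ j ih =>
    intro hj
    rw [Function.iterate_succ_apply']
    have h1 := ih (by omega)
    simp only [stp, h1, pth]
    congr 2
    have h2 := h j (by omega)
    rw [Bool.eq_iff_iff, h2, decide_eq_true_iff]

theorem stp_complete (vr ts : List Bool → Bool) (n : ℕ)
    (h : ∀ j < n, ts (pth vr j ++ [true]) = true ↔
      ∃ w, (pth vr j ++ [true]) <+: w ∧ vr w = true)
    (hw : ∃ w, vr w = true) (hlen : ∀ w, vr w = true → w.length < n) :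
    ((stp vr ts)^[n] (false, [])).1 = true := by
  classical
  have key : ∀ j ≤ n, ((stp vr ts)^[j] (false, [])).1 = true ∨
      ∃ w, pth vr j <+: w ∧ vr w = true := by
    intro j
    induction j with
    | zero =>
      intro _
      obtain ⟨w, hw⟩ := hw
      exact Or.inr ⟨w, List.nil_prefix, hw⟩
    | succ j ih =>
      intro hj
      rw [Function.iterate_succ_apply']
      have h1 := stp_pth vr ts n h j (by omega)
      rcases ih (by omega) with h2 | ⟨w, hpw, hvw⟩
      · left
        simp [stp, h2]
      · obtain ⟨t, rfl⟩ := hpw
        cases t with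
        | nil =>
          left
          simp only [stp, h1, Bool.or_eq_true]
          right
          simpa using hvw
        | cons b t =>
          right
          by_cases hE : ∃ w, (pth vr j ++ [true]) <+: w ∧ vr w = true
          · obtain ⟨w', h3, h4⟩ := hE
            refine ⟨w', ?_, h4⟩
            have h5 : pth vr (j + 1) = pth vr j ++ [true] := by
              simp only [pth]
              rw [decide_eq_true]
              exact ⟨w', h3, h4⟩
            rw [h5]; exact h3
          · have h5 : pth vr (j + 1) = pth vr j ++ [false] := by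
              simp only [pth]
              rw [decide_eq_false hE]
            refine ⟨pth vr j ++ b :: t, ?_, hvw⟩
            have hb : b = false := by
              cases b with
              | false => rfl
              | true => exact absurd ⟨_, ⟨t, by simp⟩, hvw⟩ hE
            subst hb
            rw [h5]
            exact ⟨t, by simp⟩
  rcases key n le_rfl with h1 | ⟨w, h1, h2⟩
  · exact h1
  · exfalso
    have h3 := h1.length_le
    rw [pth_length] at h3
    have := hlen w h2
    omega

theorem two_mul_le_two_pow (n : ℕ) : 2 * (n + 1) ≤ 2 ^ (n + 1) := by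
  have := Nat.lt_two_pow_self (n := n)
  rw [pow_succ]
  omega

theorem sz_replicate_unit (n : ℕ) : sz (List.replicate n ()) ≤ 2 * n + 1 := by
  have h := sz_le_length_mul (List.replicate n ()) 1 (fun a _ => by simp)
  rw [List.length_replicate] at h
  omega

theorem UPoly.le {α : Type} [TEnc α] {n : α → ℕ} (h : UPoly n) :
    ∃ q : Polynomial ℕ, ∀ a, n a ≤ q.eval (sz a) := by
  obtain ⟨q, hq⟩ := Poly.sz_le h
  refine ⟨q, fun a => ?_⟩
  have h1 := hq a
  have h2 := length_lt_sz (List.replicate (n a) ())
  rw [List.length_replicate] at h2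
  omega

end R3aux

open R3aux in
theorem R3_ok : S_R3 := by
  classical
  rintro ⟨D, cl, hD, hcl, hDc⟩ L ⟨V0, p, hV0, hL⟩
  -- the formulas
  set R : (List Bool × List Bool) → List Bool → Bool :=
    fun a c => isPre a.2 c && ver V0 p a.1 c with hRdef
  have hR : Poly (fun x : (List Bool × List Bool) × List Bool => R x.1 x.2) := by
    refine NPC.Poly.and ?_ ?_
    · exact isPre_poly.comp (NPC.Poly.pair (NPC.Poly.snd (NPC.Poly.fst NPC.Poly.id))
        (NPC.Poly.snd NPC.Poly.id))
    · exact (ver_poly hV0 p).comp (NPC.Poly.pair (NPC.Poly.fst (NPC.Poly.fst NPC.Poly.id))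
        (NPC.Poly.snd NPC.Poly.id))
  have hS : SharpP (strFn fun a : List Bool × List Bool =>
      Nat.card {c : List Bool // R a c = true}) := by
    refine sharpP_typed R hR (Polynomial.C 4 * p + 1) ?_
    rintro ⟨x, u⟩ c hc
    simp only [hRdef, Bool.and_eq_true] at hc
    have h2 : c.length ≤ p.eval x.length := (ver_iff.1 hc.2).1
    have h3 := sz_listBool_le c
    have h4 : p.eval x.length ≤ p.eval (sz (x, u)) := by
      refine eval_mono p ?_
      have := length_lt_sz x
      rw [sz_pair]; omega
    simp only [Polynomial.eval_add, Polynomial.eval_mul, Polynomial.eval_C, Polynomial.eval_one]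
    omega
  obtain ⟨V, pf, hV, hVf⟩ := hS
  obtain ⟨G, hG, hGf⟩ := parsimonious hV pf
  have hGp : Poly G := PC.comp hG pc_raw
  set G' : List Bool × List Bool → CNF ℕ := fun a => G (bits a) with hG'def
  have hG' : Poly G' := hGp.comp bits_poly
  have hG'c : ∀ a, 0 < satCount (G' a) ↔ ∃ w, a.2 <+: w ∧ ver V0 p a.1 w = true := by
    intro a
    have h1 : satCount (G' a) = Nat.card {c : List Bool // R a c = true} := by
      rw [hG'def]
      simp only
      rw [hGf, ← hVf, strFn_bits]
    rw [h1]
    have hfin : Finite {c : List Bool // R a c = true} := by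
      refine Set.Finite.to_subtype ?_
      refine (List.finite_length_le Bool (p.eval a.1.length)).subset fun w hw => ?_
      simp only [hRdef, Bool.and_eq_true] at hw
      exact (ver_iff.1 hw.2).1
    rw [Nat.card_pos_iff]
    constructor
    · rintro ⟨⟨c, hc⟩, _⟩
      simp only [hRdef, Bool.and_eq_true] at hc
      exact ⟨c, (isPre_iff _ _).1 hc.1, hc.2⟩
    · rintro ⟨w, h2, h3⟩
      refine ⟨⟨w, ?_⟩, hfin⟩
      simp only [hRdef, Bool.and_eq_true]
      exact ⟨(isPre_iff _ _).2 h2, h3⟩
  -- the search
  set U : List Bool → List Unit := fun x => List.replicate (p.eval x.length + 1) () with hU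
  set ts : List Bool → List Bool → List Bool → Bool := fun x r u => D (G' (x, u), U x, r) with hts
  set S : List Bool × List Bool → Bool := fun a =>
    ((stp (ver V0 p a.1) (ts a.1 a.2))^[p.eval a.1.length + 1] (false, [])).1 with hSdef
  have hUp : UPoly (fun a : List Bool × List Bool => p.eval a.1.length + 1) :=
    ((UPoly.length (NPC.Poly.fst NPC.Poly.id)).eval p).add (UPoly.const 1)
  have hSp : Poly S := by
    have hstep : Poly (fun q : (List Bool × List Bool) × (Bool × List Bool) =>
        stp (ver V0 p q.1.1) (ts q.1.1 q.1.2) q.2) := by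
      have e1 : Poly (fun q : (List Bool × List Bool) × (Bool × List Bool) => q.1) :=
        NPC.Poly.fst NPC.Poly.id
      have ex : Poly (fun q : (List Bool × List Bool) × (Bool × List Bool) => q.1.1) :=
        NPC.Poly.fst e1
      have er : Poly (fun q : (List Bool × List Bool) × (Bool × List Bool) => q.1.2) :=
        NPC.Poly.snd e1
      have e2 : Poly (fun q : (List Bool × List Bool) × (Bool × List Bool) => q.2.2) :=
        NPC.Poly.snd (NPC.Poly.snd NPC.Poly.id)
      have e3 : Poly (fun q : (List Bool × List Bool) × (Bool × List Bool) =>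
          q.2.2 ++ [true]) := NPC.Poly.append e2 (NPC.Poly.const [true])
      refine NPC.Poly.pair (NPC.Poly.or (NPC.Poly.fst (NPC.Poly.snd NPC.Poly.id)) ?_) ?_
      · exact (ver_poly hV0 p).comp (NPC.Poly.pair ex e2)
      · refine NPC.Poly.append e2 (NPC.Poly.cons ?_ (NPC.Poly.const []))
        refine hD.comp (NPC.Poly.pair (hG'.comp (NPC.Poly.pair ex e3))
          (NPC.Poly.pair ?_ er))
        have h1 : Poly (fun a : List Bool × List Bool => U a.1) := hUp
        exact h1.comp e1
    have h1 := NPC.Poly.iterLen (l := fun a : List Bool × List Bool =>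
        List.replicate (p.eval a.1.length + 1) ())
      (s := fun _ : List Bool × List Bool => ((false, []) : Bool × List Bool))
      (F := fun a s => stp (ver V0 p a.1) (ts a.1 a.2) s) hUp
      (NPC.Poly.const _) hstep (Polynomial.C 4 * p + 20) (by
        intro a k hk
        rw [List.length_replicate] at hk
        have h2 := stp_length (ver V0 p a.1) (ts a.1 a.2) k
        have h6 : sz ((stp (ver V0 p a.1) (ts a.1 a.2))^[k] (false, [])) =
          sz ((stp (ver V0 p a.1) (ts a.1 a.2))^[k] (false, [])).1 +
          sz ((stp (ver V0 p a.1) (ts a.1 a.2))^[k] (false, [])).2 + 1 := sz_pair _ _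
        have h5 := sz_bool_le ((stp (ver V0 p a.1) (ts a.1 a.2))^[k] (false, [])).1
        have h7 := sz_listBool_le ((stp (ver V0 p a.1) (ts a.1 a.2))^[k] (false, [])).2
        rw [h2] at h7
        have h8 : p.eval a.1.length ≤ p.eval (sz a) := by
          refine eval_mono p ?_
          have := length_lt_sz a.1
          have h9 : sz a = sz a.1 + sz a.2 + 1 := sz_pair _ _
          omega
        simp only [Polynomial.eval_add, Polynomial.eval_mul, Polynomial.eval_C,
          Polynomial.eval_ofNat]
        change sz ((stp (ver V0 p a.1) (ts a.1 a.2))^[k] (false, [])) ≤ _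
        omega)
    refine (NPC.Poly.fst h1).congr fun a => ?_
    rw [List.length_replicate]
  -- the length of the random string
  obtain ⟨qc, hqc⟩ := UPoly.le hcl
  obtain ⟨qg, hqg⟩ := hG'.sz_le
  set ℓ : Polynomial ℕ := qc.comp (qg.comp (Polynomial.C 4 * Polynomial.X + Polynomial.C 4 * p + 7)
    + (Polynomial.C 2 * p + 4)) with hℓ
  have hℓe : ∀ x u : List Bool, u.length ≤ p.eval x.length + 1 →
      cl (G' (x, u), U x) ≤ ℓ.eval x.length := by
    intro x u hu
    refine (hqc _).trans ?_
    rw [hℓ, Polynomial.eval_comp]
    refine eval_mono qc ?_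
    rw [sz_pair]
    have h1 := hqg (x, u)
    have h2 := sz_replicate_unit (p.eval x.length + 1)
    have h3 : qg.eval (sz (x, u)) ≤ qg.eval (4 * x.length + 4 * p.eval x.length + 7) := by
      refine eval_mono qg ?_
      rw [sz_pair]
      have := sz_listBool_le x
      have := sz_listBool_le u
      omega
    simp only [Polynomial.eval_add, Polynomial.eval_mul, Polynomial.eval_C,
      Polynomial.eval_ofNat, Polynomial.eval_comp, Polynomial.eval_X]
    simp only [hU]
    omega
  refine ⟨fun y => [S (Pool.Agent.NPC.unpair y)], ℓ,
    NPC.polyTime_of_poly (hSp.comp Pool.Agent.NPC.poly_unpair), fun x => ?_⟩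
  have hx2 : x ∈ L ↔ ∃ w, ver V0 p x w = true := by
    rw [hL x]
    exact exists_congr fun w => ver_iff.symm
  constructor
  · intro hx
    set N : ℕ := ℓ.eval x.length with hN
    have hfinN : {r : List Bool | r.length = N}.Finite := List.finite_length_eq Bool N
    set BL : Finset (List Bool) := hfinN.toFinset with hBL
    have hBLc : BL.card = 2 ^ N := by
      have h1 : {r : List Bool | r.length = N}.ncard = 2 ^ N := by
        rw [← Nat.card_coe_set_eq]
        have h2 := Nat.card_congr (Equiv.refl (List.Vector Bool N))
        have h3 : Nat.card {r : List Bool | r.length = N} = Nat.card (List.Vector Bool N) := rfl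
        rw [h3, Nat.card_eq_fintype_card, card_vector]
        simp
      rw [← h1, Set.ncard_eq_toFinset_card _ hfinN]
    set Bad : ℕ → Finset (List Bool) := fun j => BL.filter (fun r =>
      ¬ (D (G' (x, pth (ver V0 p x) j ++ [true]), U x, r) = true ↔
        0 < satCount (G' (x, pth (ver V0 p x) j ++ [true])))) with hBad
    have hBadc : ∀ j ∈ Finset.range (p.eval x.length + 1),
        2 ^ (p.eval x.length + 1) * (Bad j).card ≤ 2 ^ N := by
      intro j hj
      have hj' := Finset.mem_range.1 hj
      have h1 := hDc (G' (x, pth (ver V0 p x) j ++ [true])) (U x) N (hℓe x _ (by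
        rw [List.length_append, pth_length]; simp; omega))
      have h2 : (U x).length = p.eval x.length + 1 := by simp [hU]
      rw [h2] at h1
      have h3 : {r : List Bool | r.length = N ∧
          ¬ (D (G' (x, pth (ver V0 p x) j ++ [true]), U x, r) = true ↔
            0 < satCount (G' (x, pth (ver V0 p x) j ++ [true])))} = ↑(Bad j) := by
        ext r
        simp [hBad, hBL]
      rw [h3, Set.ncard_coe_finset] at h1
      exact h1
    set BB : Finset (List Bool) := (Finset.range (p.eval x.length + 1)).biUnion Bad with hBB
    have hBBc : 2 * BB.card ≤ 2 ^ N := by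
      have h1 : BB.card ≤ ∑ j ∈ Finset.range (p.eval x.length + 1), (Bad j).card :=
        Finset.card_biUnion_le
      have h2 : 2 ^ (p.eval x.length + 1) *
          ∑ j ∈ Finset.range (p.eval x.length + 1), (Bad j).card ≤
          (p.eval x.length + 1) * 2 ^ N := by
        rw [Finset.mul_sum]
        refine (Finset.sum_le_sum hBadc).trans ?_
        rw [Finset.sum_const, Finset.card_range, smul_eq_mul]
      have h3 := two_mul_le_two_pow (p.eval x.length)
      have h4 : (p.eval x.length + 1) * (2 * BB.card) ≤ (p.eval x.length + 1) * 2 ^ N := by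
        calc (p.eval x.length + 1) * (2 * BB.card) = (2 * (p.eval x.length + 1)) * BB.card := by
              ring
          _ ≤ 2 ^ (p.eval x.length + 1) * BB.card := Nat.mul_le_mul_right _ h3
          _ ≤ 2 ^ (p.eval x.length + 1) *
              ∑ j ∈ Finset.range (p.eval x.length + 1), (Bad j).card :=
              Nat.mul_le_mul_left _ h1
          _ ≤ _ := h2
      exact Nat.le_of_mul_le_mul_left h4 (Nat.succ_pos _)
    have hgood : BL \ BB ⊆ BL.filter (fun r => S (x, r) = true) := by
      intro r hr
      rw [Finset.mem_sdiff] at hr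
      rw [Finset.mem_filter]
      refine ⟨hr.1, ?_⟩
      rw [hSdef]
      refine stp_complete (ver V0 p x) (ts x r) (p.eval x.length + 1) ?_ (hx2.1 hx) ?_
      · intro j hj
        have h1 : r ∉ Bad j := fun h => hr.2 (Finset.mem_biUnion.2 ⟨j, Finset.mem_range.2 hj, h⟩)
        rw [hBad] at h1
        simp only [Finset.mem_filter, not_and, not_not] at h1
        have h2 := h1 hr.1
        simp only [hts]
        rw [h2, hG'c]
      · intro w hw
        have := (ver_iff.1 hw).1
        omega
    have h1 : (BL \ BB).card ≤ (BL.filter (fun r => S (x, r) = true)).card :=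
      Finset.card_le_card hgood
    have h2 : BL.card ≤ (BL \ BB).card + BB.card := by
      have := Finset.le_card_sdiff BB BL
      omega
    have h3 : {r : List Bool | r.length = N ∧
        [S (Pool.Agent.NPC.unpair (pairBits x r))] = [true]} =
        ↑(BL.filter (fun r => S (x, r) = true)) := by
      ext r
      simp [hBL, Pool.Agent.NPC.unpair_pairBits]
    rw [h3, Set.ncard_coe_finset]
    rw [hBLc] at h2
    omega
  · intro hx r _ h
    apply hx
    simp only [Pool.Agent.NPC.unpair_pairBits, List.cons.injEq] at h
    exact hx2.2 (stp_sound _ _ _ h.1)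

end Pool.Agent.H49R2.PY
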