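import Pool.Agent.H49R2.PY.Defs

/-!
# #PolyaOrbits: statements of the steps of the proof
-/

namespace Pool.Agent.H49R2.PY

open Pool.Agent.NPC Pool.Agent.NPC.Cnt Finset

/-! ## The generic part: from a randomised reduction of `#SAT` to the final statements -/

/-- A randomised polynomial-time reduction of approximate `#SAT` to approximating `g`; `N = |u|` is
the accuracy. -/
def MainRed {α : Type} [TEnc α] (g : α → ℕ) : Prop :=
  ∃ (inst : CNF ℕ × List Unit × List Bool → α) (cl : CNF ℕ × List Unit → ℕ)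
    (post : CNF ℕ × List Unit × ℕ × ℕ → ℕ),
    Poly inst ∧ UPoly cl ∧ Poly post ∧
    ∀ (φ : CNF ℕ) (u : List Unit), 1 ≤ u.length → ∀ R, cl (φ, u) ≤ R →
      15 * 2 ^ R ≤ 16 * {r : List Bool | r.length = R ∧ ∀ a b : ℕ,
        Good (64 * u.length) ((a : ℝ) / b) (g (inst (φ, u, r))) →
        Good u.length (post (φ, u, a, b)) (satCount φ)}.ncard

/-- The median of three numbers. -/
def med3 (a b c : ℕ) : ℕ := max (min a b) (min (max a b) c)

def S_AP1 : Prop := ∀ (μ : PMF ℕ) (S : Set ℕ) (c : ℕ → ℕ), S.OrdConnected → (∀ z ∈ S, c z = z) →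
  (3 / 4 : ENNReal) ≤ μ.toOuterMeasure S →
  (27 / 32 : ENNReal) ≤ (μ.bind fun z1 => μ.bind fun z2 => μ.bind fun z3 =>
    PMF.pure (med3 (c z1) (c z2) (c z3))).toOuterMeasure S

def S_AP : Prop := ∀ (α : Type) [TEnc α] (g : α → ℕ), MainRed g →
  (∃ q : Polynomial ℕ, ∀ a, g a ≤ 2 ^ q.eval (sz a)) → APHard (strFn g)

/-- task AP2: the reduction machine (three equal queries, median) -/
def S_AP2 : Prop := S_AP1 → S_AP

/-- A randomised decision procedure for satisfiability with error probability at most `5/16`. -/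
def RandSat0 : Prop := ∃ (D : CNF ℕ × List Bool → Bool) (cl : CNF ℕ → ℕ), Poly D ∧ UPoly cl ∧
  ∀ φ R, cl φ ≤ R →
    16 * {r : List Bool | r.length = R ∧ ¬ (D (φ, r) = true ↔ 0 < satCount φ)}.ncard ≤ 5 * 2 ^ R

/-- A randomised decision procedure for satisfiability with error probability at most
`2 ^ (- |u|)`. -/
def RandSat : Prop := ∃ (D : CNF ℕ × List Unit × List Bool → Bool) (cl : CNF ℕ × List Unit → ℕ),
  Poly D ∧ UPoly cl ∧ ∀ (φ : CNF ℕ) (u : List Unit) (R : ℕ), cl (φ, u) ≤ R →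
    2 ^ u.length * {r : List Bool | r.length = R ∧
      ¬ (D (φ, u, r) = true ↔ 0 < satCount φ)}.ncard ≤ 2 ^ R

def S_R1 : Prop := ∀ (α : Type) [TEnc α] (g : α → ℕ), MainRed g → HasFPRAS (strFn g) → RandSat0
def S_R2 : Prop := RandSat0 → RandSat
def S_R3 : Prop := RandSat → ∀ L : Set (List Bool), InNP L → Pool.Agent.H579R2.Spt.InRP L

/-! ## From CNF formulas to graphs -/

/-- The negation of a literal. -/
def negl (l : Bool × ℕ) : Bool × ℕ := (!l.1, l.2)

/-- The groups of vertices: two vertices for each variable, and one vertex for each literal of each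
clause (saying that this is the first true literal of the clause).  A vertex is given by the list of
the literals it forces to be true. -/
def groups (φ : CNF ℕ) : List (List (List (Bool × ℕ))) :=
  ((φ.flatten.map Prod.snd).dedup.map (fun v => [[(true, v)], [(false, v)]])) ++
    φ.map (fun c => c.zipIdx.map (fun t => t.1 :: (c.take t.2).map negl))

/-- The vertices, with the number of their group. -/
def vts (φ : CNF ℕ) : List (ℕ × List (Bool × ℕ)) :=
  (groups φ).zipIdx.flatMap (fun t => t.1.map (fun F => (t.2, F)))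

/-- Two lists of literals contradict each other. -/
def conf (F F' : List (Bool × ℕ)) : Bool :=
  F.any (fun l => F'.any (fun l' => decide (l.2 = l'.2) && !decide (l.1 = l'.1)))

/-- The adjacency matrix: two vertices are adjacent if they belong to the same group or contradict
each other. -/
def adjM (φ : CNF ℕ) : List (List Bool) :=
  (vts φ).zipIdx.map (fun s => (vts φ).zipIdx.map (fun t =>
    !decide (s.2 = t.2) && (decide (s.1.1 = t.1.1) || conf s.1.2 t.1.2)))

/-- The entries of a matrix. -/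
def adjOf (A : List (List Bool)) (u v : ℕ) : Bool := (A.getD u []).getD v false

/-- The independent sets of a graph on `Fin n`. -/
def indF (n : ℕ) (adj : ℕ → ℕ → Bool) : Finset (Finset (Fin n)) :=
  univ.filter (fun I => ∀ u ∈ I, ∀ v ∈ I, adj u v = false)

/-- task G: independent sets of maximal size correspond to satisfying assignments -/
def S_G : Prop := ∀ φ : CNF ℕ,
  (∀ I ∈ indF (vts φ).length (adjOf (adjM φ)), I.card ≤ (groups φ).length) ∧
  ((indF (vts φ).length (adjOf (adjM φ))).filter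
    (fun I => I.card = (groups φ).length)).card = satCount φ

/-! ## Probability: random forms -/

/-- The normalised weights of the gadget. -/
noncomputable def gz (k : ℕ) : Bool → Bool → ℝ
  | false, false => 1
  | true, false => 2 * k / (k ^ 2 + 1)
  | false, true => 2 / (k ^ 2 + 1)
  | true, true => 2 / (k * (k ^ 2 + 1))

/-- The inner product modulo 2. -/
def ipF {M : ℕ} (l x : Fin M → Bool) : Bool :=
  decide ((univ.filter (fun j => l j = true ∧ x j = true)).card % 2 = 1)

/-- The tuples of forms. -/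
abbrev Fm (n M L : ℕ) : Type := Fin n → Fin n → Fin L → Bool → (Fin M → Bool)

/-- The configurations. -/
abbrev Cf (n M : ℕ) : Type := Fin n → (Fin M → Bool)

/-- The (normalised) weight of the configuration `g`. -/
noncomputable def term (k : ℕ) {n M L : ℕ} (adj : ℕ → ℕ → Bool) (F : Fm n M L) (g : Cf n M) : ℝ :=
  (∏ v, ∏ j, gz k (g v j) false) *
  ∏ u : Fin n, ∏ v : Fin n, ∏ i : Fin L,
    (if adj u v = true then gz k (ipF (F u v i false) (g u)) (ipF (F u v i true) (g v))
     else gz k (ipF (F u v i false) (g u)) false * gz k false (ipF (F u v i true) (g v)))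

/-- The support of a configuration. -/
def supp {n M : ℕ} (g : Cf n M) : Finset (Fin n) := univ.filter (fun v => g v ≠ fun _ => false)

/-- The part of the partition function with support `I`. -/
noncomputable def Zp (k : ℕ) {n M L : ℕ} (adj : ℕ → ℕ → Bool) (I : Finset (Fin n))
    (F : Fm n M L) : ℝ :=
  ∑ g ∈ univ.filter (fun g : Cf n M => supp g = I), term k adj F g

/-- The partition function. -/
noncomputable def Zt (k : ℕ) {n M L : ℕ} (adj : ℕ → ℕ → Bool) (F : Fm n M L) : ℝ :=
  ∑ g : Cf n M, term k adj F g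

/-- The effective fugacity. -/
noncomputable def lam (k n M L : ℕ) : ℝ :=
  ((1 + 2 * k / (k ^ 2 + 1)) ^ M - 1) *
    (((1 + 2 * k / (k ^ 2 + 1)) / 2) * ((1 + 2 / (k ^ 2 + 1)) / 2)) ^ (n * L)

/-- The effective weight of an edge. -/
noncomputable def rho (k : ℕ) : ℝ := 1 - 2 * (k - 1) / (k * (k + 1) * (k ^ 2 + 3))

/-- The number of ordered adjacent pairs in `I`. -/
def eI {n : ℕ} (adj : ℕ → ℕ → Bool) (I : Finset (Fin n)) : ℕ :=
  ((I ×ˢ I).filter (fun p => adj p.1 p.2 = true)).card

/-- task P1: expectation -/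
def S_P1 : Prop := ∀ (k n M L : ℕ) (adj : ℕ → ℕ → Bool) (I : Finset (Fin n)), 2 ≤ k →
  ∑ F : Fm n M L, Zp k adj I F =
    2 ^ (2 * n ^ 2 * L * M) * lam k n M L ^ I.card * rho k ^ (L * eI adj I)

/-- The contribution of a vertex. -/
noncomputable def Wv (k : ℕ) {n M L : ℕ} (v : Fin n) (F : Fm n M L) : ℝ :=
  ∑ x ∈ univ.filter (fun x : Fin M → Bool => x ≠ fun _ => false),
    (∏ j, gz k (x j) false) * ((∏ u : Fin n, ∏ i, gz k (ipF (F v u i false) x) false) *
      ∏ u : Fin n, ∏ i, gz k false (ipF (F u v i true) x))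

/-- task P2: second moment -/
def S_P2 : Prop := ∀ (k n M L : ℕ) (v : Fin n), 2 ≤ k →
  ∑ F : Fm n M L, (Wv k v F - lam k n M L) ^ 2 ≤
    2 ^ (2 * n ^ 2 * L * M) * ((1 + (2 * k / (k ^ 2 + 1) : ℝ) ^ 2) ^ M *
      (((1 + (2 * k / (k ^ 2 + 1) : ℝ) ^ 2) / 2) *
        ((1 + (2 / (k ^ 2 + 1) : ℝ) ^ 2) / 2)) ^ (n * L))

/-- task P3: factorisation for independent sets -/
def S_P3 : Prop := ∀ (k n M L : ℕ) (adj : ℕ → ℕ → Bool) (I : Finset (Fin n)) (F : Fm n M L),
  I ∈ indF n adj → Zp k adj I F = ∏ v ∈ I, Wv k v F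

/-- task P4: the configurations whose support is not an independent set of size `s` -/
def S_P4 : Prop := ∀ (k n M L s : ℕ) (adj : ℕ → ℕ → Bool) (η : ℝ), 2 ≤ k → 0 < η →
  1 ≤ lam k n M L → (∀ I ∈ indF n adj, I.card ≤ s) →
  ({F : Fm n M L | η * lam k n M L ^ s <
      ∑ I ∈ univ.filter (fun I : Finset (Fin n) => ¬ (I ∈ indF n adj ∧ I.card = s)),
        Zp k adj I F}.ncard : ℝ) * η ≤
    2 ^ (2 * n ^ 2 * L * M) *
      (2 ^ n / lam k n M L + 2 ^ n * lam k n M L ^ n * rho k ^ L)

/-- task P5: Chebyshev -/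
def S_P5 : Prop := ∀ (k n M L : ℕ) (v : Fin n) (δ : ℝ), 2 ≤ k → 0 < δ → 1 ≤ lam k n M L →
  ({F : Fm n M L | δ * lam k n M L < |Wv k v F - lam k n M L|}.ncard : ℝ) *
    (δ ^ 2 * lam k n M L) ≤ 2 ^ (2 * n ^ 2 * L * M) * 2

/-- task P6: the deterministic estimate on the good event -/
def S_P6 : Prop := ∀ (k n M L s N : ℕ) (adj : ℕ → ℕ → Bool) (F : Fm n M L), 2 ≤ k → 1 ≤ N →
  1 ≤ lam k n M L →
  (∀ v, |Wv k v F - lam k n M L| ≤ 1 / (64 * N * (n + 1)) * lam k n M L) →
  (∑ I ∈ univ.filter (fun I : Finset (Fin n) => ¬ (I ∈ indF n adj ∧ I.card = s)),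
    Zp k adj I F ≤ 1 / (64 * N) * lam k n M L ^ s) →
  (1 - 1 / (64 * (N : ℝ))) * (((indF n adj).filter (fun I => I.card = s)).card : ℝ) *
      lam k n M L ^ s ≤ Zt k adj F ∧
  Zt k adj F ≤ (Real.exp (1 / (64 * (N : ℝ))) *
    (((indF n adj).filter (fun I => I.card = s)).card : ℝ) + 1 / (64 * N)) * lam k n M L ^ s

/-- The exponent of the lower bound of the fugacity. -/
def TT (n N : ℕ) : ℕ := 3 * n + 2 * N + 20

/-- The number of gadgets for each pair of vertices. -/
def LL (k n N : ℕ) : ℕ := k * (k + 1) * (k ^ 2 + 3) * (n * (TT n N + 3) + N + 12)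

/-- task P7: numerics -/
def S_P7 : Prop := ∀ (k n N : ℕ) (lm : ℝ), 2 ≤ k → 1 ≤ N → (2 : ℝ) ^ TT n N ≤ lm →
  lm ≤ 2 ^ (TT n N + 2) →
  n * (2 * (64 * N * (n + 1)) ^ 2 / lm) +
    64 * N * (2 ^ n / lm + 2 ^ n * lm ^ n * rho k ^ LL k n N) ≤ 1 / 16

/-- task P: concentration -/
def S_P : Prop := ∀ (k n M N s : ℕ) (adj : ℕ → ℕ → Bool), 2 ≤ k → 1 ≤ N →
  (∀ I ∈ indF n adj, I.card ≤ s) → (2 : ℝ) ^ TT n N ≤ lam k n M (LL k n N) →
  lam k n M (LL k n N) ≤ 2 ^ (TT n N + 2) →
  15 * 2 ^ (2 * n ^ 2 * LL k n N * M) ≤ 16 * {F : Fm n M (LL k n N) |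
    (1 - 1 / (64 * (N : ℝ))) * (((indF n adj).filter (fun I => I.card = s)).card : ℝ) *
      lam k n M (LL k n N) ^ s ≤ Zt k adj F ∧
    Zt k adj F ≤ (Real.exp (1 / (64 * (N : ℝ))) *
      (((indF n adj).filter (fun I => I.card = s)).card : ℝ) + 1 / (64 * N)) *
        lam k n M (LL k n N) ^ s}.ncard

/-- task P4i: P4 from P1 (Markov) -/
def S_P4i : Prop := S_P1 → S_P4

/-- task P5i: P5 from P2 (Chebyshev) -/
def S_P5i : Prop := S_P2 → S_P5

/-- task P6i: P6 from P3 -/
def S_P6i : Prop := S_P3 → S_P6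

/-- task Pasm: union bound -/
def S_Pasm : Prop := S_P4 → S_P5 → S_P6 → S_P7 → S_P

/-! ## The gadget lists -/

/-- The unnormalised weights of the gadget. -/
def wt (k : ℕ) : Bool → Bool → ℕ
  | false, false => k ^ 4 + k ^ 2
  | true, false => 2 * k ^ 3
  | false, true => 2 * k ^ 2
  | true, true => 2 * k

/-- The value of the linear form `l` at `x`. -/
def ipL (l : List Bool) {N : ℕ} (x : Fin N → Bool) : Bool :=
  decide ((univ.filter (fun j : Fin N => l.getD j false = true ∧ x j = true)).card % 2 = 1)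

/-- The partition function of a list of gadgets. -/
def Zl (k N : ℕ) (gs : List (List Bool × List Bool)) : ℕ :=
  ∑ x : Fin N → Bool, (gs.map (fun t => wt k (ipL t.1 x) (ipL t.2 x))).prod

/-- The `c`-th block of `M` bits of `r`, shifted to position `off`. -/
def bvec (M off : ℕ) (r : List Bool) (c : ℕ) : List Bool :=
  List.replicate off false ++ (r.drop (c * M)).take M

/-- The gadgets of the graph with adjacency matrix `A`. -/
def gsOf (n M L : ℕ) (A : List (List Bool)) (r : List Bool) : List (List Bool × List Bool) :=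
  (List.range (n * M)).map (fun j => (List.replicate j false ++ [true], [])) ++
  (List.range n).flatMap (fun u => (List.range n).flatMap (fun v =>
    (List.range L).flatMap (fun i =>
      if adjOf A u v = true then
        [(bvec M (u * M) r (2 * ((u * n + v) * L + i)),
          bvec M (v * M) r (2 * ((u * n + v) * L + i) + 1))]
      else
        [(bvec M (u * M) r (2 * ((u * n + v) * L + i)), []),
          ([], bvec M (v * M) r (2 * ((u * n + v) * L + i) + 1))])))

/-- The forms read off from a bit string. -/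
def FL (n M L : ℕ) (r : List Bool) : Fm n M L := fun u v i b j =>
  r.getD ((2 * (((u : ℕ) * n + v) * L + i) + b.toNat) * M + j) false

/-- task L1 -/
def S_L1 : Prop := ∀ (k n M L : ℕ) (A : List (List Bool)) (r : List Bool), 2 ≤ k →
  (Zl k (n * M) (gsOf n M L A r) : ℝ) =
    ((k : ℝ) ^ 4 + k ^ 2) ^ (gsOf n M L A r).length * Zt k (adjOf A) (FL n M L r)

/-- task L2 -/
def S_L2 : Prop := ∀ (n M L R : ℕ) (P : Fm n M L → Prop), 2 * n ^ 2 * L * M ≤ R →
  {r : List Bool | r.length = R ∧ P (FL n M L r)}.ncard * 2 ^ (2 * n ^ 2 * L * M) =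
    2 ^ R * {F : Fm n M L | P F}.ncard

/-- task L3 -/
def S_L3 : Prop := ∀ (n M L : ℕ) (A : List (List Bool)) (r : List Bool),
  (gsOf n M L A r).length = (gsOf n M L A []).length ∧
  ∀ j < n * M, (List.replicate j false ++ [true], []) ∈ gsOf n M L A r

/-! ## The permutation group -/

/-- The elements of the dihedral group of order 8 acting on four points. -/
def d4 (p q c : Bool) : Equiv.Perm (Bool × Bool) where
  toFun y := (xor y.1 q, xor (xor y.2 c) (p && !y.1))
  invFun y := (xor y.1 q, xor (xor y.2 c) (p && !(xor y.1 q)))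
  left_inv := by revert p q c; decide
  right_inv := by revert p q c; decide

/-- The action on `G` blocks of four points. -/
def act {G : ℕ} (P Q C : Fin G → Bool) : Equiv.Perm (Fin G × Bool × Bool) where
  toFun y := (y.1, d4 (P y.1) (Q y.1) (C y.1) y.2)
  invFun y := (y.1, (d4 (P y.1) (Q y.1) (C y.1)).symm y.2)
  left_inv y := by simp
  right_inv y := by simp

/-- The values of `d4 p q c` on a block starting at `b`. -/
def loc (p q c : Bool) (b : ℕ) : List ℕ :=
  [b + 2 * q.toNat + (xor c p).toNat, b + 2 * q.toNat + (!(xor c p)).toNat,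
    b + 2 * (!q).toNat + c.toNat, b + 2 * (!q).toNat + (!c).toNat]

/-- The list of values of the generator belonging to the `j`-th variable. -/
def genVar (gs : List (List Bool × List Bool)) (j : ℕ) : List ℕ :=
  gs.zipIdx.flatMap (fun t => loc (t.1.1.getD j false) (t.1.2.getD j false) false (4 * t.2))

/-- The list of values of the central involution of the `i`-th of `G` blocks. -/
def genCen (G i : ℕ) : List ℕ :=
  (List.range G).flatMap (fun t => loc false false (decide (t = i)) (4 * t))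

/-- The instance of #PolyaOrbits. -/
def instOf (N : ℕ) (gs : List (List Bool × List Bool)) : List Unit × List (List ℕ) :=
  (List.replicate (4 * gs.length) (),
    (List.range N).map (genVar gs) ++ (List.range gs.length).map (genCen gs.length))

/-- task K1: the number of fixed words -/
def S_K1 : Prop := ∀ (k m : ℕ) (σ : Equiv.Perm (Fin m)),
  (univ.filter (fun w : Fin m → Fin k => ∀ i, w (σ i) = w i)).card = k ^ numCycles σ

/-- The bits of the forms of the gadgets. -/
def PX {N : ℕ} (gs : List (List Bool × List Bool)) (x : Fin N → Bool) (i : Fin gs.length) : Bool :=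
  ipL (gs.get i).1 x

/-- The bits of the forms of the gadgets. -/
def QX {N : ℕ} (gs : List (List Bool × List Bool)) (x : Fin N → Bool) (i : Fin gs.length) : Bool :=
  ipL (gs.get i).2 x

/-- task K2: the group generated -/
def S_K2 : Prop := ∀ (N : ℕ) (gs : List (List Bool × List Bool)),
  (Subgroup.closure
    (Set.range (fun j : Fin N => act (PX gs (fun j' => decide (j' = j)))
      (QX gs (fun j' => decide (j' = j))) (fun _ => false)) ∪
     Set.range (fun i : Fin gs.length => act (fun _ => false) (fun _ => false)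
      (fun i' => decide (i' = i)))) : Set (Equiv.Perm (Fin gs.length × Bool × Bool))) =
  Set.range (fun p : (Fin N → Bool) × (Fin gs.length → Bool) => act (PX gs p.1) (QX gs p.1) p.2)

/-- task K3: the sum over the group -/
def S_K3 : Prop := ∀ (k N : ℕ) (gs : List (List Bool × List Bool)),
  ∑ p : (Fin N → Bool) × (Fin gs.length → Bool),
    (univ.filter (fun w : Fin gs.length × Bool × Bool → Fin k =>
      ∀ y, w (act (PX gs p.1) (QX gs p.1) p.2 y) = w y)).card = Zl k N gs

/-- The numbering of the points. -/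
def toF (G : ℕ) (y : Fin G × Bool × Bool) : Fin (4 * G) :=
  ⟨4 * y.1 + 2 * y.2.1.toNat + y.2.2.toNat, by
    have h1 := y.1.isLt
    have h2 := Bool.toNat_le y.2.1
    have h3 := Bool.toNat_le y.2.2
    omega⟩

/-- task K4: codes -/
def S_K4 : Prop := ∀ (G : ℕ), ∃ e : (Fin G × Bool × Bool) ≃ Fin (4 * G), (∀ y, e y = toF G y) ∧
  ∀ P Q C : Fin G → Bool, code (e.permCongr (act P Q C)) =
    (List.finRange G).flatMap (fun i => loc (P i) (Q i) (C i) (4 * i))

/-- task K: the core identity -/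
def S_K : Prop := ∀ (k N : ℕ) (gs : List (List Bool × List Bool)),
  (∀ j < N, (List.replicate j false ++ [true], []) ∈ gs) → polya k (instOf N gs) = Zl k N gs

def S_Kasm : Prop := S_K1 → S_K2 → S_K3 → S_K4 → S_K

/-! ## Parameters and rounding -/

/-- Numerator of the fugacity. -/
def numL (k n L M : ℕ) : ℕ :=
  ((k + 1) ^ (2 * M) - (k ^ 2 + 1) ^ M) * ((k + 1) ^ 2 * (k ^ 2 + 3)) ^ (n * L)

/-- Denominator of the fugacity. -/
def denL (k n L M : ℕ) : ℕ := (k ^ 2 + 1) ^ M * (4 * (k ^ 2 + 1) ^ 2) ^ (n * L)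

/-- The dimension of the blocks: the least `M` such that the fugacity is at least `2 ^ T`. -/
def MM (k n N : ℕ) : ℕ :=
  ((List.range (k * (TT n N + 2 * n * LL k n N + 1) + 1)).filter (fun M =>
    decide (numL k n (LL k n N) M < 2 ^ TT n N * denL k n (LL k n N) M))).length

/-- task Q1 -/
def S_Q1 : Prop := ∀ (k n N : ℕ), 2 ≤ k → (2 : ℝ) ^ TT n N ≤ lam k n (MM k n N) (LL k n N) ∧
  lam k n (MM k n N) (LL k n N) ≤ 2 ^ (TT n N + 2)

/-- task Q2 -/
def S_Q2 : Prop := ∀ (k n L M : ℕ), 2 ≤ k →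
  0 < denL k n L M ∧ lam k n M L = (numL k n L M : ℝ) / denL k n L M

/-- task Q3 -/
def S_Q3 : Prop := ∀ (N h a b X E : ℕ) (Z : ℝ), 1 ≤ N → 0 < X → 0 < E → 0 < Z →
  (1 - 1 / (64 * (N : ℝ))) * h * ((X : ℝ) / E) ≤ Z →
  Z ≤ (Real.exp (1 / (64 * (N : ℝ))) * h + 1 / (64 * N)) * ((X : ℝ) / E) →
  Good (64 * N) ((a : ℝ) / b) Z →
  Good N (((2 * a * E + b * X) / (2 * b * X) : ℕ) : ℝ) h

/-- The normalising constant. -/
def XX (k : ℕ) (φ : CNF ℕ) (N : ℕ) : ℕ :=
  (k ^ 4 + k ^ 2) ^ (gsOf (vts φ).length (MM k (vts φ).length N) (LL k (vts φ).length N)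
    (adjM φ) []).length *
  numL k (vts φ).length (LL k (vts φ).length N) (MM k (vts φ).length N) ^ (groups φ).length

/-- The denominator of the normalising constant. -/
def EE (k : ℕ) (φ : CNF ℕ) (N : ℕ) : ℕ :=
  denL k (vts φ).length (LL k (vts φ).length N) (MM k (vts φ).length N) ^ (groups φ).length

/-- The computation of the approximate number of satisfying assignments. -/
def postF (k : ℕ) (s : CNF ℕ × List Unit × ℕ × ℕ) : ℕ :=
  (2 * s.2.2.1 * EE k s.1 s.2.1.length + s.2.2.2 * XX k s.1 s.2.1.length) /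
    (2 * s.2.2.2 * XX k s.1 s.2.1.length)

/-- The number of random bits. -/
def clF (k : ℕ) (s : CNF ℕ × List Unit) : ℕ :=
  2 * (vts s.1).length ^ 2 * LL k (vts s.1).length s.2.length * MM k (vts s.1).length s.2.length

/-- The instance of #PolyaOrbits. -/
def instF (k : ℕ) (s : CNF ℕ × List Unit × List Bool) : List Unit × List (List ℕ) :=
  instOf ((vts s.1).length * MM k (vts s.1).length s.2.1.length)
    (gsOf (vts s.1).length (MM k (vts s.1).length s.2.1.length)
      (LL k (vts s.1).length s.2.1.length) (adjM s.1) s.2.2)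

/-! ## Polynomial time -/

/-- task Y1 -/
def S_Y1 : Prop := Poly groups ∧ Poly vts ∧ Poly adjM

/-- task Y2 -/
def S_Y2 : Prop := ∀ (α : Type) [TEnc α] (N : α → ℕ) (gs : α → List (List Bool × List Bool)),
  UPoly N → Poly gs → Poly (fun a => instOf (N a) (gs a))

/-- task Y3 -/
def S_Y3 : Prop := ∀ (α : Type) [TEnc α] (n M L : α → ℕ) (A : α → List (List Bool))
  (r : α → List Bool), UPoly n → UPoly M → UPoly L → Poly A → Poly r →
  Poly (fun a => gsOf (n a) (M a) (L a) (A a) (r a))

/-- task Y4 -/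
def S_Y4 : Prop := ∀ (k : ℕ) (α : Type) [TEnc α] (n N : α → ℕ), UPoly n → UPoly N →
  UPoly (fun a => LL k (n a) (N a)) ∧ UPoly (fun a => MM k (n a) (N a))

/-- task Y5 -/
def S_Y5 : Prop := ∀ (k : ℕ) (α : Type) [TEnc α] (n L M : α → ℕ), UPoly n → UPoly L → UPoly M →
  Poly (fun a => numL k (n a) (L a) (M a)) ∧ Poly (fun a => denL k (n a) (L a) (M a))

/-- task Y6: powers -/
def S_Y6 : Prop := ∀ (α : Type) [TEnc α] (b e : α → ℕ), Poly b → UPoly e →
  Poly (fun a => b a ^ e a)

/-- task Y -/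
def S_Y : Prop := ∀ k : ℕ, Poly (instF k) ∧ UPoly (clF k) ∧ Poly (postF k)

def S_Yasm : Prop := S_Y1 → S_Y2 → S_Y3 → S_Y4 → S_Y5 → S_Y6 → S_Y

/-- task SZ: size bound -/
def S_SZ : Prop := ∀ k : ℕ, ∃ q : Polynomial ℕ, ∀ a, polya k a ≤ 2 ^ q.eval (sz a)

/-- task M: the main reduction -/
def S_M : Prop := ∀ k : ℕ, 2 ≤ k → MainRed (polya k)

def S_Masm : Prop := S_G → S_P → S_L1 → S_L2 → S_L3 → S_K → S_Q1 → S_Q2 → S_Q3 → S_Y → S_M

/-! ## The final statements -/

def F1 : Prop := ∀ k : ℕ, 2 ≤ k → APHard (strFn (polya k))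

def F2 : Prop := ∀ k : ℕ, 2 ≤ k → HasFPRAS (strFn (polya k)) →
  ∀ L : Set (List Bool), InNP L → Pool.Agent.H579R2.Spt.InRP L

theorem final1 (hM : S_M) (hSZ : S_SZ) (hAP : S_AP) : F1 := fun k hk =>
  hAP _ (polya k) (hM k hk) (hSZ k)

theorem final2 (hM : S_M) (h1 : S_R1) (h2 : S_R2) (h3 : S_R3) : F2 := fun k hk hF =>
  h3 (h2 (h1 _ (polya k) (hM k hk) hF))

end Pool.Agent.H49R2.PY
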