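import Pool.Agent.H49R2.PY.Stubs

/-!
# AP1: the median of three answers (helper903)
-/

namespace Pool.Agent.H49R2.PY

theorem AP1_bind (μ : PMF ℕ) (S T : Set ℕ) (f : ℕ → PMF ℕ) (a b : ENNReal)
    (ha : ∀ z ∈ S, a ≤ (f z).toOuterMeasure T) (hb : ∀ z ∉ S, b ≤ (f z).toOuterMeasure T) :
    μ.toOuterMeasure S * a + μ.toOuterMeasure Sᶜ * b ≤ (μ.bind f).toOuterMeasure T := by
  classical
  rw [PMF.toOuterMeasure_bind_apply, PMF.toOuterMeasure_apply, PMF.toOuterMeasure_apply,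
    ← ENNReal.tsum_mul_right, ← ENNReal.tsum_mul_right, ← ENNReal.tsum_add]
  refine ENNReal.tsum_le_tsum fun z => ?_
  by_cases hz : z ∈ S
  · have h1 : z ∉ Sᶜ := fun h => h hz
    rw [Set.indicator_of_mem hz, Set.indicator_of_notMem h1, zero_mul, add_zero]
    gcongr
    exact ha z hz
  · have h1 : z ∈ Sᶜ := hz
    rw [Set.indicator_of_notMem hz, Set.indicator_of_mem h1, zero_mul, zero_add]
    gcongr
    exact hb z hz

theorem AP1_compl (μ : PMF ℕ) (S : Set ℕ) : μ.toOuterMeasure S + μ.toOuterMeasure Sᶜ = 1 := by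
  rw [PMF.toOuterMeasure_apply, PMF.toOuterMeasure_apply, ← ENNReal.tsum_add, ← μ.tsum_coe]
  congr 1
  funext z
  exact congrFun (Set.indicator_self_add_compl S μ) z

theorem AP1_med {S : Set ℕ} (hS : S.OrdConnected) {x y : ℕ} (hx : x ∈ S) (hy : y ∈ S) (z : ℕ)
    (h1 : min x y ≤ z) (h2 : z ≤ max x y) : z ∈ S := by
  refine hS.out (x := min x y) (y := max x y) ?_ ?_ ⟨h1, h2⟩
  · rcases min_choice x y with h | h <;> rw [h] <;> assumption
  · rcases max_choice x y with h | h <;> rw [h] <;> assumption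

theorem AP1_num (P Q : ENNReal) (hPQ : P + Q = 1) (hP : (3 / 4 : ENNReal) ≤ P) :
    (27 / 32 : ENNReal) ≤ P * (P * 1 + Q * P) + Q * (P * P + Q * 0) := by
  have hP1 : P ≠ ⊤ := by
    intro h
    rw [h] at hPQ
    simp at hPQ
  have hQ1 : Q ≠ ⊤ := by
    intro h
    rw [h] at hPQ
    simp at hPQ
  lift P to NNReal using hP1
  lift Q to NNReal using hQ1
  have h1 : P + Q = 1 := by exact_mod_cast hPQ
  have e34 : (3 / 4 : ENNReal) = ((3 / 4 : NNReal) : ENNReal) := by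
    rw [ENNReal.coe_div (by norm_num)]; norm_num
  have e27 : (27 / 32 : ENNReal) = ((27 / 32 : NNReal) : ENNReal) := by
    rw [ENNReal.coe_div (by norm_num)]; norm_num
  rw [e34, ENNReal.coe_le_coe] at hP
  rw [e27]
  have h2 : (27 / 32 : NNReal) ≤ P * (P * 1 + Q * P) + Q * (P * P + Q * 0) := by
    rw [← NNReal.coe_le_coe] at hP ⊢
    have h1' : (P : ℝ) + Q = 1 := by exact_mod_cast h1
    push_cast at hP ⊢
    have hQ : (Q : ℝ) = 1 - P := by linarith
    rw [hQ]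
    have hp1 : (P : ℝ) ≤ 1 := by have := Q.coe_nonneg; linarith
    nlinarith [mul_nonneg (sub_nonneg.2 hP) (sub_nonneg.2 hP), mul_nonneg (sub_nonneg.2 hP) (sub_nonneg.2 hp1),
      mul_nonneg (mul_nonneg (sub_nonneg.2 hP) (sub_nonneg.2 hp1)) P.coe_nonneg]
  exact_mod_cast h2

theorem AP1_ok : S_AP1 := by
  intro μ S c hS hc hμ
  have hPQ := AP1_compl μ S
  set P := μ.toOuterMeasure S with hPdef
  set Q := μ.toOuterMeasure Sᶜ with hQdef
  have hpure : ∀ x : ℕ, x ∈ S → (1 : ENNReal) ≤ (PMF.pure x).toOuterMeasure S := by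
    intro x hx
    rw [PMF.toOuterMeasure_pure_apply, if_pos hx]
  -- the third level
  have l3a : ∀ z1 ∈ S, ∀ z2 ∈ S, (1 : ENNReal) ≤ (μ.bind fun z3 =>
      PMF.pure (med3 (c z1) (c z2) (c z3))).toOuterMeasure S := by
    intro z1 h1 z2 h2
    have h := AP1_bind μ S S (fun z3 => PMF.pure (med3 (c z1) (c z2) (c z3))) 1 1 ?_ ?_
    · rw [mul_one, mul_one, hPQ] at h
      exact h
    all_goals
      intro z3 _
      refine hpure _ (AP1_med hS h1 h2 _ ?_ ?_) <;> rw [hc z1 h1, hc z2 h2] <;> unfold med3 <;> omega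
  have l3b : ∀ z1 ∈ S, ∀ z2, P ≤ (μ.bind fun z3 =>
      PMF.pure (med3 (c z1) (c z2) (c z3))).toOuterMeasure S := by
    intro z1 h1 z2
    have h := AP1_bind μ S S (fun z3 => PMF.pure (med3 (c z1) (c z2) (c z3))) 1 0 ?_
      (fun _ _ => zero_le)
    · rw [mul_one, mul_zero, add_zero] at h
      exact h
    · intro z3 h3
      refine hpure _ (AP1_med hS h1 h3 _ ?_ ?_) <;> rw [hc z1 h1, hc z3 h3] <;> unfold med3 <;> omega
  have l3c : ∀ z1, ∀ z2 ∈ S, P ≤ (μ.bind fun z3 =>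
      PMF.pure (med3 (c z1) (c z2) (c z3))).toOuterMeasure S := by
    intro z1 z2 h2
    have h := AP1_bind μ S S (fun z3 => PMF.pure (med3 (c z1) (c z2) (c z3))) 1 0 ?_
      (fun _ _ => zero_le)
    · rw [mul_one, mul_zero, add_zero] at h
      exact h
    · intro z3 h3
      refine hpure _ (AP1_med hS h2 h3 _ ?_ ?_) <;> rw [hc z2 h2, hc z3 h3] <;> unfold med3 <;> omega
  -- the second level
  have l2a : ∀ z1 ∈ S, P * 1 + Q * P ≤ (μ.bind fun z2 => μ.bind fun z3 =>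
      PMF.pure (med3 (c z1) (c z2) (c z3))).toOuterMeasure S := by
    intro z1 h1
    exact AP1_bind μ S S _ 1 P (fun z2 h2 => l3a z1 h1 z2 h2) (fun z2 _ => l3b z1 h1 z2)
  have l2b : ∀ z1, P * P + Q * 0 ≤ (μ.bind fun z2 => μ.bind fun z3 =>
      PMF.pure (med3 (c z1) (c z2) (c z3))).toOuterMeasure S := by
    intro z1
    exact AP1_bind μ S S _ P 0 (fun z2 h2 => l3c z1 z2 h2) (fun z2 _ => zero_le)
  exact (AP1_num P Q hPQ hμ).trans
    (AP1_bind μ S S _ (P * 1 + Q * P) (P * P + Q * 0) (fun z1 h1 => l2a z1 h1) (fun z1 _ => l2b z1))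

end Pool.Agent.H49R2.PY
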