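import Pool.Agent.H49R2.PY.Stubs

/-!
# #PolyaOrbits: the approximation-preserving reduction machine (task AP2)
-/

namespace Pool.Agent.H49R2.PY

open Pool.Agent.NPC Pool.Agent.NPC.Cnt Finset

namespace AP2aux

/-- The first `n` bits of `r`. -/
def tk (n : ℕ) (r : List Bool) : List Bool := (List.range n).map (fun i => r.getD i false)

theorem tk_length (n : ℕ) (r : List Bool) : (tk n r).length = n := by simp [tk]

theorem tk_ofFn_append {m k : ℕ} (a : Fin m → Bool) (b : Fin k → Bool) :
    tk m (List.ofFn (Fin.append a b)) = List.ofFn a := by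
  apply List.ext_getElem
  · simp [tk]
  · intro i h1 h2
    have hi : i < m := by simpa [tk] using h1
    have e : (⟨i, by omega⟩ : Fin (m + k)) = Fin.castAdd k ⟨i, hi⟩ := rfl
    simp only [tk, List.getElem_map, List.getElem_range, List.getElem_ofFn]
    rw [List.getD_eq_getElem _ _ (by simp; omega), List.getElem_ofFn, e, Fin.append_left]

theorem poly_tk {α : Type} [TEnc α] {n : α → ℕ} {r : α → List Bool} (hn : UPoly n) (hr : Poly r) :
    Poly (fun a => tk (n a) (r a)) :=
  NPC.Poly.map (F := fun a i => (r a).getD i false) hn.range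
    (NPC.Poly.getD (hr.comp (NPC.Poly.fst NPC.Poly.id)) (NPC.Poly.snd NPC.Poly.id)
      (NPC.Poly.const false))

theorem count_tk (R K : ℕ) (P : List Bool → Prop) :
    2 ^ K * {r : List Bool | r.length = R ∧ P r}.ncard ≤
      {f : Fin (R + K) → Bool | P (tk R (List.ofFn f))}.ncard := by
  classical
  have h1 : {r : List Bool | r.length = R ∧ P r}.ncard ≤
      {a : Fin R → Bool | P (List.ofFn a)}.ncard := by
    have hsub : {r : List Bool | r.length = R ∧ P r} ⊆
        (fun a : Fin R → Bool => List.ofFn a) '' {a : Fin R → Bool | P (List.ofFn a)} := by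
      rintro r ⟨rfl, hP⟩
      exact ⟨fun i => r.get i, by simpa using hP, by simp⟩
    refine (Set.ncard_le_ncard hsub (Set.toFinite _)).trans (Set.ncard_image_le (Set.toFinite _))
  have h2 : 2 ^ K * {a : Fin R → Bool | P (List.ofFn a)}.ncard =
      ({a : Fin R → Bool | P (List.ofFn a)} ×ˢ (Set.univ : Set (Fin K → Bool))).ncard := by
    rw [Set.ncard_prod, Set.ncard_univ, Nat.card_eq_fintype_card, Fintype.card_fun]
    simp [mul_comm]
  have hinj : Function.Injective (fun p : (Fin R → Bool) × (Fin K → Bool) =>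
      (Fin.append p.1 p.2 : Fin (R + K) → Bool)) := by
    rintro ⟨a, b⟩ ⟨a', b'⟩ h
    simp only at h
    refine Prod.ext (funext fun i => ?_) (funext fun i => ?_)
    · have := congrFun h (Fin.castAdd K i)
      simpa using this
    · have := congrFun h (Fin.natAdd R i)
      simpa using this
  have h3 : ({a : Fin R → Bool | P (List.ofFn a)} ×ˢ (Set.univ : Set (Fin K → Bool))).ncard ≤
      {f : Fin (R + K) → Bool | P (tk R (List.ofFn f))}.ncard := by
    rw [← Set.ncard_image_of_injective _ hinj]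
    refine Set.ncard_le_ncard ?_ (Set.toFinite _)
    rintro f ⟨⟨a, b⟩, ⟨ha, -⟩, rfl⟩
    simp only [Set.mem_ofPred_eq] at ha ⊢
    rw [tk_ofFn_append]
    exact ha
  calc 2 ^ K * {r : List Bool | r.length = R ∧ P r}.ncard
      ≤ 2 ^ K * {a : Fin R → Bool | P (List.ofFn a)}.ncard := Nat.mul_le_mul_left _ h1
    _ ≤ _ := h2.trans_le h3

theorem pmf_lower {ι β : Type} [Fintype ι] [Nonempty ι] (f : ι → PMF β) (S : Set β) (G : Set ι)
    (c : ENNReal) (h : ∀ i ∈ G, c ≤ (f i).toOuterMeasure S) :
    (Fintype.card ι : ENNReal)⁻¹ * (G.ncard * c) ≤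
      ((PMF.uniformOfFintype ι).bind f).toOuterMeasure S := by
  classical
  rw [PMF.toOuterMeasure_bind_apply, tsum_fintype]
  have h1 : (Fintype.card ι : ENNReal)⁻¹ * (G.ncard * c) =
      ∑ i ∈ univ.filter (fun i => i ∈ G), (Fintype.card ι : ENNReal)⁻¹ * c := by
    rw [Finset.sum_const, Set.ncard_eq_toFinset_card', nsmul_eq_mul]
    have : G.toFinset = univ.filter (fun i => i ∈ G) := by ext; simp
    rw [this]
    ring
  rw [h1]
  calc ∑ i ∈ univ.filter (fun i => i ∈ G), (Fintype.card ι : ENNReal)⁻¹ * c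
      ≤ ∑ i ∈ univ.filter (fun i => i ∈ G),
        (PMF.uniformOfFintype ι) i * (f i).toOuterMeasure S := by
        refine Finset.sum_le_sum fun i hi => ?_
        rw [PMF.uniformOfFintype_apply]
        gcongr
        exact h i (by simpa using hi)
    _ ≤ ∑ i, (PMF.uniformOfFintype ι) i * (f i).toOuterMeasure S :=
        Finset.sum_le_sum_of_subset_of_nonneg (Finset.filter_subset _ _) (fun _ _ _ => zero_le)

theorem run_eq (next : List Bool × ℕ × List Bool × List ℕ → (List Bool × ℕ) ⊕ ℕ)
    (O : List Bool → ℕ → PMF ℕ) (T : ℕ) (x : List Bool) (N : ℕ) (r : List Bool) (w : List Bool)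
    (m : ℕ) (y : ℕ → ℕ) (h0 : next (x, N, r, []) = Sum.inl (w, m))
    (h1 : ∀ a, next (x, N, r, [a]) = Sum.inl (w, m))
    (h2 : ∀ a b, next (x, N, r, [a, b]) = Sum.inl (w, m))
    (h3 : ∀ a b c, next (x, N, r, [a, b, c]) = Sum.inr (y (med3 a b c))) (t : ℕ) :
    run next O T x N r (t + 4) [] =
      ((O w m).bind fun z1 => (O w m).bind fun z2 => (O w m).bind fun z3 =>
        PMF.pure (med3 (min z1 (2 ^ T)) (min z2 (2 ^ T)) (min z3 (2 ^ T)))).map
        (fun z => some (y z)) := by
  simp only [run, h0, h1, h2, h3, List.nil_append, List.cons_append, PMF.map_bind, PMF.pure_map]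

theorem final_ineq (T c : ℕ) (h : 15 * 2 ^ T ≤ 16 * c) :
    (3 / 4 : ENNReal) ≤ ((2 ^ T : ℕ) : ENNReal)⁻¹ * (c * (27 / 32)) := by
  have h1 : ((2 ^ T : ℕ) : ENNReal) ≠ 0 := by positivity
  have h2 : ((2 ^ T : ℕ) : ENNReal) ≠ ⊤ := ENNReal.natCast_ne_top _
  have h3 : ((2 ^ T : ℕ) : ENNReal)⁻¹ * (c * (27 / 32)) ≠ ⊤ := by
    refine ENNReal.mul_ne_top (ENNReal.inv_ne_top.2 h1) (ENNReal.mul_ne_top
      (ENNReal.natCast_ne_top _) (ENNReal.div_ne_top (by simp) (by simp)))
  rw [← ENNReal.toReal_le_toReal (ENNReal.div_ne_top (by simp) (by simp)) h3]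
  simp only [ENNReal.toReal_mul, ENNReal.toReal_inv, ENNReal.toReal_div, ENNReal.toReal_natCast,
    ENNReal.toReal_ofNat]
  have h4 : (15 : ℝ) * 2 ^ T ≤ 16 * c := by exact_mod_cast h
  have h5 : (0 : ℝ) < 2 ^ T := by positivity
  push_cast
  rw [inv_mul_eq_div, le_div_iff₀ h5]
  nlinarith

theorem exp_le_two (N : ℕ) (hN : 1 ≤ N) : Real.exp (1 / ((64 * N : ℕ) : ℝ)) ≤ 2 := by
  have h1 : (1 : ℝ) / ((64 * N : ℕ) : ℝ) ≤ 1 / 64 := by
    have : (1 : ℝ) ≤ N := by exact_mod_cast hN
    push_cast
    exact one_div_le_one_div_of_le (by norm_num) (by linarith)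
  have h2 : Real.exp (1 / ((64 * N : ℕ) : ℝ)) ≤ Real.exp (1 / 64) := Real.exp_le_exp.2 h1
  have h3 : Real.exp (1 / 64) ≤ 2 := by
    have h4 := Real.exp_bound_div_one_sub_of_interval (x := 1 / 64) (by norm_num) (by norm_num)
    refine h4.trans (by norm_num)
  exact h2.trans h3

end AP2aux

open AP2aux in
theorem AP2_ok : S_AP2 := by
  intro hAP1 α _ g hM hq
  obtain ⟨inst, cl, post, hinst, hcl, hpost, hmain⟩ := hM
  obtain ⟨q, hq⟩ := hq
  rintro h ⟨V, p0, hV, hf⟩
  obtain ⟨G0, hG0, hGf⟩ := parsimonious hV p0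
  have hG : NPC.Poly G0 := PC.comp hG0 pc_raw
  have hsat : ∀ x, satCount (G0 x) = h x := fun x => by rw [hGf, hf]
  -- the unary accuracy
  let uu : List Bool × ℕ × List Bool × List ℕ → List Unit := fun s =>
    List.replicate (min s.2.1 s.2.2.1.length) ()
  have hx : NPC.Poly (fun s : List Bool × ℕ × List Bool × List ℕ => s.1) :=
    NPC.Poly.fst NPC.Poly.id
  have hN : NPC.Poly (fun s : List Bool × ℕ × List Bool × List ℕ => s.2.1) :=
    NPC.Poly.fst (NPC.Poly.snd NPC.Poly.id)
  have hr : NPC.Poly (fun s : List Bool × ℕ × List Bool × List ℕ => s.2.2.1) :=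
    NPC.Poly.fst (NPC.Poly.snd (NPC.Poly.snd NPC.Poly.id))
  have ha : NPC.Poly (fun s : List Bool × ℕ × List Bool × List ℕ => s.2.2.2) :=
    NPC.Poly.snd (NPC.Poly.snd (NPC.Poly.snd NPC.Poly.id))
  have hU : UPoly (fun s : List Bool × ℕ × List Bool × List ℕ => min s.2.1 s.2.2.1.length) :=
    UPoly.of_le (NPC.Poly.min hN (NPC.Poly.length hr)) (UPoly.length hr)
      (fun s => min_le_right _ _)
  have huu : NPC.Poly uu := hU
  have hφ : NPC.Poly (fun s : List Bool × ℕ × List Bool × List ℕ => G0 s.1) := hG.comp hx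
  let RR : List Bool × ℕ × List Bool × List ℕ → ℕ := fun s => cl (G0 s.1, uu s)
  have hRR : UPoly RR := hcl.comp (NPC.Poly.pair hφ huu)
  let Q : List Bool × ℕ × List Bool × List ℕ → α := fun s =>
    inst (G0 s.1, uu s, tk (RR s) s.2.2.1)
  have hQ : NPC.Poly Q := hinst.comp (NPC.Poly.pair hφ (NPC.Poly.pair huu (poly_tk hRR hr)))
  let md : List Bool × ℕ × List Bool × List ℕ → ℕ := fun s =>
    med3 (s.2.2.2.getD 0 0) (s.2.2.2.getD 1 0) (s.2.2.2.getD 2 0)
  have hmd : NPC.Poly md := by
    have e0 : ∀ i : ℕ, NPC.Poly (fun s : List Bool × ℕ × List Bool × List ℕ =>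
        s.2.2.2.getD i 0) := fun i =>
      NPC.Poly.getD ha (NPC.Poly.const i) (NPC.Poly.const 0)
    exact NPC.Poly.max (NPC.Poly.min (e0 0) (e0 1))
      (NPC.Poly.min (NPC.Poly.max (e0 0) (e0 1)) (e0 2))
  let nxt : List Bool × ℕ × List Bool × List ℕ → (List Bool × ℕ) ⊕ ℕ := fun s =>
    if s.2.2.2.length < 3 then Sum.inl (bits (Q s), max 2 (64 * min s.2.1 s.2.2.1.length))
    else Sum.inr (post (G0 s.1, uu s, md s, 1))
  have hbits : NPC.Poly (fun a : α => bits a) := poly_enc.comp (f := fun a : α => toT a)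
    (NPC.Poly.toT' NPC.Poly.id)
  have hnxt : NPC.Poly nxt := by
    refine NPC.Poly.ite (NPC.Poly.decide_lt (NPC.Poly.length ha) (NPC.Poly.const 3)) ?_ ?_
    · exact NPC.Poly.inl (NPC.Poly.pair (hbits.comp hQ) (NPC.Poly.max (NPC.Poly.const 2)
        (NPC.Poly.mul (NPC.Poly.const 64) (NPC.Poly.min hN (NPC.Poly.length hr)))))
    · exact NPC.Poly.inr (hpost.comp (NPC.Poly.pair hφ (NPC.Poly.pair huu
        (NPC.Poly.pair hmd (NPC.Poly.const 1)))))
  obtain ⟨c0, hc0⟩ := hG.sz_le
  obtain ⟨c1, hc1⟩ := NPC.Poly.sz_le hcl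
  obtain ⟨c2, hc2⟩ := hinst.sz_le
  let E1 : Polynomial ℕ := c0.comp (Polynomial.C 4 * Polynomial.X + Polynomial.C 1) +
    Polynomial.C 2 * Polynomial.X + Polynomial.C 2
  let E2 : Polynomial ℕ := c1.comp E1
  let E3 : Polynomial ℕ := c0.comp (Polynomial.C 4 * Polynomial.X + Polynomial.C 1) +
    Polynomial.C 2 * Polynomial.X + Polynomial.C 4 * E2 + Polynomial.C 10
  let p : Polynomial ℕ := Polynomial.C 64 * Polynomial.X + Polynomial.C 5 + E2 +
    q.comp (c2.comp E3)
  have hE1 : ∀ n, E1.eval n = c0.eval (4 * n + 1) + 2 * n + 2 := fun n => by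
    simp [E1, Polynomial.eval_comp]
  have hE2 : ∀ n, E2.eval n = c1.eval (E1.eval n) := fun n => by
    simp only [E2, Polynomial.eval_comp]
  have hE3 : ∀ n, E3.eval n = c0.eval (4 * n + 1) + 2 * n + 4 * E2.eval n + 10 := fun n => by
    simp [E3, Polynomial.eval_comp]
  have hp : ∀ n, p.eval n = 64 * n + 5 + E2.eval n + q.eval (c2.eval (E3.eval n)) := fun n => by
    simp [p, Polynomial.eval_comp]
  have hdec : NPC.Poly (fun s : List Bool =>
      ((decode s).getD ([], 0, [], []) : List Bool × ℕ × List Bool × List ℕ)) :=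
    (NPC.Poly.optCases (o := fun s : List Bool =>
      (decode s : Option (List Bool × ℕ × List Bool × List ℕ)))
      (g := fun _ => ([], 0, [], [])) (h := fun _ b => b) poly_decode (NPC.Poly.const _)
      (NPC.Poly.snd NPC.Poly.id)).congr fun s => by
        cases (decode s : Option (List Bool × ℕ × List Bool × List ℕ)) <;> rfl
  refine ⟨nxt, fun s => bits (nxt ((decode s).getD ([], 0, [], []))), p, ?_, ?_, ?_, ?_⟩
  · apply PC.toPolyTime
    have h0 : NPC.Poly (fun s : List Bool => nxt ((decode s).getD ([], 0, [], []))) :=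
      NPC.Poly.comp (g := nxt) (f := fun s : List Bool =>
        ((decode s).getD ([], 0, [], []) : List Bool × ℕ × List Bool × List ℕ)) hnxt hdec
    exact PC.comp (g := fun s : List Bool => nxt ((decode s).getD ([], 0, [], [])))
      (f := fun s : List Bool => s) h0 PC.ofBits
  · intro s
    have : decode (bits s) = some s := decode_eq_some.2 rfl
    simp only [this, Option.getD_some]
  · intro x N r ans w m hN1 hrl hn
    simp only [nxt] at hn
    split_ifs at hn with hlen
    · have h1 := Sum.inl.inj hn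
      have h2 : m = max 2 (64 * min N r.length) := (congrArg Prod.snd h1).symm
      have h3 := hp (x.length + N)
      have h4 : min N r.length ≤ N := min_le_left _ _
      rw [h2, h3]
      refine ⟨le_max_left _ _, max_le (by omega) (by omega)⟩
  · intro O hO x N hN1
    set n := x.length + N with hn
    set T := p.eval n with hT
    have hTe := hp n
    rw [← hT] at hTe
    set u : List Unit := List.replicate N () with hu
    set φ := G0 x with hφd
    set R0 := cl (φ, u) with hR0
    -- size estimates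
    have hszx : sz x ≤ 4 * n + 1 := (sz_listBool_le x).trans (by omega)
    have hszφ : sz φ ≤ c0.eval (4 * n + 1) := (hc0 x).trans (eval_mono c0 hszx)
    have hszu : sz u ≤ 2 * n + 1 := by
      have := sz_le_length_mul u 1 (fun a _ => by simp)
      have hl : u.length = N := by simp [hu]
      omega
    have hszφu : sz (φ, u) ≤ E1.eval n := by
      rw [hE1, sz_pair]; omega
    have hR0le : R0 ≤ E2.eval n := by
      have h1 := hc1 (φ, u)
      have h2 := length_lt_sz (List.replicate (cl (φ, u)) ())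
      rw [List.length_replicate] at h2
      rw [hE2]
      have h3 := eval_mono c1 hszφu
      omega
    have hszi : ∀ r' : List Bool, r'.length = R0 → g (inst (φ, u, r')) * 2 ≤ 2 ^ T := by
      intro r' hr'
      have h1 := sz_listBool_le r'
      have h2 : sz (φ, u, r') ≤ E3.eval n := by
        rw [hE3, sz_pair, sz_pair]; omega
      have h3 : sz (inst (φ, u, r')) ≤ c2.eval (E3.eval n) := (hc2 _).trans (eval_mono c2 h2)
      have h4 : g (inst (φ, u, r')) ≤ 2 ^ q.eval (c2.eval (E3.eval n)) :=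
        (hq _).trans (Nat.pow_le_pow_right (by norm_num) (eval_mono q h3))
      calc g (inst (φ, u, r')) * 2 ≤ 2 ^ q.eval (c2.eval (E3.eval n)) * 2 :=
            Nat.mul_le_mul_right _ h4
        _ = 2 ^ (q.eval (c2.eval (E3.eval n)) + 1) := by rw [pow_succ]
        _ ≤ 2 ^ T := Nat.pow_le_pow_right (by norm_num) (by omega)
    obtain ⟨K, hK⟩ : ∃ K, T = R0 + K := ⟨T - R0, by omega⟩
    obtain ⟨t, ht⟩ : ∃ t, T = t + 4 := ⟨T - 4, by omega⟩
    -- the good random strings
    let P : List Bool → Prop := fun r => ∀ a b : ℕ,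
      Good (64 * u.length) ((a : ℝ) / b) (g (inst (φ, u, r))) →
        Good u.length (post (φ, u, a, b)) (satCount φ)
    let GS : Set (Fin T → Bool) := {f | P (tk R0 (List.ofFn f))}
    have hul : u.length = N := by simp [hu]
    have hcount : 15 * 2 ^ T ≤ 16 * GS.ncard := by
      have h1 := hmain φ u (by omega) R0 le_rfl
      have h2 : 2 ^ K * {r : List Bool | r.length = R0 ∧ P r}.ncard ≤ GS.ncard := by
        have h3 := count_tk R0 K P
        clear_value T
        subst hK
        exact h3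
      calc 15 * 2 ^ T = 2 ^ K * (15 * 2 ^ R0) := by rw [hK, pow_add]; ring
        _ ≤ 2 ^ K * (16 * {r : List Bool | r.length = R0 ∧ P r}.ncard) :=
            Nat.mul_le_mul_left _ h1
        _ = 16 * (2 ^ K * {r : List Bool | r.length = R0 ∧ P r}.ncard) := by ring
        _ ≤ 16 * GS.ncard := Nat.mul_le_mul_left _ h2
    have hrun : ∀ f ∈ GS, (27 / 32 : ENNReal) ≤
        (run nxt O T x N (List.ofFn f) T []).toOuterMeasure
          {o | ∃ y, o = some y ∧ Good N y (h x)} := by
      intro f hfG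
      set r := List.ofFn f with hr'
      have hrl : r.length = T := by simp [hr']
      have hmin : min N r.length = N := min_eq_left (by rw [hrl]; omega)
      have hmax : max 2 (64 * min N r.length) = 64 * N := by rw [hmin]; omega
      have huu' : ∀ ans, uu (x, N, r, ans) = u := fun ans => by
        simp only [uu, hu, hmin]
      have hQ' : ∀ ans, Q (x, N, r, ans) = inst (φ, u, tk R0 r) := fun ans => by
        simp only [Q, RR, huu', hR0, hφd]
      have hq0 : ∀ ans : List ℕ, ans.length < 3 →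
          nxt (x, N, r, ans) = Sum.inl (bits (inst (φ, u, tk R0 r)), 64 * N) := by
        intro ans hans
        simp only [nxt, if_pos hans, hQ', hmax]
      have hq3 : ∀ a b c : ℕ, nxt (x, N, r, [a, b, c]) =
          Sum.inr (post (φ, u, med3 a b c, 1)) := by
        intro a b c
        simp [nxt, md, huu', hφd]
      have hre : run nxt O T x N r T [] = run nxt O T x N r (t + 4) [] := by
        congr 1
      rw [hre, run_eq nxt O T x N r _ _ (fun z => post (φ, u, z, 1)) (hq0 _ (by simp))
        (fun a => hq0 _ (by simp)) (fun a b => hq0 _ (by simp)) hq3 t,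
        PMF.toOuterMeasure_map_apply]
      set v := g (inst (φ, u, tk R0 r)) with hv
      have h1 := hAP1 (O (bits (inst (φ, u, tk R0 r))) (64 * N))
        {Z : ℕ | Good (64 * N) (Z : ℝ) (v : ℝ)} (fun z => min z (2 ^ T)) ?_ ?_ ?_
      · refine h1.trans (MeasureTheory.OuterMeasure.mono _ ?_)
        intro z hz
        simp only [Set.mem_preimage, Set.mem_ofPred_eq] at hz ⊢
        refine ⟨_, rfl, ?_⟩
        have h2 := hfG z 1 (by rw [hul]; simpa using hz)
        rw [hul, hsat] at h2
        exact h2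
      · refine ⟨fun a ha' b hb' z hz => ?_⟩
        simp only [Set.mem_ofPred_eq] at ha' hb' ⊢
        have h2 : (a : ℝ) ≤ z := by exact_mod_cast hz.1
        have h3 : (z : ℝ) ≤ b := by exact_mod_cast hz.2
        exact ⟨ha'.1.trans h2, h3.trans hb'.2⟩
      · intro z hz
        simp only [Set.mem_ofPred_eq] at hz
        refine min_eq_left ?_
        have h2 : (v : ℝ) * 2 ≤ 2 ^ T := by
          exact_mod_cast hszi (tk R0 r) (tk_length _ _)
        have h3 := exp_le_two N hN1
        have h4 : (z : ℝ) ≤ 2 ^ T := by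
          refine hz.2.trans ((mul_le_mul_of_nonneg_right h3 (Nat.cast_nonneg _)).trans ?_)
          linarith
        exact_mod_cast h4
      · have h2 := hO (bits (inst (φ, u, tk R0 r))) (64 * N) (by omega)
        rw [strFn_bits] at h2
        exact h2
    have hfin := pmf_lower (fun f : Fin T → Bool => run nxt O T x N (List.ofFn f) T [])
      {o | ∃ y, o = some y ∧ Good N y (h x)} GS (27 / 32) hrun
    refine (final_ineq T GS.ncard hcount).trans ?_
    have hcard : Fintype.card (Fin T → Bool) = 2 ^ T := by simp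
    rw [hcard] at hfin
    exact hfin

end Pool.Agent.H49R2.PY
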