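import Pool.Agent.H527R2.SharpP
import Pool.Agent.H579R2.Spt.Defs

/-!
# Approximate counting: definitions

Bit strings, polynomial time (`PolyTime`: Turing machines), the codes `bits` of structured data and
the class `NP` are in `Pool/Agent/NPC/Defs.lean`; the class `#P` (`SharpP`) and the extension
`strFn` of a function on structured data to all bit strings (value `0` at strings that are not
codes) are in `Pool/Agent/H527R2/SharpP.lean`.
-/

namespace Pool.Agent.H49R2.PY

open Pool.Agent.NPC Pool.Agent.NPC.Cnt

/-- The list of the values of a permutation of `[m]`. -/
def code {m : ℕ} (σ : Equiv.Perm (Fin m)) : List ℕ := List.ofFn (fun i => (σ i : ℕ))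

/-- The number of cycles of a permutation of `[m]`, fixed points included. -/
def numCycles {m : ℕ} (σ : Equiv.Perm (Fin m)) : ℕ :=
  σ.cycleType.card + (Finset.univ.filter (fun i => σ i = i)).card

open Classical in
/-- **#PolyaOrbits** with alphabet size `k`.  An instance consists of `m` (in unary) and a list of
at most `m` permutations of `[m]`, each given by the list of its values; the value is the sum of
`k ^ c(g)` over the elements `g` of the group generated by these permutations.  The value is `0`
if some list is not the list of values of a permutation of `[m]`, or if there are more than `m`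
lists. -/
noncomputable def polya (k : ℕ) (I : List Unit × List (List ℕ)) : ℕ :=
  if (∀ l ∈ I.2, ∃ σ : Equiv.Perm (Fin I.1.length), code σ = l) ∧ I.2.length ≤ I.1.length then
    ∑ σ ∈ Finset.univ.filter (fun σ : Equiv.Perm (Fin I.1.length) =>
      σ ∈ Subgroup.closure {τ | code τ ∈ I.2}), k ^ numCycles σ
  else 0

/-- The number `Z` approximates `v` within the factor `exp (± 1 / N)`. -/
def Good (N : ℕ) (Z v : ℝ) : Prop :=
  Real.exp (-(1 / (N : ℝ))) * v ≤ Z ∧ Z ≤ Real.exp (1 / (N : ℝ)) * v

/-- `f` has an FPRAS.  The accuracy is `ε = 1 / N`; the random bits form a string `r` of length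
`p (|x| + N)`; the output is the rational number with numerator `(F (x, N, r)).1` and denominator
`(F (x, N, r)).2`, computed in time polynomial in the length of the whole input, including the
random bits, that is, polynomial in `|x| + 1 / ε`.  With probability at least `3/4` the output
approximates `f x` within the factor `exp (± ε)`, for all `x` and `N ≥ 2`. -/
def HasFPRAS (f : List Bool → ℕ) : Prop :=
  ∃ (F : List Bool × ℕ × List Bool → ℕ × ℕ) (A : List Bool → List Bool) (p : Polynomial ℕ),
    PolyTime A ∧ (∀ s, A (bits s) = bits (F s)) ∧
    ∀ x N, 2 ≤ N → 3 * 2 ^ p.eval (x.length + N) ≤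
      4 * {r : List Bool | r.length = p.eval (x.length + N) ∧
        Good N (((F (x, N, r)).1 : ℝ) / (F (x, N, r)).2) (f x)}.ncard

/-- The oracle `O` is a randomised approximation scheme for `g`: the answer to a query `(w, m)`
(with error bound `δ = 1 / m < 1`) is a random natural number with distribution `O w m`, which
approximates `g w` within the factor `exp (± δ)` with probability at least `3/4`. -/
def IsRAS (g : List Bool → ℕ) (O : List Bool → ℕ → PMF ℕ) : Prop :=
  ∀ w m, 2 ≤ m → (3 / 4 : ENNReal) ≤ (O w m).toOuterMeasure {Z | Good m Z (g w)}

/-- The computation of an oracle machine.  The machine is given by its function `next`, which from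
the input `(x, N)`, the random bits `r` and the list of the answers received so far computes either
the next query `(w, m)` or the final output.  The machine reads at most `T` bits of an answer: an
answer `Z ≥ 2 ^ T` is read as `2 ^ T`.  The computation stops (without output) after `t` queries. -/
noncomputable def run (next : List Bool × ℕ × List Bool × List ℕ → (List Bool × ℕ) ⊕ ℕ)
    (O : List Bool → ℕ → PMF ℕ) (T : ℕ) (x : List Bool) (N : ℕ) (r : List Bool) :
    ℕ → List ℕ → PMF (Option ℕ)
  | 0, _ => PMF.pure none
  | t + 1, ans =>
    match next (x, N, r, ans) with
    | Sum.inr y => PMF.pure (some y)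
    | Sum.inl q => (O q.1 q.2).bind (fun Z => run next O T x N r t (ans ++ [min Z (2 ^ T)]))

/-- The distribution of the output of an oracle machine on the input `(x, N)`: it uses `T`
independent uniformly distributed random bits, makes fewer than `T` queries, and reads at most `T`
bits of each answer. -/
noncomputable def output (next : List Bool × ℕ × List Bool × List ℕ → (List Bool × ℕ) ⊕ ℕ)
    (O : List Bool → ℕ → PMF ℕ) (T : ℕ) (x : List Bool) (N : ℕ) : PMF (Option ℕ) :=
  (PMF.uniformOfFintype (Fin T → Bool)).bind (fun r => run next O T x N (List.ofFn r) T [])

/-- **Approximation-preserving reducibility** `f ≤_AP g` (Dyer, Goldberg, Greenhill, Jerrum).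
There is an oracle machine, given by its next-action function `next` computable in polynomial time,
and a polynomial `p` such that on input `(x, N)` (that is, with error bound `ε = 1 / N`), with
`T = p (|x| + N)`, the machine uses `T` random bits, makes fewer than `T` queries and reads at most
`T` bits of each answer (so that its running time is polynomial in `|x|` and `1 / ε`), and
(i) each query `(w, m)` has error bound `δ = 1 / m` with `0 < δ < 1` and `1 / δ ≤ T`;
(ii) whenever the oracle is a randomised approximation scheme for `g`, with probability at least
`3/4` the machine outputs a number approximating `f x` within the factor `exp (± ε)`. -/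
def APReduces (f g : List Bool → ℕ) : Prop :=
  ∃ (next : List Bool × ℕ × List Bool × List ℕ → (List Bool × ℕ) ⊕ ℕ)
    (A : List Bool → List Bool) (p : Polynomial ℕ),
    PolyTime A ∧ (∀ s, A (bits s) = bits (next s)) ∧
    (∀ x N r ans w m, 1 ≤ N → r.length = p.eval (x.length + N) →
      next (x, N, r, ans) = Sum.inl (w, m) → 2 ≤ m ∧ m ≤ p.eval (x.length + N)) ∧
    ∀ O, IsRAS g O → ∀ x N, 1 ≤ N →
      (3 / 4 : ENNReal) ≤ (output next O (p.eval (x.length + N)) x N).toOuterMeasure
        {o | ∃ y, o = some y ∧ Good N y (f x)}

/-- `g` is hard for `#P` under approximation-preserving reductions. -/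
def APHard (g : List Bool → ℕ) : Prop := ∀ h, SharpP h → APReduces h g

end Pool.Agent.H49R2.PY
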