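import Pool.Agent.H49R2.PY.Stubs

/-!
# Task G: the graph of a CNF formula
-/

namespace Pool.Agent.H49R2.PY

open Pool.Agent.NPC Pool.Agent.NPC.Cnt Finset

namespace Gaux

/-- All literals of `F` are true under `S`. -/
def Con (S : Finset ℕ) (F : List (Bool × ℕ)) : Prop := ∀ l ∈ F, l.1 = decide (l.2 ∈ S)

instance (S : Finset ℕ) (F : List (Bool × ℕ)) : Decidable (Con S F) := by
  unfold Con; infer_instance

theorem conf_iff {F F' : List (Bool × ℕ)} :
    conf F F' = true ↔ ∃ l ∈ F, ∃ l' ∈ F', l.2 = l'.2 ∧ l.1 ≠ l'.1 := by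
  simp only [conf, List.any_eq_true, Bool.and_eq_true, decide_eq_true_eq, Bool.not_eq_true',
    decide_eq_false_iff_not, ne_eq]

theorem conf_con {S : Finset ℕ} {F F' : List (Bool × ℕ)} (h : Con S F) (h' : Con S F') :
    conf F F' = false := by
  by_contra hc
  rw [Bool.not_eq_false, conf_iff] at hc
  obtain ⟨l, hl, l', hl', e, ne⟩ := hc
  exact ne (by rw [h l hl, h' l' hl', e])

theorem conf_symm {F F' : List (Bool × ℕ)} (h : conf F F' = true) : conf F' F = true := by
  rw [conf_iff] at h ⊢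
  obtain ⟨l, hl, l', hl', e, ne⟩ := h
  exact ⟨l', hl', l, hl, e.symm, ne.symm⟩

theorem mem_vts {φ : CNF ℕ} {k : ℕ} {F : List (Bool × ℕ)} :
    (k, F) ∈ vts φ ↔ ∃ g, (groups φ)[k]? = some g ∧ F ∈ g := by
  simp only [vts, List.mem_flatMap, List.mem_map, Prod.mk.injEq, Prod.exists,
    List.mem_zipIdx_iff_getElem?]
  constructor
  · rintro ⟨g, k', h, F', hF', rfl, rfl⟩
    exact ⟨g, h, hF'⟩
  · rintro ⟨g, h, hF⟩
    exact ⟨g, k, h, F, hF, rfl, rfl⟩

theorem mem_groups {φ : CNF ℕ} {g : List (List (Bool × ℕ))} :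
    g ∈ groups φ ↔ (∃ v ∈ vars φ, g = [[(true, v)], [(false, v)]]) ∨
      ∃ cc ∈ φ, g = cc.zipIdx.map (fun t => t.1 :: (cc.take t.2).map negl) := by
  simp only [groups, List.mem_append, List.mem_map, List.mem_dedup, vars, List.mem_toFinset]
  constructor
  · rintro (⟨v, hv, rfl⟩ | ⟨cc, hc, rfl⟩)
    · exact Or.inl ⟨v, hv, rfl⟩
    · exact Or.inr ⟨cc, hc, rfl⟩
  · rintro (⟨v, hv, rfl⟩ | ⟨cc, hc, rfl⟩)
    · exact Or.inl ⟨v, hv, rfl⟩
    · exact Or.inr ⟨cc, hc, rfl⟩

theorem mem_vars_of {φ : CNF ℕ} {g : List (List (Bool × ℕ))} (hg : g ∈ groups φ)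
    {F : List (Bool × ℕ)} (hF : F ∈ g) {l : Bool × ℕ} (hl : l ∈ F) : l.2 ∈ vars φ := by
  rcases mem_groups.1 hg with ⟨v, hv, rfl⟩ | ⟨cc, hc, rfl⟩
  · simp only [List.mem_cons, List.not_mem_nil, or_false] at hF
    rcases hF with rfl | rfl
    · simp only [List.mem_cons, List.not_mem_nil, or_false] at hl
      subst hl; exact hv
    · simp only [List.mem_cons, List.not_mem_nil, or_false] at hl
      subst hl; exact hv
  · rw [List.mem_map] at hF
    obtain ⟨t, ht, rfl⟩ := hF
    have h1 : ∀ x ∈ cc, x.2 ∈ vars φ := fun x hx => mem_vars.2 ⟨cc, hc, x.1, hx⟩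
    rw [List.mem_cons] at hl
    rcases hl with rfl | hl
    · exact h1 _ (List.mem_of_getElem? (List.mem_zipIdx_iff_getElem?.1 ht))
    · rw [List.mem_map] at hl
      obtain ⟨x, hx, rfl⟩ := hl
      exact h1 x (List.mem_of_mem_take hx)

theorem pw_group {φ : CNF ℕ} {g : List (List (Bool × ℕ))} (hg : g ∈ groups φ) :
    g.Pairwise (fun F F' => conf F F' = true) := by
  rcases mem_groups.1 hg with ⟨v, hv, rfl⟩ | ⟨cc, hc, rfl⟩
  · simp [conf]
  · rw [List.pairwise_iff_getElem]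
    intro i j hi hj hij
    rw [conf_iff]
    simp only [List.length_map, List.length_zipIdx] at hi hj
    simp only [List.getElem_map, List.getElem_zipIdx, Nat.zero_add]
    refine ⟨cc[i], by simp, negl cc[i], ?_, rfl, ?_⟩
    · refine List.mem_cons_of_mem _ (List.mem_map_of_mem ?_)
      rw [List.mem_take_iff_getElem]
      exact ⟨i, by omega, rfl⟩
    · simp [negl]

theorem pw_vts (φ : CNF ℕ) :
    (vts φ).Pairwise (fun a b => a.1 = b.1 → conf a.2 b.2 = true) := by
  unfold vts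
  rw [List.pairwise_flatMap]
  constructor
  · rintro ⟨g, k⟩ h
    rw [List.pairwise_map]
    refine List.Pairwise.imp ?_
      (pw_group (List.mem_of_getElem? (List.mem_zipIdx_iff_getElem?.1 h)))
    intro a b h1 _
    exact h1
  · rw [List.pairwise_iff_getElem]
    intro i j hi hj hij x hx y hy e
    exfalso
    simp only [List.getElem_zipIdx, List.mem_map, Nat.zero_add] at hx hy
    obtain ⟨_, _, rfl⟩ := hx
    obtain ⟨_, _, rfl⟩ := hy
    exact absurd e (Nat.ne_of_lt hij)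

theorem pw (φ : CNF ℕ) {u v : Fin (vts φ).length} (h : u ≠ v)
    (e : (vts φ)[u].1 = (vts φ)[v].1) : conf (vts φ)[u].2 (vts φ)[v].2 = true := by
  have h1 := List.pairwise_iff_getElem.1 (pw_vts φ)
  rcases lt_or_gt_of_ne h with h | h
  · exact h1 u v u.2 v.2 h e
  · exact conf_symm (h1 v u v.2 u.2 h e.symm)

theorem getD_zm {α β : Type} (L : List α) (f : α × ℕ → β) (d : β) (u : Fin L.length) :
    (L.zipIdx.map f).getD u d = f (L[u], u) := by
  rw [List.getD_eq_getElem _ _ (by simp), List.getElem_map]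
  simp

theorem adj_eq (φ : CNF ℕ) (u v : Fin (vts φ).length) :
    adjOf (adjM φ) u v = (!decide (u = v) &&
      (decide ((vts φ)[u].1 = (vts φ)[v].1) || conf (vts φ)[u].2 (vts φ)[v].2)) := by
  simp only [adjOf, adjM]
  rw [getD_zm, getD_zm]
  simp only [Fin.ext_iff]

theorem lt_groups (φ : CNF ℕ) (u : Fin (vts φ).length) : (vts φ)[u].1 < (groups φ).length := by
  have h : ((vts φ)[u].1, (vts φ)[u].2) ∈ vts φ := List.getElem_mem u.2
  rw [mem_vts] at h
  obtain ⟨g, h, _⟩ := h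
  rw [List.getElem?_eq_some_iff] at h
  exact h.1

theorem mem_indF {φ : CNF ℕ} {I : Finset (Fin (vts φ).length)} :
    I ∈ indF (vts φ).length (adjOf (adjM φ)) ↔
      ∀ u ∈ I, ∀ v ∈ I, u ≠ v → conf (vts φ)[u].2 (vts φ)[v].2 = false := by
  simp only [indF, mem_filter, mem_univ, true_and, adj_eq]
  refine forall₂_congr fun u _ => forall₂_congr fun v _ => ?_
  by_cases h : u = v
  · simp [h]
  · simp only [h, decide_false, Bool.not_false, Bool.true_and, Bool.or_eq_false_iff,
      decide_eq_false_iff_not, ne_eq, not_false_eq_true, true_implies]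
    constructor
    · exact fun h => h.2
    · intro h'
      refine ⟨fun e => ?_, h'⟩
      rw [pw φ h e] at h'
      exact absurd h' (by simp)

theorem injG {φ : CNF ℕ} {I : Finset (Fin (vts φ).length)}
    (hI : ∀ u ∈ I, ∀ v ∈ I, u ≠ v → conf (vts φ)[u].2 (vts φ)[v].2 = false) :
    Set.InjOn (fun u : Fin (vts φ).length => (vts φ)[u].1) I := by
  intro u hu v hv e
  by_contra h
  have h1 := pw φ h e
  rw [hI u hu v hv h] at h1
  exact absurd h1 (by simp)

theorem card_le {φ : CNF ℕ} {I : Finset (Fin (vts φ).length)}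
    (hI : ∀ u ∈ I, ∀ v ∈ I, u ≠ v → conf (vts φ)[u].2 (vts φ)[v].2 = false) :
    I.card ≤ (groups φ).length := by
  rw [← card_range (groups φ).length]
  exact card_le_card_of_injOn _ (fun u _ => by simpa using lt_groups φ u) (injG hI)

theorem surjG {φ : CNF ℕ} {I : Finset (Fin (vts φ).length)}
    (hI : ∀ u ∈ I, ∀ v ∈ I, u ≠ v → conf (vts φ)[u].2 (vts φ)[v].2 = false)
    (hc : I.card = (groups φ).length) {g : List (List (Bool × ℕ))} (hg : g ∈ groups φ) :
    ∃ u ∈ I, (vts φ)[u].2 ∈ g := by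
  obtain ⟨k, hk, rfl⟩ := List.getElem_of_mem hg
  have h1 : I.image (fun u : Fin (vts φ).length => (vts φ)[u].1) = range (groups φ).length := by
    refine eq_of_subset_of_card_le (fun x hx => ?_) ?_
    · obtain ⟨u, _, rfl⟩ := mem_image.1 hx
      simpa using lt_groups φ u
    · rw [card_image_of_injOn (injG hI), hc, card_range]
  have h2 : k ∈ I.image (fun u : Fin (vts φ).length => (vts φ)[u].1) := by
    rw [h1]; simpa using hk
  obtain ⟨u, hu, e⟩ := mem_image.1 h2
  refine ⟨u, hu, ?_⟩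
  have h : ((vts φ)[u].1, (vts φ)[u].2) ∈ vts φ := List.getElem_mem u.2
  rw [mem_vts] at h
  obtain ⟨g, h, hF⟩ := h
  rw [e, List.getElem?_eq_some_iff] at h
  obtain ⟨_, rfl⟩ := h
  exact hF

/-- The vertices consistent with `S`. -/
def fS (φ : CNF ℕ) (S : Finset ℕ) : Finset (Fin (vts φ).length) :=
  univ.filter (fun u => Con S (vts φ)[u].2)

theorem fS_ind (φ : CNF ℕ) (S : Finset ℕ) :
    ∀ u ∈ fS φ S, ∀ v ∈ fS φ S, u ≠ v → conf (vts φ)[u].2 (vts φ)[v].2 = false := by
  intro u hu v hv _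
  simp only [fS, mem_filter, mem_univ, true_and] at hu hv
  exact conf_con hu hv

theorem hit {φ : CNF ℕ} {S : Finset ℕ} (hS : SatBy S φ) {g : List (List (Bool × ℕ))}
    (hg : g ∈ groups φ) : ∃ F ∈ g, Con S F := by
  rcases mem_groups.1 hg with ⟨v, hv, rfl⟩ | ⟨cc, hc, rfl⟩
  · by_cases h : v ∈ S
    · exact ⟨[(true, v)], by simp, by simp [Con, h]⟩
    · exact ⟨[(false, v)], by simp, by simp [Con, h]⟩
  · obtain ⟨l, hl, e⟩ := hS cc hc
    let p : Bool × ℕ → Bool := fun l => decide (l.1 = decide (l.2 ∈ S))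
    have h1 : cc.findIdx p < cc.length := List.findIdx_lt_length_of_exists ⟨l, hl, by simpa [p] using e⟩
    refine ⟨cc[cc.findIdx p] :: (cc.take (cc.findIdx p)).map negl, ?_, ?_⟩
    · rw [List.mem_map]
      exact ⟨(cc[cc.findIdx p], cc.findIdx p), List.mem_zipIdx_iff_getElem?.2 (by simp [h1]), rfl⟩
    · intro l hl
      rw [List.mem_cons] at hl
      rcases hl with rfl | hl
      · have := List.findIdx_getElem (xs := cc) (p := p) (w := h1)
        simpa [p] using this
      · rw [List.mem_map] at hl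
        obtain ⟨x, hx, rfl⟩ := hl
        rw [List.mem_take_iff_getElem] at hx
        obtain ⟨i, hi, rfl⟩ := hx
        have h2 := List.not_of_lt_findIdx (p := p) (xs := cc) (i := i) (by omega)
        have h3 : ∀ b d : Bool, ¬ (b = d) → (!b) = d := by decide
        exact h3 _ _ (of_decide_eq_false h2)

theorem fS_card {φ : CNF ℕ} {S : Finset ℕ} (hS : SatBy S φ) :
    (fS φ S).card = (groups φ).length := by
  refine le_antisymm (card_le (fS_ind φ S)) ?_
  rw [← card_range (groups φ).length]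
  refine le_trans (card_le_card (t := (fS φ S).image (fun u => (vts φ)[u].1)) ?_)
    card_image_le
  intro k hk
  rw [mem_range] at hk
  obtain ⟨F, hF, hc⟩ := hit hS (List.getElem_mem hk)
  have h1 : (k, F) ∈ vts φ := mem_vts.2 ⟨_, by simp [hk], hF⟩
  obtain ⟨u, hu, e⟩ := List.getElem_of_mem h1
  rw [mem_image]
  refine ⟨⟨u, hu⟩, ?_, ?_⟩
  · simp only [fS, mem_filter, mem_univ, true_and, Fin.getElem_fin, e]
    exact hc
  · simp [e]

theorem main {φ : CNF ℕ} {I : Finset (Fin (vts φ).length)}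
    (hI : ∀ u ∈ I, ∀ v ∈ I, u ≠ v → conf (vts φ)[u].2 (vts φ)[v].2 = false)
    (hc : I.card = (groups φ).length) :
    ∃ S, S ⊆ vars φ ∧ SatBy S φ ∧ fS φ S = I := by
  classical
  let S : Finset ℕ := (vars φ).filter (fun v => ∃ u ∈ I, (true, v) ∈ (vts φ)[u].2)
  have hS : ∀ v, v ∈ S ↔ v ∈ vars φ ∧ ∃ u ∈ I, (true, v) ∈ (vts φ)[u].2 := fun v => by
    simp only [S, mem_filter]
  -- all chosen vertices are consistent
  have key : ∀ u ∈ I, Con S (vts φ)[u].2 := by
    intro u hu l hl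
    have hv : l.2 ∈ vars φ := by
      have h : ((vts φ)[u].1, (vts φ)[u].2) ∈ vts φ := List.getElem_mem u.2
      rw [mem_vts] at h
      obtain ⟨g, h, hF⟩ := h
      exact mem_vars_of (List.mem_of_getElem? h) hF hl
    obtain ⟨u', hu', h'⟩ := surjG hI hc (mem_groups.2 (Or.inl ⟨l.2, hv, rfl⟩))
    obtain ⟨b, hb⟩ : ∃ b, (vts φ)[u'].2 = [(b, l.2)] := by
      simp only [List.mem_cons, List.not_mem_nil, or_false] at h'
      rcases h' with h' | h'
      · exact ⟨true, h'⟩
      · exact ⟨false, h'⟩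
    have hall : ∀ w ∈ I, ∀ l' ∈ (vts φ)[w].2, l'.2 = l.2 → l'.1 = b := by
      intro w hw l' hl' e
      by_cases h : w = u'
      · subst h
        rw [hb, List.mem_singleton] at hl'
        rw [hl']
      · by_contra hne
        have h2 : conf (vts φ)[w].2 (vts φ)[u'].2 = true := by
          rw [conf_iff]
          exact ⟨l', hl', (b, l.2), by rw [hb]; simp, e, hne⟩
        rw [hI w hw u' hu' h] at h2
        exact absurd h2 (by simp)
    rw [hall u hu l hl rfl]
    by_cases hbt : b = true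
    · have : l.2 ∈ S := (hS _).2 ⟨hv, u', hu', by rw [hb, hbt]; simp⟩
      simp [this, hbt]
    · have : l.2 ∉ S := by
        intro hm
        obtain ⟨_, w, hw, hm⟩ := (hS _).1 hm
        exact hbt (hall w hw _ hm rfl).symm
      simp [this, hbt]
  have hsat : SatBy S φ := by
    intro cc hcφ
    obtain ⟨u, hu, h⟩ := surjG hI hc (mem_groups.2 (Or.inr ⟨cc, hcφ, rfl⟩))
    rw [List.mem_map] at h
    obtain ⟨t, ht, e⟩ := h
    refine ⟨t.1, List.mem_of_getElem? (List.mem_zipIdx_iff_getElem?.1 ht), ?_⟩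
    exact key u hu t.1 (by rw [← e]; simp)
  refine ⟨S, fun v hv => ((hS v).1 hv).1, hsat, ?_⟩
  symm
  refine eq_of_subset_of_card_le (fun u hu => ?_) ?_
  · simp only [fS, mem_filter, mem_univ, true_and]
    exact key u hu
  · rw [fS_card hsat, hc]

theorem fS_inj {φ : CNF ℕ} {S S' : Finset ℕ} (hS : S ⊆ vars φ) (hS' : S' ⊆ vars φ)
    (h : fS φ S = fS φ S') : S = S' := by
  have key : ∀ v ∈ vars φ, (v ∈ S ↔ v ∈ S') := by
    intro v hv
    obtain ⟨k, hk, e⟩ := List.getElem_of_mem (mem_groups.2 (Or.inl ⟨v, hv, rfl⟩))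
    have h1 : (k, [(true, v)]) ∈ vts φ := mem_vts.2 ⟨_, by rw [List.getElem?_eq_getElem hk, e], by simp⟩
    obtain ⟨u, hu, e⟩ := List.getElem_of_mem h1
    have h2 : ∀ T : Finset ℕ, (⟨u, hu⟩ : Fin (vts φ).length) ∈ fS φ T ↔ v ∈ T := by
      intro T
      simp only [fS, mem_filter, mem_univ, true_and, Fin.getElem_fin, e]
      simp [Con]
    rw [← h2 S, ← h2 S', h]
  ext v
  constructor
  · intro hv; exact (key v (hS hv)).1 hv
  · intro hv; exact (key v (hS' hv)).2 hv

end Gaux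

open Gaux in
theorem G_ok : S_G := by
  intro φ
  refine ⟨fun I hI => card_le (mem_indF.1 hI), ?_⟩
  symm
  unfold satCount
  refine card_bij (fun S _ => fS φ S) ?_ ?_ ?_
  · intro S hS
    rw [mem_filter, mem_powerset] at hS
    rw [mem_filter]
    exact ⟨mem_indF.2 (fS_ind φ S), fS_card hS.2⟩
  · intro S hS S' hS' h
    rw [mem_filter, mem_powerset] at hS hS'
    exact fS_inj hS.1 hS'.1 h
  · intro I hI
    rw [mem_filter] at hI
    obtain ⟨S, h1, h2, h3⟩ := main (mem_indF.1 hI.1) hI.2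
    exact ⟨S, by rw [mem_filter, mem_powerset]; exact ⟨h1, h2⟩, h3⟩

end Pool.Agent.H49R2.PY
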