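import Pool.Agent.H49R2.PY.Stubs

/-! Task K1 (helper311): the number of words fixed by a permutation. -/

set_option autoImplicit false

namespace Pool.Agent.H49R2.PY

open Finset

namespace K1aux

variable {m : ℕ}

/-- the cycles and the fixed points -/
abbrev Cyc (σ : Equiv.Perm (Fin m)) : Type :=
  {c // c ∈ σ.cycleFactorsFinset} ⊕ {i // i ∈ univ.filter (fun i => σ i = i)}

/-- the cycle of a point -/
def pr (σ : Equiv.Perm (Fin m)) (i : Fin m) : Cyc σ :=
  if h : σ i = i then Sum.inr ⟨i, by simp [h]⟩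
  else Sum.inl ⟨σ.cycleOf i, by
    rw [Equiv.Perm.cycleOf_mem_cycleFactorsFinset_iff, Equiv.Perm.mem_support]
    exact h⟩

theorem pr_surj (σ : Equiv.Perm (Fin m)) : Function.Surjective (pr σ) := by
  rintro (⟨c, hc⟩ | ⟨i, hi⟩)
  · have h1 := (Equiv.Perm.mem_cycleFactorsFinset_iff.mp hc).1
    obtain ⟨a, ha⟩ := h1.nonempty_support
    have h2 := Equiv.Perm.cycle_is_cycleOf ha hc
    have h3 : a ∈ σ.support := Equiv.Perm.mem_cycleFactorsFinset_support_le hc ha
    rw [Equiv.Perm.mem_support] at h3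
    refine ⟨a, ?_⟩
    unfold pr
    rw [dif_neg h3]
    simp [h2]
  · have h1 : σ i = i := by simpa using hi
    refine ⟨i, ?_⟩
    unfold pr
    rw [dif_pos h1]

theorem inv_zpow {k : ℕ} (σ : Equiv.Perm (Fin m)) (w : Fin m → Fin k)
    (hw : ∀ i, w (σ i) = w i) (n : ℤ) (i : Fin m) : w ((σ ^ n) i) = w i := by
  have hn : ∀ (n : ℕ) (i : Fin m), w ((σ ^ n) i) = w i := by
    intro n
    induction n with
    | zero => intro i; simp
    | succ n ih => intro i; rw [pow_succ, Equiv.Perm.mul_apply, ih, hw]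
  obtain ⟨p, hp | hp⟩ := n.eq_nat_or_neg
  · rw [hp, zpow_natCast, hn]
  · rw [hp, zpow_neg, zpow_natCast]
    have := hn p ((σ ^ p)⁻¹ i)
    rw [← Equiv.Perm.mul_apply, mul_inv_cancel, Equiv.Perm.one_apply] at this
    exact this.symm

theorem inv_pr {k : ℕ} (σ : Equiv.Perm (Fin m)) (w : Fin m → Fin k)
    (hw : ∀ i, w (σ i) = w i) {i j : Fin m} (h : pr σ i = pr σ j) : w i = w j := by
  unfold pr at h
  by_cases hi : σ i = i
  · by_cases hj : σ j = j
    · rw [dif_pos hi, dif_pos hj] at h
      simp only [Sum.inr.injEq, Subtype.mk.injEq] at h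
      rw [h]
    · rw [dif_pos hi, dif_neg hj] at h
      simp at h
  · by_cases hj : σ j = j
    · rw [dif_neg hi, dif_pos hj] at h
      simp at h
    · rw [dif_neg hi, dif_neg hj] at h
      simp only [Sum.inl.injEq, Subtype.mk.injEq] at h
      have h1 : σ.SameCycle i j :=
        (Equiv.Perm.sameCycle_iff_cycleOf_eq_of_mem_support
          (Equiv.Perm.mem_support.mpr hi) (Equiv.Perm.mem_support.mpr hj)).mpr h
      obtain ⟨n, hn⟩ := h1
      rw [← hn, inv_zpow σ w hw]

theorem pr_apply (σ : Equiv.Perm (Fin m)) (i : Fin m) : pr σ (σ i) = pr σ i := by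
  by_cases hi : σ i = i
  · rw [hi]
  · have h2 : σ (σ i) ≠ σ i := fun h => hi (σ.injective h)
    unfold pr
    rw [dif_neg hi, dif_neg h2]
    simp only [Sum.inl.injEq, Subtype.mk.injEq]
    exact Equiv.Perm.cycleOf_self_apply σ i

end K1aux

open K1aux

theorem K1_ok : S_K1 := by
  intro k m σ
  have h1 : (univ.filter (fun w : Fin m → Fin k => ∀ i, w (σ i) = w i)) =
      univ.image (fun f : Cyc σ → Fin k => f ∘ pr σ) := by
    ext w
    simp only [mem_filter, mem_univ, true_and, mem_image]
    constructor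
    · intro hw
      refine ⟨fun c => w (Function.surjInv (pr_surj σ) c), ?_⟩
      funext i
      simp only [Function.comp]
      apply inv_pr σ w hw
      exact Function.surjInv_eq (pr_surj σ) (pr σ i)
    · rintro ⟨f, rfl⟩ i
      simp only [Function.comp]
      rw [pr_apply]
  rw [h1, card_image_of_injective _ (pr_surj σ).injective_comp_right, card_univ,
    Fintype.card_fun, Fintype.card_fin, Fintype.card_sum]
  congr 1
  unfold numCycles
  congr 1
  · rw [Fintype.card_coe, Equiv.Perm.cycleType_def, Multiset.card_map]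
    rfl
  · rw [Fintype.card_coe]

end Pool.Agent.H49R2.PY
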