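import Pool.Agent.H49R2.PY.Stubs

/-! K2: the group generated by the generators (proof: helper439) -/

namespace Pool.Agent.H49R2.PY

open Finset

namespace K2aux

theorem d4_mul (p q c p' q' c' : Bool) :
    d4 p q c * d4 p' q' c' = d4 (xor p p') (xor q q') (xor (xor c c') (p && q')) := by
  apply Equiv.ext
  intro y
  show d4 p q c (d4 p' q' c' y) = _
  revert p q c p' q' c' y
  decide

theorem d4_one : d4 false false false = 1 := by
  apply Equiv.ext
  intro y
  revert y
  decide

theorem act_mul {G : ℕ} (P Q C P' Q' C' : Fin G → Bool) :
    act P Q C * act P' Q' C' = act (fun i => xor (P i) (P' i)) (fun i => xor (Q i) (Q' i))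
      (fun i => xor (xor (C i) (C' i)) (P i && Q' i)) := by
  apply Equiv.ext
  intro y
  show (y.1, d4 (P y.1) (Q y.1) (C y.1) (d4 (P' y.1) (Q' y.1) (C' y.1) y.2)) = (y.1, _)
  have h := congrArg (fun e : Equiv.Perm (Bool × Bool) => e y.2)
    (d4_mul (P y.1) (Q y.1) (C y.1) (P' y.1) (Q' y.1) (C' y.1))
  exact congrArg (Prod.mk y.1) h

theorem act_one {G : ℕ} :
    act (fun _ : Fin G => false) (fun _ => false) (fun _ => false) = 1 := by
  apply Equiv.ext
  intro y
  show (y.1, d4 false false false y.2) = y
  rw [d4_one]
  rfl

theorem ipL_xor (l : List Bool) {N : ℕ} (x y : Fin N → Bool) :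
    ipL l (fun j => xor (x j) (y j)) = xor (ipL l x) (ipL l y) := by
  have h : (univ.filter (fun j : Fin N => l.getD j false = true ∧ xor (x j) (y j) = true)).card
      + 2 * (univ.filter (fun j : Fin N => l.getD j false = true ∧ x j = true ∧ y j = true)).card
      = (univ.filter (fun j : Fin N => l.getD j false = true ∧ x j = true)).card
        + (univ.filter (fun j : Fin N => l.getD j false = true ∧ y j = true)).card := by
    rw [card_filter, card_filter, card_filter, card_filter, mul_sum, ← sum_add_distrib,
      ← sum_add_distrib]
    refine sum_congr rfl fun j _ => ?_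
    generalize l.getD j false = a
    generalize x j = b
    generalize y j = c
    revert a b c
    decide
  unfold ipL
  generalize (univ.filter (fun j : Fin N => l.getD j false = true ∧ x j = true)).card = u at *
  generalize (univ.filter (fun j : Fin N => l.getD j false = true ∧ y j = true)).card = v at *
  generalize (univ.filter
    (fun j : Fin N => l.getD j false = true ∧ x j = true ∧ y j = true)).card = w at *
  generalize (univ.filter
    (fun j : Fin N => l.getD j false = true ∧ xor (x j) (y j) = true)).card = z at *
  rcases Nat.mod_two_eq_zero_or_one u with hu | hu <;>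
  rcases Nat.mod_two_eq_zero_or_one v with hv | hv
  · have : z % 2 = 0 := by omega
    simp [hu, hv, this]
  · have : z % 2 = 1 := by omega
    simp [hu, hv, this]
  · have : z % 2 = 1 := by omega
    simp [hu, hv, this]
  · have : z % 2 = 0 := by omega
    simp [hu, hv, this]

theorem ipL_zero (l : List Bool) {N : ℕ} : ipL l (fun _ : Fin N => false) = false := by
  simp [ipL]

theorem PX_xor {N : ℕ} (gs : List (List Bool × List Bool)) (x y : Fin N → Bool) :
    PX gs (fun j => xor (x j) (y j)) = fun i => xor (PX gs x i) (PX gs y i) := by
  funext i
  exact ipL_xor _ x y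

theorem QX_xor {N : ℕ} (gs : List (List Bool × List Bool)) (x y : Fin N → Bool) :
    QX gs (fun j => xor (x j) (y j)) = fun i => xor (QX gs x i) (QX gs y i) := by
  funext i
  exact ipL_xor _ x y

theorem PX_zero {N : ℕ} (gs : List (List Bool × List Bool)) :
    PX gs (fun _ : Fin N => false) = fun _ => false := by
  funext i
  exact ipL_zero _

theorem QX_zero {N : ℕ} (gs : List (List Bool × List Bool)) :
    QX gs (fun _ : Fin N => false) = fun _ => false := by
  funext i
  exact ipL_zero _

/-- the range is a subgroup -/
def sg (N : ℕ) (gs : List (List Bool × List Bool)) :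
    Subgroup (Equiv.Perm (Fin gs.length × Bool × Bool)) where
  carrier := Set.range (fun p : (Fin N → Bool) × (Fin gs.length → Bool) =>
    act (PX gs p.1) (QX gs p.1) p.2)
  one_mem' := ⟨(fun _ => false, fun _ => false), by
    show act (PX gs fun _ => false) (QX gs fun _ => false) (fun _ => false) = 1
    rw [PX_zero, QX_zero, act_one]⟩
  mul_mem' := by
    rintro _ _ ⟨⟨x, C⟩, rfl⟩ ⟨⟨x', C'⟩, rfl⟩
    refine ⟨(fun j => xor (x j) (x' j),
      fun i => xor (xor (C i) (C' i)) (PX gs x i && QX gs x' i)), ?_⟩
    show act (PX gs fun j => xor (x j) (x' j)) (QX gs fun j => xor (x j) (x' j)) _ = _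
    rw [PX_xor, QX_xor]
    exact (act_mul _ _ _ _ _ _).symm
  inv_mem' := by
    rintro _ ⟨⟨x, C⟩, rfl⟩
    refine ⟨(x, fun i => xor (C i) (PX gs x i && QX gs x i)), ?_⟩
    show act (PX gs x) (QX gs x) (fun i => xor (C i) (PX gs x i && QX gs x i)) =
      (act (PX gs x) (QX gs x) C)⁻¹
    rw [eq_inv_iff_mul_eq_one, act_mul, ← act_one]
    congr 1
    · funext i; exact Bool.xor_self _
    · funext i; exact Bool.xor_self _
    · funext i
      generalize C i = a
      generalize PX gs x i = b
      generalize QX gs x i = c
      revert a b c
      decide

end K2aux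

open K2aux in
theorem K2_ok : S_K2 := by
  intro N gs
  set Gen := Set.range (fun j : Fin N => act (PX gs (fun j' => decide (j' = j)))
      (QX gs (fun j' => decide (j' = j))) (fun _ => false)) ∪
     Set.range (fun i : Fin gs.length => act (fun _ => false) (fun _ => false)
      (fun i' => decide (i' = i))) with hGen
  apply Set.Subset.antisymm
  · have h : Subgroup.closure Gen ≤ sg N gs := by
      rw [Subgroup.closure_le]
      rintro _ (⟨j, rfl⟩ | ⟨i, rfl⟩)
      · exact ⟨(fun j' => decide (j' = j), fun _ => false), rfl⟩
      · refine ⟨(fun _ => false, fun i' => decide (i' = i)), ?_⟩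
        show act (PX gs fun _ => false) (QX gs fun _ => false) _ = _
        rw [PX_zero, QX_zero]
    exact h
  · rintro _ ⟨⟨x, C⟩, rfl⟩
    -- central elements
    have hC : ∀ s : Finset (Fin gs.length), act (fun _ => false) (fun _ => false)
        (fun i => decide (i ∈ s)) ∈ Subgroup.closure Gen := by
      intro s
      induction s using Finset.induction_on with
      | empty =>
        have : (fun i : Fin gs.length => decide (i ∈ (∅ : Finset (Fin gs.length)))) =
            fun _ => false := by funext i; simp
        rw [this, act_one]
        exact one_mem _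
      | insert a s ha ih =>
        have h1 : act (fun _ => false) (fun _ => false) (fun i' => decide (i' = a)) ∈
            Subgroup.closure Gen := Subgroup.subset_closure (Or.inr ⟨a, rfl⟩)
        have h2 := mul_mem h1 ih
        rw [act_mul] at h2
        convert h2 using 1
        congr 1
        funext i
        by_cases hi : i = a
        · subst hi; simp [ha]
        · simp [hi]
    have hC' : ∀ D : Fin gs.length → Bool, act (fun _ => false) (fun _ => false) D ∈
        Subgroup.closure Gen := by
      intro D
      have h1 := hC (univ.filter fun i => D i = true)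
      convert h1 using 1
      congr 1
      funext i
      simp
    have hx : ∀ s : Finset (Fin N), ∃ D, act (PX gs (fun j => decide (j ∈ s)))
        (QX gs (fun j => decide (j ∈ s))) D ∈ Subgroup.closure Gen := by
      intro s
      induction s using Finset.induction_on with
      | empty =>
        refine ⟨fun _ => false, ?_⟩
        have : (fun j : Fin N => decide (j ∈ (∅ : Finset (Fin N)))) = fun _ => false := by
          funext i; simp
        rw [this, PX_zero, QX_zero, act_one]
        exact one_mem _
      | insert a s ha ih =>
        obtain ⟨D, hD⟩ := ih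
        have h1 : act (PX gs (fun j' => decide (j' = a))) (QX gs (fun j' => decide (j' = a)))
            (fun _ => false) ∈ Subgroup.closure Gen := Subgroup.subset_closure (Or.inl ⟨a, rfl⟩)
        have h2 := mul_mem h1 hD
        rw [act_mul, ← PX_xor, ← QX_xor] at h2
        have h3 : (fun j : Fin N => decide (j ∈ insert a s)) =
            fun j => xor (decide (j = a)) (decide (j ∈ s)) := by
          funext j
          by_cases hj : j = a
          · subst hj; simp [ha]
          · simp [hj]
        rw [h3]
        exact ⟨_, h2⟩
    obtain ⟨D, hD⟩ := hx (univ.filter fun j => x j = true)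
    have hxe : (fun j : Fin N => decide (j ∈ univ.filter fun j => x j = true)) = x := by
      funext j; simp
    rw [hxe] at hD
    have h4 := mul_mem (hC' (fun i => xor (C i) (D i))) hD
    rw [act_mul] at h4
    show act (PX gs x) (QX gs x) C ∈ Subgroup.closure Gen
    convert h4 using 1
    congr 1
    · funext i; simp
    · funext i; simp
    · funext i
      generalize C i = a
      generalize D i = b
      generalize QX gs x i = c
      revert a b c
      decide

end Pool.Agent.H49R2.PY
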