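import Pool.Agent.H49R2.PY.Stubs

namespace Pool.Agent.H49R2.PY

open Finset

namespace K3aux

theorem cnt (k r : ℕ) (σ : Equiv.Perm (Bool × Bool)) (π : Bool × Bool → Fin r)
    (s : Fin r → Bool × Bool) (h1 : ∀ y, π (σ y) = π y) (h2 : ∀ i, π (s i) = i)
    (h3 : ∀ y, y = s (π y) ∨ σ y = s (π y) ∨ σ (σ y) = s (π y) ∨ σ (σ (σ y)) = s (π y)) :
    (univ.filter (fun u : Bool × Bool → Fin k => ∀ y, u (σ y) = u y)).card = k ^ r := by
  classical
  have h4 : univ.filter (fun u : Bool × Bool → Fin k => ∀ y, u (σ y) = u y) =
      univ.image (fun g : Fin r → Fin k => fun y => g (π y)) := by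
    ext u
    simp only [mem_filter, mem_univ, true_and, mem_image]
    constructor
    · intro hu
      refine ⟨fun i => u (s i), ?_⟩
      funext y
      show u (s (π y)) = u y
      rcases h3 y with h | h | h | h
      · rw [← h]
      · rw [← h, hu]
      · rw [← h, hu, hu]
      · rw [← h, hu, hu, hu]
    · rintro ⟨g, rfl⟩ y
      show g (π (σ y)) = g (π y)
      rw [h1]
  rw [h4, card_image_of_injective, card_univ, Fintype.card_fun, Fintype.card_fin,
    Fintype.card_fin]
  intro g g' hg
  funext i
  have := congrFun hg (s i)
  simpa [h2] using this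

theorem loc_sum (k : ℕ) (p q : Bool) :
    ∑ c : Bool, (univ.filter (fun u : Bool × Bool → Fin k => ∀ y, u (d4 p q c y) = u y)).card
      = wt k p q := by
  rw [Fintype.sum_bool]
  cases p <;> cases q
  · rw [cnt k 2 (d4 false false true) (fun y => if y.1 then 1 else 0)
        (fun i => if i = 0 then (false, false) else (true, false)) (by decide) (by decide)
        (by decide),
      cnt k 4 (d4 false false false)
        (fun y => if y.1 then (if y.2 then 3 else 2) else (if y.2 then 1 else 0))
        (fun i => if i = 0 then (false, false) else if i = 1 then (false, true) else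
          if i = 2 then (true, false) else (true, true)) (by decide) (by decide) (by decide)]
    show k ^ 2 + k ^ 4 = k ^ 4 + k ^ 2
    ring
  · rw [cnt k 2 (d4 false true true) (fun y => if xor y.1 y.2 then 1 else 0)
        (fun i => if i = 0 then (false, false) else (true, false)) (by decide) (by decide)
        (by decide),
      cnt k 2 (d4 false true false) (fun y => if y.2 then 1 else 0)
        (fun i => if i = 0 then (false, false) else (false, true)) (by decide) (by decide)
        (by decide)]
    show k ^ 2 + k ^ 2 = 2 * k ^ 2
    ring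
  · rw [cnt k 3 (d4 true false true)
        (fun y => if y.1 then 2 else (if y.2 then 1 else 0))
        (fun i => if i = 0 then (false, false) else if i = 1 then (false, true) else
          (true, true)) (by decide) (by decide) (by decide),
      cnt k 3 (d4 true false false)
        (fun y => if y.1 then (if y.2 then 1 else 0) else 2)
        (fun i => if i = 0 then (true, false) else if i = 1 then (true, true) else
          (false, true)) (by decide) (by decide) (by decide)]
    show k ^ 3 + k ^ 3 = 2 * k ^ 3
    ring
  · rw [cnt k 1 (d4 true true true) (fun _ => 0)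
        (fun _ => (false, false)) (by decide) (by decide) (by decide),
      cnt k 1 (d4 true true false) (fun _ => 0)
        (fun _ => (false, false)) (by decide) (by decide) (by decide)]
    show k ^ 1 + k ^ 1 = 2 * k
    ring

theorem card_act (k G : ℕ) (P Q C : Fin G → Bool) :
    (univ.filter (fun w : Fin G × Bool × Bool → Fin k => ∀ y, w (act P Q C y) = w y)).card =
      ∏ i, (univ.filter (fun u : Bool × Bool → Fin k =>
        ∀ y, u (d4 (P i) (Q i) (C i) y) = u y)).card := by
  classical
  rw [← Fintype.card_piFinset]
  refine card_equiv (Equiv.curry (Fin G) (Bool × Bool) (Fin k)) ?_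
  intro w
  simp only [mem_filter, mem_univ, true_and, Fintype.mem_piFinset]
  constructor
  · intro h i y
    exact h (i, y)
  · intro h y
    exact h y.1 y.2

end K3aux

theorem K3_ok : S_K3 := by
  classical
  intro k N gs
  rw [Fintype.sum_prod_type]
  unfold Zl
  refine sum_congr rfl fun x _ => ?_
  have h1 : ∀ C : Fin gs.length → Bool,
      (univ.filter (fun w : Fin gs.length × Bool × Bool → Fin k =>
        ∀ y, w (act (PX gs x) (QX gs x) C y) = w y)).card =
      ∏ i, (univ.filter (fun u : Bool × Bool → Fin k =>
        ∀ y, u (d4 (PX gs x i) (QX gs x i) (C i) y) = u y)).card :=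
    fun C => K3aux.card_act k gs.length (PX gs x) (QX gs x) C
  rw [sum_congr rfl fun C _ => h1 C]
  have h2 := prod_univ_sum (fun _ : Fin gs.length => (univ : Finset Bool))
    (fun i c => (univ.filter (fun u : Bool × Bool → Fin k =>
        ∀ y, u (d4 (PX gs x i) (QX gs x i) c y) = u y)).card)
  rw [Fintype.piFinset_univ] at h2
  rw [← h2]
  rw [prod_congr rfl fun i _ => K3aux.loc_sum k (PX gs x i) (QX gs x i)]
  exact Fin.prod_univ_fun_getElem gs (fun t => wt k (ipL t.1 x) (ipL t.2 x))

end Pool.Agent.H49R2.PY
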