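import Pool.Agent.H49R2.PY.Stubs

/-!
# Codes of the permutations
-/

namespace Pool.Agent.H49R2.PY

open Pool.Agent.NPC Pool.Agent.NPC.Cnt Finset

namespace K4aux

theorem toF_injective (G : ℕ) : Function.Injective (toF G) := by
  rintro ⟨i, t, s⟩ ⟨i', t', s'⟩ h
  have h1 : 4 * (i : ℕ) + 2 * t.toNat + s.toNat = 4 * (i' : ℕ) + 2 * t'.toNat + s'.toNat :=
    congrArg Fin.val h
  have e1 := Bool.toNat_le t
  have e2 := Bool.toNat_le s
  have e3 := Bool.toNat_le t'
  have e4 := Bool.toNat_le s'
  have hi : i = i' := Fin.ext (by omega)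
  have ht : t.toNat = t'.toNat := by omega
  have hs : s.toNat = s'.toNat := by omega
  have ht' : t = t' := by cases t <;> cases t' <;> simp_all
  have hs' : s = s' := by cases s <;> cases s' <;> simp_all
  rw [hi, ht', hs']

theorem toF_bijective (G : ℕ) : Function.Bijective (toF G) := by
  rw [Fintype.bijective_iff_injective_and_card]
  refine ⟨toF_injective G, ?_⟩
  simp
  ring

end K4aux

open K4aux

theorem K4_ok : S_K4 := by
  intro G
  let e : (Fin G × Bool × Bool) ≃ Fin (4 * G) := Equiv.ofBijective (toF G) (toF_bijective G)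
  refine ⟨e, fun y => rfl, fun P Q C => ?_⟩
  have he : ∀ y, (e.permCongr (act P Q C)) (toF G y) = toF G (act P Q C y) := by
    intro y
    have h1 : toF G y = e y := rfl
    rw [h1, Equiv.permCongr_apply, Equiv.symm_apply_apply]
    rfl
  unfold code
  rw [List.ofFn_mul', List.flatMap_def, ← List.ofFn_eq_map]
  congr 1
  congr 1
  funext i
  have h0 : ∀ (t s : Bool) (h : 4 * (i : ℕ) + (2 * t.toNat + s.toNat) < 4 * G),
      ((e.permCongr (act P Q C)) ⟨4 * (i : ℕ) + (2 * t.toNat + s.toNat), h⟩ : ℕ) =
      4 * (i : ℕ) + 2 * (d4 (P i) (Q i) (C i) (t, s)).1.toNat +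
        (d4 (P i) (Q i) (C i) (t, s)).2.toNat := by
    intro t s h
    have h1 : (⟨4 * (i : ℕ) + (2 * t.toNat + s.toNat), h⟩ : Fin (4 * G)) = toF G (i, t, s) := by
      apply Fin.ext
      change 4 * (i : ℕ) + (2 * t.toNat + s.toNat) = 4 * (i : ℕ) + 2 * t.toNat + s.toNat
      omega
    rw [h1, he]
    rfl
  have hi := i.isLt
  have a0 := h0 false false (by simp only [Bool.toNat_false]; omega)
  have a1 := h0 false true (by simp; omega)
  have a2 := h0 true false (by simp; omega)
  have a3 := h0 true true (by simp; omega)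
  simp only [List.ofFn_succ, List.ofFn_zero]
  unfold loc
  refine congrArg₂ List.cons ?_ (congrArg₂ List.cons ?_ (congrArg₂ List.cons ?_
    (congrArg₂ List.cons ?_ rfl)))
  · refine a0.trans ?_
    generalize P i = p
    generalize Q i = q
    generalize C i = c
    cases p <;> cases q <;> cases c <;> rfl
  · refine a1.trans ?_
    generalize P i = p
    generalize Q i = q
    generalize C i = c
    cases p <;> cases q <;> cases c <;> rfl
  · refine a2.trans ?_
    generalize P i = p
    generalize Q i = q
    generalize C i = c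
    cases p <;> cases q <;> cases c <;> rfl
  · refine a3.trans ?_
    generalize P i = p
    generalize Q i = q
    generalize C i = c
    cases p <;> cases q <;> cases c <;> rfl

end Pool.Agent.H49R2.PY
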