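import Pool.Agent.H49R2.PY.Stubs

/-! Task Kasm: assembly of the core identity. -/

namespace Pool.Agent.H49R2.PY

open Pool.Agent.NPC Pool.Agent.NPC.Cnt Finset

namespace Kasmaux

open Classical in
theorem polya_eq (k m : ℕ) (u : List Unit) (L : List (List ℕ)) (hu : u.length = m)
    (h1 : ∀ l ∈ L, ∃ σ : Equiv.Perm (Fin m), code σ = l) (h2 : L.length ≤ m) :
    polya k (u, L) = ∑ σ ∈ univ.filter (fun σ : Equiv.Perm (Fin m) =>
      σ ∈ Subgroup.closure {τ | code τ ∈ L}), k ^ numCycles σ := by
  subst hu
  unfold polya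
  rw [if_pos ⟨h1, h2⟩]

theorem code_inj {m : ℕ} : Function.Injective (code (m := m)) := by
  intro σ τ h
  have h1 := List.ofFn_injective h
  ext i
  exact congrFun h1 i

theorem card_single {N : ℕ} (j : Fin N) (P : Fin N → Prop) [DecidablePred P]
    (h : ∀ j', P j' → j' = j) : (univ.filter P).card % 2 = 1 ↔ P j := by
  by_cases hj : P j
  · have h1 : univ.filter P = {j} := by
      ext j'
      simp only [mem_filter, mem_univ, true_and, mem_singleton]
      exact ⟨h j', fun e => e ▸ hj⟩
    rw [h1]
    simp [hj]
  · have h1 : univ.filter P = ∅ := by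
      ext j'
      simp only [mem_filter, mem_univ, true_and, notMem_empty, iff_false]
      intro hp
      exact hj (h j' hp ▸ hp)
    rw [h1]
    simp [hj]

theorem ipL_delta {N : ℕ} (l : List Bool) (j : Fin N) :
    ipL l (fun j' : Fin N => decide (j' = j)) = l.getD j false := by
  unfold ipL
  rw [Bool.eq_iff_iff, decide_eq_true_iff, card_single j]
  · simp
  · intro j' h
    simpa using h.2

theorem getD_rec (j i : ℕ) : (List.replicate j false ++ [true]).getD i false = decide (i = j) := by
  rw [List.getD_eq_getElem?_getD, List.getElem?_append]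
  rcases lt_trichotomy i j with h | h | h
  · rw [if_pos (by simpa using h), List.getElem?_replicate, if_pos h]
    have : i ≠ j := h.ne
    simp [this]
  · subst h
    simp
  · have h1 : ¬ i < (List.replicate j false).length := by simp; omega
    rw [if_neg h1]
    have h2 : i - (List.replicate j false).length ≠ 0 := by simp; omega
    have h3 : i ≠ j := h.ne'
    obtain ⟨t, ht⟩ : ∃ t, i - (List.replicate j false).length = t + 1 :=
      ⟨_, (Nat.succ_pred_eq_of_ne_zero h2).symm⟩
    rw [ht]
    simp [h3]

theorem ipL_rec {N : ℕ} (j : Fin N) (x : Fin N → Bool) :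
    ipL (List.replicate j false ++ [true]) x = x j := by
  unfold ipL
  rw [Bool.eq_iff_iff, decide_eq_true_iff, card_single j]
  · rw [getD_rec]
    simp
  · intro j' h
    have h1 := h.1
    rw [getD_rec] at h1
    exact Fin.ext (by simpa using h1)

theorem range_eq (G : ℕ) :
    List.range G = (List.finRange G).map (fun i : Fin G => (i : ℕ)) := by
  apply List.ext_getElem
  · simp
  · intro i h1 h2
    simp

theorem zipIdx_eq {α : Type} (gs : List α) :
    gs.zipIdx = (List.finRange gs.length).map (fun i => (gs.get i, (i : ℕ))) := by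
  apply List.ext_getElem
  · simp
  · intro i h1 h2
    simp

theorem genVar_eq {N : ℕ} (gs : List (List Bool × List Bool)) (j : Fin N) :
    genVar gs j = (List.finRange gs.length).flatMap (fun i =>
      loc (PX gs (fun j' : Fin N => decide (j' = j)) i) (QX gs (fun j' : Fin N => decide (j' = j)) i)
        false (4 * i)) := by
  unfold genVar
  rw [zipIdx_eq, List.flatMap_map]
  congr 1
  funext i
  simp only [PX, QX, ipL_delta]

theorem genCen_eq (G : ℕ) (i : Fin G) :
    genCen G i = (List.finRange G).flatMap (fun t => loc false false (decide (t = i)) (4 * t)) := by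
  unfold genCen
  rw [range_eq, List.flatMap_map]
  congr 1
  funext t
  congr 1
  rw [Bool.eq_iff_iff, decide_eq_true_iff, decide_eq_true_iff]
  exact ⟨fun h => Fin.ext h, fun h => congrArg _ h⟩

theorem d4_inj : ∀ p q c p' q' c' : Bool, (∀ y, d4 p q c y = d4 p' q' c' y) →
    p = p' ∧ q = q' ∧ c = c' := by
  decide

theorem act_inj {G : ℕ} {P Q C P' Q' C' : Fin G → Bool} (h : act P Q C = act P' Q' C') :
    P = P' ∧ Q = Q' ∧ C = C' := by
  have key : ∀ i, P i = P' i ∧ Q i = Q' i ∧ C i = C' i := by
    intro i
    apply d4_inj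
    intro y
    have h1 := congrArg (fun σ : Equiv.Perm (Fin G × Bool × Bool) => (σ (i, y)).2) h
    exact h1
  exact ⟨funext fun i => (key i).1, funext fun i => (key i).2.1, funext fun i => (key i).2.2⟩

theorem par_inj {N : ℕ} (gs : List (List Bool × List Bool))
    (hrec : ∀ j < N, (List.replicate j false ++ [true], []) ∈ gs) :
    Function.Injective (fun p : (Fin N → Bool) × (Fin gs.length → Bool) =>
      act (PX gs p.1) (QX gs p.1) p.2) := by
  rintro ⟨x, C⟩ ⟨x', C'⟩ h
  obtain ⟨h1, _, h3⟩ := act_inj h
  simp only at h1 h3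
  subst h3
  have hx : x = x' := by
    funext j
    obtain ⟨i, hi⟩ := List.get_of_mem (hrec j j.2)
    have h4 := congrFun h1 i
    unfold PX at h4
    rw [hi, ipL_rec, ipL_rec] at h4
    exact h4
  rw [hx]

theorem N_le {N : ℕ} (gs : List (List Bool × List Bool))
    (hrec : ∀ j < N, (List.replicate j false ++ [true], []) ∈ gs) : N ≤ gs.length := by
  classical
  have h1 : (Finset.range N).card ≤ gs.toFinset.card := by
    apply Finset.card_le_card_of_injOn
      (fun j => ((List.replicate j false ++ [true], []) : List Bool × List Bool))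
    · intro j hj
      have := hrec j (by simpa using hj)
      simpa using this
    · intro j _ j' _ h
      have h2 := congrArg (fun t : List Bool × List Bool => t.1.length) h
      simpa using h2
  rw [Finset.card_range] at h1
  exact h1.trans (List.toFinset_card_le gs)

/-- the number of fixed words is invariant under renumbering -/
theorem card_transport {α : Type} [Fintype α] [DecidableEq α] {m k : ℕ} (e : α ≃ Fin m)
    (τ : Equiv.Perm α) :
    (univ.filter (fun w : Fin m → Fin k => ∀ i, w (e.permCongr τ i) = w i)).card =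
      (univ.filter (fun w : α → Fin k => ∀ y, w (τ y) = w y)).card := by
  apply Finset.card_nbij' (fun w => w ∘ e) (fun w => w ∘ e.symm)
  · intro w hw
    rw [Finset.mem_coe, Finset.mem_filter] at hw ⊢
    refine ⟨mem_univ _, fun y => ?_⟩
    have := hw.2 (e y)
    simpa [Equiv.permCongr_apply] using this
  · intro w hw
    rw [Finset.mem_coe, Finset.mem_filter] at hw ⊢
    refine ⟨mem_univ _, fun y => ?_⟩
    have := hw.2 (e.symm y)
    simpa [Equiv.permCongr_apply] using this
  · intro w _
    funext y
    simp
  · intro w _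
    funext y
    simp

end Kasmaux

open Kasmaux in
open Classical in
theorem Kasm_ok : S_Kasm := by
  intro hK1 hK2 hK3 hK4 k N gs hrec
  obtain ⟨e, -, he⟩ := hK4 gs.length
  have hN := N_le gs hrec
  set gv : Fin N → Equiv.Perm (Fin gs.length × Bool × Bool) := fun j =>
    act (PX gs (fun j' => decide (j' = j))) (QX gs (fun j' => decide (j' = j)))
      (fun _ => false) with hgv
  set gc : Fin gs.length → Equiv.Perm (Fin gs.length × Bool × Bool) := fun i =>
    act (fun _ => false) (fun _ => false) (fun i' => decide (i' = i)) with hgc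
  have hcv : ∀ j : Fin N, code (e.permCongr (gv j)) = genVar gs j := by
    intro j
    rw [hgv, he, genVar_eq]
  have hcc : ∀ i : Fin gs.length, code (e.permCongr (gc i)) = genCen gs.length i := by
    intro i
    rw [hgc, he, genCen_eq]
  have hmem : ∀ l : List ℕ, l ∈ (List.range N).map (genVar gs) ++
      (List.range gs.length).map (genCen gs.length) ↔
      ∃ τ ∈ Set.range gv ∪ Set.range gc, code (e.permCongr τ) = l := by
    intro l
    rw [List.mem_append, List.mem_map, List.mem_map]
    constructor
    · rintro (⟨j, hj, rfl⟩ | ⟨i, hi, rfl⟩)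
      · rw [List.mem_range] at hj
        exact ⟨gv ⟨j, hj⟩, Or.inl ⟨_, rfl⟩, hcv ⟨j, hj⟩⟩
      · rw [List.mem_range] at hi
        exact ⟨gc ⟨i, hi⟩, Or.inr ⟨_, rfl⟩, hcc ⟨i, hi⟩⟩
    · rintro ⟨τ, ⟨j, rfl⟩ | ⟨i, rfl⟩, rfl⟩
      · exact Or.inl ⟨j, List.mem_range.2 j.2, (hcv j).symm⟩
      · exact Or.inr ⟨i, List.mem_range.2 i.2, (hcc i).symm⟩
  have hset : {τ : Equiv.Perm (Fin (4 * gs.length)) | code τ ∈ (List.range N).map (genVar gs) ++
      (List.range gs.length).map (genCen gs.length)} =
      e.permCongrHom.toMonoidHom '' (Set.range gv ∪ Set.range gc) := by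
    ext τ
    rw [Set.mem_ofPred_eq, hmem, Set.mem_image]
    constructor
    · rintro ⟨σ, hσ, h⟩
      exact ⟨σ, hσ, code_inj h⟩
    · rintro ⟨σ, hσ, rfl⟩
      exact ⟨σ, hσ, rfl⟩
  have hcl : ∀ σ : Equiv.Perm (Fin (4 * gs.length)),
      σ ∈ Subgroup.closure {τ : Equiv.Perm (Fin (4 * gs.length)) |
        code τ ∈ (List.range N).map (genVar gs) ++
          (List.range gs.length).map (genCen gs.length)} ↔
      ∃ p : (Fin N → Bool) × (Fin gs.length → Bool),
        e.permCongr (act (PX gs p.1) (QX gs p.1) p.2) = σ := by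
    intro σ
    rw [hset, ← MonoidHom.map_closure, Subgroup.mem_map]
    constructor
    · rintro ⟨τ, hτ, rfl⟩
      have h1 : τ ∈ (Subgroup.closure (Set.range gv ∪ Set.range gc) :
          Set (Equiv.Perm (Fin gs.length × Bool × Bool))) := hτ
      rw [hgv, hgc, hK2 N gs] at h1
      obtain ⟨p, rfl⟩ := h1
      exact ⟨p, rfl⟩
    · rintro ⟨p, rfl⟩
      refine ⟨act (PX gs p.1) (QX gs p.1) p.2, ?_, rfl⟩
      have h1 : act (PX gs p.1) (QX gs p.1) p.2 ∈
          (Subgroup.closure (Set.range gv ∪ Set.range gc) :
          Set (Equiv.Perm (Fin gs.length × Bool × Bool))) := by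
        rw [hgv, hgc, hK2 N gs]
        exact ⟨p, rfl⟩
      exact h1
  have hfin : univ.filter (fun σ : Equiv.Perm (Fin (4 * gs.length)) =>
      σ ∈ Subgroup.closure {τ : Equiv.Perm (Fin (4 * gs.length)) |
        code τ ∈ (List.range N).map (genVar gs) ++
          (List.range gs.length).map (genCen gs.length)}) =
      univ.image (fun p : (Fin N → Bool) × (Fin gs.length → Bool) =>
        e.permCongr (act (PX gs p.1) (QX gs p.1) p.2)) := by
    ext σ
    rw [Finset.mem_filter, hcl, Finset.mem_image]
    simp
  have hpol : polya k (instOf N gs) = ∑ σ ∈ univ.filter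
      (fun σ : Equiv.Perm (Fin (4 * gs.length)) =>
      σ ∈ Subgroup.closure {τ : Equiv.Perm (Fin (4 * gs.length)) |
        code τ ∈ (List.range N).map (genVar gs) ++
          (List.range gs.length).map (genCen gs.length)}), k ^ numCycles σ := by
    apply polya_eq
    · simp
    · intro l hl
      obtain ⟨τ, _, h⟩ := (hmem l).1 hl
      exact ⟨_, h⟩
    · simp only [List.length_append, List.length_map, List.length_range]
      omega
  rw [hpol, hfin, Finset.sum_image, ← hK3 k N gs]
  · refine Finset.sum_congr rfl fun p _ => ?_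
    rw [← hK1 k (4 * gs.length)]
    convert card_transport e (act (PX gs p.1) (QX gs p.1) p.2)
  · intro p _ p' _ h
    exact par_inj gs hrec (e.permCongr.injective h)

end Pool.Agent.H49R2.PY
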