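import Pool.Agent.H49R2.PY.Stubs

namespace Pool.Agent.H49R2.PY

open Finset

namespace L1aux

theorem wt_eq (k : ℕ) (hk : 2 ≤ k) (p q : Bool) :
    (wt k p q : ℝ) = ((k : ℝ) ^ 4 + k ^ 2) * gz k p q := by
  have hk0 : (k : ℝ) ≠ 0 := by
    have : (0 : ℝ) < k := by exact_mod_cast (by omega : 0 < k)
    exact this.ne'
  have h2 : ((k : ℝ) ^ 2 + 1) ≠ 0 := by positivity
  cases p <;> cases q <;> simp only [wt, gz] <;> push_cast <;> field_simp

theorem list_prod_wt (k : ℕ) (hk : 2 ≤ k) {N : ℕ} (x : Fin N → Bool)
    (gs : List (List Bool × List Bool)) :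
    (((gs.map (fun t => wt k (ipL t.1 x) (ipL t.2 x))).prod : ℕ) : ℝ) =
      ((k : ℝ) ^ 4 + k ^ 2) ^ gs.length *
        (gs.map (fun t => gz k (ipL t.1 x) (ipL t.2 x))).prod := by
  induction gs with
  | nil => simp
  | cons a l ih =>
    simp only [List.map_cons, List.prod_cons, List.length_cons, Nat.cast_mul]
    rw [ih, wt_eq k hk, pow_succ]
    ring

theorem prod_flat {α β : Type*} (l : List α) (h : α → List β) (w : β → ℝ) :
    ((l.flatMap h).map w).prod = (l.map (fun a => ((h a).map w).prod)).prod := by
  induction l with
  | nil => simp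
  | cons a l ih =>
    simp only [List.flatMap_cons, List.map_append, List.prod_append, List.map_cons, List.prod_cons]
    rw [ih]

theorem prod_range (N : ℕ) (f : ℕ → ℝ) :
    ((List.range N).map f).prod = ∏ i : Fin N, f i := by
  induction N with
  | zero => simp
  | succ N ih =>
    rw [List.range_succ, List.map_append, List.prod_append, ih, Fin.prod_univ_castSucc]
    simp

theorem ipL_nil {N : ℕ} (x : Fin N → Bool) : ipL [] x = false := by
  unfold ipL
  simp

theorem ipL_single {N : ℕ} (x : Fin N → Bool) (j : Fin N) :
    ipL (List.replicate (j : ℕ) false ++ [true]) x = x j := by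
  unfold ipL
  have h : (univ.filter (fun i : Fin N =>
      (List.replicate (j : ℕ) false ++ [true]).getD i false = true ∧ x i = true)) =
      if x j = true then {j} else ∅ := by
    ext i
    have hi : (List.replicate (j : ℕ) false ++ [true]).getD i false = true ↔ i = j := by
      rcases lt_trichotomy (i : ℕ) (j : ℕ) with h1 | h1 | h1
      · rw [List.getD_append _ _ _ _ (by simpa using h1)]
        rw [List.getD_replicate _ h1]
        constructor
        · intro h; exact absurd h (by simp)
        · intro h; rw [h] at h1; omega
      · rw [List.getD_append_right _ _ _ _ (by simp [h1])]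
        simp only [List.length_replicate, h1, Nat.sub_self]
        constructor
        · intro _; exact Fin.ext h1
        · intro _; rfl
      · rw [List.getD_append_right _ _ _ _ (by simp; omega)]
        simp only [List.length_replicate]
        constructor
        · intro h
          rw [List.getD_eq_default _ _ (by simp; omega)] at h
          exact absurd h (by simp)
        · intro h; rw [h] at h1; omega
    simp only [mem_filter, mem_univ, true_and, hi]
    by_cases hx : x j = true
    · rw [if_pos hx, mem_singleton]
      constructor
      · exact fun h => h.1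
      · intro h; exact ⟨h, by rw [h]; exact hx⟩
    · rw [if_neg hx]
      constructor
      · intro h; exact absurd (h.1 ▸ h.2) hx
      · intro h; exact absurd h (by simp)
  rw [h]
  by_cases hx : x j = true
  · rw [if_pos hx, hx]; simp
  · rw [if_neg hx]
    simp only [card_empty]
    simpa using hx

/-- the string of a configuration -/
def xg {n M : ℕ} (g : Cf n M) : Fin (n * M) → Bool := fun i =>
  g (finProdFinEquiv.symm i).1 (finProdFinEquiv.symm i).2

theorem xg_apply {n M : ℕ} (g : Cf n M) (v : Fin n) (j : Fin M) :
    xg g (finProdFinEquiv (v, j)) = g v j := by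
  unfold xg
  rw [Equiv.symm_apply_apply]

/-- configurations are strings -/
def xe (n M : ℕ) : Cf n M ≃ (Fin (n * M) → Bool) where
  toFun := xg
  invFun := fun x v j => x (finProdFinEquiv (v, j))
  left_inv := fun g => by
    funext v j
    exact xg_apply g v j
  right_inv := fun x => by
    funext i
    show x (finProdFinEquiv ((finProdFinEquiv.symm i).1, (finProdFinEquiv.symm i).2)) = x i
    rw [Prod.mk.eta, Equiv.apply_symm_apply]

theorem ipL_bvec {n M : ℕ} (g : Cf n M) (u : Fin n) (r : List Bool) (c : ℕ) :
    ipL (bvec M ((u : ℕ) * M) r c) (xg g) = ipF (fun j : Fin M => r.getD (c * M + j) false) (g u) := by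
  unfold ipL ipF
  have hget : ∀ i : ℕ, (bvec M ((u : ℕ) * M) r c).getD i false = true ↔
      (u : ℕ) * M ≤ i ∧ i < u * M + M ∧ r.getD (c * M + (i - u * M)) false = true := by
    intro i
    unfold bvec
    rcases lt_or_ge i ((u : ℕ) * M) with h1 | h1
    · rw [List.getD_append _ _ _ _ (by simpa using h1)]
      rw [List.getD_replicate _ h1]
      constructor
      · intro h; exact absurd h (by simp)
      · intro h; omega
    · rw [List.getD_append_right _ _ _ _ (by simpa using h1)]
      simp only [List.length_replicate]
      rcases lt_or_ge (i - (u : ℕ) * M) M with h2 | h2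
      · have h3 : ((r.drop (c * M)).take M).getD (i - (u : ℕ) * M) false =
            r.getD (c * M + (i - u * M)) false := by
          rw [List.getD_eq_getElem?_getD, List.getD_eq_getElem?_getD, List.getElem?_take_of_lt h2,
            List.getElem?_drop]
        rw [h3]
        constructor
        · intro h; exact ⟨h1, by omega, h⟩
        · intro h; exact h.2.2
      · rw [List.getD_eq_default _ _ (by
          rw [List.length_take]; exact (min_le_left _ _).trans h2)]
        constructor
        · intro h; exact absurd h (by simp)
        · intro h; omega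
  have hcard : (univ.filter (fun i : Fin (n * M) =>
      (bvec M ((u : ℕ) * M) r c).getD i false = true ∧ xg g i = true)).card =
      (univ.filter (fun j : Fin M => r.getD (c * M + j) false = true ∧ g u j = true)).card := by
    symm
    apply Finset.card_bij (fun j _ => finProdFinEquiv (u, j))
    · intro j hj
      rw [mem_filter] at hj ⊢
      refine ⟨mem_univ _, ?_, ?_⟩
      · rw [hget]
        have h4 : ((finProdFinEquiv (u, j) : Fin (n * M)) : ℕ) = j + M * u := rfl
        rw [h4]
        have h5 : (j : ℕ) < M := j.2
        have h6 : (u : ℕ) * M = M * u := Nat.mul_comm _ _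
        refine ⟨by omega, by omega, ?_⟩
        have h7 : (j : ℕ) + M * u - u * M = j := by omega
        rw [h7]
        exact hj.2.1
      · rw [xg_apply]
        exact hj.2.2
    · intro a _ b _ hab
      have := finProdFinEquiv.injective hab
      exact (Prod.mk.inj this).2
    · intro i hi
      rw [mem_filter, hget] at hi
      obtain ⟨-, ⟨h1, h2, h3⟩, h4⟩ := hi
      have h5 : (i : ℕ) - u * M < M := by omega
      have h6 : (u : ℕ) * M = M * u := Nat.mul_comm _ _
      have h7 : finProdFinEquiv (u, (⟨(i : ℕ) - u * M, h5⟩ : Fin M)) = i := by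
        apply Fin.ext
        show (i : ℕ) - u * M + M * u = i
        omega
      refine ⟨⟨(i : ℕ) - u * M, h5⟩, ?_, h7⟩
      rw [mem_filter]
      refine ⟨mem_univ _, h3, ?_⟩
      rw [← xg_apply g u, h7]
      exact h4
  rw [hcard]

end L1aux

open L1aux in
theorem L1_ok : S_L1 := by
  intro k n M L A r hk
  unfold Zl Zt
  rw [← Equiv.sum_comp (xe n M), Nat.cast_sum, Finset.mul_sum]
  refine Finset.sum_congr rfl fun g _ => ?_
  rw [show (xe n M) g = xg g from rfl, list_prod_wt k hk]
  congr 1
  unfold gsOf term
  rw [List.map_append, List.prod_append]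
  congr 1
  · rw [List.map_map, prod_range, ← Equiv.prod_comp finProdFinEquiv, Fintype.prod_prod_type]
    refine Finset.prod_congr rfl fun v _ => Finset.prod_congr rfl fun j _ => ?_
    show gz k (ipL (List.replicate ((finProdFinEquiv (v, j) : Fin (n * M)) : ℕ) false ++ [true]) (xg g))
      (ipL [] (xg g)) = _
    rw [ipL_single, xg_apply, ipL_nil]
  · rw [prod_flat, prod_range]
    refine Finset.prod_congr rfl fun u _ => ?_
    rw [prod_flat, prod_range]
    refine Finset.prod_congr rfl fun v _ => ?_
    rw [prod_flat, prod_range]
    refine Finset.prod_congr rfl fun i _ => ?_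
    by_cases h : adjOf A u v = true
    · rw [if_pos h, if_pos h]
      simp only [List.map_cons, List.map_nil, List.prod_cons, List.prod_nil, mul_one]
      rw [ipL_bvec, ipL_bvec]
      rfl
    · rw [if_neg h, if_neg h]
      simp only [List.map_cons, List.map_nil, List.prod_cons, List.prod_nil, mul_one]
      rw [ipL_bvec, ipL_bvec, ipL_nil]
      rfl

end Pool.Agent.H49R2.PY
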