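import Pool.Agent.H49R2.PY.Stubs

/-!
# Task L2: counting random strings via forms
-/

namespace Pool.Agent.H49R2.PY

open Pool.Agent.NPC Pool.Agent.NPC.Cnt Finset

namespace L2aux

theorem lt_mul {a b A B : ℕ} (ha : a < A) (hb : b < B) : a * B + b < A * B := by
  have : (a + 1) * B ≤ A * B := Nat.mul_le_mul_right _ ha
  nlinarith

theorem inj_mul {a b a' b' B : ℕ} (hb : b < B) (hb' : b' < B) (h : a * B + b = a' * B + b') :
    a = a' ∧ b = b' := by
  have hB : 0 < B := by omega
  have h1 : (a * B + b) / B = a := by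
    rw [mul_comm, Nat.mul_add_div hB, Nat.div_eq_of_lt hb, add_zero]
  have h2 : (a' * B + b') / B = a' := by
    rw [mul_comm, Nat.mul_add_div hB, Nat.div_eq_of_lt hb', add_zero]
  have h3 : a = a' := by rw [← h1, h, h2]
  subst h3
  exact ⟨rfl, by omega⟩

/-- the index type of the bits -/
abbrev D (n M L : ℕ) : Type := Fin n × Fin n × Fin L × Bool × Fin M

/-- the index of a bit -/
def idx {n M L : ℕ} (d : D n M L) : ℕ :=
  (2 * (((d.1 : ℕ) * n + d.2.1) * L + d.2.2.1) + d.2.2.2.1.toNat) * M + d.2.2.2.2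

theorem idx_lt {n M L : ℕ} (d : D n M L) : idx d < 2 * n ^ 2 * L * M := by
  obtain ⟨u, v, i, b, j⟩ := d
  have h1 : (u : ℕ) * n + v < n * n := lt_mul u.2 v.2
  have h2 : ((u : ℕ) * n + v) * L + i < n * n * L := lt_mul h1 i.2
  have h3 : (((u : ℕ) * n + v) * L + i) * 2 + b.toNat < n * n * L * 2 :=
    lt_mul h2 (Bool.toNat_lt b)
  have h4 := lt_mul h3 j.2
  have e1 : idx (u, v, i, b, j) = ((((u : ℕ) * n + v) * L + i) * 2 + b.toNat) * M + j := by
    unfold idx; ring
  rw [e1]
  calc _ < _ := h4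
    _ = _ := by ring

theorem idx_inj {n M L : ℕ} : Function.Injective (idx : D n M L → ℕ) := by
  rintro ⟨u, v, i, b, j⟩ ⟨u', v', i', b', j'⟩ h
  unfold idx at h
  simp only at h
  obtain ⟨h1, hj⟩ := inj_mul j.2 j'.2 h
  have h1' : (((u : ℕ) * n + v) * L + i) * 2 + b.toNat =
      (((u' : ℕ) * n + v') * L + i') * 2 + b'.toNat := by linarith
  obtain ⟨h2, hb⟩ := inj_mul (Bool.toNat_lt b) (Bool.toNat_lt b') h1'
  obtain ⟨h3, hi⟩ := inj_mul i.2 i'.2 h2
  obtain ⟨h4, hv⟩ := inj_mul v.2 v'.2 h3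
  have hb' : b = b' := by
    cases b <;> cases b' <;> simp_all
  rw [Fin.ext h4, Fin.ext hv, Fin.ext hi, hb', Fin.ext hj]

/-- uncurrying -/
def cur (n M L : ℕ) : (D n M L → Bool) ≃ Fm n M L where
  toFun g := fun u v i b j => g (u, v, i, b, j)
  invFun F := fun d => F d.1 d.2.1 d.2.2.1 d.2.2.2.1 d.2.2.2.2
  left_inv _ := rfl
  right_inv _ := rfl

theorem ncard_strings (R : ℕ) (Q : List Bool → Prop) :
    {r : List Bool | r.length = R ∧ Q r}.ncard =
      {f : Fin R → Bool | Q (List.ofFn f)}.ncard := by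
  have e : {r : List Bool | r.length = R ∧ Q r} =
      List.ofFn '' {f : Fin R → Bool | Q (List.ofFn f)} := by
    ext r
    constructor
    · rintro ⟨h1, h2⟩
      subst h1
      refine ⟨r.get, ?_, List.ofFn_get r⟩
      change Q (List.ofFn r.get)
      rw [List.ofFn_get]
      exact h2
    · rintro ⟨f, hf, rfl⟩
      exact ⟨List.length_ofFn, hf⟩
  rw [e, Set.ncard_image_of_injective _ List.ofFn_injective]

end L2aux

open L2aux in
theorem L2_ok : S_L2 := by
  classical
  intro n M L R P hR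
  rw [ncard_strings]
  let ι : D n M L → Fin R := fun d => ⟨idx d, lt_of_lt_of_le (idx_lt d) hR⟩
  have hι : Function.Injective ι := by
    intro d d' h
    exact idx_inj (Fin.ext_iff.1 h)
  let E : D n M L ⊕ {x // x ∉ Set.range ι} ≃ Fin R :=
    ((Equiv.ofInjective ι hι).sumCongr (Equiv.refl _)).trans (Equiv.Set.sumCompl (Set.range ι))
  have hE : ∀ d, E (Sum.inl d) = ι d := by
    intro d
    exact Equiv.Set.sumCompl_apply_inl (Set.range ι) ⟨ι d, d, rfl⟩
  have hcardD : Fintype.card (D n M L) = 2 * n ^ 2 * L * M := by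
    simp only [Fintype.card_prod, Fintype.card_fin, Fintype.card_bool]
    ring
  have hcard : R = 2 * n ^ 2 * L * M + Fintype.card {x // x ∉ Set.range ι} := by
    have h := Fintype.card_congr E
    rw [Fintype.card_sum, Fintype.card_fin, hcardD] at h
    exact h.symm
  -- the equivalence
  let Ψ : (Fin R → Bool) ≃ Fm n M L × ({x // x ∉ Set.range ι} → Bool) :=
    ((Equiv.arrowCongr E.symm (Equiv.refl Bool)).trans (Equiv.sumArrowEquivProdArrow _ _ _)).trans
      ((cur n M L).prodCongr (Equiv.refl _))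
  have hΨ : ∀ f, (Ψ f).1 = FL n M L (List.ofFn f) := by
    intro f
    funext u v i b j
    have hlt := lt_of_lt_of_le (idx_lt (u, v, i, b, j)) hR
    have h2 : FL n M L (List.ofFn f) u v i b j = f (ι (u, v, i, b, j)) := by
      unfold FL
      have e : (2 * (((u : ℕ) * n + v) * L + i) + b.toNat) * M + j = idx (u, v, i, b, j) := rfl
      rw [e, List.getD_eq_getElem _ _ (by rw [List.length_ofFn]; exact hlt), List.getElem_ofFn]
    rw [h2, ← hE]
    rfl
  have hset : {f : Fin R → Bool | P (FL n M L (List.ofFn f))} =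
      Ψ ⁻¹' ({F : Fm n M L | P F} ×ˢ Set.univ) := by
    ext f
    simp only [Set.mem_ofPred_eq, Set.mem_preimage, Set.mem_prod, Set.mem_univ, and_true, hΨ]
  rw [hset, ← Equiv.image_symm_eq_preimage, Set.ncard_image_of_injective _ Ψ.symm.injective,
    Set.ncard_prod, Set.ncard_univ, Nat.card_eq_fintype_card, Fintype.card_fun,
    Fintype.card_bool]
  conv_rhs => rw [hcard, pow_add]
  ring

end Pool.Agent.H49R2.PY
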