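import Pool.Agent.H49R2.PY.Stubs

/-! L3: lengths of `gsOf`, recording forms (helper152) -/

namespace Pool.Agent.H49R2.PY

theorem L3_ok : S_L3 := by
  intro n M L A r
  constructor
  · unfold gsOf
    simp only [List.length_append, List.length_map, List.length_flatMap, apply_ite List.length,
      List.length_cons, List.length_nil]
  · intro j hj
    unfold gsOf
    rw [List.mem_append]
    left
    rw [List.mem_map]
    exact ⟨j, List.mem_range.2 hj, rfl⟩

end Pool.Agent.H49R2.PY
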