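import Pool.Agent.H49R2.PY.MEMDefs

/-!
# MEM0: the test for lists of values of permutations
-/

namespace Pool.Agent.H49R2.PY

open MEMaux

namespace MEM0aux

theorem valid_iff {m : ℕ} {l : List ℕ} : valid m l = true ↔ l.length = m ∧ ∀ i < m, i ∈ l := by
  unfold valid
  simp

theorem perm_range {m : ℕ} {l : List ℕ} (h : l.length = m) (h2 : ∀ i < m, i ∈ l) :
    (List.range m).Perm l := by
  refine List.Subperm.perm_of_length_le ?_ (by rw [h, List.length_range])
  exact List.subperm_of_subset List.nodup_range fun i hi => h2 i (List.mem_range.1 hi)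

end MEM0aux

open MEM0aux

theorem MEM0_ok : S_MEM0 := by
  intro m l
  rw [valid_iff]
  constructor
  · rintro ⟨h, h2⟩
    have hp := perm_range h h2
    have hlt : ∀ i : Fin m, l[(i : ℕ)]'(by rw [h]; exact i.2) < m := fun i =>
      List.mem_range.1 (hp.mem_iff.2 (List.getElem_mem _))
    have hnd : l.Nodup := hp.nodup_iff.1 List.nodup_range
    let f : Fin m → Fin m := fun i => ⟨l[(i : ℕ)]'(by rw [h]; exact i.2), hlt i⟩
    have hinj : Function.Injective f := by
      intro i j hij
      have h3 : l[(i : ℕ)]'(by rw [h]; exact i.2) = l[(j : ℕ)]'(by rw [h]; exact j.2) :=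
        congrArg Fin.val hij
      exact Fin.ext ((hnd.getElem_inj_iff).1 h3)
    refine ⟨Equiv.ofBijective f (Finite.injective_iff_bijective.1 hinj), ?_⟩
    unfold code
    refine List.ext_getElem (by rw [List.length_ofFn, h]) fun i h1 h2 => ?_
    rw [List.getElem_ofFn]
    rfl
  · rintro ⟨σ, rfl⟩
    refine ⟨List.length_ofFn, fun i hi => ?_⟩
    unfold code
    rw [List.mem_ofFn]
    exact ⟨σ.symm ⟨i, hi⟩, by simp⟩

end Pool.Agent.H49R2.PY
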