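import Pool.Agent.H49R2.PY.MEMDefs

/-!
# Membership in a permutation group given by generators: correctness
-/

namespace Pool.Agent.H49R2.PY.MEM1aux

open MEMaux

variable {m : ℕ}

theorem code_length (σ : Equiv.Perm (Fin m)) : (code σ).length = m := by simp [code]

theorem code_getElem (σ : Equiv.Perm (Fin m)) (i : ℕ) (hi : i < (code σ).length) :
    (code σ)[i] = (σ ⟨i, by simpa [code] using hi⟩ : ℕ) := by simp [code]

theorem code_inj : Function.Injective (code : Equiv.Perm (Fin m) → List ℕ) := by
  intro σ τ h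
  ext i
  have h1 := List.ofFn_injective h
  exact congrFun h1 i

theorem code_getD (σ : Equiv.Perm (Fin m)) (i : Fin m) : (code σ).getD i 0 = (σ i : ℕ) := by
  rw [List.getD_eq_getElem (hn := by rw [code_length]; exact i.2), code_getElem]

theorem cmp_code (σ τ : Equiv.Perm (Fin m)) : MEMaux.cmp (code σ) (code τ) = code (σ * τ) := by
  unfold MEMaux.cmp
  rw [code, code, List.map_ofFn]
  congr 1
  funext i
  exact code_getD σ (τ i)

theorem pos_code (σ : Equiv.Perm (Fin m)) (i : Fin m) : pos (code σ) (σ i : ℕ) = i := by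
  unfold pos
  rw [List.head?_filter]
  cases h : (code σ).zipIdx.find? (fun x => decide (x.1 = (σ i : ℕ))) with
  | none =>
    exfalso
    rw [List.find?_eq_none] at h
    have h1 : ((σ i : ℕ), (i : ℕ)) ∈ (code σ).zipIdx := by
      rw [List.mem_zipIdx_iff_getElem?]
      simp only
      rw [List.getElem?_eq_getElem (by rw [code_length]; exact i.2), code_getElem]
    exact h _ h1 (by simp)
  | some x =>
    have h1 := List.find?_some h
    have h2 := List.mem_of_find?_eq_some h
    rw [List.mem_zipIdx_iff_getElem?] at h2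
    obtain ⟨a, j⟩ := x
    simp only [decide_eq_true_eq] at h1 h2 ⊢
    rw [Option.getD_some]
    obtain ⟨hj, h3⟩ := List.getElem?_eq_some_iff.1 h2
    rw [code_getElem, h1] at h3
    have h4 : (⟨j, by simpa [code] using hj⟩ : Fin m) = i := σ.injective (Fin.ext h3)
    rw [← h4]

theorem lcmp_code (σ τ : Equiv.Perm (Fin m)) : lcmp (code σ) (code τ) = code (σ⁻¹ * τ) := by
  unfold lcmp
  conv_lhs => rw [code.eq_def τ]
  rw [code.eq_def (σ⁻¹ * τ), List.map_ofFn]
  congr 1
  funext i
  have h := pos_code σ (σ⁻¹ (τ i))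
  have e : σ (σ⁻¹ (τ i)) = τ i := σ.apply_symm_apply (τ i)
  rw [e] at h
  exact h

theorem key_code_some (σ : Equiv.Perm (Fin m)) (a i : ℕ) : key (code σ) = some (a, i) ↔
    ∃ x : Fin m, (x : ℕ) = i ∧ (σ x : ℕ) = a ∧ σ x ≠ x ∧ ∀ j, j < x → σ j = j := by
  unfold key
  rw [List.head?_filter, List.find?_eq_some_iff_getElem]
  constructor
  · rintro ⟨h1, k, hk, h2, h3⟩
    rw [List.getElem_zipIdx] at h2
    have hk' : k < m := by simpa [code_length] using hk
    rw [code_getElem, Prod.mk.injEq] at h2
    refine ⟨⟨k, hk'⟩, by simpa using h2.2, h2.1, ?_, ?_⟩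
    · intro h4
      simp only [decide_eq_true_eq] at h1
      apply h1
      rw [← h2.1, ← h2.2, h4]
      simp
    · intro j hj
      have h5 := h3 j hj
      rw [List.getElem_zipIdx, code_getElem] at h5
      simp only [zero_add, Bool.not_eq_true', decide_eq_false_iff_not, not_not] at h5
      exact Fin.ext (by simpa using h5)
  · rintro ⟨x, rfl, rfl, h3, h4⟩
    refine ⟨?_, x, by simp [code_length], ?_, ?_⟩
    · simp only [decide_eq_true_eq]
      intro h5
      exact h3 (Fin.ext (by omega))
    · rw [List.getElem_zipIdx, code_getElem]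
      simp
    · intro j hj
      rw [List.getElem_zipIdx, code_getElem]
      have h5 := h4 ⟨j, by omega⟩ (by rw [Fin.lt_def]; exact hj)
      simp [h5]

theorem key_code_none (σ : Equiv.Perm (Fin m)) : key (code σ) = none ↔ σ = 1 := by
  unfold key
  rw [List.head?_filter, List.find?_eq_none]
  constructor
  · intro h
    ext i
    have h1 : ((σ i : ℕ), (i : ℕ)) ∈ (code σ).zipIdx := by
      rw [List.mem_zipIdx_iff_getElem?]
      simp only
      rw [List.getElem?_eq_getElem (by rw [code_length]; exact i.2), code_getElem]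
    have h2 := h _ h1
    simpa using h2
  · rintro rfl ⟨a, i⟩ hx
    rw [List.mem_zipIdx_iff_getElem?] at hx
    obtain ⟨hj, h3⟩ := List.getElem?_eq_some_iff.1 hx
    rw [code_getElem] at h3
    simpa using h3.symm

/-! ### The algorithm on permutations -/

/-- the key of a permutation -/
def kf (σ : Equiv.Perm (Fin m)) : Option (ℕ × ℕ) := key (code σ)

/-- all points below `i` are fixed -/
def lv (σ : Equiv.Perm (Fin m)) (i : ℕ) : Prop := ∀ j : Fin m, (j : ℕ) < i → σ j = j

/-- one reduction step -/
def redP (S : List (Equiv.Perm (Fin m))) (π : Equiv.Perm (Fin m)) : Equiv.Perm (Fin m) :=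
  match S.find? (fun τ => decide (kf τ = kf π)) with
  | some τ => τ⁻¹ * π
  | none => π

theorem red_code (S : List (Equiv.Perm (Fin m))) (π : Equiv.Perm (Fin m)) :
    red (S.map code) (code π) = code (redP S π) := by
  unfold red redP
  rw [List.head?_filter, List.find?_map]
  have e : ((fun t => decide (key t = key (code π))) ∘ code : Equiv.Perm (Fin m) → Bool) =
      (fun τ => decide (kf τ = kf π)) := rfl
  rw [e]
  cases S.find? (fun τ => decide (kf τ = kf π)) with
  | none => rfl
  | some τ => exact lcmp_code τ π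

theorem foldl_const_eq {α β : Type*} (f : α → α) (l : List β) (a : α) :
    l.foldl (fun s _ => f s) a = f^[l.length] a := by
  induction l generalizing a with
  | nil => rfl
  | cons b l ih => rw [List.foldl_cons, ih, List.length_cons, Function.iterate_succ_apply]

theorem sift_code (S : List (Equiv.Perm (Fin m))) (π : Equiv.Perm (Fin m)) :
    sift (S.map code) (code π) = code ((redP S)^[m] π) := by
  unfold sift
  rw [foldl_const_eq, code_length]
  have : ∀ (k : ℕ) (π : Equiv.Perm (Fin m)),
      (red (S.map code))^[k] (code π) = code ((redP S)^[k] π) := by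
    intro k
    induction k with
    | zero => intro π; rfl
    | succ k ih => intro π; rw [Function.iterate_succ_apply, red_code, ih,
        Function.iterate_succ_apply]
  exact this m π

theorem kf_one : kf (1 : Equiv.Perm (Fin m)) = none := (key_code_none 1).2 rfl

theorem redP_cases (S : List (Equiv.Perm (Fin m))) (π : Equiv.Perm (Fin m)) :
    (∃ τ ∈ S, kf τ = kf π ∧ redP S π = τ⁻¹ * π) ∨
      ((∀ τ ∈ S, kf τ ≠ kf π) ∧ redP S π = π) := by
  unfold redP
  cases h : S.find? (fun τ => decide (kf τ = kf π)) with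
  | none =>
    right
    rw [List.find?_eq_none] at h
    exact ⟨fun τ hτ h' => h τ hτ (by simp [h']), rfl⟩
  | some τ =>
    left
    refine ⟨τ, List.mem_of_find?_eq_some h, ?_, rfl⟩
    simpa using List.find?_some h

theorem redP_one (S : List (Equiv.Perm (Fin m))) : redP S 1 = 1 := by
  rcases redP_cases S 1 with ⟨τ, _, h, h'⟩ | ⟨_, h⟩
  · rw [kf_one] at h
    rw [h', (key_code_none τ).1 h]
    simp
  · exact h

theorem iter_one (S : List (Equiv.Perm (Fin m))) (n : ℕ) : (redP S)^[n] 1 = 1 :=
  Function.iterate_fixed (redP_one S) n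

theorem lv_mul {σ τ : Equiv.Perm (Fin m)} {i : ℕ} (h : lv σ i) (h' : lv τ i) : lv (σ * τ) i := by
  intro j hj
  rw [Equiv.Perm.mul_apply, h' j hj, h j hj]

theorem lv_inv {σ : Equiv.Perm (Fin m)} {i : ℕ} (h : lv σ i) : lv σ⁻¹ i := by
  intro j hj
  have h1 := h j hj
  calc σ⁻¹ j = σ⁻¹ (σ j) := by rw [h1]
    _ = j := σ.symm_apply_apply j

theorem lv_one (i : ℕ) : lv (1 : Equiv.Perm (Fin m)) i := fun _ _ => rfl

theorem lv_mono {σ : Equiv.Perm (Fin m)} {i i' : ℕ} (h : lv σ i) (hi : i' ≤ i) : lv σ i' :=
  fun j hj => h j (lt_of_lt_of_le hj hi)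

theorem lv_eq_one {σ : Equiv.Perm (Fin m)} {i : ℕ} (h : lv σ i) (hi : m ≤ i) : σ = 1 := by
  ext j
  rw [h j (lt_of_lt_of_le j.2 hi)]
  rfl

/-- A nontrivial permutation and a permutation with the same key. -/
theorem key_eq {σ τ : Equiv.Perm (Fin m)} {i : ℕ} (h : kf τ = kf σ) (h1 : σ ≠ 1) (hl : lv σ i) :
    ∃ x : Fin m, i ≤ x ∧ σ x ≠ x ∧ τ x = σ x ∧ lv σ x ∧ lv τ x := by
  obtain ⟨⟨a, i'⟩, hk⟩ : ∃ y, kf σ = some y := by
    cases hk : kf σ with
    | none => exact absurd ((key_code_none σ).1 hk) h1
    | some y => exact ⟨y, rfl⟩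
  obtain ⟨x, hx, ha, h2, h3⟩ := (key_code_some σ a i').1 hk
  obtain ⟨x', hx', ha', h2', h3'⟩ := (key_code_some τ a i').1 (h.trans hk)
  have e : x' = x := Fin.ext (hx'.trans hx.symm)
  subst e
  refine ⟨x', ?_, h2, Fin.ext (ha'.trans ha.symm), fun j hj => h3 j (Fin.lt_def.2 hj),
    fun j hj => h3' j (Fin.lt_def.2 hj)⟩
  by_contra hlt
  exact h2 (hl x' (not_le.1 hlt))

theorem lv_red {σ τ : Equiv.Perm (Fin m)} {x : Fin m} (h1 : τ x = σ x) (h2 : lv σ x)
    (h3 : lv τ x) : lv (τ⁻¹ * σ) (x + 1) := by
  intro j hj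
  rcases Nat.lt_succ_iff_lt_or_eq.1 hj with h | h
  · rw [Equiv.Perm.mul_apply, h2 j h]
    exact lv_inv h3 j h
  · have e : j = x := Fin.ext h
    rw [e, Equiv.Perm.mul_apply, ← h1]
    exact τ.symm_apply_apply x

/-- After sufficiently many steps the sifting is finished. -/
theorem iter_spec (S : List (Equiv.Perm (Fin m))) : ∀ (n i : ℕ) (π : Equiv.Perm (Fin m)),
    lv π i → m ≤ n + i →
    (redP S)^[n] π = 1 ∨ ∀ τ ∈ S, kf τ ≠ kf ((redP S)^[n] π) := by
  intro n
  induction n with
  | zero =>
    intro i π h hi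
    exact Or.inl (lv_eq_one h (by omega))
  | succ n ih =>
    intro i π h hi
    by_cases h1 : π = 1
    · subst h1
      exact Or.inl (iter_one S _)
    · rcases redP_cases S π with ⟨τ, _, hk, hr⟩ | ⟨hn, hr⟩
      · rw [Function.iterate_succ_apply, hr]
        obtain ⟨x, hx, _, h3, h4, h5⟩ := key_eq hk h1 h
        exact ih (x + 1) _ (lv_red h3 h4 h5) (by omega)
      · have e : (redP S)^[n + 1] π = π := Function.iterate_fixed hr _
        rw [e]
        exact Or.inr hn

/-- If a permutation sifts to the identity, the `m`-fold iteration is the identity. -/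
theorem iter_of_exists (S : List (Equiv.Perm (Fin m))) {π : Equiv.Perm (Fin m)}
    (h : ∃ n, (redP S)^[n] π = 1) : (redP S)^[m] π = 1 := by
  rcases iter_spec S m 0 π (fun j hj => absurd hj (Nat.not_lt_zero _)) (by omega) with h1 | h1
  · exact h1
  · obtain ⟨n, hn⟩ := h
    set ρ := (redP S)^[m] π with hρ
    have h2 : redP S ρ = ρ := by
      rcases redP_cases S ρ with ⟨τ, hτ, hk, _⟩ | ⟨_, hr⟩
      · exact absurd hk (h1 τ hτ)
      · exact hr
    have h3 : (redP S)^[n] ρ = ρ := Function.iterate_fixed h2 n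
    have h4 : (redP S)^[n] ρ = 1 := by
      rw [hρ, ← Function.iterate_add_apply, Nat.add_comm, Function.iterate_add_apply, hn,
        iter_one]
    rw [← h3, h4]

/-- the subgroup generated by the elements of the table which fix the points below `i` -/
def Hs (S : List (Equiv.Perm (Fin m))) (i : ℕ) : Subgroup (Equiv.Perm (Fin m)) :=
  Subgroup.closure {τ | τ ∈ S ∧ lv τ i}

theorem Hs_lv {S : List (Equiv.Perm (Fin m))} {i : ℕ} {π : Equiv.Perm (Fin m)} (h : π ∈ Hs S i) :
    lv π i := by
  unfold Hs at h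
  induction h using Subgroup.closure_induction with
  | mem x hx => exact hx.2
  | one => exact lv_one i
  | mul x y _ _ hx hy => exact lv_mul hx hy
  | inv x _ hx => exact lv_inv hx

theorem lemB (S : List (Equiv.Perm (Fin m))) (i : ℕ) : ∀ (n : ℕ) (π : Equiv.Perm (Fin m)),
    lv π i → (redP S)^[n] π = 1 → π ∈ Hs S i := by
  intro n
  induction n with
  | zero =>
    intro π _ h
    rw [Function.iterate_zero, id_eq] at h
    rw [h]
    exact one_mem _
  | succ n ih =>
    intro π hl h
    by_cases h1 : π = 1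
    · rw [h1]; exact one_mem _
    · rw [Function.iterate_succ_apply] at h
      rcases redP_cases S π with ⟨τ, hτ, hk, hr⟩ | ⟨hn, hr⟩
      · obtain ⟨x, hx, _, h3, h4, h5⟩ := key_eq hk h1 hl
        rw [hr] at h
        have h6 := ih _ (lv_mono (lv_red h3 h4 h5) (by omega)) h
        have h7 : τ ∈ Hs S i := Subgroup.subset_closure ⟨hτ, lv_mono h5 hx⟩
        have h8 := mul_mem h7 h6
        rwa [mul_inv_cancel_left] at h8
      · rw [hr] at h
        exact ih π hl h

theorem lemA (S : List (Equiv.Perm (Fin m))) (i : ℕ) {n : ℕ} {π : Equiv.Perm (Fin m)}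
    (hl : lv π i) (h : (redP S)^[n] π = 1) :
    ∃ u r, (u = 1 ∨ (u ∈ S ∧ lv u i ∧ ∃ x : Fin m, (x : ℕ) = i ∧ u x ≠ x)) ∧ r ∈ Hs S (i + 1) ∧
      π = u * r := by
  by_cases h1 : π = 1
  · exact ⟨1, 1, Or.inl rfl, one_mem _, by rw [h1, mul_one]⟩
  by_cases hl' : lv π (i + 1)
  · exact ⟨1, π, Or.inl rfl, lemB S (i + 1) n π hl' h, (one_mul π).symm⟩
  · cases n with
    | zero => exact absurd h h1
    | succ n =>
      rw [Function.iterate_succ_apply] at h
      rcases redP_cases S π with ⟨τ, hτ, hk, hr⟩ | ⟨hn, hr⟩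
      · obtain ⟨x, hx, h2, h3, h4, h5⟩ := key_eq hk h1 hl
        have hxi : (x : ℕ) = i := by
          rcases Nat.lt_or_ge i x with h6 | h6
          · exact absurd (lv_mono h4 h6) hl'
          · omega
        rw [hr] at h
        refine ⟨τ, τ⁻¹ * π, Or.inr ⟨hτ, lv_mono h5 hx, x, hxi, by rw [h3]; exact h2⟩, ?_, ?_⟩
        · refine lemB S (i + 1) n _ ?_ h
          rw [← hxi]
          exact lv_red h3 h4 h5
        · rw [mul_inv_cancel_left]
      · exfalso
        have e : (redP S)^[n] π = π := Function.iterate_fixed hr _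
        rw [hr, e] at h
        exact h1 h

/-- The table is closed: all products of two elements sift to the identity, and different elements
have different keys. -/
structure Closed (S : List (Equiv.Perm (Fin m))) : Prop where
  prod : ∀ σ ∈ S, ∀ τ ∈ S, (redP S)^[m] (σ * τ) = 1
  inj : ∀ σ ∈ S, ∀ τ ∈ S, kf σ = kf τ → σ = τ

theorem closed_step {S : List (Equiv.Perm (Fin m))} (hS : Closed S) (i : ℕ)
    (ih : ∀ π ∈ Hs S (i + 1), ∃ n, (redP S)^[n] π = 1) :
    ∀ π ∈ Hs S i, ∃ n, (redP S)^[n] π = 1 := by
  have key1 : ∀ π ∈ Hs S i, ∃ u r, (u = 1 ∨ (u ∈ S ∧ lv u i ∧ ∃ x : Fin m, (x : ℕ) = i ∧ u x ≠ x))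
      ∧ r ∈ Hs S (i + 1) ∧ π = u * r := by
    intro π hπ
    unfold Hs at hπ
    rw [← Subgroup.mem_toSubmonoid, Subgroup.closure_toSubmonoid_of_finite] at hπ
    induction hπ using Submonoid.closure_induction_left with
    | one => exact ⟨1, 1, Or.inl rfl, one_mem _, (mul_one 1).symm⟩
    | mul_left τ hτ y _ hy =>
      obtain ⟨u, r, hu, hr, rfl⟩ := hy
      rcases hu with rfl | ⟨hu, hlu, _⟩
      · by_cases hl : lv τ (i + 1)
        · exact ⟨1, τ * r, Or.inl rfl, mul_mem (Subgroup.subset_closure ⟨hτ.1, hl⟩) hr,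
            by rw [one_mul, one_mul]⟩
        · refine ⟨τ, r, Or.inr ⟨hτ.1, hτ.2, ?_⟩, hr, by rw [one_mul]⟩
          by_contra hc
          push Not at hc
          apply hl
          intro j hj
          rcases Nat.lt_succ_iff_lt_or_eq.1 hj with h | h
          · exact hτ.2 j h
          · exact hc j h
      · obtain ⟨u', r', hu', hr', he⟩ := lemA S i (lv_mul hτ.2 hlu) (hS.prod τ hτ.1 u hu)
        exact ⟨u', r' * r, hu', mul_mem hr' hr, by rw [← mul_assoc, he, mul_assoc]⟩
  intro π hπ
  obtain ⟨u, r, hu, hr, rfl⟩ := key1 π hπ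
  obtain ⟨n, hn⟩ := ih r hr
  rcases hu with rfl | ⟨hu, hlu, x, hx, hux⟩
  · exact ⟨n, by rw [one_mul]; exact hn⟩
  · have hlr := Hs_lv hr
    refine ⟨n + 1, ?_⟩
    rw [Function.iterate_succ_apply]
    have hk : kf u = kf (u * r) := by
      have e1 : kf u = some ((u x : ℕ), i) := (key_code_some u _ _).2
        ⟨x, hx, rfl, hux, fun j hj => hlu j (by rw [← hx]; exact hj)⟩
      have hrx : r x = x := hlr x (by omega)
      have e2 : kf (u * r) = some ((u x : ℕ), i) := (key_code_some (u * r) _ _).2
        ⟨x, hx, by rw [Equiv.Perm.mul_apply, hrx], by rw [Equiv.Perm.mul_apply, hrx]; exact hux,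
          fun j hj => by
            rw [Equiv.Perm.mul_apply, hlr j (by rw [← hx]; exact Nat.lt_succ_of_lt hj)]
            exact hlu j (by rw [← hx]; exact hj)⟩
      rw [e1, e2]
    rcases redP_cases S (u * r) with ⟨τ, hτ, hk', hr'⟩ | ⟨hn', _⟩
    · have e : τ = u := hS.inj τ hτ u hu (hk'.trans hk.symm)
      rw [hr', e, inv_mul_cancel_left]
      exact hn
    · exact absurd hk (hn' u hu)

theorem closed_all {S : List (Equiv.Perm (Fin m))} (hS : Closed S) :
    ∀ π ∈ Subgroup.closure {τ | τ ∈ S}, (redP S)^[m] π = 1 := by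
  have h1 : ∀ k, k ≤ m → ∀ π ∈ Hs S (m - k), ∃ n, (redP S)^[n] π = 1 := by
    intro k
    induction k with
    | zero =>
      intro _ π hπ
      exact ⟨0, lv_eq_one (Hs_lv hπ) (by omega)⟩
    | succ k ih =>
      intro hk
      have e : m - (k + 1) + 1 = m - k := by omega
      refine closed_step hS (m - (k + 1)) ?_
      rw [e]
      exact ih (by omega)
  intro π hπ
  refine iter_of_exists S (h1 m le_rfl π ?_)
  unfold Hs
  convert hπ using 4
  simp [lv]

theorem mem_iter_iff {S : List (Equiv.Perm (Fin m))} {H : Subgroup (Equiv.Perm (Fin m))}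
    (hH : ∀ τ ∈ S, τ ∈ H) : ∀ (n : ℕ) (π : Equiv.Perm (Fin m)), (redP S)^[n] π ∈ H ↔ π ∈ H := by
  intro n
  induction n with
  | zero => intro π; rfl
  | succ n ih =>
    intro π
    rw [Function.iterate_succ_apply, ih]
    rcases redP_cases S π with ⟨τ, hτ, _, hr⟩ | ⟨_, hr⟩
    · rw [hr]
      exact H.mul_mem_cancel_left (H.inv_mem (hH τ hτ))
    · rw [hr]

/-- **Correctness of the test for a closed table.** -/
theorem test_iff {S G : List (Equiv.Perm (Fin m))} (hS : Closed S)
    (h1 : ∀ g ∈ G, (redP S)^[m] g = 1) (h2 : ∀ τ ∈ S, τ ∈ Subgroup.closure {g | g ∈ G})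
    (π : Equiv.Perm (Fin m)) : (redP S)^[m] π = 1 ↔ π ∈ Subgroup.closure {g | g ∈ G} := by
  constructor
  · intro h
    rw [← mem_iter_iff h2 m π, h]
    exact one_mem _
  · intro h
    apply closed_all hS
    have h3 : Subgroup.closure {g | g ∈ G} ≤ Subgroup.closure {τ | τ ∈ S} := by
      rw [Subgroup.closure_le]
      intro g hg
      have h4 := (mem_iter_iff (S := S) (H := Subgroup.closure {τ | τ ∈ S})
        (fun τ hτ => Subgroup.subset_closure hτ) m g).1
      apply h4
      rw [h1 g hg]
      exact one_mem _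
    exact h3 h

/-! ### Rounds -/

/-- the generators and the products of two elements of the table -/
def candsP (G S : List (Equiv.Perm (Fin m))) : List (Equiv.Perm (Fin m)) :=
  G ++ S.flatMap (fun t => S.map (fun s => t * s))

theorem cands_code (G S : List (Equiv.Perm (Fin m))) :
    cands (G.map code) (S.map code) = (candsP G S).map code := by
  unfold cands candsP
  rw [List.map_append, List.map_flatMap, List.flatMap_map]
  congr 1
  congr 1
  funext t
  rw [List.map_map, List.map_map]
  apply List.map_congr_left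
  intro s _
  exact cmp_code t s

/-- the nontrivial residues of the candidates -/
def residues (G S : List (Equiv.Perm (Fin m))) : List (Equiv.Perm (Fin m)) :=
  ((candsP G S).map (redP S)^[m]).filter (fun r => (kf r).isSome)

/-- one round on permutations -/
def roundP (G S : List (Equiv.Perm (Fin m))) : List (Equiv.Perm (Fin m)) :=
  match residues G S with
  | r :: _ => r :: S
  | [] => S

theorem roundP_nil {G S : List (Equiv.Perm (Fin m))} (h : residues G S = []) :
    roundP G S = S := by
  unfold roundP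
  rw [h]

theorem roundP_cons {G S l : List (Equiv.Perm (Fin m))} {r : Equiv.Perm (Fin m)}
    (h : residues G S = r :: l) : roundP G S = r :: S := by
  unfold roundP
  rw [h]

theorem round_code (G S : List (Equiv.Perm (Fin m))) :
    MEMaux.round (G.map code) (S.map code) = (roundP G S).map code := by
  unfold MEMaux.round roundP
  have e : ((cands (G.map code) (S.map code)).map (sift (S.map code))).filter
      (fun r => (key r).isSome) = (residues G S).map code := by
    unfold residues
    rw [cands_code, List.map_map]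
    have e1 : (sift (S.map code) ∘ code : Equiv.Perm (Fin m) → List ℕ) =
        code ∘ (redP S)^[m] := by
      funext π
      exact sift_code S π
    rw [e1, ← List.map_map, List.filter_map]
    rfl
  rw [e]
  cases residues G S with
  | nil => rfl
  | cons r l => rfl

theorem rounds_code (G : List (Equiv.Perm (Fin m))) : ∀ (n : ℕ) (S : List (Equiv.Perm (Fin m))),
    (MEMaux.round (G.map code))^[n] (S.map code) = ((roundP G)^[n] S).map code := by
  intro n
  induction n with
  | zero => intro S; rfl
  | succ n ih => intro S; rw [Function.iterate_succ_apply, round_code, ih,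
      Function.iterate_succ_apply]

/-- the invariant of the table -/
structure Inv (G S : List (Equiv.Perm (Fin m))) : Prop where
  mem : ∀ τ ∈ S, τ ∈ Subgroup.closure {g | g ∈ G}
  nodup : (S.map kf).Nodup
  ne : ∀ τ ∈ S, kf τ ≠ none

theorem inv_nil (G : List (Equiv.Perm (Fin m))) : Inv G [] :=
  ⟨fun _ h => absurd h List.not_mem_nil, List.nodup_nil, fun _ h => absurd h List.not_mem_nil⟩

theorem candsP_mem {G S : List (Equiv.Perm (Fin m))} (h : Inv G S) :
    ∀ c ∈ candsP G S, c ∈ Subgroup.closure {g | g ∈ G} := by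
  intro c hc
  unfold candsP at hc
  rcases List.mem_append.1 hc with h1 | h1
  · exact Subgroup.subset_closure h1
  · obtain ⟨t, ht, h2⟩ := List.mem_flatMap.1 h1
    obtain ⟨s, hs, rfl⟩ := List.mem_map.1 h2
    exact mul_mem (h.mem t ht) (h.mem s hs)

theorem inv_round {G S : List (Equiv.Perm (Fin m))} (h : Inv G S) : Inv G (roundP G S) := by
  unfold roundP
  cases hr : residues G S with
  | nil => exact h
  | cons r l =>
    have h1 : r ∈ residues G S := by rw [hr]; exact List.mem_cons_self
    unfold residues at h1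
    rw [List.mem_filter] at h1
    obtain ⟨h2, h3⟩ := h1
    obtain ⟨c, hc, h4⟩ := List.mem_map.1 h2
    have h5 : kf r ≠ none := by
      intro h6
      rw [h6] at h3
      simp at h3
    refine ⟨?_, ?_, ?_⟩
    · intro τ hτ
      rcases List.mem_cons.1 hτ with rfl | hτ
      · rw [← h4, mem_iter_iff h.mem]
        exact candsP_mem h c hc
      · exact h.mem τ hτ
    · simp only [List.map_cons]
      rw [List.nodup_cons]
      refine ⟨?_, h.nodup⟩
      intro h6
      obtain ⟨τ, hτ, h7⟩ := List.mem_map.1 h6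
      rcases iter_spec S m 0 c (fun j hj => absurd hj (Nat.not_lt_zero _)) (by omega) with h8 | h8
      · rw [h4] at h8
        exact h5 ((key_code_none r).2 h8)
      · rw [h4] at h8
        exact h8 τ hτ h7
    · intro τ hτ
      rcases List.mem_cons.1 hτ with rfl | hτ
      · exact h5
      · exact h.ne τ hτ

theorem inv_length {G S : List (Equiv.Perm (Fin m))} (h : Inv G S) : S.length ≤ m * m := by
  classical
  have h1 : (S.map kf).toFinset ⊆
      ((Finset.range m ×ˢ Finset.range m).image (fun x => (some x : Option (ℕ × ℕ)))) := by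
    intro y hy
    rw [List.mem_toFinset] at hy
    obtain ⟨τ, hτ, rfl⟩ := List.mem_map.1 hy
    cases hk : kf τ with
    | none => exact absurd hk (h.ne τ hτ)
    | some x =>
      obtain ⟨a, i⟩ := x
      obtain ⟨x, hx, ha, _, _⟩ := (key_code_some τ a i).1 hk
      rw [Finset.mem_image]
      refine ⟨(a, i), ?_, rfl⟩
      rw [Finset.mem_product, Finset.mem_range, Finset.mem_range]
      exact ⟨by rw [← ha]; exact (τ x).2, by rw [← hx]; exact x.2⟩
  have h2 := Finset.card_le_card h1
  rw [List.toFinset_card_of_nodup h.nodup, List.length_map] at h2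
  refine h2.trans (Finset.card_image_le.trans ?_)
  rw [Finset.card_product, Finset.card_range]

theorem inv_iter (G : List (Equiv.Perm (Fin m))) (n : ℕ) : Inv G ((roundP G)^[n] []) := by
  induction n with
  | zero => exact inv_nil G
  | succ n ih => rw [Function.iterate_succ_apply']; exact inv_round ih

theorem stable_or (G : List (Equiv.Perm (Fin m))) (n : ℕ) :
    ((roundP G)^[n] []).length = n ∨ residues G ((roundP G)^[n] []) = [] := by
  induction n with
  | zero => exact Or.inl rfl
  | succ n ih =>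
    rw [Function.iterate_succ_apply']
    cases hr : residues G ((roundP G)^[n] []) with
    | nil =>
      right
      rw [roundP_nil hr, hr]
    | cons r l =>
      left
      have h1 : ((roundP G)^[n] []).length = n := by
        rcases ih with h | h
        · exact h
        · rw [hr] at h; exact absurd h (by simp)
      rw [roundP_cons hr, List.length_cons, h1]

theorem stable (G : List (Equiv.Perm (Fin m))) :
    residues G ((roundP G)^[m * m + 1] []) = [] := by
  rcases stable_or G (m * m + 1) with h | h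
  · have := inv_length (inv_iter G (m * m + 1))
    omega
  · exact h

theorem final (G : List (Equiv.Perm (Fin m))) (π : Equiv.Perm (Fin m)) :
    (redP ((roundP G)^[m * m + 1] []))^[m] π = 1 ↔ π ∈ Subgroup.closure {g | g ∈ G} := by
  have hi := inv_iter G (m * m + 1)
  have hs := stable G
  generalize (roundP G)^[m * m + 1] [] = S at hi hs
  have h1 : ∀ c ∈ candsP G S, (redP S)^[m] c = 1 := by
    intro c hc
    by_contra h2
    have h3 : (redP S)^[m] c ∈ residues G S := by
      unfold residues
      rw [List.mem_filter]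
      refine ⟨List.mem_map.2 ⟨c, hc, rfl⟩, ?_⟩
      rw [Option.isSome_iff_ne_none]
      intro h4
      exact h2 ((key_code_none _).1 h4)
    rw [hs] at h3
    exact absurd h3 List.not_mem_nil
  refine test_iff ⟨?_, ?_⟩ ?_ hi.mem π
  · intro σ hσ τ hτ
    apply h1
    unfold candsP
    exact List.mem_append_right _ (List.mem_flatMap.2 ⟨σ, hσ, List.mem_map.2 ⟨τ, hτ, rfl⟩⟩)
  · intro σ hσ τ hτ h
    exact List.inj_on_of_nodup_map hi.nodup hσ hτ h
  · intro g hg
    apply h1
    unfold candsP
    exact List.mem_append_left _ hg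

theorem exists_map_code : ∀ gs : List (List ℕ), (∀ l ∈ gs, ∃ σ : Equiv.Perm (Fin m), code σ = l) →
    ∃ G : List (Equiv.Perm (Fin m)), G.map code = gs
  | [], _ => ⟨[], rfl⟩
  | l :: gs, h => by
    obtain ⟨G, hG⟩ := exists_map_code gs (fun l' hl' => h l' (List.mem_cons_of_mem _ hl'))
    obtain ⟨σ, hσ⟩ := h l List.mem_cons_self
    exact ⟨σ :: G, by rw [List.map_cons, hG, hσ]⟩

end Pool.Agent.H49R2.PY.MEM1aux

namespace Pool.Agent.H49R2.PY

open MEMaux MEM1aux

theorem MEM1_main (h0 : S_MEM0) (us : List Unit) (gs : List (List ℕ)) (m : ℕ)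
    (hm : us.length = m) (σ : Equiv.Perm (Fin m)) : memT ((us, gs), code σ) = true ↔
      σ ∈ Subgroup.closure {τ : Equiv.Perm (Fin m) | code τ ∈ gs} := by
  obtain ⟨G, hG⟩ := exists_map_code (m := m) (gs.filter (valid m)) (fun l hl => by
    rw [List.mem_filter] at hl
    exact (h0 m l).1 hl.2)
  have e : {τ : Equiv.Perm (Fin m) | code τ ∈ gs} = {g | g ∈ G} := by
    ext τ
    constructor
    · intro h
      have h1 : code τ ∈ G.map code := by
        rw [hG, List.mem_filter]
        exact ⟨h, (h0 m _).2 ⟨τ, rfl⟩⟩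
      obtain ⟨g, hg, h2⟩ := List.mem_map.1 h1
      rw [← code_inj h2]
      exact hg
    · intro h
      have h1 : code τ ∈ G.map code := List.mem_map.2 ⟨τ, h, rfl⟩
      rw [hG, List.mem_filter] at h1
      exact h1.1
  have ht : table (us, gs) = ((roundP G)^[m * m + 1] []).map code := by
    unfold table
    rw [foldl_const_eq, List.length_range]
    simp only
    rw [hm, ← hG]
    exact rounds_code G (m * m + 1) []
  rw [e, ← final G σ]
  unfold memT
  simp only
  rw [ht, sift_code, hm, (h0 m (code σ)).2 ⟨σ, rfl⟩, Bool.true_and, Option.isNone_iff_eq_none]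
  exact key_code_none _

theorem MEM1_ok (h0 : S_MEM0) : S_MEM1 := fun I σ => MEM1_main h0 I.1 I.2 _ rfl σ

end Pool.Agent.H49R2.PY
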