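import Pool.Agent.H49R2.PY.MEMDefs

/-!
# MEM2: the membership test of Sims takes polynomial time (helper355)
-/

namespace Pool.Agent.H49R2.PY

open Pool.Agent.NPC Pool.Agent.NPC.Cnt MEMaux

namespace MEM2aux

variable {α : Type} [TEnc α]

theorem cmp_poly {p q : α → List ℕ} (hp : NPC.Poly p) (hq : NPC.Poly q) :
    NPC.Poly (fun a => MEMaux.cmp (p a) (q a)) := by
  unfold MEMaux.cmp
  exact NPC.Poly.map (F := fun a j => (p a).getD j 0) hq
    (NPC.Poly.getD (hp.comp (NPC.Poly.fst NPC.Poly.id)) (NPC.Poly.snd NPC.Poly.id) (NPC.Poly.const 0))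

theorem pos_poly {t : α → List ℕ} {v : α → ℕ} (ht : NPC.Poly t) (hv : NPC.Poly v) :
    NPC.Poly (fun a => pos (t a) (v a)) := by
  have h1 : NPC.Poly (fun a => (((t a).zipIdx.filter (fun x => decide (x.1 = v a))).head?)) :=
    NPC.Poly.head? (NPC.Poly.filter (p := fun a (x : ℕ × ℕ) => decide (x.1 = v a)) (NPC.Poly.zipIdx ht)
      (NPC.Poly.decide_eq (NPC.Poly.fst (NPC.Poly.snd NPC.Poly.id)) (hv.comp (NPC.Poly.fst NPC.Poly.id))))
  refine (NPC.Poly.optCases (g := fun _ => 0) (h := fun _ x => x.2) h1 (NPC.Poly.const 0)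
    (NPC.Poly.snd (NPC.Poly.snd NPC.Poly.id))).congr fun a => ?_
  unfold pos
  cases (List.filter (fun x : ℕ × ℕ => decide (x.1 = v a)) (t a).zipIdx).head? <;> rfl

theorem lcmp_poly {t p : α → List ℕ} (ht : NPC.Poly t) (hp : NPC.Poly p) :
    NPC.Poly (fun a => lcmp (t a) (p a)) := by
  unfold lcmp
  exact NPC.Poly.map (F := fun a v => pos (t a) v) hp
    (pos_poly (ht.comp (NPC.Poly.fst NPC.Poly.id)) (NPC.Poly.snd NPC.Poly.id))

theorem key_poly {p : α → List ℕ} (hp : NPC.Poly p) : NPC.Poly (fun a => key (p a)) := by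
  unfold key
  refine NPC.Poly.head? (NPC.Poly.filter (p := fun _ (x : ℕ × ℕ) => decide (x.1 ≠ x.2)) (NPC.Poly.zipIdx hp) ?_)
  exact NPC.Poly.decide_not (NPC.Poly.decide_eq (NPC.Poly.fst (NPC.Poly.snd NPC.Poly.id)) (NPC.Poly.snd (NPC.Poly.snd NPC.Poly.id)))

theorem red_poly {T : α → List (List ℕ)} {p : α → List ℕ} (hT : NPC.Poly T) (hp : NPC.Poly p) :
    NPC.Poly (fun a => red (T a) (p a)) := by
  have h1 : NPC.Poly (fun a => ((T a).filter (fun t => decide (key t = key (p a)))).head?) :=
    NPC.Poly.head? (NPC.Poly.filter (p := fun a (t : List ℕ) => decide (key t = key (p a))) hT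
      (NPC.Poly.decide_eq (key_poly (NPC.Poly.snd NPC.Poly.id)) (key_poly (hp.comp (NPC.Poly.fst NPC.Poly.id)))))
  refine (NPC.Poly.optCases (g := fun a => p a) (h := fun a t => lcmp t (p a)) h1 hp
    (lcmp_poly (NPC.Poly.snd NPC.Poly.id) (hp.comp (NPC.Poly.fst NPC.Poly.id)))).congr fun a => ?_
  unfold red
  cases (List.filter (fun t => decide (key t = key (p a))) (T a)).head? <;> rfl

theorem pos_le (t : List ℕ) (v : ℕ) : pos t v ≤ t.length := by
  unfold pos
  rcases h : (List.filter (fun x : ℕ × ℕ => decide (x.1 = v)) t.zipIdx).head? with _ | x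
  · simp
  · have h1 : x ∈ List.filter (fun x : ℕ × ℕ => decide (x.1 = v)) t.zipIdx :=
      List.mem_of_mem_head? h
    have h2 := List.mem_of_mem_filter h1
    have h3 := List.snd_lt_of_mem_zipIdx h2
    simp only [Option.getD_some]
    omega

theorem length_red (T : List (List ℕ)) (p : List ℕ) : (red T p).length = p.length := by
  unfold red
  cases (List.filter (fun t => decide (key t = key p)) T).head? with
  | none => rfl
  | some t => simp [lcmp]

theorem red_val {T : List (List ℕ)} {p : List ℕ} {v : ℕ} (h : v ∈ red T p) :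
    v ∈ p ∨ ∃ t ∈ T, v ≤ t.length := by
  unfold red at h
  rcases h1 : (List.filter (fun t => decide (key t = key p)) T).head? with _ | t
  · rw [h1] at h
    exact Or.inl h
  · rw [h1] at h
    have h2 : t ∈ List.filter (fun t => decide (key t = key p)) T := List.mem_of_mem_head? h1
    have h3 := List.mem_of_mem_filter h2
    simp only [lcmp, List.mem_map] at h
    obtain ⟨x, _, rfl⟩ := h
    exact Or.inr ⟨t, h3, pos_le t x⟩

theorem fold_red (T : List (List ℕ)) : ∀ (l s : List ℕ),
    (l.foldl (fun s _ => red T s) s).length = s.length ∧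
      ∀ v ∈ l.foldl (fun s _ => red T s) s, v ∈ s ∨ ∃ t ∈ T, v ≤ t.length := by
  intro l
  induction l with
  | nil => intro s; exact ⟨rfl, fun v hv => Or.inl hv⟩
  | cons b l ih =>
    intro s
    rw [List.foldl_cons]
    obtain ⟨h1, h2⟩ := ih (red T s)
    refine ⟨by rw [h1, length_red], fun v hv => ?_⟩
    rcases h2 v hv with h | h
    · exact red_val h
    · exact Or.inr h

theorem sz_nat_le' (n : ℕ) : sz n ≤ 4 * n + 1 := by
  have h1 := sz_nat_le n
  have h2 := NPC.Poly.size_le_self n
  omega

theorem sift_poly0 : NPC.Poly (fun x : List (List ℕ) × List ℕ => sift x.1 x.2) := by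
  unfold sift
  refine NPC.Poly.foldl (l := fun x : List (List ℕ) × List ℕ => x.2) (s := fun x => x.2)
    (F := fun x s _ => red x.1 s) (NPC.Poly.snd NPC.Poly.id) (NPC.Poly.snd NPC.Poly.id)
    (red_poly (NPC.Poly.fst (NPC.Poly.fst NPC.Poly.id)) (NPC.Poly.fst (NPC.Poly.snd NPC.Poly.id)))
    (Polynomial.X * (Polynomial.C 5 * Polynomial.X + Polynomial.C 2) + Polynomial.C 1) ?_
  rintro ⟨T, p⟩ k _
  simp only
  obtain ⟨h1, h2⟩ := fold_red T (p.take k) p
  have h3 := sz_le_length_mul ((p.take k).foldl (fun s _ => red T s) p) (5 * sz (T, p) + 1) (by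
    intro v hv
    rcases h2 v hv with h | ⟨t, ht, hvt⟩
    · have := sz_le_of_mem h
      rw [sz_pair]
      omega
    · have e1 := sz_nat_le' v
      have e2 := length_lt_sz t
      have e3 := sz_le_of_mem ht
      rw [sz_pair]
      omega)
  have h4 : p.length ≤ sz (T, p) := by
    have := length_lt_sz p
    rw [sz_pair]
    omega
  rw [h1] at h3
  refine h3.trans ?_
  simp only [Polynomial.eval_add, Polynomial.eval_mul, Polynomial.eval_X, Polynomial.eval_C]
  exact Nat.add_le_add_right (Nat.mul_le_mul h4 (by omega)) 1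

theorem sift_poly {T : α → List (List ℕ)} {p : α → List ℕ} (hT : NPC.Poly T) (hp : NPC.Poly p) :
    NPC.Poly (fun a => sift (T a) (p a)) := sift_poly0.comp (NPC.Poly.pair hT hp)

theorem cands_poly {gs T : α → List (List ℕ)} (hg : NPC.Poly gs) (hT : NPC.Poly T) :
    NPC.Poly (fun a => cands (gs a) (T a)) := by
  unfold cands
  refine NPC.Poly.append hg (NPC.Poly.flatMap (F := fun a t => (T a).map (fun s => MEMaux.cmp t s)) hT ?_)
  refine NPC.Poly.map (l := fun x : α × List ℕ => T x.1) (F := fun x s => MEMaux.cmp x.2 s)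
    (hT.comp (NPC.Poly.fst NPC.Poly.id)) ?_
  exact cmp_poly (NPC.Poly.snd (NPC.Poly.fst NPC.Poly.id)) (NPC.Poly.snd NPC.Poly.id)

theorem isSome_poly {β : Type} [TEnc β] {o : α → Option β} (ho : NPC.Poly o) :
    NPC.Poly (fun a => (o a).isSome) := by
  refine (NPC.Poly.optCases (g := fun _ => false) (h := fun _ _ => true) ho (NPC.Poly.const false)
    (NPC.Poly.const true)).congr fun a => ?_
  cases o a <;> rfl

theorem round_poly {gs T : α → List (List ℕ)} (hg : NPC.Poly gs) (hT : NPC.Poly T) :
    NPC.Poly (fun a => round (gs a) (T a)) := by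
  have h1 : NPC.Poly (fun a => (((cands (gs a) (T a)).map (sift (T a))).filter
      (fun r => (key r).isSome)).head?) := by
    refine NPC.Poly.head? (NPC.Poly.filter (p := fun _ (r : List ℕ) => (key r).isSome)
      (NPC.Poly.map (F := fun a p => sift (T a) p) (cands_poly hg hT)
        (sift_poly (hT.comp (NPC.Poly.fst NPC.Poly.id)) (NPC.Poly.snd NPC.Poly.id))) ?_)
    exact isSome_poly (key_poly (NPC.Poly.snd NPC.Poly.id))
  refine (NPC.Poly.optCases (g := fun a => T a) (h := fun a r => r :: T a) h1 hT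
    (NPC.Poly.cons (NPC.Poly.snd NPC.Poly.id) (hT.comp (NPC.Poly.fst NPC.Poly.id)))).congr fun a => ?_
  unfold MEMaux.round
  cases List.filter (fun r => (key r).isSome) (List.map (sift (T a)) (cands (gs a) (T a))) <;> rfl

theorem valid_poly {u : α → List Unit} {l : α → List ℕ} (hu : NPC.Poly u) (hl : NPC.Poly l) :
    NPC.Poly (fun a => valid (u a).length (l a)) := by
  unfold valid
  refine NPC.Poly.and (NPC.Poly.decide_eq (NPC.Poly.length hl) (NPC.Poly.length hu)) ?_
  exact NPC.Poly.all (p := fun a i => decide (i ∈ l a)) (NPC.Poly.range_length hu)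
    (NPC.Poly.decide_mem (NPC.Poly.snd NPC.Poly.id) (hl.comp (NPC.Poly.fst NPC.Poly.id)))

/-- a list of length `m` with values at most `m` -/
def Good (m : ℕ) (l : List ℕ) : Prop := l.length = m ∧ ∀ v ∈ l, v ≤ m

theorem valid_good {m : ℕ} {l : List ℕ} (h : valid m l = true) : Good m l := by
  unfold valid at h
  rw [Bool.and_eq_true, decide_eq_true_eq, List.all_eq_true] at h
  obtain ⟨h1, h2⟩ := h
  refine ⟨h1, fun v hv => ?_⟩
  have h3 : Finset.range m ⊆ l.toFinset := by
    intro i hi
    rw [List.mem_toFinset]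
    have := h2 i (List.mem_range.2 (Finset.mem_range.1 hi))
    simpa using this
  have h4 : l.toFinset.card ≤ (Finset.range m).card := by
    rw [Finset.card_range]
    exact (List.toFinset_card_le l).trans h1.le
  have h5 := Finset.eq_of_subset_of_card_le h3 h4
  have h6 : v ∈ Finset.range m := by rw [h5, List.mem_toFinset]; exact hv
  exact (Finset.mem_range.1 h6).le

theorem cmp_good {m : ℕ} {p q : List ℕ} (hp : Good m p) (hq : Good m q) : Good m (MEMaux.cmp p q) := by
  refine ⟨by simp [MEMaux.cmp, hq.1], fun v hv => ?_⟩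
  simp only [MEMaux.cmp, List.mem_map] at hv
  obtain ⟨j, _, rfl⟩ := hv
  by_cases hj : j < p.length
  · rw [List.getD_eq_getElem _ _ hj]
    exact hp.2 _ (List.getElem_mem hj)
  · rw [List.getD_eq_default _ _ (by omega)]
    exact Nat.zero_le m

theorem sift_good {m : ℕ} {T : List (List ℕ)} {p : List ℕ} (hT : ∀ t ∈ T, Good m t)
    (hp : Good m p) : Good m (sift T p) := by
  obtain ⟨h1, h2⟩ := fold_red T p p
  refine ⟨by unfold sift; rw [h1, hp.1], fun v hv => ?_⟩
  rcases h2 v hv with h | ⟨t, ht, hvt⟩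
  · exact hp.2 v h
  · rw [(hT t ht).1] at hvt
    exact hvt

theorem round_good {m : ℕ} {gs T : List (List ℕ)} (hg : ∀ t ∈ gs, Good m t)
    (hT : ∀ t ∈ T, Good m t) :
    (∀ t ∈ round gs T, Good m t) ∧ (round gs T).length ≤ T.length + 1 := by
  unfold MEMaux.round
  rcases h : List.filter (fun r => (key r).isSome) (List.map (sift T) (cands gs T)) with _ | ⟨r, l⟩
  · exact ⟨hT, Nat.le_succ _⟩
  · refine ⟨fun t ht => ?_, le_of_eq rfl⟩
    rcases List.mem_cons.1 ht with ht | ht
    · subst ht
      have h1 : t ∈ List.filter (fun r => (key r).isSome) (List.map (sift T) (cands gs T)) := by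
        rw [h]; exact List.mem_cons_self
      have h2 := List.mem_of_mem_filter h1
      rw [List.mem_map] at h2
      obtain ⟨p, hp, rfl⟩ := h2
      refine sift_good hT ?_
      unfold cands at hp
      rcases List.mem_append.1 hp with hp | hp
      · exact hg p hp
      · rw [List.mem_flatMap] at hp
        obtain ⟨t1, ht1, hp⟩ := hp
        rw [List.mem_map] at hp
        obtain ⟨t2, ht2, rfl⟩ := hp
        exact cmp_good (hT t1 ht1) (hT t2 ht2)
    · exact hT t ht

theorem fold_good {m : ℕ} {gs : List (List ℕ)} (hg : ∀ t ∈ gs, Good m t) :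
    ∀ (l : List ℕ) (T : List (List ℕ)), (∀ t ∈ T, Good m t) →
      (∀ t ∈ l.foldl (fun T _ => round gs T) T, Good m t) ∧
        (l.foldl (fun T _ => round gs T) T).length ≤ T.length + l.length := by
  intro l
  induction l with
  | nil => intro T hT; exact ⟨hT, by simp⟩
  | cons b l ih =>
    intro T hT
    rw [List.foldl_cons]
    obtain ⟨h1, h2⟩ := round_good hg hT
    obtain ⟨h3, h4⟩ := ih (round gs T) h1
    refine ⟨h3, h4.trans ?_⟩
    rw [List.length_cons]
    omega

theorem sz_good {m : ℕ} {l : List ℕ} (h : Good m l) : sz l ≤ m * (4 * m + 2) + 1 := by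
  have h1 := sz_le_length_mul l (4 * m + 1) (by
    intro v hv
    have h2 := h.2 v hv
    have h3 := sz_nat_le' v
    omega)
  rw [h.1] at h1
  exact h1

theorem table_poly : NPC.Poly table := by
  have hlen : UPoly (fun I : List Unit × List (List ℕ) => I.1.length * I.1.length + 1) :=
    UPoly.add (UPoly.mul (UPoly.length (NPC.Poly.fst NPC.Poly.id)) (UPoly.length (NPC.Poly.fst NPC.Poly.id)))
      (UPoly.const 1)
  have hgs : NPC.Poly (fun I : List Unit × List (List ℕ) => I.2.filter (valid I.1.length)) :=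
    NPC.Poly.filter (p := fun (I : List Unit × List (List ℕ)) l => valid I.1.length l)
      (NPC.Poly.snd NPC.Poly.id) (valid_poly (NPC.Poly.fst (NPC.Poly.fst NPC.Poly.id)) (NPC.Poly.snd NPC.Poly.id))
  have h := NPC.Poly.foldl (l := fun I : List Unit × List (List ℕ) =>
      List.range (I.1.length * I.1.length + 1)) (s := fun _ => ([] : List (List ℕ)))
    (F := fun I T _ => round (I.2.filter (valid I.1.length)) T) hlen.range (NPC.Poly.const [])
    (round_poly (hgs.comp (NPC.Poly.fst NPC.Poly.id)) (NPC.Poly.fst (NPC.Poly.snd NPC.Poly.id)))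
    ((Polynomial.X * Polynomial.X + Polynomial.C 1) *
      (Polynomial.X * (Polynomial.C 4 * Polynomial.X + Polynomial.C 2) + Polynomial.C 2) +
      Polynomial.C 1) (by
      rintro I k hk
      have hg : ∀ t ∈ I.2.filter (valid I.1.length), Good I.1.length t := fun t ht =>
        valid_good (List.of_mem_filter ht)
      obtain ⟨h1, h2⟩ := fold_good hg ((List.range (I.1.length * I.1.length + 1)).take k) []
        (fun t ht => absurd ht (by simp))
      have h3 := sz_le_length_mul _ (I.1.length * (4 * I.1.length + 2) + 1)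
        (fun t ht => sz_good (h1 t ht))
      have h4 : I.1.length ≤ sz I := by
        have e1 := length_lt_sz I.1
        have e2 : sz I = sz (I.1, I.2) := rfl
        rw [e2, sz_pair]
        omega
      refine h3.trans ?_
      simp only [Polynomial.eval_add, Polynomial.eval_mul, Polynomial.eval_X, Polynomial.eval_C]
      refine Nat.add_le_add_right (Nat.mul_le_mul ?_ ?_) 1
      · refine h2.trans ?_
        rw [List.length_nil, Nat.zero_add]
        refine (List.length_take_le' _ _).trans ?_
        rw [List.length_range]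
        exact Nat.add_le_add_right (Nat.mul_le_mul h4 h4) 1
      · have : I.1.length * (4 * I.1.length + 2) ≤ sz I * (4 * sz I + 2) :=
          Nat.mul_le_mul h4 (by omega)
        omega)
  exact h

end MEM2aux

open MEM2aux in
theorem MEM2_ok : S_MEM2 := by
  unfold S_MEM2
  have h1 : NPC.Poly (fun x : (List Unit × List (List ℕ)) × List ℕ => valid x.1.1.length x.2) :=
    valid_poly (NPC.Poly.fst (NPC.Poly.fst NPC.Poly.id)) (NPC.Poly.snd NPC.Poly.id)
  have h2 : NPC.Poly (fun x : (List Unit × List (List ℕ)) × List ℕ =>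
      (key (sift (table x.1) x.2)).isSome) :=
    isSome_poly (key_poly (sift_poly (table_poly.comp (NPC.Poly.fst NPC.Poly.id)) (NPC.Poly.snd NPC.Poly.id)))
  refine (NPC.Poly.and h1 (NPC.Poly.not h2)).congr fun x => ?_
  unfold memT
  cases key (sift (table x.1) x.2) <;> rfl

end Pool.Agent.H49R2.PY
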