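import Pool.Agent.H49R2.PY.MEMDefs

/-!
# MEM3: the function `polya k` is in `#P`
-/

namespace Pool.Agent.H49R2.PY

open Pool.Agent.NPC Pool.Agent.NPC.Cnt MEMaux

namespace MEM3aux

/-- instances -/
abbrev Inst := List Unit × List (List ℕ)

theorem valid_poly {α : Type} [TEnc α] {u : α → List Unit} {l : α → List ℕ} (hu : Poly u)
    (hl : Poly l) : Poly (fun a => valid (u a).length (l a)) := by
  unfold valid
  refine Poly.and (Poly.decide_eq (Poly.length hl) (Poly.length hu)) ?_
  refine Poly.all (l := fun a => List.range (u a).length) (p := fun a i => decide (i ∈ l a))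
    (UPoly.range (UPoly.length hu)) ?_
  exact Poly.decide_mem (Poly.snd Poly.id) (hl.comp (Poly.fst Poly.id))

theorem rel_poly (h2 : Pool.Agent.NPC.Poly memT) (k : ℕ) :
    Poly (fun x : Inst × (List ℕ × List ℕ) => rel k (x.1, x.2)) := by
  unfold rel
  have hI : Poly (fun x : Inst × (List ℕ × List ℕ) => x.1) := Poly.fst Poly.id
  have hu : Poly (fun x : Inst × (List ℕ × List ℕ) => x.1.1) := Poly.fst hI
  have hg : Poly (fun x : Inst × (List ℕ × List ℕ) => x.1.2) := Poly.snd hI
  have hc : Poly (fun x : Inst × (List ℕ × List ℕ) => x.2) := Poly.snd Poly.id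
  have hc1 : Poly (fun x : Inst × (List ℕ × List ℕ) => x.2.1) := Poly.fst hc
  have hc2 : Poly (fun x : Inst × (List ℕ × List ℕ) => x.2.2) := Poly.snd hc
  refine Poly.and (Poly.and (Poly.and (Poly.and (Poly.and ?_ ?_) ?_) ?_) ?_) ?_
  · exact Poly.all (l := fun x : Inst × (List ℕ × List ℕ) => x.1.2)
      (p := fun x l => valid x.1.1.length l) hg
      (valid_poly (hu.comp (Poly.fst Poly.id)) (Poly.snd Poly.id))
  · exact Poly.decide_le (Poly.length hg) (Poly.length hu)
  · exact Poly.comp (g := memT) (f := fun x : Inst × (List ℕ × List ℕ) => (x.1, x.2.1)) h2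
      (Poly.pair hI hc1)
  · exact Poly.decide_eq (Poly.length hc2) (Poly.length hu)
  · exact Poly.all (l := fun x : Inst × (List ℕ × List ℕ) => x.2.2)
      (p := fun _ a => decide (a < k)) hc2 (Poly.decide_lt (Poly.snd Poly.id) (Pool.Agent.NPC.Poly.const k))
  · refine Poly.decide_eq ?_ hc2
    refine Pool.Agent.NPC.Poly.map (l := fun x : Inst × (List ℕ × List ℕ) => x.2.1)
      (F := fun x j => x.2.2.getD j 0) hc1 ?_
    exact Poly.getD (hc2.comp (Poly.fst Poly.id)) (Poly.snd Poly.id) (Pool.Agent.NPC.Poly.const 0)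

theorem rel_iff {k : ℕ} {I : Inst} {c : List ℕ × List ℕ} : rel k (I, c) = true ↔
    (∀ l ∈ I.2, valid I.1.length l = true) ∧ I.2.length ≤ I.1.length ∧ memT (I, c.1) = true ∧
      c.2.length = I.1.length ∧ (∀ a ∈ c.2, a < k) ∧ c.1.map (fun j => c.2.getD j 0) = c.2 := by
  unfold rel
  simp only [Bool.and_eq_true, List.all_eq_true, decide_eq_true_eq]
  tauto

theorem memT_valid {I : Inst} {p : List ℕ} (h : memT (I, p) = true) : valid I.1.length p = true := by
  unfold memT at h
  rw [Bool.and_eq_true] at h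
  exact h.1

theorem sz_bound (h0 : S_MEM0) (k : ℕ) (I : Inst) (c : List ℕ × List ℕ) (h : rel k (I, c) = true) :
    sz c ≤ (Polynomial.X * (Polynomial.C 8 * Polynomial.X + Polynomial.C 3) +
      Polynomial.X * Polynomial.C (2 * sz k + 1) + Polynomial.C 3 : Polynomial ℕ).eval (sz I) := by
  rw [rel_iff] at h
  obtain ⟨-, -, h3, h4, h5, -⟩ := h
  obtain ⟨σ, hσ⟩ := (h0 _ _).1 (memT_valid h3)
  obtain ⟨p, l⟩ := c
  have hm : I.1.length ≤ sz I := by
    have h1 := length_lt_sz I.1
    have h2 : sz I = sz I.1 + sz I.2 + 1 := sz_pair _ _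
    omega
  simp only at hσ h3 h4 h5
  have hp : sz p ≤ I.1.length * (8 * I.1.length + 3) + 1 := by
    have h6 : p.length = I.1.length := by rw [← hσ]; exact List.length_ofFn
    rw [← h6]
    refine (sz_le_length_mul p (8 * p.length + 2) ?_)
    intro a ha
    have h7 : a ≤ p.length := by
      rw [← hσ] at ha
      unfold code at ha
      rw [List.mem_ofFn] at ha
      obtain ⟨i, rfl⟩ := ha
      rw [h6]
      exact (σ i).2.le
    have h8 := sz_nat_mono_le h7
    have h9 := sz_nat_le p.length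
    have h10 := Poly.size_le_self p.length
    omega
  have hl : sz l ≤ I.1.length * (2 * sz k + 1) + 1 := by
    rw [← h4]
    exact sz_le_length_mul l (2 * sz k) fun a ha => sz_nat_mono_le (h5 a ha).le
  have e : sz (p, l) = sz p + sz l + 1 := sz_pair _ _
  rw [e]
  simp only [Polynomial.eval_add, Polynomial.eval_mul, Polynomial.eval_X, Polynomial.eval_C]
  have h11 : I.1.length * (8 * I.1.length + 3) ≤ sz I * (8 * sz I + 3) := by gcongr
  have h12 : I.1.length * (2 * sz k + 1) ≤ sz I * (2 * sz k + 1) := by gcongr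
  omega

theorem card_sigma {A B : Type} [Fintype A] [Fintype B] (P : A → Prop) (Q : A → B → Prop)
    [DecidablePred P] [∀ a, DecidablePred (Q a)] :
    Nat.card {x : A × B // P x.1 ∧ Q x.1 x.2} =
      ∑ a ∈ Finset.univ.filter P, (Finset.univ.filter (Q a)).card := by
  classical
  rw [Nat.card_eq_fintype_card, Fintype.card_subtype, Finset.card_filter, ← Finset.univ_product_univ,
    Finset.sum_product, Finset.sum_filter]
  refine Finset.sum_congr rfl fun a _ => ?_
  by_cases h : P a
  · rw [if_pos h, Finset.card_filter]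
    exact Finset.sum_congr rfl fun b _ => by simp [h]
  · rw [if_neg h]
    exact Finset.sum_eq_zero fun b _ => by simp [h]

theorem code_inj {m : ℕ} {σ τ : Equiv.Perm (Fin m)} (h : code σ = code τ) : σ = τ := by
  unfold code at h
  have := List.ofFn_injective h
  ext i
  exact congrFun this i

theorem fix_iff {k m : ℕ} (σ : Equiv.Perm (Fin m)) (w : Fin m → Fin k) :
    (code σ).map (fun j => (List.ofFn (fun i => (w i : ℕ))).getD j 0) =
      List.ofFn (fun i => (w i : ℕ)) ↔ ∀ i, w (σ i) = w i := by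
  have e : (code σ).map (fun j => (List.ofFn (fun i => (w i : ℕ))).getD j 0) =
      List.ofFn (fun i => (w (σ i) : ℕ)) := by
    unfold code
    rw [List.map_ofFn]
    congr 1
    funext i
    simp only [Function.comp]
    rw [List.getD_eq_getElem _ _ (by rw [List.length_ofFn]; exact (σ i).2), List.getElem_ofFn]
  rw [e]
  constructor
  · intro h i
    exact Fin.ext (congrFun (List.ofFn_injective h) i)
  · intro h
    congr 1
    funext i
    rw [h i]

open Classical in
theorem count (hK : S_K1) (h0 : S_MEM0) (h1 : S_MEM1) (k : ℕ) (I : Inst) :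
    polya k I = Nat.card {c : List ℕ × List ℕ // rel k (I, c) = true} := by
  unfold polya
  by_cases hI : (∀ l ∈ I.2, ∃ σ : Equiv.Perm (Fin I.1.length), code σ = l) ∧ I.2.length ≤ I.1.length
  · rw [if_pos hI]
    have hv : ∀ l ∈ I.2, valid I.1.length l = true := fun l hl => (h0 _ _).2 (hI.1 l hl)
    have e1 : ∑ σ ∈ Finset.univ.filter (fun σ : Equiv.Perm (Fin I.1.length) =>
        σ ∈ Subgroup.closure {τ | code τ ∈ I.2}), k ^ numCycles σ =
        Nat.card {x : Equiv.Perm (Fin I.1.length) × (Fin I.1.length → Fin k) //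
          x.1 ∈ Subgroup.closure {τ : Equiv.Perm (Fin I.1.length) | code τ ∈ I.2} ∧
            ∀ i, x.2 (x.1 i) = x.2 i} := by
      rw [card_sigma (fun σ : Equiv.Perm (Fin I.1.length) =>
        σ ∈ Subgroup.closure {τ : Equiv.Perm (Fin I.1.length) | code τ ∈ I.2})
        (fun σ (w : Fin I.1.length → Fin k) => ∀ i, w (σ i) = w i)]
      refine Finset.sum_congr rfl fun σ _ => ?_
      rw [← hK k _ σ]
    rw [e1]
    refine Nat.card_congr (Equiv.ofBijective (fun x =>
      ⟨(code x.1.1, List.ofFn (fun i => (x.1.2 i : ℕ))), ?_⟩) ⟨?_, ?_⟩)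
    · rw [rel_iff]
      refine ⟨hv, hI.2, (h1 I x.1.1).2 x.2.1, List.length_ofFn, ?_, (fix_iff _ _).2 x.2.2⟩
      intro a ha
      rw [List.mem_ofFn] at ha
      obtain ⟨i, rfl⟩ := ha
      exact (x.1.2 i).2
    · rintro ⟨⟨σ, w⟩, h⟩ ⟨⟨σ', w'⟩, h'⟩ he
      simp only [Subtype.mk.injEq, Prod.mk.injEq] at he
      apply Subtype.ext
      refine Prod.ext (code_inj he.1) ?_
      funext i
      exact Fin.ext (congrFun (List.ofFn_injective he.2) i)
    · rintro ⟨⟨p, l⟩, hc⟩
      have hc' := rel_iff.1 hc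
      obtain ⟨-, -, h3, h4, h5, h6⟩ := hc'
      obtain ⟨σ, hσ⟩ := (h0 _ _).1 (memT_valid h3)
      simp only at hσ h3 h4 h5 h6
      let w : Fin I.1.length → Fin k := fun i =>
        ⟨l[(i : ℕ)]'(by rw [h4]; exact i.2), h5 _ (List.getElem_mem _)⟩
      have hw : List.ofFn (fun i => (w i : ℕ)) = l := by
        refine List.ext_getElem (by rw [List.length_ofFn, h4]) fun i h7 h8 => ?_
        rw [List.getElem_ofFn]
      subst hσ
      refine ⟨⟨(σ, w), (h1 I σ).1 h3, ?_⟩, ?_⟩
      · refine (fix_iff σ w).1 ?_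
        rw [hw]
        exact h6
      · apply Subtype.ext
        exact Prod.ext rfl hw
  · rw [if_neg hI]
    symm
    rw [Nat.card_eq_zero]
    left
    refine ⟨fun c => hI ?_⟩
    have := rel_iff.1 c.2
    exact ⟨fun l hl => (h0 _ _).1 (this.1 l hl), this.2.1⟩

end MEM3aux

open MEM3aux

theorem MEM3_ok : S_MEM3 := by
  intro hK h0 h1 h2 k
  have h := sharpP_typed (α := Inst) (γ := List ℕ × List ℕ) (fun I c => rel k (I, c))
    (rel_poly h2 k) _ (sz_bound h0 k)
  have e : (fun I : Inst => Nat.card {c : List ℕ × List ℕ // rel k (I, c) = true}) = polya k := by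
    funext I
    exact (count hK h0 h1 k I).symm
  rw [e] at h
  exact h

end Pool.Agent.H49R2.PY
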