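import Pool.Agent.H49R2.PY.K1
import Pool.Agent.H49R2.PY.MEM0
import Pool.Agent.H49R2.PY.MEM1
import Pool.Agent.H49R2.PY.MEM2
import Pool.Agent.H49R2.PY.MEM3

/-!
# The cycle index sums over permutation groups given by generators are in `#P`
-/

namespace Pool.Agent.H49R2.PY

/-- Counting Pólya orbits with alphabet size `k` is in `#P`. -/
theorem MEM_ok : ∀ k : ℕ,
    Pool.Agent.NPC.Cnt.SharpP (Pool.Agent.NPC.Cnt.strFn (polya k)) :=
  MEM3_ok K1_ok MEM0_ok (MEM1_ok MEM0_ok) MEM2_ok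

end Pool.Agent.H49R2.PY
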