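import Pool.Agent.H49R2.PY.Stubs

/-!
# Membership in a permutation group given by generators: the algorithm of Sims

Permutations of `[m]` are lists of values.  A table `T` is a list of permutations, at most one for
each key; the key of a permutation consists of the first moved point and its image.
-/

namespace Pool.Agent.H49R2.PY.MEMaux

open Pool.Agent.NPC Pool.Agent.NPC.Cnt

/-- The product `p * q` (first `q`, then `p`). -/
def cmp (p q : List ℕ) : List ℕ := q.map (fun j => p.getD j 0)

/-- The position of the value `v` in the list `t`. -/
def pos (t : List ℕ) (v : ℕ) : ℕ :=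
  (((t.zipIdx.filter (fun x => decide (x.1 = v))).head?).getD (0, 0)).2

/-- The product `t⁻¹ * p`. -/
def lcmp (t p : List ℕ) : List ℕ := p.map (fun v => pos t v)

/-- The key of a permutation: (image of the first moved point, first moved point), `none` for the
identity. -/
def key (p : List ℕ) : Option (ℕ × ℕ) := (p.zipIdx.filter (fun x => decide (x.1 ≠ x.2))).head?

/-- One reduction step. -/
def red (T : List (List ℕ)) (p : List ℕ) : List ℕ :=
  match (T.filter (fun t => decide (key t = key p))).head? with
  | some t => lcmp t p
  | none => p

/-- Sifting. -/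
def sift (T : List (List ℕ)) (p : List ℕ) : List ℕ := p.foldl (fun s _ => red T s) p

/-- The generators and the products of two elements of the table. -/
def cands (gs T : List (List ℕ)) : List (List ℕ) := gs ++ T.flatMap (fun t => T.map (fun s => cmp t s))

/-- One round: insert the first nontrivial residue of a candidate. -/
def round (gs T : List (List ℕ)) : List (List ℕ) :=
  match ((cands gs T).map (sift T)).filter (fun r => (key r).isSome) with
  | r :: _ => r :: T
  | [] => T

/-- The list `l` is the list of values of a permutation of `[m]`. -/
def valid (m : ℕ) (l : List ℕ) : Bool :=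
  decide (l.length = m) && (List.range m).all (fun i => decide (i ∈ l))

/-- The table for the permutations in the list `gs`. -/
def table (I : List Unit × List (List ℕ)) : List (List ℕ) :=
  (List.range (I.1.length * I.1.length + 1)).foldl (fun T _ => round (I.2.filter (valid I.1.length)) T) []

/-- The test for `p ∈ ⟨gs⟩`. -/
def memT (x : (List Unit × List (List ℕ)) × List ℕ) : Bool :=
  valid x.1.1.length x.2 && (key (sift (table x.1) x.2)).isNone

/-- The relation counted by `polya k`: the certificate is a pair (permutation, fixed word). -/
def rel (k : ℕ) (x : (List Unit × List (List ℕ)) × (List ℕ × List ℕ)) : Bool :=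
  x.1.2.all (valid x.1.1.length) && decide (x.1.2.length ≤ x.1.1.length) && memT (x.1, x.2.1) &&
    decide (x.2.2.length = x.1.1.length) && x.2.2.all (fun a => decide (a < k)) &&
    decide (x.2.1.map (fun j => x.2.2.getD j 0) = x.2.2)

end MEMaux

open MEMaux

/-- MEM0: `valid` is correct -/
def S_MEM0 : Prop := ∀ (m : ℕ) (l : List ℕ), valid m l = true ↔ ∃ σ : Equiv.Perm (Fin m), code σ = l

/-- MEM1: the test is correct -/
def S_MEM1 : Prop := ∀ (I : List Unit × List (List ℕ)) (σ : Equiv.Perm (Fin I.1.length)),
  memT (I, code σ) = true ↔
    σ ∈ Subgroup.closure {τ : Equiv.Perm (Fin I.1.length) | code τ ∈ I.2}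

/-- MEM2: the test takes polynomial time -/
def S_MEM2 : Prop := Pool.Agent.NPC.Poly memT

/-- MEM3: assembly -/
def S_MEM3 : Prop := S_K1 → S_MEM0 → S_MEM1 → S_MEM2 → ∀ k : ℕ, Pool.Agent.NPC.Cnt.SharpP (Pool.Agent.NPC.Cnt.strFn (polya k))

end Pool.Agent.H49R2.PY
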