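import Pool.Agent.H49R2.PY.Stubs

namespace Pool.Agent.H49R2.PY

open Pool.Agent.NPC Pool.Agent.NPC.Cnt Finset

namespace P1aux

lemma ip_flip {M : ℕ} (l x : Fin M → Bool) (j : Fin M) (hj : x j = true) :
    ipF (Function.update l j (!l j)) x = !ipF l x := by
  unfold ipF
  rw [Finset.card_filter, Finset.card_filter,
    ← Finset.add_sum_erase univ (fun i => if Function.update l j (!l j) i = true ∧ x i = true
      then 1 else 0) (Finset.mem_univ j),
    ← Finset.add_sum_erase univ (fun i => if l i = true ∧ x i = true then 1 else 0)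
      (Finset.mem_univ j)]
  have h : ∑ i ∈ univ.erase j, (if Function.update l j (!l j) i = true ∧ x i = true then 1 else 0)
      = ∑ i ∈ univ.erase j, (if l i = true ∧ x i = true then 1 else 0) :=
    Finset.sum_congr rfl fun i hi => by rw [Function.update_of_ne (Finset.ne_of_mem_erase hi)]
  rw [h]
  simp only [Function.update_self, hj, and_true]
  generalize ∑ i ∈ univ.erase j, (if l i = true ∧ x i = true then 1 else 0) = s
  cases l j
  · rw [Bool.eq_iff_iff]
    simp
    omega
  · rw [Bool.eq_iff_iff]
    simp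
    omega

lemma ip_zero {M : ℕ} (l : Fin M → Bool) : ipF l (fun _ => false) = false := by
  unfold ipF
  simp

lemma sum_ip {M : ℕ} (x : Fin M → Bool) (f : Bool → ℝ) :
    ∑ l : Fin M → Bool, f (ipF l x) =
      2 ^ M * (if x ≠ (fun _ => false) then (f false + f true) / 2 else f false) := by
  split_ifs with hx
  · obtain ⟨j, hj⟩ : ∃ j, x j = true := by
      by_contra h
      push Not at h
      apply hx
      funext j
      have := h j
      simpa using this
    have h1 : ∑ l : Fin M → Bool, f (ipF l x) = ∑ l : Fin M → Bool, f (!ipF l x) := by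
      let e : (Fin M → Bool) ≃ (Fin M → Bool) :=
        { toFun := fun l => Function.update l j (!l j)
          invFun := fun l => Function.update l j (!l j)
          left_inv := fun l => by simp
          right_inv := fun l => by simp }
      rw [← Equiv.sum_comp e]
      refine Finset.sum_congr rfl fun l _ => ?_
      change f (ipF (Function.update l j (!l j)) x) = _
      rw [ip_flip l x j hj]
    have h2 : ∑ l : Fin M → Bool, f (ipF l x) + ∑ l : Fin M → Bool, f (!ipF l x) =
        2 ^ M * (f false + f true) := by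
      rw [← Finset.sum_add_distrib]
      have : ∀ l : Fin M → Bool, f (ipF l x) + f (!ipF l x) = f false + f true := by
        intro l
        cases ipF l x
        · simp
        · simp [add_comm]
      simp only [this, Finset.sum_const, Finset.card_univ, Fintype.card_fun, Fintype.card_bool,
        Fintype.card_fin, nsmul_eq_mul]
      push_cast
      ring
    linarith
  · push Not at hx
    subst hx
    simp only [ip_zero, Finset.sum_const, Finset.card_univ, Fintype.card_fun, Fintype.card_bool,
        Fintype.card_fin, nsmul_eq_mul]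
    push_cast
    ring

lemma sum_pi {ι α : Type} [Fintype ι] [DecidableEq ι] [Fintype α] (f : ι → α → ℝ) :
    ∑ F : ι → α, ∏ i, f i (F i) = ∏ i, ∑ a, f i a := by
  rw [Finset.prod_univ_sum, Fintype.piFinset_univ]

/-- sum over the pairs of forms -/
lemma sum_pair (k : ℕ) (hk : 2 ≤ k) {M : ℕ} (ad : Bool) (x y : Fin M → Bool) :
    ∑ φ : Bool → (Fin M → Bool), (if ad = true then gz k (ipF (φ false) x) (ipF (φ true) y)
      else gz k (ipF (φ false) x) false * gz k false (ipF (φ true) y)) =
    4 ^ M * (if x ≠ (fun _ => false) then ((1 + 2 * k / (k ^ 2 + 1)) / 2 : ℝ) else 1) *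
      (if y ≠ (fun _ => false) then ((1 + 2 / (k ^ 2 + 1)) / 2 : ℝ) else 1) *
      (if ad = true ∧ x ≠ (fun _ => false) ∧ y ≠ (fun _ => false) then rho k else 1) := by
  have hk' : (2 : ℝ) ≤ k := by exact_mod_cast hk
  have hk0 : (k : ℝ) ≠ 0 := by linarith
  have hk1 : (k : ℝ) + 1 ≠ 0 := by linarith
  have hk2 : (k : ℝ) ^ 2 + 1 ≠ 0 := by positivity
  have hk3 : (k : ℝ) ^ 2 + 3 ≠ 0 := by positivity
  have h4 : (4 : ℝ) ^ M = 2 ^ M * 2 ^ M := by
    rw [← mul_pow]; norm_num
  have hs : ∀ H : (Fin M → Bool) → (Fin M → Bool) → ℝ,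
      ∑ φ : Bool → (Fin M → Bool), H (φ false) (φ true) = ∑ l, ∑ l', H l l' := by
    intro H
    rw [← Fintype.sum_prod_type' (f := H)]
    exact Fintype.sum_equiv (Equiv.boolArrowEquivProd _) _ _ (fun φ => rfl)
  cases ad with
  | false =>
    simp only [Bool.false_eq_true, if_false, false_and, mul_one]
    rw [hs (fun l l' => gz k (ipF l x) false * gz k false (ipF l' y))]
    simp only [← Finset.mul_sum, ← Finset.sum_mul]
    rw [sum_ip y (fun b => gz k false b), sum_ip x (fun b => gz k b false), h4]
    simp only [gz]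
    ring
  | true =>
    simp only [if_true, true_and]
    rw [hs (fun l l' => gz k (ipF l x) (ipF l' y))]
    have h1 : ∀ l : Fin M → Bool, ∑ l', gz k (ipF l x) (ipF l' y) = 2 ^ M *
        (if y ≠ (fun _ => false) then (gz k (ipF l x) false + gz k (ipF l x) true) / 2
          else gz k (ipF l x) false) := fun l => sum_ip y (fun b => gz k (ipF l x) b)
    simp only [h1]
    rw [← Finset.mul_sum, sum_ip x (fun b => if y ≠ (fun _ => false) then
      (gz k b false + gz k b true) / 2 else gz k b false), h4]
    by_cases hx : x = (fun _ => false)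
    · by_cases hy : y = (fun _ => false)
      · simp [hx, hy, gz]
      · simp [hx, hy, gz]
        ring
    · by_cases hy : y = (fun _ => false)
      · simp [hx, hy, gz]
        ring
      · simp only [ne_eq, hx, not_false_eq_true, hy, if_true, and_self, gz, rho]
        field_simp
        ring

lemma sum_supp (k : ℕ) {n M : ℕ} (I : Finset (Fin n)) :
    ∑ g ∈ univ.filter (fun g : Cf n M => supp g = I), ∏ v, ∏ j, gz k (g v j) false =
      ((1 + 2 * k / (k ^ 2 + 1) : ℝ) ^ M - 1) ^ I.card := by
  classical
  have h1 : univ.filter (fun g : Cf n M => supp g = I) =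
      Fintype.piFinset (fun v => if v ∈ I then univ.filter (fun x : Fin M → Bool =>
        x ≠ fun _ => false) else {fun _ => false}) := by
    ext g
    rw [Finset.mem_filter, Fintype.mem_piFinset]
    have hm : ∀ v, v ∈ supp g ↔ g v ≠ fun _ => false := by
      intro v
      rw [supp, Finset.mem_filter]
      simp
    constructor
    · rintro ⟨-, rfl⟩ v
      by_cases hv : g v = fun _ => false
      · simp [hm, hv]
      · simp [hm, hv]
    · intro h
      refine ⟨Finset.mem_univ _, ?_⟩
      ext v
      rw [hm]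
      have := h v
      by_cases hv : v ∈ I
      · rw [if_pos hv, Finset.mem_filter] at this
        simp [hv, this.2]
      · rw [if_neg hv, Finset.mem_singleton] at this
        simp [hv, this]
  rw [h1, ← Finset.prod_univ_sum (fun v => if v ∈ I then univ.filter (fun x : Fin M → Bool =>
        x ≠ fun _ => false) else {fun _ => false}) (fun _ x => ∏ j, gz k (x j) false)]
  have h2 : ∀ v : Fin n, (∑ x ∈ (if v ∈ I then univ.filter (fun x : Fin M → Bool =>
        x ≠ fun _ => false) else {fun _ => false}), ∏ j, gz k (x j) false) =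
      if v ∈ I then ((1 + 2 * k / (k ^ 2 + 1) : ℝ) ^ M - 1) else 1 := by
    intro v
    split_ifs with hv
    · have h3 : ∑ x : Fin M → Bool, ∏ j, gz k (x j) false = (1 + 2 * k / (k ^ 2 + 1) : ℝ) ^ M := by
        rw [sum_pi (fun _ b => gz k b false)]
        simp [gz, add_comm]
      have h4 : univ.filter (fun x : Fin M → Bool => x ≠ fun _ => false) =
          univ.erase (fun _ => false) := by
        ext x; simp
      rw [h4, ← h3, ← Finset.add_sum_erase univ _ (Finset.mem_univ (fun _ : Fin M => false))]
      simp [gz]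
    · simp [gz]
  simp only [h2]
  rw [Finset.prod_ite_mem, Finset.univ_inter, Finset.prod_const]

end P1aux

open P1aux in
theorem P1_ok : S_P1 := by
  classical
  intro k n M L adj I hk
  unfold Zp
  rw [Finset.sum_comm]
  have key : ∀ g ∈ univ.filter (fun g : Cf n M => supp g = I),
      ∑ F : Fm n M L, term k adj F g = (∏ v, ∏ j, gz k (g v j) false) *
        (2 ^ (2 * n ^ 2 * L * M) * ((((1 + 2 * k / (k ^ 2 + 1)) / 2) *
          ((1 + 2 / (k ^ 2 + 1)) / 2)) ^ (n * L)) ^ I.card * rho k ^ (L * eI adj I)) := by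
    intro g hg
    rw [Finset.mem_filter] at hg
    have hI := hg.2
    unfold term
    rw [← Finset.mul_sum]
    congr 1
    have e1 := sum_pi (fun (u : Fin n) (F1 : Fin n → Fin L → Bool → (Fin M → Bool)) =>
      ∏ v : Fin n, ∏ i : Fin L,
        (if adj u v = true then gz k (ipF (F1 v i false) (g u)) (ipF (F1 v i true) (g v))
        else gz k (ipF (F1 v i false) (g u)) false * gz k false (ipF (F1 v i true) (g v))))
    have e2 := fun u : Fin n => sum_pi (fun (v : Fin n) (F2 : Fin L → Bool → (Fin M → Bool)) =>
      ∏ i : Fin L,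
        (if adj u v = true then gz k (ipF (F2 i false) (g u)) (ipF (F2 i true) (g v))
        else gz k (ipF (F2 i false) (g u)) false * gz k false (ipF (F2 i true) (g v))))
    have e3 := fun u v : Fin n => sum_pi (fun (i : Fin L) (φ : Bool → (Fin M → Bool)) =>
        (if adj u v = true then gz k (ipF (φ false) (g u)) (ipF (φ true) (g v))
        else gz k (ipF (φ false) (g u)) false * gz k false (ipF (φ true) (g v))))
    simp only [P1aux.sum_pair k hk] at e3
    simp only [e3] at e2
    simp only [e2] at e1
    refine e1.trans ?_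
    have hm : ∀ u, (g u ≠ fun _ => false) ↔ u ∈ I := by
      intro u
      rw [← hI, supp, Finset.mem_filter]
      simp
    simp only [hm, Finset.prod_const, Finset.card_univ, Fintype.card_fin, mul_pow,
      Finset.prod_mul_distrib]
    have f1 : (((((4 : ℝ) ^ M) ^ L) ^ n) ^ n) = 2 ^ (2 * n ^ 2 * L * M) := by
      have h4 : (4 : ℝ) = 2 ^ 2 := by norm_num
      rw [h4, ← pow_mul, ← pow_mul, ← pow_mul, ← pow_mul]
      congr 1
      ring
    have f2 : ∀ A : ℝ, ∏ x : Fin n, ((if x ∈ I then A else 1) ^ L) ^ n =
        (A ^ (n * L)) ^ I.card := by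
      intro A
      have : ∀ x : Fin n, ((if x ∈ I then A else 1) ^ L) ^ n = if x ∈ I then A ^ (n * L) else 1 := by
        intro x
        split_ifs
        · rw [← pow_mul, mul_comm]
        · simp
      simp only [this]
      rw [Finset.prod_ite_mem, Finset.univ_inter, Finset.prod_const]
    have f3 : ∀ A : ℝ, (∏ x : Fin n, (if x ∈ I then A else 1) ^ L) ^ n =
        (A ^ (n * L)) ^ I.card := by
      intro A
      rw [← f2 A]
      simp only [Finset.prod_pow]
    have f4 : ∏ x : Fin n, ∏ y : Fin n,
        (if adj x y = true ∧ x ∈ I ∧ y ∈ I then rho k else 1) ^ L = rho k ^ (L * eI adj I) := by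
      have : ∀ x y : Fin n, (if adj x y = true ∧ x ∈ I ∧ y ∈ I then rho k else 1) ^ L =
          if (x, y) ∈ (I ×ˢ I).filter (fun p => adj p.1 p.2 = true) then rho k ^ L else 1 := by
        intro x y
        have hmem : (x, y) ∈ (I ×ˢ I).filter (fun p => adj p.1 p.2 = true) ↔
            adj x y = true ∧ x ∈ I ∧ y ∈ I := by
          rw [Finset.mem_filter, Finset.mem_product]
          exact ⟨fun h => ⟨h.2, h.1.1, h.1.2⟩, fun h => ⟨⟨h.2.1, h.2.2⟩, h.1⟩⟩
        by_cases h : adj x y = true ∧ x ∈ I ∧ y ∈ I
        · rw [if_pos h, if_pos (hmem.2 h)]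
        · rw [if_neg h, if_neg (fun h' => h (hmem.1 h')), one_pow]
      simp only [this]
      rw [← Finset.prod_product' univ univ (fun x y =>
        if (x, y) ∈ (I ×ˢ I).filter (fun p => adj p.1 p.2 = true) then rho k ^ L else 1)]
      rw [Finset.univ_product_univ]
      rw [Finset.prod_ite_mem, Finset.univ_inter, Finset.prod_const, ← pow_mul]
      rfl
    rw [f1, f2, f3, f4]
    ring
  rw [Finset.sum_congr rfl key, ← Finset.sum_mul, sum_supp]
  have hlam : lam k n M L ^ I.card = ((1 + 2 * k / (k ^ 2 + 1) : ℝ) ^ M - 1) ^ I.card *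
      ((((1 + 2 * k / (k ^ 2 + 1)) / 2) * ((1 + 2 / (k ^ 2 + 1)) / 2)) ^ (n * L)) ^ I.card :=
    mul_pow _ _ _
  rw [hlam]
  generalize ((1 + 2 * k / (k ^ 2 + 1) : ℝ) ^ M - 1) ^ I.card = u1
  generalize ((((1 + 2 * k / (k ^ 2 + 1)) / 2) * ((1 + 2 / (k ^ 2 + 1)) / 2) : ℝ) ^ (n * L)) ^ I.card = u2
  ring

end Pool.Agent.H49R2.PY
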