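import Pool.Agent.H49R2.PY.Stubs

/-!
# #PolyaOrbits, task P2: the second moment of the contribution of a vertex
-/

namespace Pool.Agent.H49R2.PY

open Finset

namespace P2aux

/-- The sign of a bit. -/
noncomputable def chi (t : Bool) : ℝ := if t = true then -1 else 1

lemma chi_ip {M : ℕ} (l x : Fin M → Bool) :
    chi (ipF l x) = ∏ j, (if l j = true ∧ x j = true then (-1 : ℝ) else 1) := by
  rw [Finset.prod_ite, Finset.prod_const, Finset.prod_const_one, mul_one]
  unfold chi ipF
  rcases Nat.mod_two_eq_zero_or_one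
    (univ.filter (fun j : Fin M => l j = true ∧ x j = true)).card with h | h
  · have h2 : Even (univ.filter (fun j : Fin M => l j = true ∧ x j = true)).card :=
      Nat.even_iff.2 h
    rw [h2.neg_one_pow]
    simp [h]
  · have h2 : Odd (univ.filter (fun j : Fin M => l j = true ∧ x j = true)).card :=
      Nat.odd_iff.2 h
    rw [h2.neg_one_pow]
    simp [h]

lemma prod_sum_univ {ι κ : Type*} [Fintype ι] [DecidableEq ι] [Fintype κ] (f : ι → κ → ℝ) :
    ∏ i, ∑ j, f i j = ∑ p : ι → κ, ∏ i, f i (p i) := by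
  rw [Finset.prod_univ_sum, Fintype.piFinset_univ]

lemma sum_chi {M : ℕ} (x : Fin M → Bool) (hx : x ≠ fun _ => false) :
    ∑ l : Fin M → Bool, chi (ipF l x) = 0 := by
  obtain ⟨j, hj⟩ : ∃ j, x j = true := by
    by_contra h
    push Not at h
    exact hx (funext fun j => by simpa using h j)
  simp_rw [chi_ip]
  rw [← prod_sum_univ (fun (j : Fin M) (b : Bool) =>
    if b = true ∧ x j = true then (-1 : ℝ) else 1)]
  exact Finset.prod_eq_zero (mem_univ j) (by simp [hj])

lemma sum_chi2 {M : ℕ} (x y : Fin M → Bool) (hxy : x ≠ y) :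
    ∑ l : Fin M → Bool, chi (ipF l x) * chi (ipF l y) = 0 := by
  obtain ⟨j, hj⟩ : ∃ j, x j ≠ y j := by
    by_contra h
    push Not at h
    exact hxy (funext h)
  simp_rw [chi_ip, ← Finset.prod_mul_distrib]
  rw [← prod_sum_univ (fun (j : Fin M) (b : Bool) =>
    (if b = true ∧ x j = true then (-1 : ℝ) else 1) *
    (if b = true ∧ y j = true then (-1 : ℝ) else 1))]
  refine Finset.prod_eq_zero (mem_univ j) ?_
  rcases hx : x j with _ | _ <;> rcases hy : y j with _ | _ <;> simp_all

lemma fn_eq (f : Bool → ℝ) (t : Bool) :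
    f t = (f false + f true) / 2 + (f false - f true) / 2 * chi t := by
  cases t <;> simp [chi] <;> ring

lemma card_cube (M : ℕ) : (Fintype.card (Fin M → Bool) : ℝ) = 2 ^ M := by
  simp

lemma sum_f {M : ℕ} (f : Bool → ℝ) (x : Fin M → Bool) (hx : x ≠ fun _ => false) :
    ∑ l : Fin M → Bool, f (ipF l x) = 2 ^ M * ((f false + f true) / 2) := by
  simp_rw [fun l : Fin M → Bool => fn_eq f (ipF l x)]
  rw [Finset.sum_add_distrib, ← Finset.mul_sum, sum_chi x hx]
  simp

lemma sum_ff {M : ℕ} (f : Bool → ℝ) (x y : Fin M → Bool) (hx : x ≠ fun _ => false)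
    (hy : y ≠ fun _ => false) (hxy : x ≠ y) :
    ∑ l : Fin M → Bool, f (ipF l x) * f (ipF l y) =
      2 ^ M * (((f false + f true) / 2) * ((f false + f true) / 2)) := by
  set m := (f false + f true) / 2 with hm
  set d := (f false - f true) / 2 with hd
  have h1 : ∀ l : Fin M → Bool, f (ipF l x) * f (ipF l y) =
      m * m + m * d * chi (ipF l x) + m * d * chi (ipF l y) +
        d * d * (chi (ipF l x) * chi (ipF l y)) := by
    intro l
    rw [fn_eq f (ipF l x), fn_eq f (ipF l y), ← hm, ← hd]
    ring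
  have e1 : ∑ l : Fin M → Bool, m * d * chi (ipF l x) = 0 := by
    rw [← Finset.mul_sum, sum_chi x hx, mul_zero]
  have e2 : ∑ l : Fin M → Bool, m * d * chi (ipF l y) = 0 := by
    rw [← Finset.mul_sum, sum_chi y hy, mul_zero]
  have e3 : ∑ l : Fin M → Bool, d * d * (chi (ipF l x) * chi (ipF l y)) = 0 := by
    rw [← Finset.mul_sum, sum_chi2 x y hxy, mul_zero]
  simp_rw [h1]
  rw [Finset.sum_add_distrib, Finset.sum_add_distrib, Finset.sum_add_distrib, e1, e2, e3]
  simp

lemma prod_sel {n L : ℕ} (v : Fin n) (Φ : Fin n → Fin n → Fin L → Bool → ℝ) :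
    ∏ p, ∏ q, ∏ i, ∏ b, (if (if b = true then q = v else p = v) then Φ p q i b else 1) =
      (∏ u, ∏ i, Φ v u i false) * ∏ u, ∏ i, Φ u v i true := by
  simp only [Fintype.prod_bool, Finset.prod_mul_distrib, if_true, Bool.false_eq_true, if_false]
  rw [mul_comm]
  congr 1
  · rw [Finset.prod_eq_single v]
    · simp
    · intro p _ hp
      simp [hp]
    · simp
  · refine Finset.prod_congr rfl fun p _ => ?_
    rw [Finset.prod_eq_single v]
    · simp
    · intro p _ hp
      simp [hp]
    · simp

lemma master {n M L : ℕ} (v : Fin n) (K : Bool → (Fin M → Bool) → ℝ) (κ : Bool → ℝ)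
    (hK : ∀ b, ∑ l, K b l = 2 ^ M * κ b) :
    ∑ F : Fm n M L, ((∏ u, ∏ i, K false (F v u i false)) * ∏ u, ∏ i, K true (F u v i true)) =
      2 ^ (2 * n ^ 2 * L * M) * (κ false * κ true) ^ (n * L) := by
  have h1 : ∀ F : Fm n M L,
      ((∏ u, ∏ i, K false (F v u i false)) * ∏ u, ∏ i, K true (F u v i true)) =
      ∏ p, ∏ q, ∏ i, ∏ b, (fun (p q : Fin n) (i : Fin L) (b : Bool) (l : Fin M → Bool) =>
        (if (if b = true then q = v else p = v) then K b l else 1)) p q i b (F p q i b) := by
    intro F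
    exact (prod_sel v (fun p q i b => K b (F p q i b))).symm
  rw [Finset.sum_congr rfl (fun F _ => h1 F)]
  have h2 : ∀ H : Fin n → Fin n → Fin L → Bool → (Fin M → Bool) → ℝ,
      ∑ F : Fm n M L, ∏ p, ∏ q, ∏ i, ∏ b, H p q i b (F p q i b) =
      ∏ p, ∏ q, ∏ i, ∏ b, ∑ l, H p q i b l := by
    intro H
    simp_rw [prod_sum_univ]
  refine (h2 (fun (p q : Fin n) (_ : Fin L) (b : Bool) (l : Fin M → Bool) =>
    (if (if b = true then q = v else p = v) then K b l else 1))).trans ?_
  have h3 : ∀ (p q : Fin n) (i : Fin L) (b : Bool),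
      ∑ l : Fin M → Bool, (if (if b = true then q = v else p = v) then K b l else 1) =
      2 ^ M * (if (if b = true then q = v else p = v) then κ b else 1) := by
    intro p q i b
    by_cases h : (if b = true then q = v else p = v)
    · simp only [if_pos h, hK]
    · simp only [if_neg h]
      simp
  refine (Finset.prod_congr rfl fun p _ => Finset.prod_congr rfl fun q _ =>
    Finset.prod_congr rfl fun i _ => Finset.prod_congr rfl fun b _ => h3 p q i b).trans ?_
  simp only [Finset.prod_mul_distrib]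
  rw [prod_sel v (fun p q i b => κ b)]
  simp only [Finset.prod_const, Finset.card_univ, Fintype.card_fin, Fintype.card_bool]
  rw [← pow_mul, ← pow_mul, ← pow_mul, ← pow_mul, ← pow_mul, mul_pow]
  congr 1
  · congr 1
    ring
  · rw [mul_comm L n, ← pow_mul, mul_comm L n]

lemma abs_var {Ω ι : Type*} [Fintype Ω] [DecidableEq ι] (S : Finset ι) (X : ι → Ω → ℝ) (T : ℝ)
    (hT : (Fintype.card Ω : ℝ) = T) (hT0 : 0 ≤ T) (e q : ι → ℝ)
    (h1 : ∀ x ∈ S, ∑ ω, X x ω = T * e x)
    (h2 : ∀ x ∈ S, ∀ y ∈ S, x ≠ y → ∑ ω, X x ω * X y ω = T * (e x * e y))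
    (h3 : ∀ x ∈ S, ∑ ω, X x ω * X x ω = T * q x) :
    ∑ ω, (∑ x ∈ S, X x ω - ∑ x ∈ S, e x) ^ 2 ≤ T * ∑ x ∈ S, q x := by
  have h4 : ∀ ω, (∑ x ∈ S, X x ω - ∑ x ∈ S, e x) ^ 2 =
      ∑ x ∈ S, ∑ y ∈ S, (X x ω - e x) * (X y ω - e y) := by
    intro ω
    rw [← Finset.sum_sub_distrib, sq, Finset.sum_mul_sum]
  simp_rw [h4]
  rw [Finset.sum_comm, Finset.mul_sum]
  refine Finset.sum_le_sum fun x hx => ?_
  rw [Finset.sum_comm]
  have h5 : ∀ y ∈ S, ∑ ω, (X x ω - e x) * (X y ω - e y) =
      if x = y then T * q x - T * (e x * e x) else 0 := by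
    intro y hy
    have h6 : ∀ ω, (X x ω - e x) * (X y ω - e y) =
        X x ω * X y ω - X x ω * e y - e x * X y ω + e x * e y := by
      intro ω; ring
    simp_rw [h6]
    rw [Finset.sum_add_distrib, Finset.sum_sub_distrib, Finset.sum_sub_distrib,
      ← Finset.sum_mul, ← Finset.mul_sum, h1 x hx, h1 y hy, Finset.sum_const, Finset.card_univ,
      nsmul_eq_mul, hT]
    by_cases hxy : x = y
    · subst hxy
      rw [h3 x hx, if_pos rfl]
      ring
    · rw [h2 x hx y hy hxy, if_neg hxy]
      ring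
  rw [Finset.sum_congr rfl h5, Finset.sum_ite_eq, if_pos hx]
  nlinarith [mul_nonneg hT0 (mul_self_nonneg (e x))]

/-- The weight of a bit in the first or second position. -/
noncomputable def w (k : ℕ) (b t : Bool) : ℝ := if b = true then gz k false t else gz k t false

lemma sum_cx (M : ℕ) (f : Bool → ℝ) :
    ∑ x : Fin M → Bool, ∏ j, f (x j) = (f false + f true) ^ M := by
  rw [← prod_sum_univ (fun (_ : Fin M) (b : Bool) => f b)]
  simp [add_comm]

end P2aux

open P2aux in
theorem P2_ok : S_P2 := by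
  intro k n M L v hk
  set a : ℝ := 2 * k / (k ^ 2 + 1) with ha
  set b : ℝ := 2 / (k ^ 2 + 1) with hb
  have ha0 : gz k true false = a := rfl
  have hb0 : gz k false true = b := rfl
  have h00 : gz k false false = 1 := rfl
  set S := univ.filter (fun x : Fin M → Bool => x ≠ fun _ => false) with hS
  set c : (Fin M → Bool) → ℝ := fun x => ∏ j, gz k (x j) false with hc
  set X : (Fin M → Bool) → Fm n M L → ℝ := fun x F =>
    c x * ((∏ u : Fin n, ∏ i, gz k (ipF (F v u i false) x) false) *
      ∏ u : Fin n, ∏ i, gz k false (ipF (F u v i true) x)) with hX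
  have hcard : (Fintype.card (Fm n M L) : ℝ) = 2 ^ (2 * n ^ 2 * L * M) := by
    simp only [Fintype.card_fun, Fintype.card_fin, Fintype.card_bool]
    push_cast
    rw [← pow_mul, ← pow_mul, ← pow_mul, ← pow_mul]
    congr 1
    ring
  have hvar := abs_var (Ω := Fm n M L) S X (2 ^ (2 * n ^ 2 * L * M)) hcard (by positivity)
    (fun x => c x * (((1 + a) / 2) * ((1 + b) / 2)) ^ (n * L))
    (fun x => (c x * c x) * (((1 + a ^ 2) / 2) * ((1 + b ^ 2) / 2)) ^ (n * L))
    ?_ ?_ ?_
  · have hW : ∀ F : Fm n M L, Wv k v F = ∑ x ∈ S, X x F := fun F => rfl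
    have hsum : ∑ x : Fin M → Bool, c x = (1 + a) ^ M := by
      have := sum_cx M (fun t => gz k t false)
      simp only [h00, ha0] at this
      exact this
    have hsum2 : ∑ x : Fin M → Bool, c x * c x = (1 + a ^ 2) ^ M := by
      have := sum_cx M (fun t => gz k t false * gz k t false)
      simp only [h00, ha0, Finset.prod_mul_distrib] at this
      rw [mul_one, ← sq] at this
      exact this
    have hS0 : ∑ x ∈ S, c x = (1 + a) ^ M - 1 := by
      have h := Finset.sum_filter_add_sum_filter_not univ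
        (fun x : Fin M → Bool => x ≠ fun _ => false) c
      rw [hsum] at h
      have h7 : (univ.filter (fun x : Fin M → Bool => ¬ (x ≠ fun _ => false))) =
          {fun _ => false} := by
        ext x
        simp
      rw [h7, Finset.sum_singleton] at h
      have h8 : c (fun _ => false) = 1 := by simp [hc, h00]
      rw [h8] at h
      linarith
    have hlam : ∑ x ∈ S, c x * (((1 + a) / 2) * ((1 + b) / 2)) ^ (n * L) = lam k n M L := by
      rw [← Finset.sum_mul, hS0]
      rfl
    have hq : ∑ x ∈ S, (c x * c x) * (((1 + a ^ 2) / 2) * ((1 + b ^ 2) / 2)) ^ (n * L) ≤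
        (1 + a ^ 2) ^ M * (((1 + a ^ 2) / 2) * ((1 + b ^ 2) / 2)) ^ (n * L) := by
      rw [← Finset.sum_mul]
      refine mul_le_mul_of_nonneg_right ?_ (by positivity)
      rw [← hsum2]
      exact Finset.sum_le_sum_of_subset_of_nonneg (Finset.filter_subset _ _)
        (fun x _ _ => mul_self_nonneg _)
    rw [hlam] at hvar
    simp_rw [hW]
    exact hvar.trans (mul_le_mul_of_nonneg_left hq (by positivity))
  · intro x hx
    have hx0 : x ≠ fun _ => false := (Finset.mem_filter.1 hx).2
    have hm := master (n := n) (L := L) v (fun b l => w k b (ipF l x))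
      (fun b => (w k b false + w k b true) / 2) (fun b => sum_f (w k b) x hx0)
    simp only [w, if_true, Bool.false_eq_true, if_false, h00, ha0, hb0] at hm
    simp only [hX]
    rw [← Finset.mul_sum, hm]
    ring
  · intro x hx y hy hxy
    have hx0 : x ≠ fun _ => false := (Finset.mem_filter.1 hx).2
    have hy0 : y ≠ fun _ => false := (Finset.mem_filter.1 hy).2
    have hm := master (n := n) (L := L) v (fun b l => w k b (ipF l x) * w k b (ipF l y))
      (fun b => ((w k b false + w k b true) / 2) * ((w k b false + w k b true) / 2))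
      (fun b => sum_ff (w k b) x y hx0 hy0 hxy)
    simp only [w, if_true, Bool.false_eq_true, if_false, h00, ha0, hb0,
      Finset.prod_mul_distrib] at hm
    have h9 : ∀ F : Fm n M L, X x F * X y F = (c x * c y) *
        (((∏ u : Fin n, ∏ i, gz k (ipF (F v u i false) x) false) *
          ∏ u : Fin n, ∏ i, gz k (ipF (F v u i false) y) false) *
        ((∏ u : Fin n, ∏ i, gz k false (ipF (F u v i true) x)) *
          ∏ u : Fin n, ∏ i, gz k false (ipF (F u v i true) y))) := by
      intro F
      simp only [hX]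
      ring
    simp_rw [h9]
    rw [← Finset.mul_sum, hm]
    have h10 : ((1 + a) / 2 * ((1 + a) / 2) * ((1 + b) / 2 * ((1 + b) / 2))) =
        (((1 + a) / 2) * ((1 + b) / 2)) * (((1 + a) / 2) * ((1 + b) / 2)) := by ring
    rw [h10, mul_pow]
    ring
  · intro x hx
    have hx0 : x ≠ fun _ => false := (Finset.mem_filter.1 hx).2
    have hm := master (n := n) (L := L) v (fun b l => w k b (ipF l x) * w k b (ipF l x))
      (fun b => (w k b false * w k b false + w k b true * w k b true) / 2)
      (fun b => sum_f (fun t => w k b t * w k b t) x hx0)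
    simp only [w, if_true, Bool.false_eq_true, if_false, h00, ha0, hb0,
      Finset.prod_mul_distrib] at hm
    have h9 : ∀ F : Fm n M L, X x F * X x F = (c x * c x) *
        (((∏ u : Fin n, ∏ i, gz k (ipF (F v u i false) x) false) *
          ∏ u : Fin n, ∏ i, gz k (ipF (F v u i false) x) false) *
        ((∏ u : Fin n, ∏ i, gz k false (ipF (F u v i true) x)) *
          ∏ u : Fin n, ∏ i, gz k false (ipF (F u v i true) x))) := by
      intro F
      simp only [hX]
      ring
    simp_rw [h9]
    rw [← Finset.mul_sum, hm, one_mul, ← sq, ← sq]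
    ring

end Pool.Agent.H49R2.PY
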