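import Pool.Agent.H49R2.PY.Stubs

namespace Pool.Agent.H49R2.PY

open Finset

namespace P3aux

/-- the factor of a vertex -/
noncomputable def fv (k : ℕ) {n M L : ℕ} (F : Fm n M L) (v : Fin n) (x : Fin M → Bool) : ℝ :=
  (∏ j, gz k (x j) false) * ((∏ u : Fin n, ∏ i, gz k (ipF (F v u i false) x) false) *
      ∏ u : Fin n, ∏ i, gz k false (ipF (F u v i true) x))

theorem ip0 {M : ℕ} (l : Fin M → Bool) : ipF l (fun _ => false) = false := by
  unfold ipF
  simp

theorem gz00 (k : ℕ) : gz k false false = 1 := rfl

theorem fv0 (k : ℕ) {n M L : ℕ} (F : Fm n M L) (v : Fin n) : fv k F v (fun _ => false) = 1 := by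
  unfold fv
  simp only [ip0, gz00, Finset.prod_const_one, mul_one]

theorem term_eq (k : ℕ) {n M L : ℕ} (adj : ℕ → ℕ → Bool) (I : Finset (Fin n)) (F : Fm n M L)
    (hI : I ∈ indF n adj) (g : Cf n M) (hg : supp g = I) :
    term k adj F g = ∏ v, fv k F v (g v) := by
  have h0 : ∀ v, v ∉ I → g v = fun _ => false := by
    intro v hv
    by_contra h
    apply hv
    rw [← hg]
    unfold supp
    rw [Finset.mem_filter]
    exact ⟨Finset.mem_univ _, h⟩
  have hI' : ∀ u ∈ I, ∀ v ∈ I, adj u v = false := by
    unfold indF at hI
    exact (Finset.mem_filter.1 hI).2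
  have h1 : ∀ (u v : Fin n) (i : Fin L),
      (if adj u v = true then gz k (ipF (F u v i false) (g u)) (ipF (F u v i true) (g v))
       else gz k (ipF (F u v i false) (g u)) false * gz k false (ipF (F u v i true) (g v))) =
      gz k (ipF (F u v i false) (g u)) false * gz k false (ipF (F u v i true) (g v)) := by
    intro u v i
    split_ifs with ha
    · by_cases hu : u ∈ I
      · by_cases hv : v ∈ I
        · rw [hI' u hu v hv] at ha
          exact absurd ha (by simp)
        · rw [h0 v hv, ip0, gz00, mul_one]
      · rw [h0 u hu, ip0, gz00, one_mul]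
    · rfl
  unfold term
  simp only [h1, Finset.prod_mul_distrib]
  unfold fv
  simp only [Finset.prod_mul_distrib]
  congr 2
  exact Finset.prod_comm

end P3aux

open P3aux in
theorem P3_ok : S_P3 := by
  classical
  intro k n M L adj I F hI
  unfold Zp
  rw [Finset.sum_congr rfl (fun g hg => term_eq k adj I F hI g (Finset.mem_filter.1 hg).2)]
  set t : Fin n → Finset (Fin M → Bool) := fun v =>
    if v ∈ I then univ.filter (fun x : Fin M → Bool => x ≠ fun _ => false)
    else {fun _ => false} with ht
  have h1 : (univ.filter (fun g : Cf n M => supp g = I)) = Fintype.piFinset t := by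
    ext g
    rw [Finset.mem_filter, Fintype.mem_piFinset]
    constructor
    · rintro ⟨-, h⟩ v
      by_cases hv : v ∈ I
      · rw [ht]
        simp only [hv, if_true, Finset.mem_filter]
        rw [← h] at hv
        exact ⟨Finset.mem_univ _, (Finset.mem_filter.1 hv).2⟩
      · rw [ht]
        simp only [hv, if_false, Finset.mem_singleton]
        by_contra hc
        exact hv (by rw [← h]; exact Finset.mem_filter.2 ⟨Finset.mem_univ _, hc⟩)
    · intro h
      refine ⟨Finset.mem_univ _, ?_⟩
      ext v
      unfold supp
      rw [Finset.mem_filter]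
      constructor
      · rintro ⟨-, hv⟩
        by_contra hc
        have := h v
        rw [ht] at this
        simp only [hc, if_false, Finset.mem_singleton] at this
        exact hv this
      · intro hv
        have := h v
        rw [ht] at this
        simp only [hv, if_true, Finset.mem_filter] at this
        exact ⟨Finset.mem_univ _, this.2⟩
  rw [h1, ← Finset.prod_univ_sum]
  have h2 : ∀ v, ∑ x ∈ t v, fv k F v x = if v ∈ I then Wv k v F else 1 := by
    intro v
    by_cases hv : v ∈ I
    · rw [ht]
      simp only [hv, if_true]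
      rfl
    · rw [ht]
      simp only [hv, if_false, Finset.sum_singleton]
      exact fv0 k F v
  rw [Finset.prod_congr rfl (fun v _ => h2 v), Finset.prod_ite_mem, Finset.univ_inter]

end Pool.Agent.H49R2.PY
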