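import Pool.Agent.H49R2.PY.Stubs

/-! # Task P4i: Markov's inequality for the bad supports -/

namespace Pool.Agent.H49R2.PY

open Pool.Agent.NPC Pool.Agent.NPC.Cnt Finset

namespace P4iaux

theorem gz_nonneg (k : ℕ) (a b : Bool) : 0 ≤ gz k a b := by
  cases a <;> cases b <;> simp only [gz] <;> positivity

theorem term_nonneg (k : ℕ) {n M L : ℕ} (adj : ℕ → ℕ → Bool) (F : Fm n M L) (g : Cf n M) :
    0 ≤ term k adj F g := by
  unfold term
  refine mul_nonneg (prod_nonneg fun v _ => prod_nonneg fun j _ => gz_nonneg _ _ _)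
    (prod_nonneg fun u _ => prod_nonneg fun v _ => prod_nonneg fun i _ => ?_)
  split_ifs
  · exact gz_nonneg _ _ _
  · exact mul_nonneg (gz_nonneg _ _ _) (gz_nonneg _ _ _)

theorem Zp_nonneg (k : ℕ) {n M L : ℕ} (adj : ℕ → ℕ → Bool) (I : Finset (Fin n)) (F : Fm n M L) :
    0 ≤ Zp k adj I F := sum_nonneg fun g _ => term_nonneg k adj F g

theorem rho_nonneg (k : ℕ) (hk : 2 ≤ k) : 0 ≤ rho k := by
  unfold rho
  have hk' : (2 : ℝ) ≤ k := by exact_mod_cast hk
  rw [sub_nonneg, div_le_one (by positivity)]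
  nlinarith [mul_nonneg (by linarith : (0:ℝ) ≤ k) (by linarith : (0:ℝ) ≤ (k:ℝ) + 1),
    pow_pos (by linarith : (0:ℝ) < k) 2, pow_pos (by linarith : (0:ℝ) < k) 3,
    pow_pos (by linarith : (0:ℝ) < k) 4]

theorem rho_le_one (k : ℕ) (hk : 2 ≤ k) : rho k ≤ 1 := by
  unfold rho
  have hk' : (2 : ℝ) ≤ k := by exact_mod_cast hk
  have : 0 ≤ 2 * ((k : ℝ) - 1) / (k * (k + 1) * (k ^ 2 + 3)) := by
    apply div_nonneg
    · linarith
    · positivity
  linarith

/-- Markov's inequality for counting. -/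
theorem markov {α : Type*} [Fintype α] (f : α → ℝ) (hf : ∀ a, 0 ≤ f a) (c : ℝ) :
    ({a : α | c < f a}.ncard : ℝ) * c ≤ ∑ a, f a := by
  classical
  have h1 : {a : α | c < f a} = ((univ.filter fun a => c < f a : Finset α) : Set α) := by
    ext a; simp
  rw [h1, Set.ncard_coe_finset]
  calc ((univ.filter fun a => c < f a).card : ℝ) * c = ∑ a ∈ univ.filter (fun a => c < f a), c := by
        rw [sum_const, nsmul_eq_mul]
    _ ≤ ∑ a ∈ univ.filter (fun a => c < f a), f a :=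
        sum_le_sum fun a ha => (mem_filter.1 ha).2.le
    _ ≤ ∑ a, f a := sum_le_sum_of_subset_of_nonneg (filter_subset _ _) fun a _ _ => hf a

end P4iaux

open P4iaux in
theorem P4i_ok : S_P4i := by
  intro h1 k n M L s adj η hk hη hL hs
  set Λ : ℝ := lam k n M L with hΛ
  have hΛ0 : 0 < Λ := by linarith
  set bad : Finset (Finset (Fin n)) :=
    univ.filter (fun I : Finset (Fin n) => ¬ (I ∈ indF n adj ∧ I.card = s)) with hbad
  have hρ0 := rho_nonneg k hk
  have hρ1 := rho_le_one k hk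
  have hm := markov (fun F : Fm n M L => ∑ I ∈ bad, Zp k adj I F)
    (fun F => sum_nonneg fun I _ => Zp_nonneg k adj I F) (η * Λ ^ s)
  rw [sum_comm] at hm
  have h2 : ∑ I ∈ bad, ∑ F : Fm n M L, Zp k adj I F ≤
      2 ^ (2 * n ^ 2 * L * M) * ((2 ^ n / Λ + 2 ^ n * Λ ^ n * rho k ^ L) * Λ ^ s) := by
    have h3 : ∀ I ∈ bad, ∑ F : Fm n M L, Zp k adj I F ≤
        2 ^ (2 * n ^ 2 * L * M) * ((1 / Λ + Λ ^ n * rho k ^ L) * Λ ^ s) := by
      intro I hI
      rw [h1 k n M L adj I hk, mul_assoc]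
      refine mul_le_mul_of_nonneg_left ?_ (by positivity)
      rw [hbad, mem_filter] at hI
      have hI := hI.2
      rw [← hΛ]
      by_cases hi : I ∈ indF n adj
      · have hc : I.card < s := lt_of_le_of_ne (hs I hi) fun h => hI ⟨hi, h⟩
        have e1 : Λ ^ I.card ≤ 1 / Λ * Λ ^ s := by
          rw [one_div, inv_mul_eq_div, le_div_iff₀ hΛ0, ← pow_succ]
          exact pow_le_pow_right₀ hL hc
        have e2 : rho k ^ (L * eI adj I) ≤ 1 := pow_le_one₀ hρ0 hρ1
        calc Λ ^ I.card * rho k ^ (L * eI adj I) ≤ Λ ^ I.card * 1 := by gcongr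
          _ ≤ 1 / Λ * Λ ^ s := by rw [mul_one]; exact e1
          _ ≤ (1 / Λ + Λ ^ n * rho k ^ L) * Λ ^ s := by
              have : 0 ≤ Λ ^ n * rho k ^ L * Λ ^ s := by positivity
              linarith
      · have he : 1 ≤ eI adj I := by
          unfold indF at hi
          simp only [mem_filter, mem_univ, true_and, not_forall] at hi
          obtain ⟨u, hu, v, hv, huv⟩ := hi
          refine card_pos.2 ⟨(u, v), ?_⟩
          simp only [mem_filter, mem_product]
          exact ⟨⟨hu, hv⟩, by simpa using huv⟩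
        have e1 : rho k ^ (L * eI adj I) ≤ rho k ^ L :=
          pow_le_pow_of_le_one hρ0 hρ1 (Nat.le_mul_of_pos_right L he)
        have e2 : Λ ^ I.card ≤ Λ ^ n := by
          refine pow_le_pow_right₀ hL ?_
          have := card_le_univ I
          simpa using this
        have e3 : 1 ≤ Λ ^ s := one_le_pow₀ hL
        calc Λ ^ I.card * rho k ^ (L * eI adj I) ≤ Λ ^ n * rho k ^ L := by gcongr
          _ ≤ Λ ^ n * rho k ^ L * Λ ^ s := le_mul_of_one_le_right (by positivity) e3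
          _ ≤ (1 / Λ + Λ ^ n * rho k ^ L) * Λ ^ s := by
              have : 0 ≤ 1 / Λ * Λ ^ s := by positivity
              linarith
    calc ∑ I ∈ bad, ∑ F : Fm n M L, Zp k adj I F ≤
        ∑ I ∈ bad, 2 ^ (2 * n ^ 2 * L * M) * ((1 / Λ + Λ ^ n * rho k ^ L) * Λ ^ s) := sum_le_sum h3
      _ = bad.card * (2 ^ (2 * n ^ 2 * L * M) * ((1 / Λ + Λ ^ n * rho k ^ L) * Λ ^ s)) := by
          rw [sum_const, nsmul_eq_mul]
      _ ≤ 2 ^ n * (2 ^ (2 * n ^ 2 * L * M) * ((1 / Λ + Λ ^ n * rho k ^ L) * Λ ^ s)) := by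
          gcongr
          have := card_le_univ bad
          simp only [Fintype.card_finset, Fintype.card_fin] at this
          exact_mod_cast this
      _ = _ := by ring
  have h4 := hm.trans h2
  have hΛs : 0 < Λ ^ s := by positivity
  have h5 : ({F : Fm n M L | η * Λ ^ s < ∑ I ∈ bad, Zp k adj I F}.ncard : ℝ) * η * Λ ^ s ≤
      2 ^ (2 * n ^ 2 * L * M) * (2 ^ n / Λ + 2 ^ n * Λ ^ n * rho k ^ L) * Λ ^ s := by
    calc _ = ({F : Fm n M L | η * Λ ^ s < ∑ I ∈ bad, Zp k adj I F}.ncard : ℝ) * (η * Λ ^ s) := by ring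
      _ ≤ _ := h4
      _ = _ := by ring
  exact le_of_mul_le_mul_right h5 hΛs

end Pool.Agent.H49R2.PY
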