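import Pool.Agent.H49R2.PY.Stubs

/-!
# Chebyshev
-/

set_option autoImplicit false

namespace Pool.Agent.H49R2.PY

open Pool.Agent.NPC Pool.Agent.NPC.Cnt Finset

namespace P5iaux

/-- the variance bound is at most `2 λ` -/
theorem var_le (a b : ℝ) (M n : ℕ) (ha0 : 0 ≤ a) (ha1 : a ≤ 1) (hb0 : 0 ≤ b) (hb1 : b ≤ 1)
    (h : 1 ≤ ((1 + a) ^ M - 1) * (((1 + a) / 2) * ((1 + b) / 2)) ^ n) :
    (1 + a ^ 2) ^ M * (((1 + a ^ 2) / 2) * ((1 + b ^ 2) / 2)) ^ n ≤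
      2 * (((1 + a) ^ M - 1) * (((1 + a) / 2) * ((1 + b) / 2)) ^ n) := by
  have ha2 : a ^ 2 ≤ a := by nlinarith
  have hb2 : b ^ 2 ≤ b := by nlinarith
  have hp0 : 0 ≤ (((1 + a) / 2) * ((1 + b) / 2)) ^ n := by positivity
  have hp1 : (((1 + a) / 2) * ((1 + b) / 2)) ^ n ≤ 1 := by
    apply pow_le_one₀ (by positivity)
    have h1 : (1 + a) / 2 ≤ 1 := by linarith
    have h2 : (1 + b) / 2 ≤ 1 := by linarith
    calc (1 + a) / 2 * ((1 + b) / 2) ≤ 1 * 1 := mul_le_mul h1 h2 (by positivity) zero_le_one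
      _ = 1 := one_mul 1
  have hA : 0 ≤ (1 + a) ^ M - 1 := by
    have : 1 ≤ (1 + a) ^ M := one_le_pow₀ (by linarith)
    linarith
  have hA1 : 1 ≤ (1 + a) ^ M - 1 := by
    have := mul_le_mul_of_nonneg_left hp1 hA
    linarith
  have h1 : (1 + a ^ 2) ^ M ≤ (1 + a) ^ M := pow_le_pow_left₀ (by positivity) (by linarith) M
  have h2 : (((1 + a ^ 2) / 2) * ((1 + b ^ 2) / 2)) ^ n ≤ (((1 + a) / 2) * ((1 + b) / 2)) ^ n := by
    apply pow_le_pow_left₀ (by positivity)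
    apply mul_le_mul (by linarith) (by linarith) (by positivity) (by positivity)
  calc (1 + a ^ 2) ^ M * (((1 + a ^ 2) / 2) * ((1 + b ^ 2) / 2)) ^ n
      ≤ (1 + a) ^ M * (((1 + a) / 2) * ((1 + b) / 2)) ^ n :=
        mul_le_mul h1 h2 (by positivity) (by positivity)
    _ ≤ (2 * ((1 + a) ^ M - 1)) * (((1 + a) / 2) * ((1 + b) / 2)) ^ n :=
        mul_le_mul_of_nonneg_right (by linarith) hp0
    _ = _ := by ring

/-- Chebyshev -/
theorem cheb {ι : Type} [Fintype ι] (W : ι → ℝ) (l δ V : ℝ) (hδ : 0 < δ) (hl : 1 ≤ l)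
    (h : ∑ i, (W i - l) ^ 2 ≤ V) :
    ({i : ι | δ * l < |W i - l|}.ncard : ℝ) * (δ * l) ^ 2 ≤ V := by
  classical
  have hS : {i : ι | δ * l < |W i - l|} =
      ((univ.filter (fun i => δ * l < |W i - l|) : Finset ι) : Set ι) := by
    ext i
    simp
  rw [hS, Set.ncard_coe_finset]
  refine le_trans ?_ h
  calc ((univ.filter (fun i => δ * l < |W i - l|)).card : ℝ) * (δ * l) ^ 2
      = ∑ i ∈ univ.filter (fun i => δ * l < |W i - l|), (δ * l) ^ 2 := by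
        rw [sum_const, nsmul_eq_mul]
    _ ≤ ∑ i ∈ univ.filter (fun i => δ * l < |W i - l|), (W i - l) ^ 2 := by
        apply sum_le_sum
        intro i hi
        rw [mem_filter] at hi
        rw [← sq_abs (W i - l)]
        have : 0 ≤ δ * l := by positivity
        exact pow_le_pow_left₀ this hi.2.le 2
    _ ≤ ∑ i, (W i - l) ^ 2 :=
        sum_le_sum_of_subset_of_nonneg (filter_subset _ _) (fun i _ _ => sq_nonneg _)

end P5iaux

open P5iaux in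
theorem P5i_ok : S_P5i := by
  intro hP2 k n M L v δ hk hδ hl
  have hk' : (2:ℝ) ≤ k := by exact_mod_cast hk
  have h1 := hP2 k n M L v hk
  have hd : (0:ℝ) < (k:ℝ) ^ 2 + 1 := by positivity
  have ha0 : 0 ≤ (2 * k / (k ^ 2 + 1) : ℝ) := by positivity
  have ha1 : (2 * k / (k ^ 2 + 1) : ℝ) ≤ 1 := by
    rw [div_le_one hd]
    nlinarith [sq_nonneg ((k:ℝ) - 1)]
  have hb0 : 0 ≤ (2 / (k ^ 2 + 1) : ℝ) := by positivity
  have hb1 : (2 / (k ^ 2 + 1) : ℝ) ≤ 1 := by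
    rw [div_le_one hd]
    nlinarith
  have h2 := var_le (2 * k / (k ^ 2 + 1) : ℝ) (2 / (k ^ 2 + 1) : ℝ) M (n * L) ha0 ha1 hb0 hb1 hl
  have h3 : (1 + (2 * k / (k ^ 2 + 1) : ℝ) ^ 2) ^ M *
      (((1 + (2 * k / (k ^ 2 + 1) : ℝ) ^ 2) / 2) *
        ((1 + (2 / (k ^ 2 + 1) : ℝ) ^ 2) / 2)) ^ (n * L) ≤ 2 * lam k n M L := h2
  have h4 := cheb (fun F : Fm n M L => Wv k v F) (lam k n M L) δ _ hδ hl h1
  have h5 : ({F : Fm n M L | δ * lam k n M L < |Wv k v F - lam k n M L|}.ncard : ℝ) *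
      (δ * lam k n M L) ^ 2 ≤ 2 ^ (2 * n ^ 2 * L * M) * (2 * lam k n M L) :=
    h4.trans (mul_le_mul_of_nonneg_left h3 (by positivity))
  have hl0 : 0 < lam k n M L := by linarith
  have h6 : (({F : Fm n M L | δ * lam k n M L < |Wv k v F - lam k n M L|}.ncard : ℝ) *
      (δ ^ 2 * lam k n M L)) * lam k n M L ≤ (2 ^ (2 * n ^ 2 * L * M) * 2) * lam k n M L := by
    calc _ = ({F : Fm n M L | δ * lam k n M L < |Wv k v F - lam k n M L|}.ncard : ℝ) *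
      (δ * lam k n M L) ^ 2 := by ring
      _ ≤ 2 ^ (2 * n ^ 2 * L * M) * (2 * lam k n M L) := h5
      _ = _ := by ring
  exact le_of_mul_le_mul_right h6 hl0

end Pool.Agent.H49R2.PY
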