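import Pool.Agent.H49R2.PY.Stubs

/-! P6i: the deterministic estimate on the good event -/

namespace Pool.Agent.H49R2.PY

open Pool.Agent.NPC Pool.Agent.NPC.Cnt Finset

namespace P6iaux

lemma gz_nonneg (k : ℕ) (a b : Bool) : 0 ≤ gz k a b := by
  cases a <;> cases b <;> simp only [gz] <;> positivity

lemma term_nonneg (k : ℕ) {n M L : ℕ} (adj : ℕ → ℕ → Bool) (F : Fm n M L) (g : Cf n M) :
    0 ≤ term k adj F g := by
  unfold term
  refine mul_nonneg (prod_nonneg fun v _ => prod_nonneg fun j _ => gz_nonneg _ _ _) ?_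
  refine prod_nonneg fun u _ => prod_nonneg fun v _ => prod_nonneg fun i _ => ?_
  split_ifs
  · exact gz_nonneg _ _ _
  · exact mul_nonneg (gz_nonneg _ _ _) (gz_nonneg _ _ _)

lemma Zp_nonneg (k : ℕ) {n M L : ℕ} (adj : ℕ → ℕ → Bool) (I : Finset (Fin n)) (F : Fm n M L) :
    0 ≤ Zp k adj I F := sum_nonneg fun _ _ => term_nonneg _ _ _ _

lemma Zt_eq (k : ℕ) {n M L : ℕ} (adj : ℕ → ℕ → Bool) (F : Fm n M L) :
    Zt k adj F = ∑ I : Finset (Fin n), Zp k adj I F := by
  unfold Zt Zp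
  exact (Finset.sum_fiberwise (s := (univ : Finset (Cf n M))) (g := supp)
    (f := fun g => term k adj F g)).symm

lemma delta_bd {n N s : ℕ} (hN : 1 ≤ N) (hs : s ≤ n) :
    (s : ℝ) * (1 / (64 * N * (n + 1))) ≤ 1 / (64 * N) := by
  have hN0 : (0 : ℝ) < N := by exact_mod_cast hN
  have hs' : (s : ℝ) ≤ n := by exact_mod_cast hs
  rw [mul_one_div, div_le_div_iff₀ (by positivity) (by positivity)]
  nlinarith

lemma lower {n N s : ℕ} (hN : 1 ≤ N) (hs : s ≤ n) :
    1 - 1 / (64 * (N : ℝ)) ≤ (1 - 1 / (64 * N * (n + 1)) : ℝ) ^ s := by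
  have h1 := delta_bd hN hs
  have hN0 : (1 : ℝ) ≤ N := by exact_mod_cast hN
  have h2 : (1 : ℝ) / (64 * N * (n + 1)) ≤ 1 := by
    rw [div_le_one (by positivity)]
    have : (0 : ℝ) ≤ n := by positivity
    nlinarith
  have h3 := one_add_mul_le_pow (a := -(1 / (64 * (N : ℝ) * (n + 1)))) (by linarith) s
  have h4 : (1 + -(1 / (64 * (N : ℝ) * (n + 1)))) = 1 - 1 / (64 * N * (n + 1)) := by ring
  rw [h4] at h3
  linarith

lemma upper {n N s : ℕ} (hN : 1 ≤ N) (hs : s ≤ n) :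
    (1 + 1 / (64 * N * (n + 1)) : ℝ) ^ s ≤ Real.exp (1 / (64 * (N : ℝ))) := by
  have h1 := delta_bd hN hs
  have hN0 : (0 : ℝ) < N := by exact_mod_cast hN
  have h2 : (1 + 1 / (64 * N * (n + 1)) : ℝ) ≤ Real.exp (1 / (64 * N * (n + 1))) := by
    have := Real.add_one_le_exp (1 / (64 * (N : ℝ) * (n + 1)))
    linarith
  calc (1 + 1 / (64 * N * (n + 1)) : ℝ) ^ s ≤ (Real.exp (1 / (64 * N * (n + 1)))) ^ s :=
        pow_le_pow_left₀ (by positivity) h2 s
    _ = Real.exp (s * (1 / (64 * N * (n + 1)))) := by rw [← Real.exp_nat_mul]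
    _ ≤ _ := Real.exp_le_exp.mpr h1

end P6iaux

open P6iaux in
theorem P6i_ok : S_P6i := by
  intro hP3 k n M L s N adj F hk hN hlam hW hbad
  have hN0 : (1 : ℝ) ≤ N := by exact_mod_cast hN
  set Λ := lam k n M L with hΛ
  have hΛ0 : 0 < Λ := by linarith
  have hgood : ∀ I ∈ (indF n adj).filter (fun I => I.card = s),
      (1 - 1 / (64 * (N : ℝ))) * Λ ^ s ≤ Zp k adj I F ∧
      Zp k adj I F ≤ Real.exp (1 / (64 * (N : ℝ))) * Λ ^ s := by
    intro I hI
    rw [mem_filter] at hI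
    obtain ⟨hI1, hI2⟩ := hI
    have hsn : s ≤ n := by
      rw [← hI2]
      simpa using Finset.card_le_univ I
    rw [hP3 k n M L adj I F hI1]
    have hd : (1 : ℝ) / (64 * N * (n + 1)) ≤ 1 := by
      rw [div_le_one (by positivity)]
      have : (0 : ℝ) ≤ n := by positivity
      nlinarith
    have h1 : ∀ v ∈ I, (1 - 1 / (64 * N * (n + 1))) * Λ ≤ Wv k v F := by
      intro v _
      have := (abs_le.mp (hW v)).1
      linarith
    have h2 : ∀ v ∈ I, Wv k v F ≤ (1 + 1 / (64 * N * (n + 1))) * Λ := by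
      intro v _
      have := (abs_le.mp (hW v)).2
      linarith
    have h0 : (0 : ℝ) ≤ (1 - 1 / (64 * N * (n + 1))) * Λ :=
      mul_nonneg (by linarith) hΛ0.le
    constructor
    · calc (1 - 1 / (64 * (N : ℝ))) * Λ ^ s ≤ (1 - 1 / (64 * N * (n + 1)) : ℝ) ^ s * Λ ^ s :=
            mul_le_mul_of_nonneg_right (lower hN hsn) (by positivity)
        _ = ∏ v ∈ I, ((1 - 1 / (64 * N * (n + 1))) * Λ) := by
            rw [prod_const, hI2, mul_pow]
        _ ≤ _ := prod_le_prod (fun _ _ => h0) h1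
    · calc ∏ v ∈ I, Wv k v F ≤ ∏ v ∈ I, ((1 + 1 / (64 * N * (n + 1))) * Λ) :=
            prod_le_prod (fun v hv => h0.trans (h1 v hv)) h2
        _ = (1 + 1 / (64 * N * (n + 1)) : ℝ) ^ s * Λ ^ s := by
            rw [prod_const, hI2, mul_pow]
        _ ≤ _ := mul_le_mul_of_nonneg_right (upper hN hsn) (by positivity)
  have hsplit : Zt k adj F = ∑ I ∈ (indF n adj).filter (fun I => I.card = s), Zp k adj I F +
      ∑ I ∈ univ.filter (fun I : Finset (Fin n) => ¬ (I ∈ indF n adj ∧ I.card = s)),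
        Zp k adj I F := by
    rw [Zt_eq, ← Finset.sum_filter_add_sum_filter_not univ
      (fun I : Finset (Fin n) => I ∈ indF n adj ∧ I.card = s)]
    congr 1
    refine Finset.sum_congr ?_ fun _ _ => rfl
    ext I
    simp
  have hbad0 : 0 ≤ ∑ I ∈ univ.filter (fun I : Finset (Fin n) =>
      ¬ (I ∈ indF n adj ∧ I.card = s)), Zp k adj I F := sum_nonneg fun _ _ => Zp_nonneg _ _ _ _
  have hlo : (((indF n adj).filter (fun I => I.card = s)).card : ℝ) *
      ((1 - 1 / (64 * (N : ℝ))) * Λ ^ s) ≤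
      ∑ I ∈ (indF n adj).filter (fun I => I.card = s), Zp k adj I F := by
    rw [← nsmul_eq_mul]
    exact Finset.card_nsmul_le_sum _ _ _ fun I hI => (hgood I hI).1
  have hup : ∑ I ∈ (indF n adj).filter (fun I => I.card = s), Zp k adj I F ≤
      (((indF n adj).filter (fun I => I.card = s)).card : ℝ) *
      (Real.exp (1 / (64 * (N : ℝ))) * Λ ^ s) := by
    rw [← nsmul_eq_mul]
    exact Finset.sum_le_card_nsmul _ _ _ fun I hI => (hgood I hI).2
  constructor
  · rw [hsplit]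
    calc _ = (((indF n adj).filter (fun I => I.card = s)).card : ℝ) *
      ((1 - 1 / (64 * (N : ℝ))) * Λ ^ s) := by ring
      _ ≤ _ := by linarith
  · rw [hsplit]
    calc _ ≤ (((indF n adj).filter (fun I => I.card = s)).card : ℝ) *
      (Real.exp (1 / (64 * (N : ℝ))) * Λ ^ s) + 1 / (64 * N) * Λ ^ s := by linarith
      _ = _ := by ring

end Pool.Agent.H49R2.PY
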