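import Pool.Agent.H49R2.PY.Stubs

set_option autoImplicit false

namespace Pool.Agent.H49R2.PY

open Finset

namespace P7aux

theorem rho_nonneg {k : ℕ} (hk : 2 ≤ k) : 0 ≤ rho k := by
  unfold rho
  have hk' : (2 : ℝ) ≤ k := by exact_mod_cast hk
  have hC : (0 : ℝ) < k * (k + 1) * (k ^ 2 + 3) := by positivity
  rw [sub_nonneg, div_le_one hC]
  nlinarith [mul_nonneg (by linarith : (0 : ℝ) ≤ (k : ℝ) - 2) (by positivity : (0 : ℝ) ≤ (k : ℝ)),
    mul_nonneg (by positivity : (0 : ℝ) ≤ (k : ℝ) * (k + 1)) (by positivity : (0 : ℝ) ≤ (k : ℝ) ^ 2)]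

theorem rho_pow {k : ℕ} (hk : 2 ≤ k) : rho k ^ (k * (k + 1) * (k ^ 2 + 3)) ≤ 1 / 2 := by
  have hk' : (2 : ℝ) ≤ k := by exact_mod_cast hk
  set C : ℕ := k * (k + 1) * (k ^ 2 + 3) with hC
  have hCr : (C : ℝ) = k * (k + 1) * (k ^ 2 + 3) := by
    rw [hC]
    push_cast
    ring
  have hCpos : (0 : ℝ) < C := by
    rw [hCr]
    positivity
  have h1 : rho k ≤ Real.exp (-(2 * (k - 1) / (C : ℝ))) := by
    have := Real.add_one_le_exp (-(2 * ((k : ℝ) - 1) / (C : ℝ)))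
    unfold rho
    rw [← hCr]
    linarith
  have h2 : rho k ^ C ≤ Real.exp (-(2 * (k - 1) / (C : ℝ))) ^ C :=
    pow_le_pow_left₀ (rho_nonneg hk) h1 C
  refine h2.trans ?_
  rw [← Real.exp_nat_mul]
  have h3 : (C : ℝ) * -(2 * ((k : ℝ) - 1) / (C : ℝ)) = -(2 * ((k : ℝ) - 1)) := by
    field_simp
  rw [h3]
  have h4 : Real.exp (-(2 * ((k : ℝ) - 1))) ≤ Real.exp (-1) := by
    apply Real.exp_le_exp.2
    linarith
  refine h4.trans ?_
  rw [Real.exp_neg, ← one_div]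
  have h5 := Real.add_one_le_exp (1 : ℝ)
  exact one_div_le_one_div_of_le (by norm_num) (by linarith)

theorem cast_le (n : ℕ) : (n : ℝ) ≤ 2 ^ n := by exact_mod_cast (Nat.lt_two_pow_self (n := n)).le

theorem cast_le' (n : ℕ) : (n : ℝ) + 1 ≤ 2 ^ n := by
  exact_mod_cast (Nat.lt_two_pow_self (n := n))

end P7aux

open P7aux in
theorem P7_ok : S_P7 := by
  intro k n N lm hk hN h1 h2
  have hn := cast_le n
  have hn' := cast_le' n
  have hNN := cast_le N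
  have hn0 : (0 : ℝ) ≤ n := Nat.cast_nonneg n
  have hN0 : (0 : ℝ) ≤ N := Nat.cast_nonneg N
  set T := TT n N with hT
  have hTeq : T = 3 * n + 2 * N + 20 := rfl
  set a : ℝ := 2 ^ n with ha
  set b : ℝ := 2 ^ N with hb
  have ha1 : 1 ≤ a := one_le_pow₀ (by norm_num)
  have hb1 : 1 ≤ b := one_le_pow₀ (by norm_num)
  have hP : (2 : ℝ) ^ T = a ^ 3 * b ^ 2 * 2 ^ 20 := by
    rw [hTeq, pow_add, pow_add, ha, hb, ← pow_mul, ← pow_mul, mul_comm n 3, mul_comm N 2]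
  have hPpos : (0 : ℝ) < 2 ^ T := by positivity
  have hlm : 0 < lm := hPpos.trans_le h1
  -- first term
  have t1 : (n : ℝ) * (2 * (64 * N * (n + 1)) ^ 2 / lm) ≤ 1 / 128 := by
    have e1 : (n : ℝ) * (2 * (64 * N * (n + 1)) ^ 2 / lm) =
        (2 ^ 13 * (n * (n + 1) ^ 2) * N ^ 2) / lm := by ring
    rw [e1, div_le_iff₀ hlm]
    have e2 : (n : ℝ) * (n + 1) ^ 2 ≤ a * a ^ 2 :=
      mul_le_mul hn (pow_le_pow_left₀ (by linarith) hn' 2) (by positivity) (by positivity)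
    have e3 : (N : ℝ) ^ 2 ≤ b ^ 2 := pow_le_pow_left₀ hN0 hNN 2
    have e4 : (n : ℝ) * (n + 1) ^ 2 * N ^ 2 ≤ (a * a ^ 2) * b ^ 2 :=
      mul_le_mul e2 e3 (by positivity) (by positivity)
    rw [hP] at h1
    nlinarith [e4, h1]
  -- second term
  have t2 : 64 * (N : ℝ) * (2 ^ n / lm) ≤ 1 / 2 ^ 14 := by
    have e1 : 64 * (N : ℝ) * (2 ^ n / lm) = (64 * N * a) / lm := by
      rw [ha]; ring
    rw [e1, div_le_iff₀ hlm]
    have e2 : (N : ℝ) * a ≤ b * a := mul_le_mul_of_nonneg_right hNN (by positivity)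
    have e3 : b * a ≤ a ^ 3 * b ^ 2 := by
      have e4 : a ≤ a ^ 3 := le_self_pow₀ ha1 (by norm_num)
      have e5 : b ≤ b ^ 2 := le_self_pow₀ hb1 (by norm_num)
      calc b * a = a * b := by ring
        _ ≤ a ^ 3 * b ^ 2 := mul_le_mul e4 e5 (by positivity) (by positivity)
    rw [hP] at h1
    nlinarith [e2, e3, h1]
  -- third term
  have t3 : 64 * (N : ℝ) * (2 ^ n * lm ^ n * rho k ^ LL k n N) ≤ 1 / 64 := by
    have e1 : lm ^ n ≤ (2 ^ (T + 2)) ^ n := pow_le_pow_left₀ hlm.le h2 n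
    have e2 : rho k ^ LL k n N ≤ (1 / 2) ^ (n * (T + 3) + N + 12) := by
      have e3 : LL k n N = k * (k + 1) * (k ^ 2 + 3) * (n * (T + 3) + N + 12) := rfl
      rw [e3, pow_mul]
      exact pow_le_pow_left₀ (pow_nonneg (rho_nonneg hk) _) (rho_pow hk) _
    have e3 : 2 ^ n * lm ^ n * rho k ^ LL k n N ≤
        2 ^ n * (2 ^ (T + 2)) ^ n * (1 / 2) ^ (n * (T + 3) + N + 12) :=
      mul_le_mul (mul_le_mul_of_nonneg_left e1 (by positivity)) e2
        (pow_nonneg (rho_nonneg hk) _) (by positivity)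
    have e4 : (2 : ℝ) ^ n * (2 ^ (T + 2)) ^ n * (1 / 2) ^ (n * (T + 3) + N + 12) =
        1 / (b * 2 ^ 12) := by
      rw [one_div, inv_pow, ← pow_mul, ← pow_add, ← div_eq_mul_inv, one_div]
      have e5 : n * (T + 3) + N + 12 = (n + (T + 2) * n) + (N + 12) := by ring
      have e6 : (2 : ℝ) ^ (n + (T + 2) * n) ≠ 0 := by positivity
      rw [e5, pow_add (2 : ℝ) (n + (T + 2) * n) (N + 12), pow_add (2 : ℝ) N 12, hb,
        div_mul_eq_div_div, div_self e6, one_div]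
    rw [e4] at e3
    have e5 : 64 * (N : ℝ) * (2 ^ n * lm ^ n * rho k ^ LL k n N) ≤ 64 * b * (1 / (b * 2 ^ 12)) :=
      mul_le_mul (mul_le_mul_of_nonneg_left hNN (by norm_num)) e3
        (mul_nonneg (by positivity) (pow_nonneg (rho_nonneg hk) _)) (by positivity)
    refine e5.trans (le_of_eq ?_)
    have e6 : b ≠ 0 := by positivity
    field_simp
    norm_num
  calc (n : ℝ) * (2 * (64 * N * (n + 1)) ^ 2 / lm) +
      64 * N * (2 ^ n / lm + 2 ^ n * lm ^ n * rho k ^ LL k n N)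
      = (n : ℝ) * (2 * (64 * N * (n + 1)) ^ 2 / lm) + 64 * N * (2 ^ n / lm) +
        64 * N * (2 ^ n * lm ^ n * rho k ^ LL k n N) := by ring
    _ ≤ 1 / 128 + 1 / 2 ^ 14 + 1 / 64 := add_le_add (add_le_add t1 t2) t3
    _ ≤ 1 / 16 := by norm_num

end Pool.Agent.H49R2.PY
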