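import Pool.Agent.H49R2.PY.Stubs

/-! Task Pasm: union bound. -/

namespace Pool.Agent.H49R2.PY

open Pool.Agent.NPC Pool.Agent.NPC.Cnt Finset

namespace Pasmaux

theorem card_Fm (n M L : ℕ) : Fintype.card (Fm n M L) = 2 ^ (2 * n ^ 2 * L * M) := by
  unfold Fm
  simp only [Fintype.card_pi, Finset.prod_const, Finset.card_univ, Fintype.card_fin,
    Fintype.card_bool]
  simp only [← pow_mul]
  congr 1
  ring

theorem ncard_le_real {α : Type*} [Finite α] (n : ℕ) (S R : Set α) (B : Fin n → Set α)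
    (h : Sᶜ ⊆ (⋃ v, B v) ∪ R) : (Sᶜ.ncard : ℝ) ≤ ∑ v, ((B v).ncard : ℝ) + (R.ncard : ℝ) := by
  have h1 : Sᶜ.ncard ≤ ((⋃ v, B v) ∪ R).ncard := Set.ncard_le_ncard h (Set.toFinite _)
  have h2 : ((⋃ v, B v) ∪ R).ncard ≤ (⋃ v, B v).ncard + R.ncard := Set.ncard_union_le _ _
  have h3 : (⋃ v, B v).ncard ≤ ∑ v, (B v).ncard := by
    classical
    have : (⋃ v, B v) = ⋃ v ∈ (Finset.univ : Finset (Fin n)), B v := by simp
    rw [this]
    induction (Finset.univ : Finset (Fin n)) using Finset.induction_on with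
    | empty => simp
    | insert a s ha ih =>
      rw [Finset.set_biUnion_insert, Finset.sum_insert ha]
      exact (Set.ncard_union_le _ _).trans (Nat.add_le_add_left ih _)
  have h4 : Sᶜ.ncard ≤ ∑ v, (B v).ncard + R.ncard := by omega
  calc (Sᶜ.ncard : ℝ) ≤ ((∑ v, (B v).ncard + R.ncard : ℕ) : ℝ) := by exact_mod_cast h4
    _ = _ := by push_cast; rfl

end Pasmaux

theorem Pasm_ok : S_Pasm := by
  intro h4 h5 h6 h7 k n M N s adj hk hN hs hl hu
  set L := LL k n N with hL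
  set K := 2 * n ^ 2 * L * M with hK
  set lm := lam k n M L with hlm
  set S : Set (Fm n M L) := {F : Fm n M L |
    (1 - 1 / (64 * (N : ℝ))) * (((indF n adj).filter (fun I => I.card = s)).card : ℝ) *
      lm ^ s ≤ Zt k adj F ∧
    Zt k adj F ≤ (Real.exp (1 / (64 * (N : ℝ))) *
      (((indF n adj).filter (fun I => I.card = s)).card : ℝ) + 1 / (64 * N)) *
        lm ^ s} with hS
  have hN0 : (0 : ℝ) < N := by exact_mod_cast hN
  have hlm1 : 1 ≤ lm := le_trans (one_le_pow₀ (by norm_num)) hl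
  have hlm0 : 0 < lm := by linarith
  set δ : ℝ := 1 / (64 * N * (n + 1)) with hδ
  set η : ℝ := 1 / (64 * N) with hη
  have hn0 : (0 : ℝ) ≤ n := Nat.cast_nonneg n
  have hδ0 : 0 < δ := by rw [hδ]; positivity
  have hη0 : 0 < η := by rw [hη]; positivity
  set B : Fin n → Set (Fm n M L) := fun v => {F | δ * lm < |Wv k v F - lm|} with hB
  set R : Set (Fm n M L) := {F | η * lm ^ s <
      ∑ I ∈ univ.filter (fun I : Finset (Fin n) => ¬ (I ∈ indF n adj ∧ I.card = s)),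
        Zp k adj I F} with hR
  have hsub : Sᶜ ⊆ (⋃ v, B v) ∪ R := by
    intro F hF
    by_contra hn
    rw [Set.mem_union, not_or] at hn
    apply hF
    have h1 : ∀ v, |Wv k v F - lm| ≤ δ * lm := by
      intro v
      by_contra hv
      exact hn.1 (Set.mem_iUnion.2 ⟨v, not_le.1 hv⟩)
    have h2 : ∑ I ∈ univ.filter (fun I : Finset (Fin n) => ¬ (I ∈ indF n adj ∧ I.card = s)),
        Zp k adj I F ≤ η * lm ^ s := by
      by_contra hv
      exact hn.2 (not_le.1 hv)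
    exact h6 k n M L s N adj F hk hN hlm1 h1 h2
  have hb := Pasmaux.ncard_le_real n S R B hsub
  have h2K : (0 : ℝ) < 2 ^ K := by positivity
  have hBv : ∀ v, ((B v).ncard : ℝ) ≤ 2 ^ K * (2 * (64 * N * (n + 1)) ^ 2 / lm) := by
    intro v
    have h := h5 k n M L v δ hk hδ0 hlm1
    have h' : ((B v).ncard : ℝ) * (δ ^ 2 * lm) ≤ 2 ^ K * 2 := h
    have hpos : 0 < δ ^ 2 * lm := by positivity
    rw [← le_div_iff₀ hpos] at h'
    refine h'.trans (le_of_eq ?_)
    rw [hδ]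
    field_simp
  have hRv : (R.ncard : ℝ) ≤ 2 ^ K * (64 * N * (2 ^ n / lm + 2 ^ n * lm ^ n * rho k ^ L)) := by
    have h := h4 k n M L s adj η hk hη0 hlm1 hs
    have h' : (R.ncard : ℝ) * η ≤ 2 ^ K * (2 ^ n / lm + 2 ^ n * lm ^ n * rho k ^ L) := h
    rw [← le_div_iff₀ hη0] at h'
    refine h'.trans (le_of_eq ?_)
    rw [hη]
    field_simp
  have hnum := h7 k n N lm hk hN hl hu
  have htot : (Sᶜ.ncard : ℝ) ≤ 2 ^ K * (1 / 16) := by
    calc (Sᶜ.ncard : ℝ) ≤ ∑ v, ((B v).ncard : ℝ) + (R.ncard : ℝ) := hb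
      _ ≤ ∑ _v : Fin n, 2 ^ K * (2 * (64 * N * (n + 1)) ^ 2 / lm) +
          2 ^ K * (64 * N * (2 ^ n / lm + 2 ^ n * lm ^ n * rho k ^ L)) :=
        add_le_add (Finset.sum_le_sum fun v _ => hBv v) hRv
      _ = 2 ^ K * (n * (2 * (64 * N * (n + 1)) ^ 2 / lm) +
          64 * N * (2 ^ n / lm + 2 ^ n * lm ^ n * rho k ^ L)) := by
        rw [Finset.sum_const, Finset.card_univ, Fintype.card_fin, nsmul_eq_mul]
        ring
      _ ≤ 2 ^ K * (1 / 16) := by gcongr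
  have hcard : S.ncard + Sᶜ.ncard = 2 ^ K := by
    rw [Set.ncard_add_ncard_compl, Nat.card_eq_fintype_card, Pasmaux.card_Fm]
  have hcard' : (S.ncard : ℝ) + (Sᶜ.ncard : ℝ) = 2 ^ K := by exact_mod_cast hcard
  have hfin : (15 : ℝ) * 2 ^ K ≤ 16 * S.ncard := by linarith
  show 15 * 2 ^ K ≤ 16 * S.ncard
  exact_mod_cast hfin

end Pool.Agent.H49R2.PY
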