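import Pool.Agent.H49R2.PY.Stubs

/-! Q1: choice of the dimension `M` (helper152) -/

namespace Pool.Agent.H49R2.PY

open Finset

namespace Q1aux

theorem filt_len (m : ℕ) (p : ℕ → Bool) (hp : ∀ M, p M = true ↔ M < m) (n : ℕ) :
    ((List.range n).filter p).length = min n m := by
  induction n with
  | zero => simp
  | succ n ih =>
    rw [List.range_succ, List.filter_append, List.length_append, ih]
    by_cases h : n < m
    · have h1 := (hp n).2 h
      rw [List.filter_cons_of_pos h1, List.filter_nil]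
      simp only [List.length_cons, List.length_nil]
      omega
    · have h1 : ¬ p n = true := fun h' => h ((hp n).1 h')
      rw [List.filter_cons_of_neg h1, List.filter_nil]
      simp only [List.length_nil]
      omega

theorem q2 (k n L M : ℕ) (hk : 2 ≤ k) :
    0 < denL k n L M ∧ lam k n M L = (numL k n L M : ℝ) / denL k n L M := by
  have h1 : 0 < denL k n L M := by
    unfold denL
    positivity
  refine ⟨h1, ?_⟩
  have hk1 : ((k:ℝ)^2 + 1) ≠ 0 := by positivity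
  have hle : (k ^ 2 + 1) ^ M ≤ (k + 1) ^ (2 * M) := by
    rw [pow_mul]
    exact Nat.pow_le_pow_left (by nlinarith) M
  unfold lam numL denL
  rw [Nat.cast_mul, Nat.cast_sub hle]
  push_cast
  have e1 : (1 + 2 * (k:ℝ) / (k ^ 2 + 1)) = ((k:ℝ)+1)^2 / (k^2+1) := by
    field_simp
    ring
  have e2 : (1 + 2 / ((k:ℝ) ^ 2 + 1)) = ((k:ℝ)^2+3) / (k^2+1) := by
    field_simp
    ring
  have e3 : (((k:ℝ)+1)^2 / (k^2+1)) ^ M - 1 = (((k:ℝ)+1)^(2*M) - (k^2+1)^M) / (k^2+1)^M := by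
    rw [div_pow, ← pow_mul, sub_div, div_self (pow_ne_zero _ hk1)]
  have e4 : (((k:ℝ)+1)^2 / (k^2+1)) / 2 * ((((k:ℝ)^2+3) / (k^2+1)) / 2) =
      (((k:ℝ)+1)^2 * (k^2+3)) / (4 * (k^2+1)^2) := by
    field_simp
    ring
  rw [e1, e2, e3, e4, div_pow, div_mul_div_comm]

end Q1aux

open Q1aux in
theorem Q1_ok : S_Q1 := by
  intro k n N hk
  obtain ⟨T, hT⟩ : ∃ T, T = TT n N := ⟨_, rfl⟩
  obtain ⟨L, hL⟩ : ∃ L, L = LL k n N := ⟨_, rfl⟩
  have hk' : (2:ℝ) ≤ k := by exact_mod_cast hk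
  obtain ⟨a, ha⟩ : ∃ a : ℝ, a = 2 * k / (k ^ 2 + 1) := ⟨_, rfl⟩
  obtain ⟨c, hc⟩ : ∃ c : ℝ, c = ((1 + 2 * k / (k ^ 2 + 1)) / 2) * ((1 + 2 / ((k:ℝ) ^ 2 + 1)) / 2) :=
    ⟨_, rfl⟩
  have hkp : (0:ℝ) < (k:ℝ)^2 + 1 := by positivity
  have ha0 : 0 < a := by rw [ha]; positivity
  have ha1 : a ≤ 1 := by
    rw [ha, div_le_one hkp]
    nlinarith [sq_nonneg ((k:ℝ) - 1)]
  have hka : 1 ≤ (k:ℝ) * a := by
    rw [ha, ← mul_div_assoc, le_div_iff₀ hkp]
    nlinarith
  have hb0 : 0 < 2 / ((k:ℝ) ^ 2 + 1) := by positivity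
  have hb1 : 2 / ((k:ℝ) ^ 2 + 1) ≤ 1 := by
    rw [div_le_one hkp]
    nlinarith
  have hc0 : 1/4 ≤ c := by
    rw [hc, ← ha]
    nlinarith [mul_pos ha0 hb0]
  have hc1 : c ≤ 1 := by
    rw [hc, ← ha]
    nlinarith [mul_pos ha0 hb0, mul_nonneg (sub_nonneg.2 ha1) (sub_nonneg.2 hb1)]
  have hcp : 0 < c := by linarith
  have hf : ∀ M, lam k n M L = ((1 + a) ^ M - 1) * c ^ (n * L) := by
    intro M
    unfold lam
    rw [← hc, ← ha]
  have hcL : 0 < c ^ (n * L) := pow_pos hcp _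
  have hcL1 : c ^ (n * L) ≤ 1 := pow_le_one₀ hcp.le hc1
  have hmono : ∀ M M', M ≤ M' → lam k n M L ≤ lam k n M' L := by
    intro M M' h
    rw [hf, hf]
    have := pow_le_pow_right₀ (by linarith : (1:ℝ) ≤ 1 + a) h
    exact mul_le_mul_of_nonneg_right (by linarith) hcL.le
  obtain ⟨B, hB⟩ : ∃ B, B = k * (T + 2 * n * L + 1) := ⟨_, rfl⟩
  have h2T : (1:ℝ) ≤ 2 ^ T := one_le_pow₀ (by norm_num)
  have hfB : (2:ℝ) ^ T ≤ lam k n B L := by
    rw [hf]
    have h1 : (2:ℝ) ≤ (1 + a) ^ k := by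
      have := one_add_mul_le_pow (by linarith : (-2:ℝ) ≤ a) k
      linarith
    have h2 : (2:ℝ) ^ (T + 2 * n * L + 1) ≤ (1 + a) ^ B := by
      rw [hB, pow_mul]
      exact pow_le_pow_left₀ (by norm_num) h1 _
    have h3 : (2:ℝ) ^ (T + 2 * n * L + 1) = 2 * 2 ^ (T + 2 * n * L) := by
      rw [pow_succ]; ring
    have h4 : (1:ℝ) ≤ 2 ^ (T + 2 * n * L) := one_le_pow₀ (by norm_num)
    have h5 : (2:ℝ) ^ (T + 2 * n * L) ≤ (1 + a) ^ B - 1 := by linarith
    have h6 : ((1:ℝ)/4) ^ (n * L) ≤ c ^ (n * L) := pow_le_pow_left₀ (by norm_num) hc0 _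
    have h7 : (2:ℝ) ^ T = 2 ^ (T + 2 * n * L) * ((1:ℝ)/4) ^ (n * L) := by
      have e : (2:ℝ) ^ (2 * n * L) = 4 ^ (n * L) := by
        rw [mul_assoc, pow_mul]
        norm_num
      rw [pow_add, e, mul_assoc, ← mul_pow]
      norm_num
    rw [h7]
    exact mul_le_mul h5 h6 (by positivity) (by linarith)
  have hex : ∃ M, (2:ℝ) ^ T ≤ lam k n M L := ⟨B, hfB⟩
  classical
  obtain ⟨m, hm⟩ : ∃ m, m = Nat.find hex := ⟨_, rfl⟩
  have hm1 : (2:ℝ) ^ T ≤ lam k n m L := by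
    rw [hm]; exact Nat.find_spec hex
  have hm2 : ∀ M, M < m → lam k n M L < 2 ^ T := by
    intro M hM
    rw [hm] at hM
    exact not_le.1 (Nat.find_min hex hM)
  have hmB : m ≤ B := by
    rw [hm]
    exact Nat.find_min' hex hfB
  have hMM : MM k n N = m := by
    unfold MM
    rw [← hT, ← hL, ← hB]
    rw [filt_len m _ (fun M => ?_) (B + 1)]
    · omega
    · rw [decide_eq_true_eq]
      obtain ⟨q1, q2⟩ := q2 k n L M hk
      have q1' : (0:ℝ) < denL k n L M := by exact_mod_cast q1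
      have e : (numL k n L M < 2 ^ T * denL k n L M) ↔ lam k n M L < 2 ^ T := by
        rw [q2, div_lt_iff₀ q1']
        constructor
        · intro h
          exact_mod_cast h
        · intro h
          exact_mod_cast h
      rw [e]
      constructor
      · intro h
        by_contra h'
        exact absurd (hm1.trans (hmono m M (not_lt.1 h'))) (not_le.2 h)
      · exact hm2 M
  rw [hMM, ← hT, ← hL]
  refine ⟨hm1, ?_⟩
  have hm0 : m ≠ 0 := by
    intro h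
    rw [h, hf] at hm1
    simp at hm1
    linarith
  obtain ⟨m', rfl⟩ := Nat.exists_eq_succ_of_ne_zero hm0
  have h1 := hm2 m' (Nat.lt_succ_self _)
  have h2 : lam k n (m' + 1) L = (1 + a) * lam k n m' L + a * c ^ (n * L) := by
    rw [hf, hf, pow_succ]
    ring
  show lam k n (m' + 1) L ≤ _
  rw [h2]
  have h3 : 0 ≤ lam k n m' L := by
    rw [hf]
    have := one_le_pow₀ (n := m') (by linarith : (1:ℝ) ≤ 1 + a)
    exact mul_nonneg (by linarith) hcL.le
  have h4 : a * c ^ (n * L) ≤ 1 := by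
    calc a * c ^ (n * L) ≤ 1 * 1 := mul_le_mul ha1 hcL1 hcL.le (by norm_num)
      _ = 1 := by norm_num
  have h5 : (1 + a) * lam k n m' L ≤ 2 * 2 ^ T := by
    refine mul_le_mul (by linarith) h1.le h3 (by norm_num)
  have h6 : (2:ℝ) ^ (T + 2) = 4 * 2 ^ T := by rw [pow_add]; ring
  rw [h6]
  linarith

end Pool.Agent.H49R2.PY
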