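import Pool.Agent.H49R2.PY.Stubs

/-! # Task Q2: the fugacity as a fraction -/

namespace Pool.Agent.H49R2.PY

theorem Q2_ok : S_Q2 := by
  intro k n L M _
  have hk : (0 : ℝ) < (k : ℝ) ^ 2 + 1 := by positivity
  have hkn : 0 < k ^ 2 + 1 := by positivity
  refine ⟨by unfold denL; positivity, ?_⟩
  have h1 : (1 : ℝ) + 2 * k / (k ^ 2 + 1) = (k + 1) ^ 2 / (k ^ 2 + 1) := by
    field_simp
    ring
  have h2 : (1 : ℝ) + 2 / (k ^ 2 + 1) = (k ^ 2 + 3) / (k ^ 2 + 1) := by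
    field_simp
    ring
  have h3 : (k ^ 2 + 1) ^ M ≤ (k + 1) ^ (2 * M) := by
    rw [pow_mul]
    apply Nat.pow_le_pow_left
    nlinarith
  have h4 : ((numL k n L M : ℕ) : ℝ) = (((k : ℝ) + 1) ^ (2 * M) - ((k : ℝ) ^ 2 + 1) ^ M) *
      (((k : ℝ) + 1) ^ 2 * ((k : ℝ) ^ 2 + 3)) ^ (n * L) := by
    unfold numL
    rw [Nat.cast_mul, Nat.cast_sub h3]
    push_cast
    ring
  have h5 : ((denL k n L M : ℕ) : ℝ) = ((k : ℝ) ^ 2 + 1) ^ M * (4 * ((k : ℝ) ^ 2 + 1) ^ 2) ^ (n * L) := by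
    unfold denL
    push_cast
    ring
  have h6 : ((k : ℝ) + 1) ^ 2 / (k ^ 2 + 1) / 2 * (((k : ℝ) ^ 2 + 3) / (k ^ 2 + 1) / 2) =
      (((k : ℝ) + 1) ^ 2 * ((k : ℝ) ^ 2 + 3)) / (4 * ((k : ℝ) ^ 2 + 1) ^ 2) := by
    field_simp
    ring
  have h7 : (((k : ℝ) + 1) ^ 2 / (k ^ 2 + 1)) ^ M - 1 =
      (((k : ℝ) + 1) ^ (2 * M) - ((k : ℝ) ^ 2 + 1) ^ M) / ((k : ℝ) ^ 2 + 1) ^ M := by
    rw [div_pow, ← pow_mul, sub_div, div_self (by positivity)]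
  unfold lam
  rw [h1, h2, h6, h7, div_pow, h4, h5, div_mul_div_comm]

end Pool.Agent.H49R2.PY
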