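import Pool.Agent.H49R2.PY.Stubs

/-! Q3: rounding lemma. -/

namespace Pool.Agent.H49R2.PY

namespace Q3aux

theorem exp_facts (d : ℝ) (h0 : 0 < d) (h1 : d ≤ 1 / 64) :
    Real.exp d ≤ 1 + 2 * d ∧ Real.exp d * Real.exp d ≤ 1 + 4 * d ∧ 1 - d ≤ Real.exp (-d) := by
  have e1 : 1 - d ≤ Real.exp (-d) := Real.one_sub_le_exp_neg d
  have e2 : Real.exp d * Real.exp (-d) = 1 := by rw [← Real.exp_add]; simp
  have e3 : 0 < Real.exp d := Real.exp_pos d
  have f1 : 1 - 2 * d ≤ Real.exp (-(2 * d)) := Real.one_sub_le_exp_neg (2 * d)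
  have f2 : (Real.exp d * Real.exp d) * Real.exp (-(2 * d)) = 1 := by
    rw [← Real.exp_add, ← Real.exp_add]
    have : d + d + -(2 * d) = 0 := by ring
    rw [this, Real.exp_zero]
  have f3 : 0 < Real.exp d * Real.exp d := mul_pos e3 e3
  have f4 : (Real.exp d * Real.exp d) * (1 - 2 * d) ≤ 1 := by
    calc _ ≤ (Real.exp d * Real.exp d) * Real.exp (-(2 * d)) := mul_le_mul_of_nonneg_left f1 f3.le
      _ = 1 := f2
  have f5 : Real.exp d * Real.exp d ≤ 1 + 4 * d := by
    by_contra hc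
    push Not at hc
    have e5 : (1 + 4 * d) * (1 - 2 * d) < (Real.exp d * Real.exp d) * (1 - 2 * d) :=
      mul_lt_mul_of_pos_right hc (by linarith)
    nlinarith
  refine ⟨?_, f5, e1⟩
  have e4 : Real.exp d * (1 - d) ≤ 1 := by
    calc Real.exp d * (1 - d) ≤ Real.exp d * Real.exp (-d) := mul_le_mul_of_nonneg_left e1 e3.le
      _ = 1 := e2
  by_contra hc
  push Not at hc
  have e5 : (1 + 2 * d) * (1 - d) < Real.exp d * (1 - d) :=
    mul_lt_mul_of_pos_right hc (by linarith)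
  nlinarith

/-- real bounds for the rounding -/
theorem core (N h : ℕ) (y y' d : ℝ) (hN : 1 ≤ N) (hd : d = 1 / (64 * (N : ℝ)))
    (hup : y' ≤ h + (h + 1) * (4 * d)) (hlo : h - (h + 1) * (4 * d) ≤ y')
    (n : ℕ) (hy : y = n) (hn1 : y ≤ y' + 1 / 2) (hn2 : y' - 1 / 2 < y) (h0 : h = 0 → y' < 1 / 2) :
    Good N y h := by
  have hNr : (1 : ℝ) ≤ N := by exact_mod_cast hN
  have hN0 : (0 : ℝ) < N := by linarith
  have hdN : 64 * N * d = 1 := by rw [hd]; field_simp
  have hx0 : 0 < 1 / (N : ℝ) := by positivity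
  have hx1 : 1 / (N : ℝ) ≤ 1 := by rw [div_le_one hN0]; exact hNr
  have hxd : 1 / (N : ℝ) = 64 * d := by rw [hd]; field_simp
  have hhr : (0 : ℝ) ≤ h := Nat.cast_nonneg h
  have ex1 : 1 + 1 / (N : ℝ) ≤ Real.exp (1 / (N : ℝ)) := by
    have := Real.add_one_le_exp (1 / (N : ℝ)); linarith
  have ex2 : Real.exp (-(1 / (N : ℝ))) ≤ 1 - (1 / (N : ℝ)) / 4 := by
    have e2 : Real.exp (1 / (N : ℝ)) * Real.exp (-(1 / (N : ℝ))) = 1 := by
      rw [← Real.exp_add]; simp
    have e3 : 0 < Real.exp (-(1 / (N : ℝ))) := Real.exp_pos _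
    have e4 : (1 + 1 / (N : ℝ)) * Real.exp (-(1 / (N : ℝ))) ≤ 1 := by
      calc _ ≤ Real.exp (1 / (N : ℝ)) * Real.exp (-(1 / (N : ℝ))) :=
            mul_le_mul_of_nonneg_right ex1 e3.le
        _ = 1 := e2
    by_contra hc
    push Not at hc
    have e5 : (1 + 1 / (N : ℝ)) * (1 - (1 / (N : ℝ)) / 4) <
        (1 + 1 / (N : ℝ)) * Real.exp (-(1 / (N : ℝ))) := mul_lt_mul_of_pos_left hc (by linarith)
    nlinarith
  have good_of_eq : y = h → Good N y h := by
    intro he
    rw [he]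
    unfold Good
    constructor
    · nlinarith
    · nlinarith
  rcases lt_or_ge ((h + 1) * (4 * d)) (1 / 2) with hδ | hδ
  · apply good_of_eq
    have a1 : y < h + 1 := by linarith
    have a2 : (h : ℝ) - 1 < y := by linarith
    rw [hy] at a1 a2 ⊢
    have a3 : n < h + 1 := by exact_mod_cast a1
    have a4 : h < n + 1 := by
      have : (h : ℝ) < n + 1 := by linarith
      exact_mod_cast this
    have : n = h := by omega
    rw [this]
  · rcases Nat.eq_zero_or_pos h with hz | hz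
    · apply good_of_eq
      have a0 := h0 hz
      have a1 : y < 1 := by linarith
      rw [hy] at a1 ⊢
      have : n < 1 := by exact_mod_cast a1
      have : n = 0 := by omega
      rw [this, hz]
    · have hz' : (1 : ℝ) ≤ h := by exact_mod_cast hz
      have hd0 : 0 < d := by rw [hd]; positivity
      have b1 : y ≤ h + h * (16 * d) := by nlinarith
      have b2 : h - h * (16 * d) ≤ y := by nlinarith
      unfold Good
      constructor
      · calc Real.exp (-(1 / (N : ℝ))) * h ≤ (1 - (1 / (N : ℝ)) / 4) * h :=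
            mul_le_mul_of_nonneg_right ex2 hhr
          _ = h - h * (16 * d) := by rw [hxd]; ring
          _ ≤ y := b2
      · calc y ≤ h + h * (16 * d) := b1
          _ ≤ (1 + 1 / (N : ℝ)) * h := by rw [hxd]; nlinarith
          _ ≤ Real.exp (1 / (N : ℝ)) * h := mul_le_mul_of_nonneg_right ex1 hhr

end Q3aux

open Q3aux in
theorem Q3_ok : S_Q3 := by
  intro N h a b X E Z hN hX hE hZ h1 h2 hG
  have hNr : (1 : ℝ) ≤ N := by exact_mod_cast hN
  have hXr : (0 : ℝ) < X := by exact_mod_cast hX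
  have hEr : (0 : ℝ) < E := by exact_mod_cast hE
  have hhr : (0 : ℝ) ≤ h := Nat.cast_nonneg h
  obtain ⟨hG1, hG2⟩ := hG
  have hcast : (1 : ℝ) / ((64 * N : ℕ) : ℝ) = 1 / (64 * (N : ℝ)) := by push_cast; rfl
  rw [hcast] at hG1 hG2
  obtain ⟨d, hd⟩ : ∃ d : ℝ, d = 1 / (64 * (N : ℝ)) := ⟨_, rfl⟩
  rw [← hd] at h1 h2 hG1 hG2
  have hd0 : 0 < d := by rw [hd]; positivity
  have hd1 : d ≤ 1 / 64 := by
    rw [hd, div_le_div_iff₀ (by positivity) (by norm_num)]
    linarith
  obtain ⟨q1, q2, q3⟩ := exp_facts d hd0 hd1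
  have hb : b ≠ 0 := by
    intro hb
    rw [hb] at hG1
    simp only [Nat.cast_zero, div_zero] at hG1
    have := mul_pos (Real.exp_pos (-d)) hZ
    linarith
  have hb' : 0 < b := Nat.pos_of_ne_zero hb
  have hbr : (0 : ℝ) < b := by exact_mod_cast hb'
  -- the quotient
  obtain ⟨y', hy'⟩ : ∃ y' : ℝ, y' = (a : ℝ) / b / ((X : ℝ) / E) := ⟨_, rfl⟩
  have hD : (0 : ℝ) < (X : ℝ) / E := by positivity
  have hA : (a : ℝ) / b = y' * ((X : ℝ) / E) := by rw [hy']; field_simp
  rw [hA] at hG1 hG2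
  have hE' : Real.exp (1 / (64 * (N : ℝ))) = Real.exp d := by rw [hd]
  have u1 : y' ≤ Real.exp d * (Real.exp d * h + d) := by
    have : y' * ((X : ℝ) / E) ≤ (Real.exp d * (Real.exp d * h + d)) * ((X : ℝ) / E) := by
      calc y' * ((X : ℝ) / E) ≤ Real.exp d * Z := hG2
        _ ≤ Real.exp d * ((Real.exp d * h + d) * ((X : ℝ) / E)) := by
            apply mul_le_mul_of_nonneg_left _ (Real.exp_pos d).le
            calc Z ≤ _ := h2
              _ = (Real.exp d * h + d) * ((X : ℝ) / E) := by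
                  congr 2
        _ = _ := by ring
    exact le_of_mul_le_mul_right this hD
  have l1 : Real.exp (-d) * ((1 - d) * h) ≤ y' := by
    have : (Real.exp (-d) * ((1 - d) * h)) * ((X : ℝ) / E) ≤ y' * ((X : ℝ) / E) := by
      calc (Real.exp (-d) * ((1 - d) * h)) * ((X : ℝ) / E)
          = Real.exp (-d) * ((1 - d) * h * ((X : ℝ) / E)) := by ring
        _ ≤ Real.exp (-d) * Z := mul_le_mul_of_nonneg_left h1 (Real.exp_pos (-d)).le
        _ ≤ _ := hG1
    exact le_of_mul_le_mul_right this hD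
  have u2 : y' ≤ (1 + 4 * d) * h + (1 + 2 * d) * d := by
    calc y' ≤ _ := u1
      _ = (Real.exp d * Real.exp d) * h + Real.exp d * d := by ring
      _ ≤ (1 + 4 * d) * h + (1 + 2 * d) * d :=
        add_le_add (mul_le_mul_of_nonneg_right q2 hhr) (mul_le_mul_of_nonneg_right q1 hd0.le)
  have l2 : (1 - d) * ((1 - d) * h) ≤ y' := by
    have e0 : 0 ≤ (1 - d) * h := mul_nonneg (by linarith) hhr
    calc _ ≤ Real.exp (-d) * ((1 - d) * h) := mul_le_mul_of_nonneg_right q3 e0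
      _ ≤ _ := l1
  have hdd : d * d ≤ d / 64 := by nlinarith
  -- the natural quotient
  obtain ⟨n, hn⟩ : ∃ n : ℕ, n = (2 * a * E + b * X) / (2 * b * X) := ⟨_, rfl⟩
  have hpos : 0 < 2 * b * X := by positivity
  have n1 : n * (2 * b * X) ≤ 2 * a * E + b * X := by rw [hn]; exact Nat.div_mul_le_self _ _
  have n2 : 2 * a * E + b * X < (n + 1) * (2 * b * X) := by
    rw [hn]; exact (Nat.div_lt_iff_lt_mul hpos).1 (Nat.lt_succ_self _)
  have n1r : (n : ℝ) * (2 * b * X) ≤ 2 * a * E + b * X := by exact_mod_cast n1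
  have n2r : 2 * a * E + (b : ℝ) * X < (n + 1) * (2 * b * X) := by exact_mod_cast n2
  have hya : (a : ℝ) * E = y' * (b * X) := by
    have : (a : ℝ) = y' * ((X : ℝ) / E) * b := by rw [← hA]; field_simp
    rw [this]; field_simp
  have hbX : (0 : ℝ) < b * X := mul_pos hbr hXr
  have m1 : (n : ℝ) ≤ y' + 1 / 2 := by
    by_contra hc
    push Not at hc
    nlinarith [mul_pos (sub_pos.2 hc) hbX]
  have m2 : y' - 1 / 2 < n := by
    by_contra hc
    push Not at hc
    nlinarith [mul_nonneg (sub_nonneg.2 hc) hbX.le]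
  rw [← hn]
  refine core N h (n : ℝ) y' d hN hd ?_ ?_ n rfl m1 m2 ?_
  · nlinarith
  · nlinarith [mul_nonneg hhr hd0.le, mul_nonneg hhr (mul_nonneg hd0.le hd0.le)]
  · intro hz
    rw [hz] at u2
    simp only [Nat.cast_zero, mul_zero, zero_add] at u2
    nlinarith

end Pool.Agent.H49R2.PY
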