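import Pool.Agent.H49R2.PY.Stubs
import Pool.Agent.H579R2.Spt.VV3
import Pool.Agent.H579R2.Spt.Main2

set_option autoImplicit false

namespace Pool.Agent.H49R2.PY

open Pool.Agent.NPC Pool.Agent.NPC.Cnt Finset
open Pool.Agent.H579R2.Spt (BL mem_BL sum_BL_add card_BL drop_poly' take_poly')

namespace R2aux

/-- The `j`-th block of length `c`. -/
def blk (c : ℕ) (r : List Bool) (j : ℕ) : List Bool := (r.drop (j * c)).take c

theorem blk_succ (c : ℕ) (r : List Bool) (j : ℕ) : blk c r (j + 1) = blk c (r.drop c) j := by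
  unfold blk
  rw [List.drop_drop]
  congr 2
  ring

theorem blk_zero (c : ℕ) (r : List Bool) : blk c r 0 = r.take c := by
  simp [blk]

theorem length_filter_range (p : ℕ → Bool) (t : ℕ) :
    ((List.range t).filter p).length = ∑ j ∈ range t, (if p j then 1 else 0) := by
  induction t with
  | zero => simp
  | succ t ih =>
    rw [List.range_succ, List.filter_append, List.length_append, ih, sum_range_succ]
    congr 1
    cases h : p t <;> simp [h]

/-- The number of wrong blocks. -/
def wr (bad : List Bool → Bool) (c t : ℕ) (r : List Bool) : ℕ :=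
  ∑ j ∈ range t, (if bad (blk c r j) then 1 else 0)

theorem wr_succ (bad : List Bool → Bool) (c t : ℕ) (r : List Bool) :
    wr bad c (t + 1) r = (if bad (r.take c) then 1 else 0) + wr bad c t (r.drop c) := by
  unfold wr
  rw [sum_range_succ', blk_zero, add_comm]
  congr 1
  exact sum_congr rfl fun j _ => by rw [blk_succ]

theorem moment (bad : List Bool → Bool) (c : ℕ)
    (h : 16 * (((BL c).filter (fun b => bad b = true)).card : ℤ) ≤ 5 * 2 ^ c) (t : ℕ) :
    ∀ R : ℕ, 8 ^ t * ∑ r ∈ BL (t * c + R), (3 : ℤ) ^ wr bad c t r ≤ 13 ^ t * 2 ^ (t * c + R) := by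
  induction t with
  | zero =>
    intro R
    have h1 : ∀ r ∈ BL (0 * c + R), (3 : ℤ) ^ wr bad c 0 r = 1 := by
      intro r _
      simp [wr]
    rw [sum_congr rfl h1, sum_const, nsmul_eq_mul, mul_one, card_BL]
    simp
  | succ t ih =>
    intro R
    have e : (t + 1) * c + R = c + (t * c + R) := by ring
    rw [e]
    have h1 : ∑ r ∈ BL (c + (t * c + R)), (3 : ℤ) ^ wr bad c (t + 1) r =
        (∑ b ∈ BL c, (3 : ℤ) ^ (if bad b then 1 else 0)) *
          ∑ r ∈ BL (t * c + R), (3 : ℤ) ^ wr bad c t r := by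
      rw [← sum_BL_add]
      exact sum_congr rfl fun r _ => by rw [wr_succ, pow_add]
    have h2 : ∑ b ∈ BL c, (3 : ℤ) ^ (if bad b then 1 else 0) =
        2 ^ c + 2 * (((BL c).filter (fun b => bad b = true)).card : ℤ) := by
      have h3 : ∀ b ∈ BL c, (3 : ℤ) ^ (if bad b then 1 else 0) =
          1 + 2 * (if bad b = true then (1 : ℤ) else 0) := by
        intro b _
        cases bad b <;> simp
      rw [sum_congr rfl h3, sum_add_distrib, ← mul_sum, sum_boole, sum_const, nsmul_eq_mul,
        mul_one, card_BL]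
    have h4 : (0 : ℤ) ≤ ∑ r ∈ BL (t * c + R), (3 : ℤ) ^ wr bad c t r :=
      sum_nonneg fun r _ => by positivity
    have h5 := ih R
    have h6 : 8 * ∑ b ∈ BL c, (3 : ℤ) ^ (if bad b then 1 else 0) ≤ 13 * 2 ^ c := by
      rw [h2]; linarith
    rw [h1]
    calc (8 : ℤ) ^ (t + 1) * ((∑ b ∈ BL c, (3 : ℤ) ^ (if bad b then 1 else 0)) *
          ∑ r ∈ BL (t * c + R), (3 : ℤ) ^ wr bad c t r)
        = (8 * ∑ b ∈ BL c, (3 : ℤ) ^ (if bad b then 1 else 0)) *
          (8 ^ t * ∑ r ∈ BL (t * c + R), (3 : ℤ) ^ wr bad c t r) := by ring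
      _ ≤ (13 * 2 ^ c) * (13 ^ t * 2 ^ (t * c + R)) :=
          mul_le_mul h6 h5 (by positivity) (by positivity)
      _ = 13 ^ (t + 1) * 2 ^ (c + (t * c + R)) := by ring

theorem ncard_eq (n : ℕ) (P : List Bool → Prop) [DecidablePred P] :
    {r : List Bool | r.length = n ∧ P r}.ncard = ((BL n).filter P).card := by
  rw [← Set.ncard_coe_finset]
  congr 1
  ext r
  simp

end R2aux

open R2aux

theorem R2_ok : S_R2 := by
  classical
  rintro ⟨D, cl, hD, hcl, h0⟩
  set tt : CNF ℕ × List Unit × List Bool → ℕ := fun p => 12 * (p.2.1.length + 1) with htt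
  have htU : UPoly tt :=
    UPoly.mul (UPoly.const 12) (UPoly.add (UPoly.length (Poly.fst (Poly.snd Poly.id)))
      (UPoly.const 1))
  refine ⟨fun p => decide (tt p < 2 * ((List.range (tt p)).filter
    (fun j => D (p.1, blk (cl p.1) p.2.2 j))).length), fun q => 12 * (q.2.length + 1) * cl q.1,
    ?_, ?_, ?_⟩
  · have hp : Poly (fun x : (CNF ℕ × List Unit × List Bool) × ℕ =>
        D (x.1.1, blk (cl x.1.1) x.1.2.2 x.2)) := by
      have h1 : Poly (fun x : (CNF ℕ × List Unit × List Bool) × ℕ => x.1.1) :=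
        Poly.fst (Poly.fst Poly.id)
      have h2 : Poly (fun x : (CNF ℕ × List Unit × List Bool) × ℕ => cl x.1.1) :=
        (hcl.comp h1).toPoly
      exact hD.comp (Poly.pair h1 (take_poly' (drop_poly' (Poly.snd (Poly.snd (Poly.fst Poly.id)))
        (Poly.mul (Poly.snd Poly.id) h2)) h2))
    exact Poly.decide_lt htU.toPoly (Poly.mul (Pool.Agent.NPC.Poly.const 2) (Poly.length
      (Poly.filter (p := fun a j => D (a.1, blk (cl a.1) a.2.2 j)) htU.range hp)))
  · exact UPoly.mul (UPoly.mul (UPoly.const 12) (UPoly.add (UPoly.length (Poly.snd Poly.id))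
      (UPoly.const 1))) (hcl.comp (Poly.fst Poly.id))
  · intro φ u R hR
    set c := cl φ with hc
    set k := u.length + 1 with hk
    set bad : List Bool → Bool := fun b => decide (¬ (D (φ, b) = true ↔ 0 < satCount φ)) with hbad
    have hR' : 12 * k * c ≤ R := hR
    obtain ⟨R', rfl⟩ : ∃ R', R = 12 * k * c + R' := ⟨R - 12 * k * c, by omega⟩
    have hb : 16 * (((BL c).filter (fun b => bad b = true)).card : ℤ) ≤ 5 * 2 ^ c := by
      have h1 := h0 φ c le_rfl
      rw [ncard_eq] at h1
      have h2 : (BL c).filter (fun b => bad b = true) =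
          (BL c).filter (fun r => ¬ (D (φ, r) = true ↔ 0 < satCount φ)) := by
        refine filter_congr fun r _ => ?_
        simp only [hbad, decide_eq_true_eq]
      rw [h2]
      exact_mod_cast h1
    have hm := moment bad c hb (12 * k) R'
    rw [ncard_eq]
    set Wset := (BL (12 * k * c + R')).filter (fun r => ¬ (decide (12 * k < 2 *
      ((List.range (12 * k)).filter (fun j => D (φ, blk c r j))).length) = true ↔
        0 < satCount φ)) with hW
    have hWeq : (BL (12 * k * c + R')).filter (fun r => ¬ (decide (tt (φ, u, r) < 2 *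
        ((List.range (tt (φ, u, r))).filter (fun j => D (φ, blk c r j))).length) = true ↔
        0 < satCount φ)) = Wset := rfl
    -- wrong answers have many wrong blocks
    have hwr : ∀ r ∈ Wset, 6 * k ≤ wr bad c (12 * k) r := by
      intro r hr
      rw [hW, mem_filter] at hr
      have h1 := hr.2
      rw [length_filter_range, decide_eq_true_eq] at h1
      unfold wr
      by_cases hs : 0 < satCount φ
      · have h2 : ∀ j ∈ range (12 * k), (if bad (blk c r j) = true then 1 else 0) +
            (if D (φ, blk c r j) = true then 1 else 0) = 1 := by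
          intro j _
          simp only [hbad, hs, iff_true, decide_not, Bool.decide_eq_true]
          cases D (φ, blk c r j) <;> simp
        have h3 := sum_congr rfl h2
        rw [sum_add_distrib] at h3
        simp only [sum_const, card_range, smul_eq_mul, mul_one] at h3
        simp only [hs, iff_true, not_lt] at h1
        omega
      · have h2 : ∀ j ∈ range (12 * k), (if bad (blk c r j) = true then 1 else 0) =
            (if D (φ, blk c r j) = true then 1 else 0) := by
          intro j _
          simp only [hbad, hs, iff_false, decide_not, Bool.decide_eq_true]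
          cases D (φ, blk c r j) <;> simp
        have h3 := sum_congr rfl h2
        simp only [hs, iff_false, not_not] at h1
        omega
    have h1 : (3 : ℤ) ^ (6 * k) * Wset.card ≤
        ∑ r ∈ BL (12 * k * c + R'), (3 : ℤ) ^ wr bad c (12 * k) r := by
      calc (3 : ℤ) ^ (6 * k) * Wset.card = ∑ r ∈ Wset, (3 : ℤ) ^ (6 * k) := by
            rw [sum_const, nsmul_eq_mul, mul_comm]
        _ ≤ ∑ r ∈ Wset, (3 : ℤ) ^ wr bad c (12 * k) r :=
            sum_le_sum fun r hr => pow_le_pow_right₀ (by norm_num) (hwr r hr)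
        _ ≤ _ := sum_le_sum_of_subset_of_nonneg (filter_subset _ _) fun r _ _ => by positivity
    have h2 : (8 : ℤ) ^ (12 * k) * (3 ^ (6 * k) * Wset.card) ≤
        13 ^ (12 * k) * 2 ^ (12 * k * c + R') :=
      (mul_le_mul_of_nonneg_left h1 (by positivity)).trans hm
    have h3 : (2 : ℤ) ^ k * 13 ^ (12 * k) ≤ 8 ^ (12 * k) * 3 ^ (6 * k) := by
      rw [pow_mul, pow_mul, pow_mul, ← mul_pow, ← mul_pow]
      exact pow_le_pow_left₀ (by norm_num) (by norm_num) k
    have h4 : (13 : ℤ) ^ (12 * k) * (2 ^ k * Wset.card) ≤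
        13 ^ (12 * k) * 2 ^ (12 * k * c + R') := by
      calc (13 : ℤ) ^ (12 * k) * (2 ^ k * Wset.card) = (2 ^ k * 13 ^ (12 * k)) * Wset.card := by
            ring
        _ ≤ (8 ^ (12 * k) * 3 ^ (6 * k)) * Wset.card :=
            mul_le_mul_of_nonneg_right h3 (by positivity)
        _ = 8 ^ (12 * k) * (3 ^ (6 * k) * Wset.card) := by ring
        _ ≤ _ := h2
    have h5 : (2 : ℤ) ^ k * Wset.card ≤ 2 ^ (12 * k * c + R') :=
      le_of_mul_le_mul_left h4 (by positivity)
    have h6 : 2 ^ k * Wset.card ≤ 2 ^ (12 * k * c + R') := by exact_mod_cast h5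
    have h7 : 2 ^ u.length * Wset.card ≤ 2 ^ k * Wset.card :=
      Nat.mul_le_mul_right _ (Nat.pow_le_pow_right (by norm_num) (by omega))
    exact h7.trans h6

end Pool.Agent.H49R2.PY
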