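import Pool.Agent.H49R2.PY.Stubs

/-!
# SZ: size bound for `polya`
-/

namespace Pool.Agent.H49R2.PY.SZaux

open Pool.Agent.NPC Pool.Agent.NPC.Cnt Finset

theorem numCycles_le {m : ℕ} (σ : Equiv.Perm (Fin m)) : numCycles σ ≤ 2 * m := by
  unfold numCycles
  have h1 : σ.cycleType.card ≤ m := by
    have h2 : σ.cycleType.card ≤ σ.cycleType.sum := by
      have h3 := Multiset.card_nsmul_le_sum (s := σ.cycleType) (a := 1) (fun x hx => by
        have := Equiv.Perm.two_le_of_mem_cycleType hx
        omega)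
      simpa using h3
    rw [Equiv.Perm.sum_cycleType] at h2
    refine h2.trans ?_
    have h4 := Finset.card_le_univ σ.support
    rwa [Fintype.card_fin] at h4
  have h2 : (Finset.univ.filter (fun i => σ i = i)).card ≤ m := by
    have h4 := Finset.card_le_univ (Finset.univ.filter (fun i => σ i = i))
    rwa [Fintype.card_fin] at h4
  omega

theorem polya_le (k : ℕ) (a : List Unit × List (List ℕ)) :
    polya k a ≤ 2 ^ (a.1.length ^ 2 + 2 * k * a.1.length) := by
  classical
  unfold polya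
  split_ifs with h
  · set m := a.1.length with hm
    have h1 : ∀ σ : Equiv.Perm (Fin m), k ^ numCycles σ ≤ 2 ^ (2 * k * m) := by
      intro σ
      have h2 : k ≤ 2 ^ k := Nat.lt_two_pow_self.le
      calc k ^ numCycles σ ≤ (2 ^ k) ^ numCycles σ := Nat.pow_le_pow_left h2 _
        _ ≤ (2 ^ k) ^ (2 * m) := Nat.pow_le_pow_right (by positivity) (numCycles_le σ)
        _ = 2 ^ (2 * k * m) := by rw [← pow_mul]; ring_nf
    calc ∑ σ ∈ Finset.univ.filter (fun σ : Equiv.Perm (Fin m) =>
          σ ∈ Subgroup.closure {τ | code τ ∈ a.2}), k ^ numCycles σ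
        ≤ ∑ σ ∈ Finset.univ.filter (fun σ : Equiv.Perm (Fin m) =>
          σ ∈ Subgroup.closure {τ | code τ ∈ a.2}), 2 ^ (2 * k * m) :=
          Finset.sum_le_sum fun σ _ => h1 σ
      _ = (Finset.univ.filter (fun σ : Equiv.Perm (Fin m) =>
          σ ∈ Subgroup.closure {τ | code τ ∈ a.2})).card * 2 ^ (2 * k * m) := by
          rw [Finset.sum_const, smul_eq_mul]
      _ ≤ 2 ^ m ^ 2 * 2 ^ (2 * k * m) := by
          apply Nat.mul_le_mul_right
          calc _ ≤ Fintype.card (Equiv.Perm (Fin m)) := Finset.card_le_univ _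
            _ = m.factorial := by rw [Fintype.card_perm, Fintype.card_fin]
            _ ≤ m ^ m := Nat.factorial_le_pow m
            _ ≤ (2 ^ m) ^ m := Nat.pow_le_pow_left Nat.lt_two_pow_self.le _
            _ = 2 ^ m ^ 2 := by rw [← pow_mul, sq]
      _ = 2 ^ (m ^ 2 + 2 * k * m) := by rw [pow_add]
  · positivity

end Pool.Agent.H49R2.PY.SZaux

namespace Pool.Agent.H49R2.PY

open Pool.Agent.NPC Pool.Agent.NPC.Cnt Finset SZaux

/-- SZ: size bound for `polya`. -/
theorem SZ_ok : S_SZ := by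
  intro k
  refine ⟨Polynomial.X ^ 2 + Polynomial.C (2 * k) * Polynomial.X, fun a => ?_⟩
  refine (polya_le k a).trans ?_
  apply Nat.pow_le_pow_right (by norm_num)
  have h1 : a.1.length ≤ sz a := by
    have h2 := length_lt_sz a.1
    have h3 : sz a = sz a.1 + sz a.2 + 1 := sz_pair a.1 a.2
    omega
  simp only [Polynomial.eval_add, Polynomial.eval_mul, Polynomial.eval_pow, Polynomial.eval_C,
    Polynomial.eval_X]
  have h4 : a.1.length ^ 2 ≤ sz a ^ 2 := Nat.pow_le_pow_left h1 2
  have h5 : 2 * k * a.1.length ≤ 2 * k * sz a := Nat.mul_le_mul_left _ h1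
  omega

end Pool.Agent.H49R2.PY
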