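import Pool.Agent.H49R2.PY.Stubs

/-!
# #PolyaOrbits: `instOf` is computable in polynomial time (task Y2)
-/

namespace Pool.Agent.H49R2.PY

open Pool.Agent.NPC Pool.Agent.NPC.Cnt

namespace Y2aux

variable {α : Type} [TEnc α]

theorem toNat_poly {b : α → Bool} (hb : Poly b) : Poly (fun a => (b a).toNat) :=
  (NPC.Poly.cond hb (NPC.Poly.const 1) (NPC.Poly.const 0)).congr fun a => by
    cases b a <;> rfl

theorem loc_poly {p q c : α → Bool} {b : α → ℕ} (hp : Poly p) (hq : Poly q) (hc : Poly c)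
    (hb : Poly b) : Poly (fun a => loc (p a) (q a) (c a) (b a)) := by
  have h1 : Poly (fun a => b a + 2 * (q a).toNat) :=
    NPC.Poly.add hb (NPC.Poly.mul (NPC.Poly.const 2) (toNat_poly hq))
  have h2 : Poly (fun a => b a + 2 * (!(q a)).toNat) :=
    NPC.Poly.add hb (NPC.Poly.mul (NPC.Poly.const 2) (toNat_poly (NPC.Poly.not hq)))
  have h3 : Poly (fun a => xor (c a) (p a)) := NPC.Poly.xor hc hp
  exact NPC.Poly.cons (NPC.Poly.add h1 (toNat_poly h3))
    (NPC.Poly.cons (NPC.Poly.add h1 (toNat_poly (NPC.Poly.not h3)))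
      (NPC.Poly.cons (NPC.Poly.add h2 (toNat_poly hc))
        (NPC.Poly.cons (NPC.Poly.add h2 (toNat_poly (NPC.Poly.not hc))) (NPC.Poly.const []))))

theorem genVar_poly {gs : α → List (List Bool × List Bool)} {j : α → ℕ} (hgs : Poly gs)
    (hj : Poly j) : Poly (fun a => genVar (gs a) (j a)) := by
  have e2 : Poly (fun p : α × ((List Bool × List Bool) × ℕ) => p.2) := NPC.Poly.snd NPC.Poly.id
  have e1 : Poly (fun p : α × ((List Bool × List Bool) × ℕ) => p.1) := NPC.Poly.fst NPC.Poly.id
  exact NPC.Poly.flatMap (l := fun a => (gs a).zipIdx)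
    (F := fun a t => loc (t.1.1.getD (j a) false) (t.1.2.getD (j a) false) false (4 * t.2))
    (NPC.Poly.zipIdx hgs)
    (loc_poly (NPC.Poly.getD (NPC.Poly.fst (NPC.Poly.fst e2)) (hj.comp e1) (NPC.Poly.const false))
      (NPC.Poly.getD (NPC.Poly.snd (NPC.Poly.fst e2)) (hj.comp e1) (NPC.Poly.const false))
      (NPC.Poly.const false) (NPC.Poly.mul (NPC.Poly.const 4) (NPC.Poly.snd e2)))

theorem genCen_poly {G i : α → ℕ} (hG : UPoly G) (hi : Poly i) :
    Poly (fun a => genCen (G a) (i a)) := by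
  have e2 : Poly (fun p : α × ℕ => p.2) := NPC.Poly.snd NPC.Poly.id
  have e1 : Poly (fun p : α × ℕ => p.1) := NPC.Poly.fst NPC.Poly.id
  exact NPC.Poly.flatMap (l := fun a => List.range (G a))
    (F := fun a t => loc false false (decide (t = i a)) (4 * t)) hG.range
    (loc_poly (NPC.Poly.const false) (NPC.Poly.const false)
      (NPC.Poly.decide_eq e2 (hi.comp e1)) (NPC.Poly.mul (NPC.Poly.const 4) e2))

end Y2aux

open Y2aux in
theorem Y2_ok : S_Y2 := by
  intro α _ N gs hN hgs
  have e2 : Poly (fun p : α × ℕ => p.2) := NPC.Poly.snd NPC.Poly.id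
  have e1 : Poly (fun p : α × ℕ => p.1) := NPC.Poly.fst NPC.Poly.id
  have hl : UPoly (fun a => (gs a).length) := UPoly.length hgs
  have h1 : Poly (fun a => List.replicate (4 * (gs a).length) ()) :=
    (UPoly.const 4).mul hl
  have h2 : Poly (fun a => (List.range (N a)).map (genVar (gs a))) :=
    NPC.Poly.map (l := fun a => List.range (N a)) (F := fun a j => genVar (gs a) j) hN.range
      (genVar_poly (hgs.comp e1) e2)
  have h3 : Poly (fun a => (List.range (gs a).length).map (genCen (gs a).length)) :=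
    NPC.Poly.map (l := fun a => List.range (gs a).length)
      (F := fun a j => genCen (gs a).length j) hl.range
      (genCen_poly (G := fun p : α × ℕ => (gs p.1).length) (hl.comp e1) e2)
  exact NPC.Poly.pair h1 (NPC.Poly.append h2 h3)

end Pool.Agent.H49R2.PY
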