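import Pool.Agent.H49R2.PY.Stubs
import Pool.Agent.NPC.Num

namespace Pool.Agent.H49R2.PY

open Pool.Agent.NPC Pool.Agent.NPC.Cnt Finset

namespace Y3aux

theorem drop_aux {β : Type} : ∀ (l : List β) (k j : ℕ),
    ((l.zipIdx j).filter (fun q => decide (j + k ≤ q.2))).map Prod.fst = l.drop k := by
  intro l
  induction l with
  | nil => intro k j; simp
  | cons a l ih =>
    intro k j
    rw [List.zipIdx_cons]
    cases k with
    | zero =>
      have h : ((a, j) :: l.zipIdx (j + 1)).filter (fun q => decide (j + 0 ≤ q.2)) =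
          (a, j) :: l.zipIdx (j + 1) := by
        rw [List.filter_eq_self]
        intro q hq
        rcases List.mem_cons.1 hq with h | h
        · rw [h]; simp
        · have := List.le_snd_of_mem_zipIdx h
          simp only [decide_eq_true_eq]
          omega
      rw [h, List.drop_zero, List.map_cons, List.zipIdx_map_fst]
    | succ k =>
      rw [List.filter_cons_of_neg (by simp), List.drop_succ_cons]
      have e : j + (k + 1) = j + 1 + k := by omega
      rw [e, ih k (j + 1)]

theorem take_aux {β : Type} : ∀ (l : List β) (k j : ℕ),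
    ((l.zipIdx j).filter (fun q => decide (q.2 < j + k))).map Prod.fst = l.take k := by
  intro l
  induction l with
  | nil => intro k j; simp
  | cons a l ih =>
    intro k j
    rw [List.zipIdx_cons]
    cases k with
    | zero =>
      have h : ((a, j) :: l.zipIdx (j + 1)).filter (fun q => decide (q.2 < j + 0)) = [] := by
        rw [List.filter_eq_nil_iff]
        intro q hq
        rcases List.mem_cons.1 hq with h | h
        · rw [h]; simp
        · have := List.le_snd_of_mem_zipIdx h
          simp only [decide_eq_true_eq]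
          omega
      rw [h]; simp
    | succ k =>
      rw [List.filter_cons_of_pos (by simp), List.map_cons, List.take_succ_cons]
      have e : j + (k + 1) = j + 1 + k := by omega
      rw [e, ih k (j + 1)]

variable {α β : Type} [TEnc α] [TEnc β]

theorem drop_poly {l : α → List β} {k : α → ℕ} (hl : Poly l) (hk : Poly k) :
    Poly (fun a => (l a).drop (k a)) := by
  have h : Poly (fun a => ((l a).zipIdx.filter (fun q => decide (k a ≤ q.2))).map Prod.fst) :=
    NPC.Poly.map (F := fun _ q => Prod.fst q)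
      (NPC.Poly.filter (p := fun a q => decide (k a ≤ q.2)) (NPC.Poly.zipIdx hl)
        (NPC.Poly.decide_le (hk.comp (NPC.Poly.fst NPC.Poly.id)) (NPC.Poly.snd (NPC.Poly.snd NPC.Poly.id))))
      (NPC.Poly.fst (NPC.Poly.snd NPC.Poly.id))
  refine h.congr fun a => ?_
  have := drop_aux (l a) (k a) 0
  simpa using this

theorem take_poly {l : α → List β} {k : α → ℕ} (hl : Poly l) (hk : Poly k) :
    Poly (fun a => (l a).take (k a)) := by
  have h : Poly (fun a => ((l a).zipIdx.filter (fun q => decide (q.2 < k a))).map Prod.fst) :=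
    NPC.Poly.map (F := fun _ q => Prod.fst q)
      (NPC.Poly.filter (p := fun a q => decide (q.2 < k a)) (NPC.Poly.zipIdx hl)
        (NPC.Poly.decide_lt (NPC.Poly.snd (NPC.Poly.snd NPC.Poly.id)) (hk.comp (NPC.Poly.fst NPC.Poly.id))))
      (NPC.Poly.fst (NPC.Poly.snd NPC.Poly.id))
  refine h.congr fun a => ?_
  have := take_aux (l a) (k a) 0
  simpa using this

theorem uMin {f n : α → ℕ} (hf : Poly f) (hn : UPoly n) : UPoly (fun a => min (f a) (n a)) :=
  UPoly.of_le (NPC.Poly.min hf hn.toPoly) hn (fun _ => min_le_right _ _)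

theorem repl_poly {off : α → ℕ} (h : UPoly off) : Poly (fun a => List.replicate (off a) false) :=
  (NPC.Poly.map (F := fun _ _ => false) h (NPC.Poly.const false)).congr fun a => by simp

theorem bvec_poly {M off c : α → ℕ} {r : α → List Bool} (hM : Poly M) (ho : UPoly off)
    (hr : Poly r) (hc : Poly c) : Poly (fun a => bvec (M a) (off a) (r a) (c a)) := by
  unfold bvec
  exact NPC.Poly.append (repl_poly ho) (take_poly (drop_poly hr (NPC.Poly.mul hc hM)) hM)

theorem adjOf_poly {A : α → List (List Bool)} {u v : α → ℕ} (hA : Poly A) (hu : Poly u)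
    (hv : Poly v) : Poly (fun a => adjOf (A a) (u a) (v a)) := by
  unfold adjOf
  exact NPC.Poly.getD (NPC.Poly.getD hA hu (NPC.Poly.const [])) hv (NPC.Poly.const false)

/-- the gadgets for `(u, v, i)` -/
def body (n M L : ℕ) (A : List (List Bool)) (r : List Bool) (u v i : ℕ) :
    List (List Bool × List Bool) :=
  if adjOf A u v = true then
    [(bvec M (u * M) r (2 * ((u * n + v) * L + i)),
      bvec M (v * M) r (2 * ((u * n + v) * L + i) + 1))]
  else
    [(bvec M (u * M) r (2 * ((u * n + v) * L + i)), []),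
      ([], bvec M (v * M) r (2 * ((u * n + v) * L + i) + 1))]

theorem body_poly {n M L u v i : α → ℕ} {A : α → List (List Bool)} {r : α → List Bool}
    (hn : Poly n) (hM : UPoly M) (hL : Poly L) (hA : Poly A) (hr : Poly r) (hu : UPoly u)
    (hv : UPoly v) (hi : Poly i) :
    Poly (fun a => body (n a) (M a) (L a) (A a) (r a) (u a) (v a) (i a)) := by
  have hc : Poly (fun a => 2 * ((u a * n a + v a) * L a + i a)) :=
    NPC.Poly.mul (NPC.Poly.const 2) (NPC.Poly.add (NPC.Poly.mul (NPC.Poly.add (NPC.Poly.mul hu.toPoly hn) hv.toPoly) hL) hi)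
  have hc1 : Poly (fun a => 2 * ((u a * n a + v a) * L a + i a) + 1) :=
    NPC.Poly.add hc (NPC.Poly.const 1)
  have h1 := bvec_poly hM.toPoly (UPoly.mul hu hM) hr hc
  have h2 := bvec_poly hM.toPoly (UPoly.mul hv hM) hr hc1
  unfold body
  refine NPC.Poly.ite ?_ ?_ ?_
  · exact NPC.Poly.decide_bool (adjOf_poly hA hu.toPoly hv.toPoly)
  · exact NPC.Poly.cons (NPC.Poly.pair h1 h2) (NPC.Poly.const [])
  · exact NPC.Poly.cons (NPC.Poly.pair h1 (NPC.Poly.const [])) (NPC.Poly.cons (NPC.Poly.pair (NPC.Poly.const []) h2)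
      (NPC.Poly.const []))

end Y3aux

open Y3aux in
theorem Y3_ok : S_Y3 := by
  intro α _ n M L A r hn hM hL hA hr
  have hnM : UPoly (fun a => n a * M a) := UPoly.mul hn hM
  -- first part
  have p1 : Poly (fun a => (List.range (n a * M a)).map
      (fun j => ((List.replicate (min j (n a * M a)) false ++ [true], []) :
        List Bool × List Bool))) := by
    refine NPC.Poly.map (F := fun a j => ((List.replicate (min j (n a * M a)) false ++ [true], []) :
        List Bool × List Bool)) hnM.range ?_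
    refine NPC.Poly.pair (NPC.Poly.append (repl_poly ?_) (NPC.Poly.const _)) (NPC.Poly.const _)
    exact uMin (NPC.Poly.snd NPC.Poly.id) (hnM.comp (NPC.Poly.fst NPC.Poly.id))
  -- second part
  have e1 : Poly (fun p : ((α × ℕ) × ℕ) × ℕ => p.1.1.1) := NPC.Poly.fst (NPC.Poly.fst (NPC.Poly.fst NPC.Poly.id))
  have e2 : Poly (fun p : ((α × ℕ) × ℕ) × ℕ => p.1.1.2) := NPC.Poly.snd (NPC.Poly.fst (NPC.Poly.fst NPC.Poly.id))
  have e3 : Poly (fun p : ((α × ℕ) × ℕ) × ℕ => p.1.2) := NPC.Poly.snd (NPC.Poly.fst NPC.Poly.id)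
  have e4 : Poly (fun p : ((α × ℕ) × ℕ) × ℕ => p.2) := NPC.Poly.snd NPC.Poly.id
  have h1 : Poly (fun p : ((α × ℕ) × ℕ) × ℕ => body (n p.1.1.1) (M p.1.1.1) (L p.1.1.1)
      (A p.1.1.1) (r p.1.1.1) (min p.1.1.2 (n p.1.1.1)) (min p.1.2 (n p.1.1.1)) p.2) :=
    body_poly (hn.comp e1).toPoly (hM.comp e1) (hL.comp e1).toPoly (hA.comp e1) (hr.comp e1)
      (uMin e2 (hn.comp e1)) (uMin e3 (hn.comp e1)) e4
  have h2 : Poly (fun p : (α × ℕ) × ℕ => (List.range (L p.1.1)).flatMap (fun i =>
      body (n p.1.1) (M p.1.1) (L p.1.1)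
      (A p.1.1) (r p.1.1) (min p.1.2 (n p.1.1)) (min p.2 (n p.1.1)) i)) :=
    NPC.Poly.flatMap (F := fun (p : (α × ℕ) × ℕ) i => body (n p.1.1) (M p.1.1) (L p.1.1)
      (A p.1.1) (r p.1.1) (min p.1.2 (n p.1.1)) (min p.2 (n p.1.1)) i)
      (hL.comp (NPC.Poly.fst (NPC.Poly.fst NPC.Poly.id))).range h1
  have h3 : Poly (fun p : α × ℕ => (List.range (n p.1)).flatMap (fun v =>
      (List.range (L p.1)).flatMap (fun i =>
      body (n p.1) (M p.1) (L p.1)
      (A p.1) (r p.1) (min p.2 (n p.1)) (min v (n p.1)) i))) :=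
    NPC.Poly.flatMap (F := fun (p : α × ℕ) v => (List.range (L p.1)).flatMap (fun i =>
      body (n p.1) (M p.1) (L p.1)
      (A p.1) (r p.1) (min p.2 (n p.1)) (min v (n p.1)) i))
      (hn.comp (NPC.Poly.fst NPC.Poly.id)).range h2
  have h4 : Poly (fun a : α => (List.range (n a)).flatMap (fun u =>
      (List.range (n a)).flatMap (fun v =>
      (List.range (L a)).flatMap (fun i =>
      body (n a) (M a) (L a)
      (A a) (r a) (min u (n a)) (min v (n a)) i)))) :=
    NPC.Poly.flatMap (F := fun (a : α) u => (List.range (n a)).flatMap (fun v =>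
      (List.range (L a)).flatMap (fun i =>
      body (n a) (M a) (L a)
      (A a) (r a) (min u (n a)) (min v (n a)) i)))
      hn.range h3
  refine (NPC.Poly.append p1 h4).congr fun a => ?_
  unfold gsOf
  congr 1
  · refine List.map_congr_left fun j hj => ?_
    rw [min_eq_left (List.mem_range.1 hj).le]
  · rw [List.flatMap_def, List.flatMap_def]
    congr 1
    refine List.map_congr_left fun u hu => ?_
    rw [List.flatMap_def, List.flatMap_def]
    congr 1
    refine List.map_congr_left fun v hv => ?_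
    rw [min_eq_left (List.mem_range.1 hu).le, min_eq_left (List.mem_range.1 hv).le]
    rfl

end Pool.Agent.H49R2.PY
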