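import Pool.Agent.H49R2.PY.Stubs

/-!
# Task Y4: the parameters `LL`, `MM` in unary, in polynomial time
-/

namespace Pool.Agent.H49R2.PY

open Pool.Agent.NPC Pool.Agent.NPC.Cnt Finset

namespace Y4aux

variable {α : Type} [TEnc α]

theorem uTT {n N : α → ℕ} (hn : UPoly n) (hN : UPoly N) : UPoly (fun a => TT (n a) (N a)) :=
  (((UPoly.const 3).mul hn).add ((UPoly.const 2).mul hN)).add (UPoly.const 20)

theorem uLL (k : ℕ) {n N : α → ℕ} (hn : UPoly n) (hN : UPoly N) :
    UPoly (fun a => LL k (n a) (N a)) :=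
  (UPoly.const (k * (k + 1) * (k ^ 2 + 3))).mul
    (((hn.mul ((uTT hn hN).add (UPoly.const 3))).add hN).add (UPoly.const 12))

end Y4aux

theorem Y4_ok (h5 : S_Y5) (h6 : S_Y6) : S_Y4 := by
  intro k α _ n N hn hN
  have hT := Y4aux.uTT hn hN
  have hL := Y4aux.uLL k hn hN
  refine ⟨hL, ?_⟩
  -- the bound of the range
  have hB : UPoly (fun a => k * (TT (n a) (N a) + 2 * n a * LL k (n a) (N a) + 1) + 1) :=
    ((UPoly.const k).mul ((hT.add (((UPoly.const 2).mul hn).mul hL)).add (UPoly.const 1))).add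
      (UPoly.const 1)
  set B : α → ℕ := fun a => k * (TT (n a) (N a) + 2 * n a * LL k (n a) (N a) + 1) + 1 with hBdef
  -- on pairs
  have f1 : NPC.Poly (fun q : α × ℕ => q.1) := Poly.fst NPC.Poly.id
  have f2 : NPC.Poly (fun q : α × ℕ => q.2) := Poly.snd NPC.Poly.id
  have hn' : UPoly (fun q : α × ℕ => n q.1) := UPoly.comp hn f1
  have hT' : UPoly (fun q : α × ℕ => TT (n q.1) (N q.1)) :=
    UPoly.comp (n := fun a => TT (n a) (N a)) (f := fun q : α × ℕ => q.1) hT f1
  have hL' : UPoly (fun q : α × ℕ => LL k (n q.1) (N q.1)) :=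
    UPoly.comp (n := fun a => LL k (n a) (N a)) (f := fun q : α × ℕ => q.1) hL f1
  have hB' : UPoly (fun q : α × ℕ => B q.1) := UPoly.comp hB f1
  have hM' : UPoly (fun q : α × ℕ => min q.2 (B q.1)) :=
    UPoly.of_le (NPC.Poly.min f2 hB'.toPoly) hB' fun q => min_le_right _ _
  obtain ⟨hnum, hden⟩ := h5 k (α × ℕ) _ _ _ hn' hL' hM'
  have hpow : NPC.Poly (fun q : α × ℕ => 2 ^ TT (n q.1) (N q.1)) :=
    h6 (α × ℕ) (fun _ => 2) _ (NPC.Poly.const 2) hT'
  have hdec : NPC.Poly (fun q : α × ℕ => decide (numL k (n q.1) (LL k (n q.1) (N q.1))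
      (min q.2 (B q.1)) < 2 ^ TT (n q.1) (N q.1) * denL k (n q.1) (LL k (n q.1) (N q.1))
        (min q.2 (B q.1)))) :=
    NPC.Poly.decide_lt hnum (NPC.Poly.mul hpow hden)
  have hlist : NPC.Poly (fun a => (List.range (B a)).filter (fun M =>
      decide (numL k (n a) (LL k (n a) (N a)) (min M (B a)) <
        2 ^ TT (n a) (N a) * denL k (n a) (LL k (n a) (N a)) (min M (B a))))) :=
    NPC.Poly.filter (p := fun a M => decide (numL k (n a) (LL k (n a) (N a)) (min M (B a)) <
        2 ^ TT (n a) (N a) * denL k (n a) (LL k (n a) (N a)) (min M (B a)))) hB.range hdec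
  have heq : (fun a => MM k (n a) (N a)) = fun a => ((List.range (B a)).filter (fun M =>
      decide (numL k (n a) (LL k (n a) (N a)) (min M (B a)) <
        2 ^ TT (n a) (N a) * denL k (n a) (LL k (n a) (N a)) (min M (B a))))).length := by
    funext a
    unfold MM
    congr 1
    refine List.filter_congr fun M hM => ?_
    rw [List.mem_range] at hM
    rw [min_eq_left (show M ≤ B a from hM.le)]
  rw [heq]
  exact UPoly.length hlist

end Pool.Agent.H49R2.PY
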