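import Pool.Agent.H49R2.PY.Stubs

/-!
# Task Y5: `numL` and `denL` are computable in polynomial time
-/

namespace Pool.Agent.H49R2.PY

open Pool.Agent.NPC Pool.Agent.NPC.Cnt Finset

theorem Y5_ok (h6 : S_Y6) : S_Y5 := by
  intro k α _ n L M hn hL hM
  have hnL : UPoly (fun a => n a * L a) := UPoly.mul hn hL
  have h2M : UPoly (fun a => 2 * M a) := UPoly.mul (UPoly.const 2) hM
  refine ⟨?_, ?_⟩
  · have h1 : NPC.Poly (fun a => (k + 1) ^ (2 * M a)) := h6 α _ _ (NPC.Poly.const (k + 1)) h2M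
    have h2 : NPC.Poly (fun a => (k ^ 2 + 1) ^ (M a)) := h6 α _ _ (NPC.Poly.const (k ^ 2 + 1)) hM
    have h3 : NPC.Poly (fun a => ((k + 1) ^ 2 * (k ^ 2 + 3)) ^ (n a * L a)) :=
      h6 α _ _ (NPC.Poly.const ((k + 1) ^ 2 * (k ^ 2 + 3))) hnL
    exact NPC.Poly.mul (NPC.Poly.sub h1 h2) h3
  · have h2 : NPC.Poly (fun a => (k ^ 2 + 1) ^ (M a)) := h6 α _ _ (NPC.Poly.const (k ^ 2 + 1)) hM
    have h3 : NPC.Poly (fun a => (4 * (k ^ 2 + 1) ^ 2) ^ (n a * L a)) :=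
      h6 α _ _ (NPC.Poly.const (4 * (k ^ 2 + 1) ^ 2)) hnL
    exact NPC.Poly.mul h2 h3

end Pool.Agent.H49R2.PY
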