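import Pool.Agent.H49R2.PY.Stubs

/-! Task Yasm (helper423): assembly of the polynomial-time part. -/

namespace Pool.Agent.H49R2.PY

open Pool.Agent.NPC Pool.Agent.NPC.Cnt Finset

namespace Yasmaux

variable {α : Type} [TEnc α]

/-- the parameters of the construction in polynomial time -/
theorem params (h1 : S_Y1) (h4 : S_Y4) (k : ℕ) {φ : α → CNF ℕ} {N : α → ℕ} (hφ : Poly φ)
    (hN : UPoly N) :
    UPoly (fun a => (vts (φ a)).length) ∧ UPoly (fun a => (groups (φ a)).length) ∧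
    UPoly (fun a => LL k (vts (φ a)).length (N a)) ∧
    UPoly (fun a => MM k (vts (φ a)).length (N a)) ∧ Poly (fun a => adjM (φ a)) := by
  obtain ⟨hg, hv, ha⟩ := h1
  have hn : UPoly (fun a => (vts (φ a)).length) := UPoly.length (hv.comp hφ)
  exact ⟨hn, UPoly.length (hg.comp hφ), (h4 k α _ _ hn hN).1, (h4 k α _ _ hn hN).2, ha.comp hφ⟩

theorem polyEE (h1 : S_Y1) (h4 : S_Y4) (h5 : S_Y5) (h6 : S_Y6) (k : ℕ) {φ : α → CNF ℕ}
    {N : α → ℕ} (hφ : Poly φ) (hN : UPoly N) : Poly (fun a => EE k (φ a) (N a)) := by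
  obtain ⟨hn, hgr, hL, hM, -⟩ := params h1 h4 k hφ hN
  exact h6 α _ _ (h5 k α _ _ _ hn hL hM).2 hgr

theorem polyXX (h1 : S_Y1) (h3 : S_Y3) (h4 : S_Y4) (h5 : S_Y5) (h6 : S_Y6) (k : ℕ)
    {φ : α → CNF ℕ} {N : α → ℕ} (hφ : Poly φ) (hN : UPoly N) :
    Poly (fun a => XX k (φ a) (N a)) := by
  obtain ⟨hn, hgr, hL, hM, hA⟩ := params h1 h4 k hφ hN
  have hgs := h3 α _ _ _ _ (fun _ => []) hn hM hL hA (NPC.Poly.const _)
  exact Poly.mul (h6 α (fun _ => k ^ 4 + k ^ 2) _ (NPC.Poly.const _) (UPoly.length hgs))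
    (h6 α _ _ (h5 k α _ _ _ hn hL hM).1 hgr)

end Yasmaux

open Yasmaux in
theorem Yasm_ok : S_Yasm := by
  intro h1 h2 h3 h4 h5 h6 k
  refine ⟨?_, ?_, ?_⟩
  · have hφ : Poly (fun s : CNF ℕ × List Unit × List Bool => s.1) := Poly.fst Poly.id
    have hN : UPoly (fun s : CNF ℕ × List Unit × List Bool => s.2.1.length) :=
      UPoly.length (Poly.fst (Poly.snd Poly.id))
    obtain ⟨hn, -, hL, hM, hA⟩ := params h1 h4 k hφ hN
    exact h2 _ _ _ (UPoly.mul hn hM) (h3 _ _ _ _ _ _ hn hM hL hA (Poly.snd (Poly.snd Poly.id)))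
  · have hφ : Poly (fun s : CNF ℕ × List Unit => s.1) := Poly.fst Poly.id
    have hN : UPoly (fun s : CNF ℕ × List Unit => s.2.length) := UPoly.length (Poly.snd Poly.id)
    obtain ⟨hn, -, hL, hM, -⟩ := params h1 h4 k hφ hN
    have := UPoly.mul (UPoly.mul (UPoly.mul (UPoly.const 2) (UPoly.mul hn hn)) hL) hM
    refine Poly.congr this (fun s => ?_)
    simp only [clF, pow_two]
  · have hφ : Poly (fun s : CNF ℕ × List Unit × ℕ × ℕ => s.1) := Poly.fst Poly.id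
    have hN : UPoly (fun s : CNF ℕ × List Unit × ℕ × ℕ => s.2.1.length) :=
      UPoly.length (Poly.fst (Poly.snd Poly.id))
    have hE := polyEE h1 h4 h5 h6 k hφ hN
    have hX := polyXX h1 h3 h4 h5 h6 k hφ hN
    have ha : Poly (fun s : CNF ℕ × List Unit × ℕ × ℕ => s.2.2.1) :=
      Poly.fst (Poly.snd (Poly.snd Poly.id))
    have hb : Poly (fun s : CNF ℕ × List Unit × ℕ × ℕ => s.2.2.2) :=
      Poly.snd (Poly.snd (Poly.snd Poly.id))
    exact Poly.div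
      (Poly.add (Poly.mul (Poly.mul (NPC.Poly.const 2) ha) hE) (Poly.mul hb hX))
      (Poly.mul (Poly.mul (NPC.Poly.const 2) hb) hX)

end Pool.Agent.H49R2.PY
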