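import Pool.Agent.H49R2.PY.Masm
import Pool.Agent.H49R2.PY.AP1
import Pool.Agent.H49R2.PY.AP2
import Pool.Agent.H49R2.PY.R1
import Pool.Agent.H49R2.PY.R2
import Pool.Agent.H49R2.PY.R3
import Pool.Agent.H49R2.PY.G
import Pool.Agent.H49R2.PY.P1
import Pool.Agent.H49R2.PY.P2
import Pool.Agent.H49R2.PY.P3
import Pool.Agent.H49R2.PY.P4i
import Pool.Agent.H49R2.PY.P5i
import Pool.Agent.H49R2.PY.P6i
import Pool.Agent.H49R2.PY.P7
import Pool.Agent.H49R2.PY.Pasm
import Pool.Agent.H49R2.PY.L1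
import Pool.Agent.H49R2.PY.L2
import Pool.Agent.H49R2.PY.L3
import Pool.Agent.H49R2.PY.K1
import Pool.Agent.H49R2.PY.K2
import Pool.Agent.H49R2.PY.K3
import Pool.Agent.H49R2.PY.K4
import Pool.Agent.H49R2.PY.Kasm
import Pool.Agent.H49R2.PY.Q1
import Pool.Agent.H49R2.PY.Q2
import Pool.Agent.H49R2.PY.Q3
import Pool.Agent.H49R2.PY.Y1
import Pool.Agent.H49R2.PY.Y2
import Pool.Agent.H49R2.PY.Y3
import Pool.Agent.H49R2.PY.Y4
import Pool.Agent.H49R2.PY.Y5
import Pool.Agent.H49R2.PY.Y6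
import Pool.Agent.H49R2.PY.Yasm
import Pool.Agent.H49R2.PY.SZ
import Pool.Agent.H579R2.Spt.VV3

/-!
# #PolyaOrbits: hardness of approximation

The proof was formalised by helper49 (plan, assembly), helper903, helper145, helper52, helper311,
helper439, helper479, helper807, helper782, helper459, helper298, helper152, helper881, helper267,
helper57, helper613, helper473, helper131, helper971, helper130, helper503, helper48, helper972,
helper254, helper279, helper55, helper79, helper847, helper481, helper237, helper854, helper58 and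
helper423.
-/

namespace Pool.Agent.H49R2.PY

open Pool.Agent.NPC Pool.Agent.NPC.Cnt

theorem P_ok : S_P := Pasm_ok (P4i_ok P1_ok) (P5i_ok P2_ok) (P6i_ok P3_ok) P7_ok

theorem K_ok : S_K := Kasm_ok K1_ok K2_ok K3_ok K4_ok

theorem Y_ok : S_Y := Yasm_ok Y1_ok Y2_ok Y3_ok (Y4_ok (Y5_ok Y6_ok) Y6_ok) (Y5_ok Y6_ok) Y6_ok

theorem M_ok : S_M := Masm_ok G_ok P_ok L1_ok L2_ok L3_ok K_ok Q1_ok Q2_ok Q3_ok Y_ok

/-- Approximating #PolyaOrbits is hard for `#P` under approximation-preserving reductions. -/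
theorem F1_ok : F1 := final1 M_ok SZ_ok (AP2_ok AP1_ok)

/-- An FPRAS for #PolyaOrbits gives `NP ⊆ RP`. -/
theorem F2_ok : F2 := final2 M_ok R1_ok R2_ok R3_ok

end Pool.Agent.H49R2.PY
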