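import Pool.Agent.H49R2.PY.Stubs

/-!
# Assembly of the main reduction
-/

namespace Pool.Agent.H49R2.PY

open Pool.Agent.NPC Pool.Agent.NPC.Cnt Finset

namespace Masmaux

theorem Zl_pos (k N : ℕ) (hk : 2 ≤ k) (gs : List (List Bool × List Bool)) : 0 < Zl k N gs := by
  have h0 : ∀ p q, 0 < wt k p q := by
    intro p q
    have : 0 < k := by omega
    cases p <;> cases q <;> simp only [wt] <;> positivity
  unfold Zl
  refine Finset.sum_pos (fun x _ => ?_) ⟨fun _ => false, Finset.mem_univ _⟩
  apply Nat.pos_of_ne_zero
  intro h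
  rw [List.prod_eq_zero_iff] at h
  rw [List.mem_map] at h
  obtain ⟨t, _, ht⟩ := h
  exact (h0 _ _).ne' ht

theorem numL_pos {k n L M : ℕ} (hQ2 : S_Q2) (hk : 2 ≤ k) (h : 0 < lam k n M L) :
    0 < numL k n L M := by
  obtain ⟨h1, h2⟩ := hQ2 k n L M hk
  rw [h2] at h
  have h3 : (0 : ℝ) < denL k n L M := by exact_mod_cast h1
  have h4 : (0 : ℝ) < numL k n L M := by
    by_contra hcon
    push Not at hcon
    have := div_nonpos_of_nonpos_of_nonneg hcon h3.le
    linarith
  exact_mod_cast h4

theorem key_arith {a b c K R2 : ℕ} (hK : 0 < K) (h1 : a * K = R2 * b) (h2 : 15 * K ≤ 16 * b)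
    (h3 : a ≤ c) : 15 * R2 ≤ 16 * c := by
  refine Nat.le_of_mul_le_mul_right ?_ hK
  calc 15 * R2 * K = R2 * (15 * K) := by ring
    _ ≤ R2 * (16 * b) := Nat.mul_le_mul_left _ h2
    _ = 16 * (R2 * b) := by ring
    _ = 16 * (a * K) := by rw [h1]
    _ = 16 * a * K := by ring
    _ ≤ 16 * c * K := Nat.mul_le_mul_right _ (Nat.mul_le_mul_left _ h3)

end Masmaux

open Masmaux in
theorem Masm_ok : S_Masm := by
  intro hG hP hL1 hL2 hL3 hK hQ1 hQ2 hQ3 hY k hk
  obtain ⟨hYi, hYc, hYp⟩ := hY k
  refine ⟨instF k, clF k, postF k, hYi, hYc, hYp, ?_⟩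
  intro φ u hu R hR
  obtain ⟨hG1, hG2⟩ := hG φ
  obtain ⟨hl1, hl2⟩ := hQ1 k (vts φ).length u.length hk
  have hPP := hP k (vts φ).length (MM k (vts φ).length u.length) u.length (groups φ).length
    (adjOf (adjM φ)) hk hu hG1 hl1 hl2
  have hR' : 2 * (vts φ).length ^ 2 * LL k (vts φ).length u.length *
      MM k (vts φ).length u.length ≤ R := hR
  have hcount := hL2 (vts φ).length (MM k (vts φ).length u.length)
    (LL k (vts φ).length u.length) R (fun F => 
    (1 - 1 / (64 * (u.length : ℝ))) * (((indF (vts φ).length (adjOf (adjM φ))).filter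
      (fun I => I.card = (groups φ).length)).card : ℝ) *
      lam k (vts φ).length (MM k (vts φ).length u.length) (LL k (vts φ).length u.length) ^
        (groups φ).length ≤ Zt k (adjOf (adjM φ)) F ∧
    Zt k (adjOf (adjM φ)) F ≤ (Real.exp (1 / (64 * (u.length : ℝ))) *
      (((indF (vts φ).length (adjOf (adjM φ))).filter
      (fun I => I.card = (groups φ).length)).card : ℝ) + 1 / (64 * u.length)) *
        lam k (vts φ).length (MM k (vts φ).length u.length) (LL k (vts φ).length u.length) ^
          (groups φ).length) hR'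
  have hsub : {r : List Bool | r.length = R ∧ 
      ((1 - 1 / (64 * (u.length : ℝ))) * (((indF (vts φ).length (adjOf (adjM φ))).filter
      (fun I => I.card = (groups φ).length)).card : ℝ) *
      lam k (vts φ).length (MM k (vts φ).length u.length) (LL k (vts φ).length u.length) ^
        (groups φ).length ≤ Zt k (adjOf (adjM φ)) (FL (vts φ).length
          (MM k (vts φ).length u.length) (LL k (vts φ).length u.length) r) ∧
    Zt k (adjOf (adjM φ)) (FL (vts φ).length
          (MM k (vts φ).length u.length) (LL k (vts φ).length u.length) r) ≤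
      (Real.exp (1 / (64 * (u.length : ℝ))) *
      (((indF (vts φ).length (adjOf (adjM φ))).filter
      (fun I => I.card = (groups φ).length)).card : ℝ) + 1 / (64 * u.length)) *
        lam k (vts φ).length (MM k (vts φ).length u.length) (LL k (vts φ).length u.length) ^
          (groups φ).length)} ⊆
    {r : List Bool | r.length = R ∧ ∀ a b : ℕ,
        Good (64 * u.length) ((a : ℝ) / b) (polya k (instF k (φ, u, r))) →
        Good u.length (postF k (φ, u, a, b)) (satCount φ)} := by
    rintro r ⟨hr, hr1, hr2⟩
    refine ⟨hr, fun a b hab => ?_⟩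
    obtain ⟨hlen, hrec⟩ := hL3 (vts φ).length (MM k (vts φ).length u.length)
      (LL k (vts φ).length u.length) (adjM φ) r
    have hKK := hK k ((vts φ).length * MM k (vts φ).length u.length) _ hrec
    have hLL := hL1 k (vts φ).length (MM k (vts φ).length u.length)
      (LL k (vts φ).length u.length) (adjM φ) r hk
    have hlampos : 0 < lam k (vts φ).length (MM k (vts φ).length u.length)
        (LL k (vts φ).length u.length) := lt_of_lt_of_le (by positivity) hl1
    obtain ⟨hden, hlam⟩ := hQ2 k (vts φ).length (LL k (vts φ).length u.length)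
      (MM k (vts φ).length u.length) hk
    have hk0 : (0 : ℝ) < (k : ℝ) := by
      have : 0 < k := by omega
      exact_mod_cast this
    have hX : 0 < XX k φ u.length := by
      unfold XX
      have h1 := numL_pos hQ2 hk hlampos
      have h2 : 0 < k ^ 4 + k ^ 2 := by
        have : 0 < k := by omega
        positivity
      positivity
    have hE : 0 < EE k φ u.length := by
      unfold EE
      positivity
    have hXE : ((XX k φ u.length : ℕ) : ℝ) / (EE k φ u.length : ℕ) =
        ((k : ℝ) ^ 4 + k ^ 2) ^ (gsOf (vts φ).length (MM k (vts φ).length u.length)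
          (LL k (vts φ).length u.length) (adjM φ) r).length *
        lam k (vts φ).length (MM k (vts φ).length u.length)
          (LL k (vts φ).length u.length) ^ (groups φ).length := by
      rw [hlam, hlen]
      unfold XX EE
      push_cast
      rw [div_pow, mul_div_assoc]
    have hZ : ((polya k (instF k (φ, u, r)) : ℕ) : ℝ) =
        ((k : ℝ) ^ 4 + k ^ 2) ^ (gsOf (vts φ).length (MM k (vts φ).length u.length)
          (LL k (vts φ).length u.length) (adjM φ) r).length *
        Zt k (adjOf (adjM φ)) (FL (vts φ).length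
          (MM k (vts φ).length u.length) (LL k (vts φ).length u.length) r) := by
      rw [← hLL, ← hKK]
      rfl
    have hZpos : (0 : ℝ) < (polya k (instF k (φ, u, r)) : ℕ) := by
      have h1 : polya k (instF k (φ, u, r)) = _ := hKK
      rw [h1]
      exact_mod_cast Zl_pos k _ hk _
    have hc0 : (0 : ℝ) ≤ ((k : ℝ) ^ 4 + k ^ 2) ^ (gsOf (vts φ).length
        (MM k (vts φ).length u.length) (LL k (vts φ).length u.length) (adjM φ) r).length := by
      positivity
    refine hQ3 u.length (satCount φ) a b (XX k φ u.length) (EE k φ u.length)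
      (polya k (instF k (φ, u, r))) hu hX hE hZpos ?_ ?_ hab
    · rw [hXE, hZ, ← hG2]
      have := mul_le_mul_of_nonneg_left hr1 hc0
      refine le_trans (le_of_eq ?_) this
      ring
    · rw [hXE, hZ, ← hG2]
      have := mul_le_mul_of_nonneg_left hr2 hc0
      refine le_trans this (le_of_eq ?_)
      ring
  have hfin : {r : List Bool | r.length = R ∧ ∀ a b : ℕ,
        Good (64 * u.length) ((a : ℝ) / b) (polya k (instF k (φ, u, r))) →
        Good u.length (postF k (φ, u, a, b)) (satCount φ)}.Finite := by
    refine (List.finite_length_eq Bool R).subset ?_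
    rintro r ⟨hr, _⟩
    exact hr
  have hle := Set.ncard_le_ncard hsub hfin
  have hpos : 0 < 2 ^ (2 * (vts φ).length ^ 2 * LL k (vts φ).length u.length *
      MM k (vts φ).length u.length) := by positivity
  exact key_arith hpos hcount hPP hle

end Pool.Agent.H49R2.PY
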